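import Pool.Agent.W_7d29a1_R34.DefsR34
import Pool.Agent.W_7d29a1_h46u.ConcV

/-!
R2: the mass of a half plane, by a Chernoff tilt and Chebyshev (helper13).
-/

namespace Pool.Agent.W_7d29a1_R34

open MeasureTheory ProbabilityTheory Filter Topology Pool.Agent.W_MP_7d29a1_pr
  Pool.Agent.W_7d29a1_h46 Pool.Agent.W_7d29a1_h46u Pool.Agent.W_7d29a1_D2.B35
  Pool.Agent.W_7d29a1_Q29

variable {d : ℕ} {ρ : Measure ℝ} [IsProbabilityMeasure ρ]

/-- The centred free energy is square integrable. -/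
lemma integrable_cen13 (hd : 0 < d) (hρ : EM ρ) (β : ℝ) (h : Vec d) (L : ℕ) :
    Integrable (fun η => (X β h η L - A ρ β h L) ^ 2) (law d ρ) := by
  rcases Nat.eq_zero_or_pos L with rfl | hL
  · have h1 : ∀ η : Env d, X β h η 0 = 0 := by
      intro η
      unfold X
      rw [Z_zero, Real.log_one]
    simp only [h1]
    exact integrable_const _
  · obtain ⟨C, _, hC⟩ := momU (ρ := ρ) hd hρ β 2
    refine (hC h L hL).1.congr (Eventually.of_forall fun η => ?_)
    show |X β h η L - A ρ β h L| ^ 2 = (X β h η L - A ρ β h L) ^ 2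
    exact sq_abs _

/-- Chebyshev for the free energy. -/
lemma cheb13 (hd : 0 < d) (hρ : EM ρ) (β : ℝ) (h : Vec d) (L : ℕ) {s : ℝ} (hs : 0 < s) :
    (law d ρ).real {η | s ≤ |X β h η L - A ρ β h L|} ≤ Va ρ β h L / s ^ 2 := by
  have h1 := mul_meas_ge_le_integral_of_nonneg (μ := law d ρ)
    (f := fun η => (X β h η L - A ρ β h L) ^ 2) (Eventually.of_forall fun η => sq_nonneg _)
    (integrable_cen13 hd hρ β h L) (s ^ 2)
  have h2 : {η : Env d | s ^ 2 ≤ (X β h η L - A ρ β h L) ^ 2}
      = {η | s ≤ |X β h η L - A ρ β h L|} := by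
    ext η
    show s ^ 2 ≤ (X β h η L - A ρ β h L) ^ 2 ↔ s ≤ |X β h η L - A ρ β h L|
    rw [← sq_abs (X β h η L - A ρ β h L)]
    exact pow_le_pow_iff_left₀ hs.le (abs_nonneg _) (by norm_num)
  rw [h2] at h1
  rw [le_div_iff₀ (by positivity), mul_comm]
  exact h1

open Classical in
/-- The mass of a half plane is at most an exponential times the partition function at the
shifted tilt. -/
lemma half13 (β : ℝ) (h z v : Vec d) (η : Env d) (t : ℕ) (a : ℝ) :
    ∑ y ∈ (boxF d t).filter (fun y => a ≤ inner ℝ z (emb y - v)), PP β h η t y ≤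
      Real.exp (-(a + inner ℝ z v)) * Z β (h + z) η t := by
  rw [Z_eq_sum, Finset.mul_sum, Finset.sum_filter]
  refine Finset.sum_le_sum fun y _ => ?_
  split_ifs with hy
  · rw [PP_tilt, ← mul_assoc, ← Real.exp_add]
    refine le_mul_of_one_le_left (PP_nonneg _ _ _ _ _) (Real.one_le_exp ?_)
    rw [inner_sub_right] at hy
    linarith
  · exact mul_nonneg (Real.exp_pos _).le (PP_nonneg _ _ _ _ _)

/-- **R2.** -/
theorem tail13 (hd : 0 < d) (hρ : EM ρ) (β : ℝ) : TailR d ρ β := by
  classical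
  intro K r h z v t hr hK hsub hsd
  have h1 := hsub (h - z)
  have h2 : h - z - h = -z := by abel
  rw [h2, inner_neg_right] at h1
  have hvz : inner ℝ v z = (inner ℝ z v : ℝ) := real_inner_comm z v
  have hA : A ρ β (h + z) t ≤ r / 2 + A ρ β h t + inner ℝ z v := by
    rw [← hvz]
    linarith
  have hinc : {η : Env d | Real.exp (A ρ β h t - r) <
      ∑ y ∈ (boxF d t).filter (fun y => 2 * r ≤ inner ℝ z (emb y - v)), PP β h η t y} ⊆
      {η | r / 2 ≤ |X β (h + z) η t - A ρ β (h + z) t|} := by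
    intro η hη
    have h3 : Real.exp (A ρ β h t - r) <
      ∑ y ∈ (boxF d t).filter (fun y => 2 * r ≤ inner ℝ z (emb y - v)), PP β h η t y := hη
    have h4 := h3.trans_le (half13 β h z v η t (2 * r))
    rw [TubV_exp hd β (h + z) η t, ← Real.exp_add, Real.exp_lt_exp] at h4
    show r / 2 ≤ |X β (h + z) η t - A ρ β (h + z) t|
    refine le_trans ?_ (le_abs_self _)
    linarith
  calc (law d ρ).real {η : Env d | Real.exp (A ρ β h t - r) <
      ∑ y ∈ (boxF d t).filter (fun y => 2 * r ≤ inner ℝ z (emb y - v)), PP β h η t y}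
      ≤ (law d ρ).real {η | r / 2 ≤ |X β (h + z) η t - A ρ β (h + z) t|} :=
        measureReal_mono hinc (measure_ne_top _ _)
    _ ≤ Va ρ β (h + z) t / (r / 2) ^ 2 := cheb13 hd hρ β (h + z) t (by positivity)
    _ ≤ K / (r / 2) ^ 2 := div_le_div_of_nonneg_right hK (by positivity)
    _ = 4 * K / r ^ 2 := by
        field_simp
        ring

end Pool.Agent.W_7d29a1_R34
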