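import Pool.Agent.W_7d29a1_Q29.Defs29

/-!
Divergence of the fluctuations in two transversal dimensions: definitions and frozen statements of
the leaves.
-/

namespace Pool.Agent.W_7d29a1_R34

open MeasureTheory ProbabilityTheory Filter Topology Pool.Agent.W_MP_7d29a1_pr
  Pool.Agent.W_7d29a1_h46 Pool.Agent.W_7d29a1_h46u Pool.Agent.W_7d29a1_D2.B35
  Pool.Agent.W_7d29a1_Q29

/-- The expected squared `l²` norm of the law of `S_t` given the future. -/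
noncomputable def St {d : ℕ} (ρ : Measure ℝ) (β : ℝ) (h : Vec d) (n t : ℕ) : ℝ :=
  ∫ η, ∑ y ∈ boxF d n, (cE ρ (Pa d t)ᶜ (Qt β h n t y) η) ^ 2 ∂(law d ρ)

/-- The tilts: `ρ_k = 8 ^ (k + 1) K ^ (1/4) t ^ (-1/2)`. -/
noncomputable def rk (K : ℝ) (t k : ℕ) : ℝ := 8 ^ (k + 1) * Real.sqrt (Real.sqrt K) / Real.sqrt t

variable (d : ℕ) (ρ : Measure ℝ) (β : ℝ)

/-- R1: the expected mass of a set of positions at the time `t`. -/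
def BoxR : Prop := ∀ (K r q : ℝ) (h : Vec d) (n t : ℕ) (R : Finset (Site d)), R ⊆ boxF d t →
  t ≤ n → 0 < r → Va ρ β h n ≤ K → Va ρ β h (n - t) ≤ K →
  (law d ρ).real {η | Real.exp (A ρ β h t - r) < ∑ y ∈ R, PP β h η t y} ≤ q →
  ∫ η, ∑ y ∈ R, Qt β h n t y η ∂(law d ρ) ≤
    q + 16 * K / r ^ 2 + Real.exp (-(r / 4)) + 2 / r * Real.sqrt (K * R.card * St ρ β h n t)

open Classical in
/-- R2: the mass of a half plane, `v` is a subgradient of the mean free energy. -/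
def TailR : Prop := ∀ (K r : ℝ) (h z v : Vec d) (t : ℕ), 0 < r → Va ρ β (h + z) t ≤ K →
  (∀ g : Vec d, A ρ β h t + inner ℝ v (g - h) ≤ A ρ β g t) →
  A ρ β (h + z) t + A ρ β (h - z) t - 2 * A ρ β h t ≤ r / 2 →
  (law d ρ).real {η | Real.exp (A ρ β h t - r) <
    ∑ y ∈ (boxF d t).filter (fun y => 2 * r ≤ inner ℝ z (emb y - v)), PP β h η t y} ≤
    4 * K / r ^ 2

/-- R3 (`d = 2`): at a good tilt the Newman-Piza sum at the time `t` is at least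
`c / (t sqrt K)`. -/
def LowR : Prop := ∀ (M K δ : ℝ) (h : Vec 2) (n t : ℕ), 1 ≤ M → 1 ≤ K → 0 < δ → δ ≤ 1 → 1 ≤ t →
  t ≤ n → (64 * M) ^ 2 * Real.sqrt K ≤ δ ^ 8 * t → Va ρ β h n ≤ K → Va ρ β h (n - t) ≤ K →
  (∀ r : ℝ, 0 < r → r ≤ δ → ∀ (j : Fin 2) (s : ℝ), (s = 1 ∨ s = -1) →
    ∃ g : Vec 2, ‖g - h - (s * r) • ej j‖ ≤ r / 9 ∧ Va ρ β g t ≤ K) →
  (∀ k : ℕ, rk K t k ≤ δ → ∀ j : Fin 2, A ρ β (h + (2 * rk K t k) • ej j) t +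
    A ρ β (h - (2 * rk K t k) • ej j) t - 2 * A ρ β h t ≤ M * 2 ^ k * t * rk K t k ^ 2) →
  1 / (10 ^ 6 * M ^ 2) ≤ Real.sqrt K * t * St ρ β h n t

/-- The tilts for a window of radius `W sqrt t`. -/
noncomputable def rw' (M W : ℝ) (t k : ℕ) : ℝ := 8 ^ k * W / (8 * M * Real.sqrt t)

open Classical in
/-- R3 with a free window `W` (`d = 2`): the expected mass outside the window of radius
`W sqrt t` around a subgradient `v`. `LowR` is the case `W = 64 M K ^ (1/4)`. -/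
def LeakR : Prop := ∀ (M K δ W : ℝ) (h v : Vec 2) (n t : ℕ), 1 ≤ M → 1 ≤ K → 0 < δ → δ ≤ 1 →
  1 ≤ t → t ≤ n → 0 < W → W ≤ δ ^ 4 * Real.sqrt t → Va ρ β h n ≤ K → Va ρ β h (n - t) ≤ K →
  (∀ g : Vec 2, A ρ β h t + inner ℝ v (g - h) ≤ A ρ β g t) →
  (∀ r : ℝ, 0 < r → r ≤ δ → ∀ (j : Fin 2) (s : ℝ), (s = 1 ∨ s = -1) →
    ∃ g : Vec 2, ‖g - h - (s * r) • ej j‖ ≤ r / 9 ∧ Va ρ β g t ≤ K) →
  (∀ k : ℕ, rw' M W t k ≤ δ → ∀ j : Fin 2, A ρ β (h + (2 * rw' M W t k) • ej j) t +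
    A ρ β (h - (2 * rw' M W t k) • ej j) t - 2 * A ρ β h t ≤ M * 2 ^ k * t * rw' M W t k ^ 2) →
  ∫ η, (1 - ∑ y ∈ (boxF 2 t).filter (fun y => ∀ j, |(emb y - v) j| < W * Real.sqrt t),
    Qt β h n t y η) ∂(law 2 ρ) ≤
    22 * 10 ^ 4 * M ^ 2 * K / W ^ 4 + 15000 * M * Real.sqrt (K * t * St ρ β h n t) / W

/-- R6 (`d = 2`): the uniform lower bound over a set of positive measure. -/
def UniR : Prop := ∀ B : Set (Vec 2), Bornology.IsBounded B → MeasurableSet B → volume B ≠ 0 →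
  ∃ c : ℝ, 0 < c ∧ ∃ n₀ : ℕ, ∀ n : ℕ, n₀ ≤ n → ∀ K : ℝ,
    (∀ h ∈ B, ∀ m : ℕ, m ≤ n → Va ρ β h m ≤ K) → c * Real.log n ^ (2 / 3 : ℝ) ≤ K

/-- R7 (`d = 2`): almost every tilt. -/
def AeR : Prop := ∀ᵐ h : Vec 2, ∃ c : ℝ, 0 < c ∧ ∃ᶠ n : ℕ in atTop,
  c * Real.log n ^ (2 / 3 : ℝ) ≤ Va ρ β h n

end Pool.Agent.W_7d29a1_R34
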