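import Pool.Agent.W_7d29a1_R34.BoxP93
import Pool.Agent.W_7d29a1_Q29.Brid72
import Pool.Agent.W_7d29a1_Q29.Pt94

/-!
The lower bound of the Newman-Piza term when the gap is large (helper93): `S_t ≥ c G / (K t)`.
-/

namespace Pool.Agent.W_7d29a1_R34

open MeasureTheory ProbabilityTheory Filter Topology Pool.Agent.W_MP_7d29a1_pr
  Pool.Agent.W_7d29a1_h46 Pool.Agent.W_7d29a1_h46u Pool.Agent.W_7d29a1_D2.B35
  Pool.Agent.W_7d29a1_Q29

variable {ρ : Measure ℝ}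

open Classical in
/-- The window of `LeakR` is contained in a box. -/
lemma win_sub93 {d : ℕ} (v : Vec d) (t : ℕ) (r : ℝ) :
    (boxF d t).filter (fun y => ∀ j, |(emb y - v) j| < r) ⊆ ballW v r := by
  intro y hy
  have h1 := (Finset.mem_filter.1 hy).2
  unfold ballW
  rw [Fintype.mem_piFinset]
  intro i
  have h2 := (abs_lt.1 (h1 i))
  have h3 : (emb y - v) i = (y i : ℝ) - v i := by
    rw [PiLp.sub_apply]
    rfl
  rw [h3] at h2
  rw [Finset.mem_Icc]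
  exact ⟨Int.ceil_le.2 (by linarith [h2.1]), Int.le_floor.2 (by linarith [h2.2])⟩

/-- The numbers. -/
lemma num93 {M K G Y s : ℝ} (hM : 1 ≤ M) (hG : 3 ≤ G)
    (hKG : K ≤ G ^ 2 / (2 * 10 ^ 6 * M ^ 2)) (hs : s ^ 2 = G) (hs0 : 0 < s) (hY : 0 ≤ Y)
    (h : 1 ≤ (22 * 10 ^ 4 * M ^ 2 * K / s ^ 4 + 15000 * M * Y / s) +
      (Real.exp (-G) + K / G ^ 2 + 1 / G * (3 * s * Y))) :
    G / (10 ^ 9 * M ^ 2) ≤ Y ^ 2 := by
  have hG0 : 0 < G := by linarith
  have hM0 : 0 < M := by linarith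
  have h1 : s ^ 4 = G ^ 2 := by
    rw [← hs]
    ring
  rw [h1] at h
  have h2 : K * (2 * 10 ^ 6 * M ^ 2) ≤ G ^ 2 := by
    rwa [le_div_iff₀ (by positivity)] at hKG
  have h3 : 22 * 10 ^ 4 * M ^ 2 * K / G ^ 2 ≤ 11 / 100 := by
    rw [div_le_iff₀ (by positivity)]
    nlinarith
  have h4 : K / G ^ 2 ≤ 1 / 100 := by
    rw [div_le_iff₀ (by positivity)]
    have hM2 : 1 ≤ M ^ 2 := one_le_pow₀ hM
    rcases le_or_gt K 0 with hK | hK
    · have : 0 ≤ 1 / 100 * G ^ 2 := by positivity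
      linarith
    · nlinarith [mul_le_mul_of_nonneg_left hM2 hK.le]
  have h5 : Real.exp (-G) ≤ 1 / 4 := by
    have h6 := Real.add_one_le_exp G
    rw [Real.exp_neg, inv_le_comm₀ (Real.exp_pos _) (by norm_num)]
    linarith
  have h7 : 1 / G * (3 * s * Y) = 3 * Y / s := by
    rw [← hs]
    field_simp
  rw [h7] at h
  have h8 : 1 / 2 ≤ (15000 * M * Y + 3 * Y) / s := by
    rw [add_div]
    linarith
  rw [le_div_iff₀ hs0] at h8
  have h9 : 1 / 2 * s ≤ 15003 * M * Y := by nlinarith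
  rw [div_le_iff₀ (by positivity), ← hs]
  have h10 : (1 / 2 * s) ^ 2 ≤ (15003 * M * Y) ^ 2 := pow_le_pow_left₀ (by positivity) h9 2
  nlinarith [sq_nonneg (M * Y)]

/-- **Very strong disorder, one time.** If the gap at the time `t` is at least `4 G` and the
variances are at most `c G²` then `S_t ≥ c G / (K t)`. -/
theorem lowG93 [IsProbabilityMeasure ρ] (hρ : EM ρ) {β : ℝ} (hL : LeakR ρ β)
    {M K δ G : ℝ} {h : Vec 2} {n t : ℕ} (hM : 1 ≤ M) (hK : 1 ≤ K) (hδ : 0 < δ) (hδ1 : δ ≤ 1)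
    (ht : 1 ≤ t) (htn : t ≤ n) (hG : 3 ≤ G) (hW : Real.sqrt G ≤ δ ^ 4 * Real.sqrt t)
    (hKG : K ≤ G ^ 2 / (2 * 10 ^ 6 * M ^ 2))
    (hn : Va ρ β h n ≤ K) (hnt : Va ρ β h (n - t) ≤ K) (hVt : Va ρ β h t ≤ K)
    (hdens : ∀ r : ℝ, 0 < r → r ≤ δ → ∀ (j : Fin 2) (s : ℝ), (s = 1 ∨ s = -1) →
      ∃ g : Vec 2, ‖g - h - (s * r) • ej j‖ ≤ r / 9 ∧ Va ρ β g t ≤ K)
    (hsd : ∀ k : ℕ, rw' M (Real.sqrt G) t k ≤ δ → ∀ j : Fin 2,
      A ρ β (h + (2 * rw' M (Real.sqrt G) t k) • ej j) t +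
        A ρ β (h - (2 * rw' M (Real.sqrt G) t k) • ej j) t - 2 * A ρ β h t ≤
        M * 2 ^ k * t * rw' M (Real.sqrt G) t k ^ 2)
    (hgap : 4 * G ≤ A ρ β h n - A ρ β h t - A ρ β h (n - t)) :
    G / (10 ^ 9 * M ^ 2) ≤ K * t * St ρ β h n t := by
  classical
  have hG0 : 0 < G := by linarith
  obtain ⟨s, hs⟩ : ∃ s, s = Real.sqrt G := ⟨_, rfl⟩
  have hs0 : 0 < s := by
    rw [hs]
    exact Real.sqrt_pos.2 hG0
  have hs2 : s ^ 2 = G := by
    rw [hs]
    exact Real.sq_sqrt hG0.le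
  rw [← hs] at hW hsd
  have ht1 : (1 : ℝ) ≤ t := by exact_mod_cast ht
  have hst1 : 1 ≤ Real.sqrt t := by
    rw [Real.one_le_sqrt]
    exact ht1
  have hst2 : Real.sqrt t ^ 2 = t := Real.sq_sqrt (by linarith)
  obtain ⟨v, -, hv⟩ := sub94 (d := 2) (by norm_num) hρ β h t
  have hv' : ∀ g : Vec 2, A ρ β h t + inner ℝ v (g - h) ≤ A ρ β g t := by
    intro g
    have := hv (g - h)
    rwa [add_sub_cancel] at this
  have h1 := hL M K δ s h v n t hM hK hδ hδ1 ht htn hs0 hW hn hnt hv' hdens hsd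
  obtain ⟨W, hWdef⟩ : ∃ W, W = (boxF 2 t).filter
      (fun y => ∀ j, |(emb y - v) j| < s * Real.sqrt t) := ⟨_, rfl⟩
  rw [← hWdef] at h1
  have hWB : W ⊆ boxF 2 t := by
    rw [hWdef]
    exact Finset.filter_subset _ _
  have hS0 : 0 ≤ St ρ β h n t := by
    unfold St
    exact integral_nonneg fun η => Finset.sum_nonneg fun y _ => sq_nonneg _
  have hst : 1 ≤ s * Real.sqrt t := by
    have h2 : 1 ≤ s := by nlinarith
    nlinarith
  have hcard : (W.card : ℝ) ≤ 9 * (G * t) := by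
    have h2 : (W.card : ℝ) ≤ ((ballW v (s * Real.sqrt t)).card : ℝ) := by
      rw [hWdef]
      exact_mod_cast Finset.card_le_card (win_sub93 v t _)
    have h3 := card_ballW (d := 2) v (w := s * Real.sqrt t) (by linarith)
    have h4 : (2 * (s * Real.sqrt t) + 1) ^ 2 ≤ (3 * (s * Real.sqrt t)) ^ 2 :=
      pow_le_pow_left₀ (by positivity) (by linarith) 2
    have h5 : (3 * (s * Real.sqrt t)) ^ 2 = 9 * (G * t) := by
      rw [mul_pow, mul_pow, hs2, hst2]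
      ring
    linarith
  have h2 := boxP93 (d := 2) (by norm_num) hρ β h htn hWB hG0 hgap hn hVt hnt
  obtain ⟨Y, hY⟩ : ∃ Y, Y = Real.sqrt (K * t * St ρ β h n t) := ⟨_, rfl⟩
  have hY0 : 0 ≤ Y := by
    rw [hY]
    exact Real.sqrt_nonneg _
  have hKtS : 0 ≤ K * t * St ρ β h n t := by positivity
  have hY2 : Y ^ 2 = K * t * St ρ β h n t := by
    rw [hY]
    exact Real.sq_sqrt hKtS
  have h3 : Real.sqrt (K * W.card * St ρ β h n t) ≤ 3 * s * Y := by
    rw [Real.sqrt_le_left (by positivity)]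
    have h4 : (3 * s * Y) ^ 2 = K * (9 * (G * t)) * St ρ β h n t := by
      rw [mul_pow, mul_pow, hs2, hY2]
      ring
    rw [h4]
    refine mul_le_mul_of_nonneg_right ?_ hS0
    exact mul_le_mul_of_nonneg_left hcard (by linarith)
  have h4 : 1 / G * Real.sqrt (K * W.card * St ρ β h n t) ≤ 1 / G * (3 * s * Y) :=
    mul_le_mul_of_nonneg_left h3 (by positivity)
  rw [← hY] at h1
  -- total mass
  have hQi : ∀ y ∈ W, Integrable (fun η => Qt β h n t y η) (law 2 ρ) := fun y _ =>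
    Integrable.mono' (integrable_const (1 : ℝ)) (S98.measurable_Qt β h n t y).aestronglyMeasurable
      (Eventually.of_forall fun η => by
        rw [Real.norm_eq_abs]
        exact S98.Qt_abs (by norm_num) β h htn y η)
  have hsumi : Integrable (fun η => ∑ y ∈ W, Qt β h n t y η) (law 2 ρ) :=
    integrable_finsetSum W hQi
  have h5 : ∫ η, (1 - ∑ y ∈ W, Qt β h n t y η) ∂(law 2 ρ) =
      1 - ∫ η, ∑ y ∈ W, Qt β h n t y η ∂(law 2 ρ) := by
    rw [integral_sub (integrable_const _) hsumi]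
    simp
  rw [h5] at h1
  have h6 := num93 (Y := Y) hM hG hKG hs2 hs0 hY0 (by linarith)
  rw [hY2] at h6
  exact h6

end Pool.Agent.W_7d29a1_R34
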