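import Pool.Agent.W_7d29a1_R34.DefsR34
import Pool.Agent.W_7d29a1_Q29.Qt98
import Pool.Agent.W_7d29a1_Q29.Ce39
import Pool.Agent.W_7d29a1_V.Typ34

/-!
R1: the expected mass of a set of positions at an intermediate time.
-/

namespace Pool.Agent.W_7d29a1_R34

open MeasureTheory ProbabilityTheory Filter Topology Pool.Agent.W_MP_7d29a1_pr
  Pool.Agent.W_7d29a1_h46 Pool.Agent.W_7d29a1_h46u Pool.Agent.W_7d29a1_D2.B35
  Pool.Agent.W_7d29a1_Q29

variable {d : ℕ} {ρ : Measure ℝ} [IsProbabilityMeasure ρ]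

/-- The centred free energy is square integrable. -/
lemma sqI (hd : 0 < d) (hρ : EM ρ) (β : ℝ) (h : Vec d) (n : ℕ) :
    Integrable (fun η : Env d => (X β h η n - A ρ β h n) ^ 2) (law d ρ) := by
  obtain ⟨C, hC0, hC⟩ := momU hd hρ β 2 (ρ := ρ)
  rcases Nat.eq_zero_or_pos n with rfl | hn
  · have h0 : ∀ η : Env d, X β h η 0 = 0 := by
      intro η
      unfold X
      rw [Z_zero, Real.log_one]
    simp only [h0]
    exact integrable_const _
  · simpa [sq_abs] using (hC h n hn).1

/-- Chebyshev. -/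
lemma cheb (hd : 0 < d) (hρ : EM ρ) (β : ℝ) (h : Vec d) (n : ℕ) {r : ℝ} (hr : 0 < r) {S : Set (Env d)}
    (hS : ∀ η ∈ S, r ≤ |X β h η n - A ρ β h n|) :
    (law d ρ).real S ≤ Va ρ β h n / r ^ 2 := by
  have h1 := mul_meas_ge_le_integral_of_nonneg (μ := law d ρ)
    (f := fun η : Env d => (X β h η n - A ρ β h n) ^ 2)
    (Filter.Eventually.of_forall fun η => sq_nonneg _) (sqI hd hρ β h n) (r ^ 2)
  have h2 : (law d ρ).real S ≤
      (law d ρ).real {η | r ^ 2 ≤ (X β h η n - A ρ β h n) ^ 2} := by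
    refine measureReal_mono ?_
    intro η hη
    change r ^ 2 ≤ (X β h η n - A ρ β h n) ^ 2
    rw [← sq_abs (X β h η n - A ρ β h n)]
    exact pow_le_pow_left₀ hr.le (hS η hη) 2
  rw [le_div_iff₀ (by positivity)]
  calc (law d ρ).real S * r ^ 2
      ≤ (law d ρ).real {η | r ^ 2 ≤ (X β h η n - A ρ β h n) ^ 2} * r ^ 2 :=
        mul_le_mul_of_nonneg_right h2 (by positivity)
    _ = r ^ 2 * (law d ρ).real {η | r ^ 2 ≤ (X β h η n - A ρ β h n) ^ 2} := mul_comm _ _
    _ ≤ _ := h1

/-- The centred free energy of the future of `(t, y)`. -/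
noncomputable def Vb (ρ : Measure ℝ) (β : ℝ) (h : Vec d) (t m : ℕ) (y : Site d) (η : Env d) : ℝ :=
  X β h (sh t y η) m - A ρ β h m

omit [IsProbabilityMeasure ρ] in
lemma measurable_Vb (β : ℝ) (h : Vec d) (t m : ℕ) (y : Site d) :
    Measurable (Vb ρ β h t m y) :=
  ((measurable_X β h m).comp (measurable_sh t y)).sub_const _

omit [IsProbabilityMeasure ρ] in
lemma Vb_dep (β : ℝ) (h : Vec d) (t m : ℕ) (y : Site d) :
    DependsOn (Vb ρ β h t m y) (Pa d t)ᶜ := by
  intro η η' hη
  have h1 := S98.Zsh_dep β h t m y hη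
  simp only at h1
  unfold Vb X
  rw [h1]

lemma Vb_sqI (hd : 0 < d) (hρ : EM ρ) (β : ℝ) (h : Vec d) (t m : ℕ) (y : Site d) :
    Integrable (fun η => (Vb ρ β h t m y η) ^ 2) (law d ρ) :=
  (mp_sh t y).integrable_comp_of_integrable (sqI hd hρ β h m)

lemma Vb_sq (β : ℝ) (h : Vec d) (t m : ℕ) (y : Site d) :
    ∫ η, (Vb ρ β h t m y η) ^ 2 ∂(law d ρ) = Va ρ β h m :=
  integral_sh t y (((measurable_X β h m).sub_const _).pow_const 2)

/-- `E Q |V - E V| ≤ (K E p'²)^(1/2)`. -/
lemma QV (hd : 0 < d) (hρ : EM ρ) (β : ℝ) (h : Vec d) {n t : ℕ} (ht : t ≤ n) (y : Site d) {K : ℝ}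
    (hK : Va ρ β h (n - t) ≤ K) :
    ∫ η, Qt β h n t y η * |Vb ρ β h t (n - t) y η| ∂(law d ρ) ≤
      Real.sqrt K * Real.sqrt (∫ η, (cE ρ (Pa d t)ᶜ (Qt β h n t y) η) ^ 2 ∂(law d ρ)) := by
  have hV2 := Vb_sqI (ρ := ρ) hd hρ β h t (n - t) y
  have hVm := measurable_Vb (ρ := ρ) β h t (n - t) y
  have hVL : MemLp (fun η => |Vb ρ β h t (n - t) y η|) 2 (law d ρ) := by
    rw [memLp_two_iff_integrable_sq hVm.abs.aestronglyMeasurable]
    simpa [sq_abs] using hV2
  have hVI : Integrable (fun η => |Vb ρ β h t (n - t) y η|) (law d ρ) :=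
    hVL.integrable (by norm_num)
  have hQV : Integrable (fun η => Qt β h n t y η * |Vb ρ β h t (n - t) y η|) (law d ρ) := by
    refine hVI.mono' ((S98.measurable_Qt β h n t y).mul hVm.abs).aestronglyMeasurable
      (Filter.Eventually.of_forall fun η => ?_)
    rw [Real.norm_eq_abs, abs_mul, abs_abs]
    exact mul_le_of_le_one_left (abs_nonneg _) (S98.Qt_abs hd β h ht y η)
  have h1 := int_mul_cE (ρ := ρ) (Pa d t)ᶜ hQV (H := fun η => |Vb ρ β h t (n - t) y η|) (by
    intro η η' hη
    have := Vb_dep (ρ := ρ) β h t (n - t) y hη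
    simp only
    rw [this])
  rw [h1]
  have hcm : Measurable (cE ρ (Pa d t)ᶜ (Qt β h n t y)) :=
    measurable_cE (S98.measurable_Qt β h n t y) _
  have hc0 : ∀ η, 0 ≤ cE ρ (Pa d t)ᶜ (Qt β h n t y) η :=
    cE_nonneg (fun η => S98.Qt_nonneg hd β h n t y η) _
  have hc1 : ∀ η, |cE ρ (Pa d t)ᶜ (Qt β h n t y) η| ≤ 1 :=
    cE_abs_le (fun η => S98.Qt_abs hd β h ht y η) _
  have hcL : MemLp (cE ρ (Pa d t)ᶜ (Qt β h n t y)) 2 (law d ρ) := by
    rw [memLp_two_iff_integrable_sq hcm.aestronglyMeasurable]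
    refine Integrable.mono' (integrable_const 1) (hcm.pow_const 2).aestronglyMeasurable
      (Filter.Eventually.of_forall fun η => ?_)
    rw [Real.norm_eq_abs, abs_pow]
    exact pow_le_one₀ (abs_nonneg _) (hc1 η)
  have h2 := integral_mul_le_Lp_mul_Lq_of_nonneg (μ := law d ρ) (p := 2) (q := 2)
    Real.HolderConjugate.two_two (f := cE ρ (Pa d t)ᶜ (Qt β h n t y))
    (g := fun η => |Vb ρ β h t (n - t) y η|) (Filter.Eventually.of_forall hc0)
    (Filter.Eventually.of_forall fun η => abs_nonneg _) (by simpa using hcL) (by simpa using hVL)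
  simp only [Real.rpow_two, sq_abs] at h2
  rw [Vb_sq] at h2
  rw [← Real.sqrt_eq_rpow, ← Real.sqrt_eq_rpow] at h2
  refine h2.trans ?_
  rw [mul_comm]
  exact mul_le_mul_of_nonneg_right (Real.sqrt_le_sqrt hK) (Real.sqrt_nonneg _)

/-- The pointwise bound. -/
lemma point (hd : 0 < d) (hρ : EM ρ) (β : ℝ) (h : Vec d) {n t : ℕ} (ht : t ≤ n) {r : ℝ}
    (hr : 0 < r) (R : Finset (Site d)) (hR : R ⊆ boxF d t) (η : Env d) :
    ∑ y ∈ R, Qt β h n t y η ≤
      Set.indicator {η : Env d | Real.exp (A ρ β h t - r) < ∑ y ∈ R, PP β h η t y}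
        (fun _ => (1 : ℝ)) η +
      Set.indicator {η : Env d | X β h η n < A ρ β h n - r / 4} (fun _ => (1 : ℝ)) η +
      Real.exp (-(r / 4)) +
      ∑ y ∈ R, 2 / r * (Qt β h n t y η * |Vb ρ β h t (n - t) y η|) := by
  classical
  have hQ0 : ∀ y, 0 ≤ Qt β h n t y η := fun y => S98.Qt_nonneg hd β h n t y η
  have hs1 : ∑ y ∈ R, Qt β h n t y η ≤ 1 := by
    rw [← S98.Qt_sum hd β h ht η]
    exact Finset.sum_le_sum_of_subset_of_nonneg hR fun y _ _ => hQ0 y
  have hs2 : 0 ≤ ∑ y ∈ R, 2 / r * (Qt β h n t y η * |Vb ρ β h t (n - t) y η|) :=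
    Finset.sum_nonneg fun y _ => by
      have := hQ0 y
      positivity
  have he : 0 < Real.exp (-(r / 4)) := Real.exp_pos _
  have hi1 : 0 ≤ Set.indicator {η : Env d | Real.exp (A ρ β h t - r) < ∑ y ∈ R, PP β h η t y}
        (fun _ => (1 : ℝ)) η := Set.indicator_nonneg (fun _ _ => zero_le_one) _
  have hi2 : 0 ≤ Set.indicator {η : Env d | X β h η n < A ρ β h n - r / 4} (fun _ => (1 : ℝ)) η :=
    Set.indicator_nonneg (fun _ _ => zero_le_one) _
  by_cases h1 : Real.exp (A ρ β h t - r) < ∑ y ∈ R, PP β h η t y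
  · rw [Set.indicator_of_mem (show η ∈ {η : Env d | Real.exp (A ρ β h t - r) <
      ∑ y ∈ R, PP β h η t y} from h1)]
    linarith
  by_cases h2 : X β h η n < A ρ β h n - r / 4
  · rw [Set.indicator_of_mem (show η ∈ {η : Env d | X β h η n < A ρ β h n - r / 4} from h2)]
    linarith
  have hmain : ∑ y ∈ R, Qt β h n t y η ≤ Real.exp (-(r / 4)) +
      ∑ y ∈ R, 2 / r * (Qt β h n t y η * |Vb ρ β h t (n - t) y η|) := by
    have hZn : Real.exp (A ρ β h n - r / 4) ≤ Z β h η n := by
      rw [← Real.exp_log (Z_pos hd β h η n)]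
      exact Real.exp_le_exp.2 (not_lt.1 h2)
    have hA : A ρ β h t + A ρ β h (n - t) ≤ A ρ β h n := by
      have := A_add_le hd hρ β h t (n - t)
      rwa [Nat.add_sub_cancel' ht] at this
    have hterm : ∀ y ∈ R, Qt β h n t y η ≤ PP β h η t y * Real.exp (A ρ β h (n - t) + r / 2) /
        Real.exp (A ρ β h n - r / 4) +
        2 / r * (Qt β h n t y η * |Vb ρ β h t (n - t) y η|) := by
      intro y _
      by_cases hv : Vb ρ β h t (n - t) y η ≤ r / 2
      · have hb : Z β h (sh t y η) (n - t) ≤ Real.exp (A ρ β h (n - t) + r / 2) := by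
          rw [← Real.exp_log (Z_pos hd β h (sh t y η) (n - t))]
          refine Real.exp_le_exp.2 ?_
          unfold Vb X at hv
          linarith
        have h3 : Qt β h n t y η ≤ PP β h η t y * Real.exp (A ρ β h (n - t) + r / 2) /
            Real.exp (A ρ β h n - r / 4) := by
          unfold Qt
          have hP := PP_nonneg β h η t y
          exact div_le_div₀ (mul_nonneg hP (Real.exp_pos _).le)
            (mul_le_mul_of_nonneg_left hb hP) (Real.exp_pos _) hZn
        have h4 : 0 ≤ 2 / r * (Qt β h n t y η * |Vb ρ β h t (n - t) y η|) := by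
          have := hQ0 y
          positivity
        linarith
      · have h3 : Qt β h n t y η ≤ 2 / r * (Qt β h n t y η * |Vb ρ β h t (n - t) y η|) := by
          have h5 : r / 2 ≤ |Vb ρ β h t (n - t) y η| := (not_le.1 hv).le.trans (le_abs_self _)
          have h6 : Qt β h n t y η * (r / 2) ≤ Qt β h n t y η * |Vb ρ β h t (n - t) y η| :=
            mul_le_mul_of_nonneg_left h5 (hQ0 y)
          have h7 : 2 / r * (Qt β h n t y η * (r / 2)) = Qt β h n t y η := by
            field_simp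
          rw [← h7] 
          exact (mul_le_mul_of_nonneg_left (by rw [h7]; exact h6) (by positivity))
        have h4 : 0 ≤ PP β h η t y * Real.exp (A ρ β h (n - t) + r / 2) /
            Real.exp (A ρ β h n - r / 4) :=
          div_nonneg (mul_nonneg (PP_nonneg _ _ _ _ _) (Real.exp_pos _).le) (Real.exp_pos _).le
        linarith
    refine (Finset.sum_le_sum hterm).trans ?_
    rw [Finset.sum_add_distrib]
    refine add_le_add ?_ le_rfl
    rw [← Finset.sum_div, ← Finset.sum_mul]
    calc (∑ y ∈ R, PP β h η t y) * Real.exp (A ρ β h (n - t) + r / 2) /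
          Real.exp (A ρ β h n - r / 4)
        ≤ Real.exp (A ρ β h t - r) * Real.exp (A ρ β h (n - t) + r / 2) /
          Real.exp (A ρ β h n - r / 4) := by
          refine div_le_div_of_nonneg_right ?_ (Real.exp_pos _).le
          exact mul_le_mul_of_nonneg_right (not_lt.1 h1) (Real.exp_pos _).le
      _ = Real.exp (A ρ β h t + A ρ β h (n - t) - A ρ β h n - r / 4) := by
          rw [← Real.exp_add, ← Real.exp_sub]
          congr 1
          ring
      _ ≤ Real.exp (-(r / 4)) := Real.exp_le_exp.2 (by linarith)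
  linarith

/-- **R1.** -/
theorem box34 (hd : 0 < d) (hρ : EM ρ) (β : ℝ) : BoxR d ρ β := by
  classical
  intro K r q h n t R hR ht hr hKn hKm hq
  have hK0 : 0 ≤ K := le_trans (integral_nonneg fun _ => sq_nonneg _) hKn
  set V := Vb ρ β h t (n - t) with hV
  set E1 : Set (Env d) := {η : Env d | Real.exp (A ρ β h t - r) < ∑ y ∈ R, PP β h η t y} with hE1
  set E2 : Set (Env d) := {η : Env d | X β h η n < A ρ β h n - r / 4} with hE2
  have hE1m : MeasurableSet E1 := measurableSet_lt measurable_const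
    (Finset.measurable_sum _ fun y _ => S98.measurable_PP β h t y)
  have hE2m : MeasurableSet E2 := measurableSet_lt (measurable_X β h n) measurable_const
  have hVI : ∀ y, Integrable (fun η => |V y η|) (law d ρ) := by
    intro y
    have hVL : MemLp (fun η => |V y η|) 2 (law d ρ) := by
      rw [memLp_two_iff_integrable_sq (measurable_Vb (ρ := ρ) β h t (n - t) y).abs.aestronglyMeasurable]
      simpa [sq_abs] using Vb_sqI (ρ := ρ) hd hρ β h t (n - t) y
    exact hVL.integrable (by norm_num)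
  have hQV : ∀ y, Integrable (fun η => Qt β h n t y η * |V y η|) (law d ρ) := by
    intro y
    refine (hVI y).mono' ((S98.measurable_Qt β h n t y).mul
      (measurable_Vb (ρ := ρ) β h t (n - t) y).abs).aestronglyMeasurable
      (Filter.Eventually.of_forall fun η => ?_)
    rw [Real.norm_eq_abs, abs_mul, abs_abs]
    exact mul_le_of_le_one_left (abs_nonneg _) (S98.Qt_abs hd β h ht y η)
  have hi1 : Integrable (E1.indicator fun _ => (1 : ℝ)) (law d ρ) :=
    (integrable_const 1).indicator hE1m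
  have hi2 : Integrable (E2.indicator fun _ => (1 : ℝ)) (law d ρ) :=
    (integrable_const 1).indicator hE2m
  have hi3 : Integrable (fun η => ∑ y ∈ R, 2 / r * (Qt β h n t y η * |V y η|)) (law d ρ) :=
    integrable_finsetSum _ fun y _ => (hQV y).const_mul _
  have hL : Integrable (fun η => ∑ y ∈ R, Qt β h n t y η) (law d ρ) := by
    refine integrable_finsetSum _ fun y _ => ?_
    exact Integrable.mono' (integrable_const 1) (S98.measurable_Qt β h n t y).aestronglyMeasurable
      (Filter.Eventually.of_forall fun η => S98.Qt_abs hd β h ht y η)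
  have h1 : ∫ η, ∑ y ∈ R, Qt β h n t y η ∂(law d ρ) ≤
      (law d ρ).real E1 + (law d ρ).real E2 + Real.exp (-(r / 4)) +
        ∑ y ∈ R, 2 / r * ∫ η, Qt β h n t y η * |V y η| ∂(law d ρ) := by
    have h2 := integral_mono hL (((hi1.add hi2).add (integrable_const (Real.exp (-(r / 4))))).add hi3)
      (fun η => point (ρ := ρ) hd hρ β h ht hr R hR η)
    refine h2.trans (le_of_eq ?_)
    have e1 := integral_add' (μ := law d ρ)
      ((hi1.add hi2).add (integrable_const (Real.exp (-(r / 4))))) hi3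
    have e2 := integral_add' (μ := law d ρ) (hi1.add hi2)
      (integrable_const (Real.exp (-(r / 4))))
    have e3 := integral_add' (μ := law d ρ) hi1 hi2
    have e4 : ∫ η, (E1.indicator (fun _ => (1 : ℝ))) η ∂(law d ρ) = (law d ρ).real E1 :=
      integral_indicator_one hE1m
    have e5 : ∫ η, (E2.indicator (fun _ => (1 : ℝ))) η ∂(law d ρ) = (law d ρ).real E2 :=
      integral_indicator_one hE2m
    have e6 : ∫ η, ∑ y ∈ R, 2 / r * (Qt β h n t y η * |V y η|) ∂(law d ρ) =
        ∑ y ∈ R, 2 / r * ∫ η, Qt β h n t y η * |V y η| ∂(law d ρ) := by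
      rw [integral_finsetSum _ fun y _ => (hQV y).const_mul _]
      simp only [integral_const_mul]
    rw [e1, e2, e3, e4, e5, e6]
    simp
  have h2 : (law d ρ).real E2 ≤ 16 * K / r ^ 2 := by
    have := cheb (ρ := ρ) hd hρ β h n (r := r / 4) (by positivity) (S := E2) (by
      intro η hη
      have h3 : X β h η n < A ρ β h n - r / 4 := hη
      rw [abs_of_neg (by linarith)]
      linarith)
    refine this.trans ?_
    rw [div_pow, div_div_eq_mul_div]
    refine div_le_div_of_nonneg_right ?_ (by positivity)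
    nlinarith
  have h3 : ∑ y ∈ R, 2 / r * ∫ η, Qt β h n t y η * |V y η| ∂(law d ρ) ≤
      2 / r * Real.sqrt (K * R.card * St ρ β h n t) := by
    rw [← Finset.mul_sum]
    refine mul_le_mul_of_nonneg_left ?_ (by positivity)
    set s : Site d → ℝ := fun y =>
      ∫ η, (cE ρ (Pa d t)ᶜ (Qt β h n t y) η) ^ 2 ∂(law d ρ) with hs
    have hs0 : ∀ y, 0 ≤ s y := fun y => integral_nonneg fun _ => sq_nonneg _
    have h4 : ∑ y ∈ R, ∫ η, Qt β h n t y η * |V y η| ∂(law d ρ) ≤
        ∑ y ∈ R, Real.sqrt K * Real.sqrt (s y) :=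
      Finset.sum_le_sum fun y _ => QV (ρ := ρ) hd hρ β h ht y hKm
    have h5 : ∑ y ∈ R, s y ≤ St ρ β h n t := by
      have h6 : St ρ β h n t = ∑ y ∈ boxF d n, s y := by
        unfold St
        refine integral_finsetSum _ fun y _ => ?_
        refine Integrable.mono' (integrable_const 1)
          ((measurable_cE (S98.measurable_Qt β h n t y) _).pow_const 2).aestronglyMeasurable
          (Filter.Eventually.of_forall fun η => ?_)
        rw [Real.norm_eq_abs, abs_pow]
        exact pow_le_one₀ (abs_nonneg _) (cE_abs_le (fun η => S98.Qt_abs hd β h ht y η) _ _)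
      rw [h6]
      exact Finset.sum_le_sum_of_subset_of_nonneg (hR.trans (S98.boxF_mono ht)) fun y _ _ => hs0 y
    have h7 : (∑ y ∈ R, Real.sqrt (s y)) ^ 2 ≤ R.card * St ρ β h n t := by
      refine (sq_sum_le_card_mul_sum_sq (s := R) (f := fun y => Real.sqrt (s y))).trans ?_
      simp only [Real.sq_sqrt (hs0 _)]
      exact mul_le_mul_of_nonneg_left h5 (by positivity)
    refine h4.trans ?_
    rw [← Finset.mul_sum, mul_assoc, Real.sqrt_mul hK0]
    exact mul_le_mul_of_nonneg_left (Real.le_sqrt_of_sq_le h7) (Real.sqrt_nonneg _)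
  linarith

end Pool.Agent.W_7d29a1_R34
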