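import Pool.Agent.W_7d29a1_R34.Shell94

/-!
R3: the expected mass outside the window of radius `W sqrt t`, from `BoxR` and `TailR`.
-/

namespace Pool.Agent.W_7d29a1_R34

open MeasureTheory ProbabilityTheory Filter Topology Pool.Agent.W_MP_7d29a1_pr
  Pool.Agent.W_7d29a1_h46 Pool.Agent.W_7d29a1_h46u Pool.Agent.W_7d29a1_D2.B35
  Pool.Agent.W_7d29a1_Q29

lemma card94 {v : Vec 2} {r : ℝ} (hr : 1 ≤ r) (S : Finset (Site 2))
    (hS : ∀ y ∈ S, ∀ j, |(emb y - v) j| < r) : (S.card : ℝ) ≤ 9 * r ^ 2 := by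
  classical
  have h1 : S ⊆ Fintype.piFinset fun j => Finset.Icc ⌈v j - r⌉ ⌊v j + r⌋ := by
    intro y hy
    rw [Fintype.mem_piFinset]
    intro j
    have h2 := hS y hy j
    have h3 : (emb y - v) j = (y j : ℝ) - v j := by simp [emb]
    rw [h3, abs_lt] at h2
    rw [Finset.mem_Icc]
    exact ⟨Int.ceil_le.2 (by linarith), Int.le_floor.2 (by linarith)⟩
  have h2 := Finset.card_le_card h1
  rw [Fintype.card_piFinset, Fin.prod_univ_two] at h2
  have h3 : ∀ j : Fin 2, ((Finset.Icc ⌈v j - r⌉ ⌊v j + r⌋).card : ℝ) ≤ 3 * r := by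
    intro j
    rw [Int.card_Icc]
    have h4 : ((⌊v j + r⌋ + 1 - ⌈v j - r⌉ : ℤ) : ℝ) ≤ 3 * r := by
      push_cast
      have h5 := Int.floor_le (v j + r)
      have h6 := Int.le_ceil (v j - r)
      linarith
    rcases le_total 0 (⌊v j + r⌋ + 1 - ⌈v j - r⌉) with h | h
    · have h7 : (((⌊v j + r⌋ + 1 - ⌈v j - r⌉).toNat : ℤ) : ℝ) =
          ((⌊v j + r⌋ + 1 - ⌈v j - r⌉ : ℤ) : ℝ) := by rw [Int.toNat_of_nonneg h]
      have h8 : (((⌊v j + r⌋ + 1 - ⌈v j - r⌉).toNat : ℕ) : ℝ) =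
          (((⌊v j + r⌋ + 1 - ⌈v j - r⌉).toNat : ℤ) : ℝ) := by norm_cast
      rw [h8, h7]
      exact h4
    · rw [Int.toNat_of_nonpos h]
      simp only [Nat.cast_zero]
      linarith
  have h4 : (S.card : ℝ) ≤ ((Finset.Icc ⌈v 0 - r⌉ ⌊v 0 + r⌋).card : ℝ) *
      ((Finset.Icc ⌈v 1 - r⌉ ⌊v 1 + r⌋).card : ℝ) := by exact_mod_cast h2
  have h5 := mul_le_mul (h3 0) (h3 1) (Nat.cast_nonneg _) (by linarith)
  nlinarith

variable {ρ : Measure ℝ} [IsProbabilityMeasure ρ] {β : ℝ}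

lemma A_lip94 {d : ℕ} (hd : 0 < d) (hρ : EM ρ) (β : ℝ) (h u : Vec d) (n : ℕ) :
    A ρ β (h + u) n ≤ A ρ β h n + ‖u‖ * n := by
  have h1 : ∫ η, X β (h + u) η n ∂(law d ρ) ≤ ∫ η, (X β h η n + ‖u‖ * n) ∂(law d ρ) :=
    integral_mono (concU hd hρ β (h + u) n).1 ((concU hd hρ β h n).1.add (integrable_const _))
      fun η => X_tilt hd β h u η n
  rw [integral_add (concU hd hρ β h n).1 (integrable_const _)] at h1
  simpa [A] using h1

lemma subabs94 {d : ℕ} (hd : 0 < d) (hρ : EM ρ) {h v : Vec d} {t : ℕ}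
    (hv : ∀ g : Vec d, A ρ β h t + inner ℝ v (g - h) ≤ A ρ β g t) (j : Fin d) : |v j| ≤ t := by
  have h1 : ∀ s : ℝ, |s| = 1 → s * v j ≤ t := by
    intro s hs
    have h2 := hv (h + s • ej j)
    have h3 := A_lip94 hd hρ β h (s • ej j) t
    rw [add_sub_cancel_left, real_inner_smul_right, real_inner_comm, inner_ej94] at h2
    rw [norm_smul, norm_ej94, mul_one, Real.norm_eq_abs, hs, one_mul] at h3
    linarith
  rw [abs_le]
  have h2 := h1 1 (by simp)
  have h3 := h1 (-1) (by simp)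
  constructor <;> linarith

theorem leak94 (hρ : EM ρ) (hBox : BoxR 2 ρ β) (hTail : TailR 2 ρ β) : LeakR ρ β := by
  classical
  intro M K δ W h v n t hM hK hδ hδ1 ht1 htn hW hWδ hVn hVt hv hden hsd
  have hd : 0 < 2 := by norm_num
  have ht0 : (1 : ℝ) ≤ t := by exact_mod_cast ht1
  obtain ⟨q, hq⟩ : ∃ q, q = Real.sqrt t := ⟨_, rfl⟩
  have hq1 : 1 ≤ q := by
    rw [hq, show (1 : ℝ) = Real.sqrt 1 by simp]
    exact Real.sqrt_le_sqrt ht0
  have hq0 : 0 < q := by linarith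
  have hqt : q ^ 2 = t := by rw [hq]; exact Real.sq_sqrt (by linarith)
  rw [← hq] at hWδ ⊢
  have hSt : 0 ≤ St ρ β h n t := by
    unfold St
    exact integral_nonneg fun η => Finset.sum_nonneg fun y _ => sq_nonneg _
  obtain ⟨s, hs⟩ : ∃ s, s = Real.sqrt (K * t * St ρ β h n t) := ⟨_, rfl⟩
  have hs0 : 0 ≤ s := by rw [hs]; exact Real.sqrt_nonneg _
  rw [← hs]
  have iQ : ∀ y, Integrable (fun η => Qt β h n t y η) (law 2 ρ) := fun y =>
    Integrable.mono' (integrable_const (1 : ℝ)) (measurable_Qt94 β h n t y).aestronglyMeasurable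
      (Eventually.of_forall fun η => by
        rw [Real.norm_eq_abs, abs_of_nonneg (Qt_nonneg94 β h n t y η)]
        exact Qt_le_one94 hd β h htn y η)
  set Wd : ℕ → Finset (Site 2) := fun k =>
    (boxF 2 t).filter (fun y => ∀ j, |(emb y - v) j| < 16 ^ k * (W * q)) with hWd
  have hWd0 : (boxF 2 t).filter (fun y => ∀ j, |(emb y - v) j| < W * q) = Wd 0 := by
    simp only [hWd, pow_zero, one_mul]
  rw [hWd0]
  have i1 : ∀ T : Finset (Site 2), Integrable (fun η => ∑ y ∈ T, Qt β h n t y η) (law 2 ρ) :=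
    fun T => integrable_finsetSum T fun y _ => iQ y
  -- small windows
  rcases lt_or_ge W 21 with hW21 | hW21
  · have h1 : ∫ η, (1 - ∑ y ∈ Wd 0, Qt β h n t y η) ∂(law 2 ρ) ≤ 1 := by
      have h2 : ∫ η, (1 - ∑ y ∈ Wd 0, Qt β h n t y η) ∂(law 2 ρ) ≤ ∫ _η : Env 2, (1 : ℝ) ∂(law 2 ρ) :=
        integral_mono ((integrable_const 1).sub (i1 _)) (integrable_const 1) fun η => by
          have := Finset.sum_nonneg fun y (_ : y ∈ Wd 0) => Qt_nonneg94 β h n t y η
          show 1 - ∑ y ∈ Wd 0, Qt β h n t y η ≤ 1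
          linarith
      simpa using h2
    have h2 : (1 : ℝ) ≤ 22 * 10 ^ 4 * M ^ 2 * K / W ^ 4 := by
      rw [le_div_iff₀ (by positivity), one_mul]
      have h3 : W ^ 4 ≤ 21 ^ 4 := pow_le_pow_left₀ hW.le hW21.le 4
      have h4 : (1 : ℝ) ≤ M ^ 2 := by nlinarith
      have h5 : (1 : ℝ) ≤ M ^ 2 * K := by nlinarith
      nlinarith
    have h3 : 0 ≤ 15000 * M * s / W := by positivity
    linarith
  -- large windows
  have hWq : 21 ≤ W * q := by nlinarith
  obtain ⟨k0, hk0⟩ : ∃ k : ℕ, 2 * (t : ℝ) < 16 ^ k * (W * q) := by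
    obtain ⟨k, hk⟩ := pow_unbounded_of_one_lt (2 * (t : ℝ)) (show (1 : ℝ) < 16 by norm_num)
    refine ⟨k, hk.trans_le ?_⟩
    have : (0 : ℝ) < 16 ^ k := by positivity
    nlinarith
  set k1 := Nat.find (⟨k0, hk0⟩ : ∃ k : ℕ, 2 * (t : ℝ) < 16 ^ k * (W * q)) with hk1
  have hk1s : 2 * (t : ℝ) < 16 ^ k1 * (W * q) :=
    Nat.find_spec (⟨k0, hk0⟩ : ∃ k : ℕ, 2 * (t : ℝ) < 16 ^ k * (W * q))
  have hk1m : ∀ k < k1, 16 ^ k * (W * q) ≤ 2 * (t : ℝ) := fun k hk =>
    not_lt.1 (Nat.find_min (⟨k0, hk0⟩ : ∃ k : ℕ, 2 * (t : ℝ) < 16 ^ k * (W * q)) hk)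
  have hfull : Wd k1 = boxF 2 t := by
    simp only [hWd]
    rw [Finset.filter_eq_self]
    intro y hy j
    have h1 : (emb y - v) j = (y j : ℝ) - v j := by simp [emb]
    rw [h1]
    rw [mem_boxF] at hy
    have h2 : |(y j : ℝ)| ≤ t := by exact_mod_cast hy j
    have h3 := subabs94 hd hρ hv j
    have h4 := abs_sub (y j : ℝ) (v j)
    linarith
  have hmono : ∀ k, Wd k ⊆ Wd (k + 1) := by
    intro k y hy
    simp only [hWd, Finset.mem_filter] at hy ⊢
    refine ⟨hy.1, fun j => (hy.2 j).trans_le ?_⟩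
    rw [pow_succ]
    have : (0 : ℝ) < 16 ^ k * (W * q) := by positivity
    nlinarith
  have hshell : ∀ k < k1, ∫ η, ∑ y ∈ Wd (k + 1) \ Wd k, Qt β h n t y η ∂(law 2 ρ) ≤
      212992 * M ^ 2 * K / W ^ 4 * (1 / 16384) ^ k + 12288 * M * s / W * (1 / 8) ^ k := by
    intro k hk
    have hr1 : 0 < rw' M W t k := by
      unfold rw'
      rw [← hq]
      positivity
    have hr : 0 < 16 ^ k * (W * q) := by positivity
    have hrw : rw' M W t k * (16 ^ k * (W * q)) / 4 = 128 ^ k * W ^ 2 / (32 * M) := by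
      unfold rw'
      rw [← hq]
      have h1 : (128 : ℝ) ^ k = 8 ^ k * 16 ^ k := by rw [← mul_pow]; norm_num
      rw [h1]
      field_simp
      ring
    have hrδ : rw' M W t k ≤ δ := by
      have h1 : 16 ^ k * W ≤ 2 * q := by
        have h2 := hk1m k hk
        rw [← hqt] at h2
        have h3 : (16 ^ k * W) * q ≤ (2 * q) * q := by nlinarith
        exact le_of_mul_le_mul_right h3 hq0
      have h2 : rw' M W t k ^ 4 ≤ δ ^ 4 := by
        unfold rw'
        rw [← hq, div_pow, div_le_iff₀ (by positivity)]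
        have h3 : (8 ^ k * W) ^ 4 = (16 ^ k * W) ^ 3 * W := by
          have h4 : ((8 : ℝ) ^ k) ^ 4 = (16 ^ k) ^ 3 := by
            rw [← pow_mul, ← pow_mul, show (8 : ℝ) = 2 ^ 3 by norm_num,
              show (16 : ℝ) = 2 ^ 4 by norm_num, ← pow_mul, ← pow_mul]
            congr 1
            ring
          rw [mul_pow, h4]
          ring
        rw [h3]
        have h5 : (16 ^ k * W) ^ 3 ≤ (2 * q) ^ 3 := pow_le_pow_left₀ (by positivity) h1 3
        have h6 : (16 ^ k * W) ^ 3 * W ≤ (2 * q) ^ 3 * (δ ^ 4 * q) :=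
          mul_le_mul h5 hWδ hW.le (by positivity)
        refine h6.trans ?_
        have h7 : (1 : ℝ) ≤ M ^ 4 := one_le_pow₀ hM
        have h8 : (2 * q) ^ 3 * (δ ^ 4 * q) = 8 * (δ ^ 4 * q ^ 4) := by ring
        have h9 : δ ^ 4 * (8 * M * q) ^ 4 = 4096 * M ^ 4 * (δ ^ 4 * q ^ 4) := by ring
        rw [h8, h9]
        have h10 : 0 < δ ^ 4 * q ^ 4 := by positivity
        nlinarith
      exact le_of_pow_le_pow_left₀ (by norm_num) hδ.le h2
    have hsd' : ∀ j : Fin 2, A ρ β (h + (2 * rw' M W t k) • ej j) t +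
        A ρ β (h - (2 * rw' M W t k) • ej j) t - 2 * A ρ β h t ≤
          rw' M W t k * (16 ^ k * (W * q)) / 8 := by
      intro j
      refine (hsd k hrδ j).trans (le_of_eq ?_)
      have h1 : M * 2 ^ k * t * rw' M W t k = 16 ^ k * (W * q) / 8 := by
        unfold rw'
        rw [← hq, ← hqt]
        have h2 : (16 : ℝ) ^ k = 2 ^ k * 8 ^ k := by rw [← mul_pow]; norm_num
        rw [h2]
        field_simp
      calc M * 2 ^ k * t * rw' M W t k ^ 2 = (M * 2 ^ k * t * rw' M W t k) * rw' M W t k := by ring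
        _ = rw' M W t k * (16 ^ k * (W * q)) / 8 := by rw [h1]; ring
    have hfar : ∀ y ∈ Wd (k + 1) \ Wd k, ∃ i, 16 ^ k * (W * q) ≤ |emb y i - v i| := by
      intro y hy
      rw [Finset.mem_sdiff] at hy
      have h1 := hy.2
      simp only [hWd, Finset.mem_filter, not_and, not_forall, not_lt] at h1
      have h2 : y ∈ boxF 2 t := by
        have := hy.1
        simp only [hWd, Finset.mem_filter] at this
        exact this.1
      obtain ⟨j, hj⟩ := h1 h2
      exact ⟨j, hj⟩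
    have hsub : Wd (k + 1) \ Wd k ⊆ boxF 2 t := by
      intro y hy
      have := (Finset.mem_sdiff.1 hy).1
      simp only [hWd, Finset.mem_filter] at this
      exact this.1
    have hmain := shell94 hρ hBox hTail (K := K) (r1 := rw' M W t k) (r := 16 ^ k * (W * q))
      (h := h) (v := v) htn hK hr1 hr hVn hVt
      (fun j s hs => hden (rw' M W t k) hr1 hrδ j s hs) hsd' hv (Wd (k + 1) \ Wd k) hsub hfar
    refine hmain.trans ?_
    rw [hrw]
    have hcard : ((Wd (k + 1) \ Wd k).card : ℝ) ≤ 9 * (16 ^ (k + 1) * (W * q)) ^ 2 := by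
      refine card94 (v := v) ?_ _ fun y hy => ?_
      · have : (1 : ℝ) ≤ 16 ^ (k + 1) := one_le_pow₀ (by norm_num)
        nlinarith
      · have := (Finset.mem_sdiff.1 hy).1
        simp only [hWd, Finset.mem_filter] at this
        exact this.2
    have hroot : Real.sqrt (K * (Wd (k + 1) \ Wd k).card * St ρ β h n t) ≤
        48 * 16 ^ k * W * s := by
      have h1 : K * (Wd (k + 1) \ Wd k).card * St ρ β h n t ≤
          (48 * 16 ^ k * W) ^ 2 * (K * t * St ρ β h n t) := by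
        have h2 : K * ((Wd (k + 1) \ Wd k).card : ℝ) * St ρ β h n t ≤
            K * (9 * (16 ^ (k + 1) * (W * q)) ^ 2) * St ρ β h n t :=
          mul_le_mul_of_nonneg_right (mul_le_mul_of_nonneg_left hcard (by linarith)) hSt
        refine h2.trans (le_of_eq ?_)
        rw [← hqt, pow_succ]
        ring
      rw [hs, ← Real.sqrt_sq (show 0 ≤ 48 * 16 ^ k * W by positivity), ← Real.sqrt_mul
        (sq_nonneg _)]
      exact Real.sqrt_le_sqrt h1
    have h128 : (0 : ℝ) < 128 ^ k := by positivity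
    have e1 : 4 * (52 * K / (128 ^ k * W ^ 2 / (32 * M)) ^ 2) =
        212992 * M ^ 2 * K / W ^ 4 * (1 / 16384) ^ k := by
      have h1 : ((1 : ℝ) / 16384) ^ k = 1 / (128 ^ k) ^ 2 := by
        rw [one_div, inv_pow, one_div, ← pow_mul, mul_comm k 2, pow_mul]
        norm_num
      rw [h1]
      field_simp
      ring
    have e2 : 4 * (2 / (128 ^ k * W ^ 2 / (32 * M)) * (48 * 16 ^ k * W * s)) =
        12288 * M * s / W * (1 / 8) ^ k := by
      have h1 : ((1 : ℝ) / 8) ^ k = 16 ^ k / 128 ^ k := by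
        rw [← div_pow]
        norm_num
      rw [h1]
      field_simp
      ring
    have h2 := mul_le_mul_of_nonneg_left hroot
      (show 0 ≤ 2 / (128 ^ k * W ^ 2 / (32 * M)) by positivity)
    rw [mul_add, e1, ← e2]
    linarith
  -- telescoping
  have htel : ∀ k ≤ k1, ∫ η, (∑ y ∈ Wd k, Qt β h n t y η - ∑ y ∈ Wd 0, Qt β h n t y η)
      ∂(law 2 ρ) ≤ ∑ i ∈ Finset.range k, (212992 * M ^ 2 * K / W ^ 4 * (1 / 16384) ^ i +
        12288 * M * s / W * (1 / 8) ^ i) := by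
    intro k
    induction k with
    | zero => intro _; simp
    | succ k ih =>
      intro hk
      have h1 := ih (by omega)
      rw [Finset.sum_range_succ]
      have h2 := hshell k (by omega)
      have h3 : ∀ η : Env 2, ∑ y ∈ Wd (k + 1), Qt β h n t y η - ∑ y ∈ Wd 0, Qt β h n t y η =
          (∑ y ∈ Wd k, Qt β h n t y η - ∑ y ∈ Wd 0, Qt β h n t y η) +
            ∑ y ∈ Wd (k + 1) \ Wd k, Qt β h n t y η := by
        intro η
        have h4 := Finset.sum_sdiff (f := fun y => Qt β h n t y η) (hmono k)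
        linarith
      simp only [h3]
      have j1 : Integrable (fun η => ∑ y ∈ Wd k, Qt β h n t y η - ∑ y ∈ Wd 0, Qt β h n t y η)
        (law 2 ρ) := (i1 (Wd k)).sub (i1 (Wd 0))
      rw [integral_add j1 (i1 _)]
      exact add_le_add h1 h2
  have hfin := htel k1 le_rfl
  have h1 : ∀ η : Env 2, ∑ y ∈ Wd k1, Qt β h n t y η = 1 := fun η => by
    rw [hfull]
    exact sumQt_eq94 hd β h htn (Finset.Subset.refl _) η
  simp only [h1] at hfin
  refine hfin.trans ?_
  rw [Finset.sum_add_distrib, ← Finset.mul_sum, ← Finset.mul_sum]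
  have g1 : ∑ i ∈ Finset.range k1, ((1 : ℝ) / 16384) ^ i ≤ 16384 / 16383 := by
    have h2 := (summable_geometric_of_lt_one (show (0 : ℝ) ≤ 1 / 16384 by norm_num)
      (by norm_num)).sum_le_tsum (Finset.range k1) fun i _ => by positivity
    rw [tsum_geometric_of_lt_one (by norm_num) (by norm_num)] at h2
    refine h2.trans (le_of_eq ?_)
    norm_num
  have g2 : ∑ i ∈ Finset.range k1, ((1 : ℝ) / 8) ^ i ≤ 8 / 7 := by
    have h2 := (summable_geometric_of_lt_one (show (0 : ℝ) ≤ 1 / 8 by norm_num)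
      (by norm_num)).sum_le_tsum (Finset.range k1) fun i _ => by positivity
    rw [tsum_geometric_of_lt_one (by norm_num) (by norm_num)] at h2
    refine h2.trans (le_of_eq ?_)
    norm_num
  obtain ⟨a, ha⟩ : ∃ a, a = M ^ 2 * K / W ^ 4 := ⟨_, rfl⟩
  obtain ⟨b, hb⟩ : ∃ b, b = M * s / W := ⟨_, rfl⟩
  have ha0 : 0 ≤ a := by rw [ha]; positivity
  have hb0 : 0 ≤ b := by rw [hb]; positivity
  have ea : 212992 * M ^ 2 * K / W ^ 4 = 212992 * a := by rw [ha]; ring
  have eb : 12288 * M * s / W = 12288 * b := by rw [hb]; ring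
  have ea' : 22 * 10 ^ 4 * M ^ 2 * K / W ^ 4 = 220000 * a := by rw [ha]; ring
  have eb' : 15000 * M * s / W = 15000 * b := by rw [hb]; ring
  rw [ea, eb, ea', eb']
  have h2 := mul_le_mul_of_nonneg_left g1 (show 0 ≤ 212992 * a by positivity)
  have h3 := mul_le_mul_of_nonneg_left g2 (show 0 ≤ 12288 * b by positivity)
  have h4 : 212992 * a * (16384 / 16383) ≤ 220000 * a := by
    have : (212992 : ℝ) * (16384 / 16383) ≤ 220000 := by norm_num
    nlinarith
  have h5 : 12288 * b * (8 / 7) ≤ 15000 * b := by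
    have : (12288 : ℝ) * (8 / 7) ≤ 15000 := by norm_num
    nlinarith
  linarith

end Pool.Agent.W_7d29a1_R34
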