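import Pool.Agent.W_7d29a1_Q29.Den65
import Pool.Agent.W_7d29a1_P79.R79
import Pool.Agent.W_7d29a1_P89.Main
import Pool.Agent.W_7d29a1_R34.DefsR34

/-!
The tilts with uniform data exhaust a set of tilts of very strong disorder (helper93).
-/

namespace Pool.Agent.W_7d29a1_R34

open MeasureTheory ProbabilityTheory Filter Topology Pool.Agent.W_MP_7d29a1_pr
  Pool.Agent.W_7d29a1_h46 Pool.Agent.W_7d29a1_h46u Pool.Agent.W_7d29a1_D2.B35
  Pool.Agent.W_7d29a1_Q29 Pool.Agent.W_7d29a1_P89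
open scoped ENNReal

section Density

open Metric Set

variable {E : Type*} [NormedAddCommGroup E] [NormedSpace ℝ E] [FiniteDimensional ℝ E]
  [MeasurableSpace E] [BorelSpace E]

/-- Almost every point of a measurable set has neighbours of the set in every direction at every
small distance. -/
theorem aeDens93 (μ : Measure E) [μ.IsAddHaarMeasure] (T : Set E) (hTm : MeasurableSet T) {ε : ℝ}
    (hε : 0 < ε) : ∀ᵐ x ∂μ, x ∈ T → ∃ n : ℕ, ∀ v : E, v ≠ 0 → ‖v‖ ≤ 1 / ((n : ℝ) + 1) →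
      ∃ y ∈ T, ‖y - x - v‖ ≤ ε * ‖v‖ := by
  have hae := Besicovitch.ae_tendsto_measure_inter_div μ T
  have hfrac : 0 < ENNReal.ofReal ((ε / (1 + ε)) ^ Module.finrank ℝ E) :=
    ENNReal.ofReal_pos.mpr (by positivity)
  have hlt : 1 - ENNReal.ofReal ((ε / (1 + ε)) ^ Module.finrank ℝ E) < 1 :=
    ENNReal.sub_lt_self ENNReal.one_ne_top one_ne_zero hfrac.ne'
  rw [ae_restrict_iff' hTm] at hae
  filter_upwards [hae] with x hx hxT
  have hev := (hx hxT).eventually (lt_mem_nhds hlt)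
  rw [eventually_nhdsWithin_iff, Metric.eventually_nhds_iff] at hev
  obtain ⟨δ, hδ, hball⟩ := hev
  obtain ⟨n, hn⟩ := exists_nat_one_div_lt (show 0 < δ / (1 + ε) by positivity)
  refine ⟨n, fun v hv hvn => ?_⟩
  by_contra hno
  push Not at hno
  have hvpos : 0 < ‖v‖ := norm_pos_iff.mpr hv
  have hle := D65.miss μ T hε x v hv hno
  have hR : (1 + ε) * ‖v‖ < δ := by
    have : ‖v‖ < δ / (1 + ε) := lt_of_le_of_lt hvn hn
    rw [lt_div_iff₀ (by positivity)] at this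
    linarith
  have h2 := hball (y := (1 + ε) * ‖v‖) (by
    rw [Real.dist_eq, sub_zero, abs_of_pos (by positivity)]; exact hR)
    (Set.mem_Ioi.mpr (by positivity))
  exact absurd hle (not_le.mpr h2)

end Density

/-- Exhaustion. -/
lemma exh93 {α : Type*} [MeasurableSpace α] (μ : Measure α) {B : Set α} (hB0 : μ B ≠ 0)
    (hBt : μ B ≠ ⊤) (S : ℕ → Set α) (hmono : Monotone S) (hcov : ∀ᵐ x ∂μ, x ∈ B → ∃ i, x ∈ S i) :
    ∃ i, μ B / 2 < μ (S i) := by
  have h1 : μ B ≤ μ (⋃ i, S i) := by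
    refine measure_mono_ae ?_
    filter_upwards [hcov] with x hx hxB
    obtain ⟨i, hi⟩ := hx hxB
    exact Set.mem_iUnion.2 ⟨i, hi⟩
  have h2 := tendsto_measure_iUnion_atTop (μ := μ) hmono
  have h3 : μ B / 2 < μ (⋃ i, S i) := lt_of_lt_of_le (ENNReal.half_lt_self hB0 hBt) h1
  obtain ⟨i, hi⟩ := (h2.eventually (lt_mem_nhds h3)).exists
  exact ⟨i, hi⟩

variable {ρ : Measure ℝ}

/-- The deviation of the mean is sublinear. -/
lemma dev93 [IsProbabilityMeasure ρ] {d : ℕ} (hd : 0 < d) (hρ : EM ρ) (β : ℝ) (h : Vec d) {ε : ℝ}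
    (hε : 0 < ε) : ∃ C : ℝ, ∀ m : ℕ, m * lam ρ β h - A ρ β h m ≤ C + ε * m := by
  have h1 := tendsto_A hd hρ β h
  have h2 := h1.eventually (lt_mem_nhds (show lam ρ β h - ε < lam ρ β h by linarith))
  obtain ⟨m1, hm1⟩ := eventually_atTop.1 h2
  refine ⟨∑ m ∈ Finset.range (m1 + 1), |m * lam ρ β h - A ρ β h m|, fun m => ?_⟩
  have h0 : 0 ≤ ∑ m ∈ Finset.range (m1 + 1), |m * lam ρ β h - A ρ β h m| :=
    Finset.sum_nonneg fun _ _ => abs_nonneg _
  rcases Nat.lt_or_ge m (m1 + 1) with hm | hm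
  · have h3 := Finset.single_le_sum (f := fun m : ℕ => |m * lam ρ β h - A ρ β h m|)
      (fun _ _ => abs_nonneg _) (Finset.mem_range.2 hm)
    have h4 := (le_abs_self (m * lam ρ β h - A ρ β h m)).trans h3
    have h5 : 0 ≤ ε * (m : ℝ) := by positivity
    linarith
  · have h3 := hm1 m (by omega)
    have hm0 : (0 : ℝ) < m := by
      have : 0 < m := by omega
      exact_mod_cast this
    rw [lt_div_iff₀ hm0] at h3
    nlinarith

/-- The tilts of `B` with uniform data. -/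
def Gs (ρ : Measure ℝ) (β θ η : ℝ) (B : Set (Vec 2)) (i : ℕ) : Set (Vec 2) :=
  {h ∈ B | (∀ v : Vec 2, v ≠ 0 → ‖v‖ ≤ 1 / ((i : ℝ) + 1) → ∃ y ∈ B, ‖y - h - v‖ ≤ 1 / 9 * ‖v‖) ∧
    ∃ (k : ℕ) (y : Site 2) (u : ℝ), 1 ≤ k ∧ (k : ℝ) ≤ i ∧ 1 ≤ u ∧ u ≤ i ∧
      Real.exp (-(θ * u)) ≤ (law 2 ρ).real {ω : Env 2 | Lk ⟨lam ρ β h, β, h, 1⟩ k y u ω} ∧
      ∀ m : ℕ, m * lam ρ β h - A ρ β h m ≤ i + η * u / k * m}

lemma Gs_mono93 (ρ : Measure ℝ) (β θ η : ℝ) (B : Set (Vec 2)) : Monotone (Gs ρ β θ η B) := by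
  intro i j hij h hh
  have hij' : (i : ℝ) ≤ j := by exact_mod_cast hij
  obtain ⟨h1, h2, k, y, u, h3, h4, h5, h6, h7, h8⟩ := hh
  refine ⟨h1, fun v hv hvn => h2 v hv (hvn.trans ?_), k, y, u, h3, h4.trans hij', h5,
    h6.trans hij', h7, fun m => (h8 m).trans (by linarith)⟩
  exact one_div_le_one_div_of_le (by positivity) (by linarith)

theorem Gs_big93 [IsProbabilityMeasure ρ] (hρ : EM ρ) (β : ℝ) {θ η : ℝ} (hθ : 0 < θ) (hθ1 : θ ≤ 1)
    (hη : 0 < η) {B : Set (Vec 2)} (hBb : Bornology.IsBounded B) (hBm : MeasurableSet B)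
    (hB0 : volume B ≠ 0) (hvs : ∀ h ∈ B, VSD ρ β h) :
    ∃ i, volume B / 2 < volume (Gs ρ β θ η B i) := by
  refine exh93 volume hB0 hBb.measure_lt_top.ne _ (Gs_mono93 ρ β θ η B) ?_
  filter_upwards [aeDens93 (volume : Measure (Vec 2)) B hBm (ε := 1 / 9) (by norm_num)]
    with h hh hhB
  obtain ⟨n, hn⟩ := hh hhB
  have hvs' : lam ρ β h < Real.log (∫ x, Real.exp (β * x) ∂ρ) +
      Real.log (∑ e : Step 2, Real.exp (inner ℝ h (emb (vec e)))) := by
    have h1 : lam ρ β h < Real.log (Phi h) + Real.log (∫ t, Real.exp (β * t) ∂ρ) := hvs h hhB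
    have h2 : Real.log (Phi h) =
      Real.log (∑ e : Step 2, Real.exp (inner ℝ h (emb (vec e)))) := rfl
    linarith
  obtain ⟨k, y, u, hk1, hu1, hp⟩ := Pool.Agent.W_7d29a1_P79.pair79 (d := 2) (by norm_num) hρ
    ⟨lam ρ β h, β, h, 1⟩ (fun t h0 h1 => mainP (by norm_num) hρ ⟨lam ρ β h, β, h, 1⟩ rfl hvs' h0 h1)
    hθ hθ1
  have hk0 : (0 : ℝ) < k := by exact_mod_cast hk1
  obtain ⟨C, hC⟩ := dev93 (d := 2) (by norm_num) hρ β h (ε := η * u / k) (by positivity)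
  obtain ⟨i1, hi1⟩ := exists_nat_ge (max (max C u) k)
  have hi' : ((max i1 n : ℕ) : ℝ) ≥ i1 := by exact_mod_cast le_max_left i1 n
  have hn' : ((max i1 n : ℕ) : ℝ) ≥ n := by exact_mod_cast le_max_right i1 n
  refine ⟨max i1 n, hhB, fun v hv hvn => hn v hv (hvn.trans ?_), k, y, u, hk1, ?_, hu1, ?_, hp,
    fun m => (hC m).trans ?_⟩
  · exact one_div_le_one_div_of_le (by positivity) (by linarith)
  · exact ((le_max_right _ _).trans hi1).trans hi'
  · exact (((le_max_right _ _).trans (le_max_left _ _)).trans hi1).trans hi'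
  · have := (((le_max_left _ _).trans (le_max_left _ _)).trans hi1).trans hi'
    linarith

end Pool.Agent.W_7d29a1_R34
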