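import Pool.Agent.W_7d29a1_Q29.R6a65
import Pool.Agent.W_7d29a1_h46u.LamU

/-!
From sets of positive measure with a gap to almost every tilt of very strong disorder.
-/

namespace Pool.Agent.W_7d29a1_R34

open MeasureTheory ProbabilityTheory Filter Topology Pool.Agent.W_MP_7d29a1_pr
  Pool.Agent.W_7d29a1_h46 Pool.Agent.W_7d29a1_h46u Pool.Agent.W_7d29a1_Q29

/-- From the sets of positive measure on which `q` is bounded below to almost every point of
`{0 < q}`, with a rate. -/
theorem egoG81 {d : ℕ} {a : ℝ} (ha : 0 < a) (f : ℕ → Vec d → ℝ) (hf : ∀ n, Continuous (f n))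
    (hf0 : ∀ n h, 0 ≤ f n h) (q : Vec d → ℝ) (hq : Continuous q)
    (H : ∀ g : ℝ, 0 < g → ∀ B : Set (Vec d), Bornology.IsBounded B → MeasurableSet B →
      volume B ≠ 0 → (∀ h ∈ B, g ≤ q h) → ∃ c > 0, ∃ n₀ : ℕ, ∀ n ≥ n₀, ∀ K : ℝ,
        (∀ h ∈ B, ∀ m ≤ n, f m h ≤ K) → c * (Real.log n) ^ a ≤ K) :
    ∀ᵐ h : Vec d, 0 < q h → ∃ c > 0, ∃ᶠ n : ℕ in atTop, c * (Real.log n) ^ a ≤ f n h := by
  have hL0 : ∀ n : ℕ, 0 ≤ (Real.log n) ^ a := fun n =>
    Real.rpow_nonneg (Real.log_natCast_nonneg n) a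
  have key : ∀ j : ℕ, ∀ᵐ h : Vec d, ∃ c > 0, ∃ᶠ n : ℕ in atTop, c * (Real.log n) ^ a ≤
      f n h + (Real.log n) ^ a * max 0 (1 / ((j : ℝ) + 1) - q h) := by
    intro j
    have hg : (0 : ℝ) < 1 / ((j : ℝ) + 1) := by positivity
    set g : ℝ := 1 / ((j : ℝ) + 1) with hgdef
    refine ego65 ha (fun n h => f n h + (Real.log n) ^ a * max 0 (g - q h))
      (fun n => (hf n).add (continuous_const.mul (continuous_const.max
        (continuous_const.sub hq))))
      (fun n h => add_nonneg (hf0 n h) (mul_nonneg (hL0 n) (le_max_left _ _))) ?_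
    intro B hB hBm hBv
    set B' : Set (Vec d) := B ∩ {h | g / 2 ≤ q h} with hB'
    have hB'm : MeasurableSet B' :=
      hBm.inter (isClosed_le continuous_const hq).measurableSet
    by_cases hv : volume B' = 0
    · -- some point of `B` has `q < g / 2`
      have hne : (B \ B').Nonempty := by
        by_contra hcon
        rw [Set.not_nonempty_iff_eq_empty, Set.sdiff_eq_empty] at hcon
        exact hBv (measure_mono_null hcon hv)
      obtain ⟨x, hxB, hx⟩ := hne
      have hxq : q x < g / 2 := by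
        by_contra hcon
        exact hx ⟨hxB, not_lt.1 hcon⟩
      refine ⟨g / 2, by positivity, 0, fun n _ K hK => ?_⟩
      have h1 := hK x hxB n le_rfl
      have h2 : g / 2 ≤ max 0 (g - q x) := le_max_of_le_right (by linarith)
      have h3 := mul_le_mul_of_nonneg_left h2 (hL0 n)
      have h4 := hf0 n x
      linarith
    · obtain ⟨c, hc, n₀, h5⟩ := H (g / 2) (by positivity) B' (hB.subset Set.inter_subset_left)
        hB'm hv (fun h hh => hh.2)
      refine ⟨c, hc, n₀, fun n hn K hK => h5 n hn K fun h hh m hm => ?_⟩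
      have h6 := hK h hh.1 m hm
      have h7 : 0 ≤ (Real.log m) ^ a * max 0 (g - q h) :=
        mul_nonneg (hL0 m) (le_max_left _ _)
      linarith
  filter_upwards [ae_all_iff.2 key] with h hh hqh
  obtain ⟨j, hj⟩ := exists_nat_one_div_lt hqh
  have h1 := hh j
  have h2 : max 0 (1 / ((j : ℝ) + 1) - q h) = 0 := max_eq_left (by linarith)
  rw [h2] at h1
  simpa only [mul_zero, add_zero] using h1

variable {d : ℕ} {ρ : Measure ℝ} [IsProbabilityMeasure ρ]

omit [IsProbabilityMeasure ρ] in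
/-- The sum of the weights of the steps is positive and continuous. -/
lemma contPhi81 (hd : 0 < d) : (∀ h : Vec d, 0 < Phi h) ∧ Continuous fun h : Vec d => Phi h := by
  constructor
  · intro h
    unfold Phi
    have : Nonempty (Step d) := ⟨(⟨0, hd⟩, true)⟩
    exact Finset.sum_pos (fun e _ => Real.exp_pos _) Finset.univ_nonempty
  · unfold Phi
    refine continuous_finsetSum _ fun e _ => ?_
    exact Real.continuous_exp.comp (continuous_id.inner continuous_const)

/-- The gap is continuous in the tilt. -/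
theorem contVSD81 (hd : 0 < d) (hρ : EM ρ) (β : ℝ) : Continuous fun h : Vec d =>
    Real.log (Phi h) + Real.log (∫ t, Real.exp (β * t) ∂ρ) - lam ρ β h := by
  have h1 : Continuous fun h : Vec d => lam ρ β h :=
    (lam_convex hd hρ β).locallyLipschitz.continuous
  have h2 := contPhi81 hd
  exact ((h2.2.log fun h => (h2.1 h).ne').add continuous_const).sub h1

/-- Almost every tilt of very strong disorder. -/
theorem aeG81 (hd : 0 < d) (hρ : EM ρ) (β : ℝ)
    (hU : ∀ g : ℝ, 0 < g → ∀ B : Set (Vec d), Bornology.IsBounded B → MeasurableSet B →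
      volume B ≠ 0 →
      (∀ h ∈ B, lam ρ β h + g ≤ Real.log (Phi h) + Real.log (∫ t, Real.exp (β * t) ∂ρ)) →
      ∃ c > 0, ∃ n₀ : ℕ, ∀ n ≥ n₀, ∀ K : ℝ, (∀ h ∈ B, ∀ m ≤ n, Va ρ β h m ≤ K) →
        c * Real.log n ≤ K) :
    ∀ᵐ h : Vec d, VSD ρ β h → ∃ c : ℝ, 0 < c ∧ ∃ᶠ n : ℕ in atTop,
      c * Real.log n ≤ Va ρ β h n := by
  have h1 := egoG81 (a := 1) one_pos (fun n h => Va ρ β h n) (cont65 hd hρ β)
    (fun n h => integral_nonneg fun _ => sq_nonneg _) _ (contVSD81 hd hρ β)
    (fun g hg B hB hBm hBv hq => by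
      obtain ⟨c, hc, n₀, H⟩ := hU g hg B hB hBm hBv fun h hh => by
        have := hq h hh
        linarith
      refine ⟨c, hc, n₀, fun n hn K hK => ?_⟩
      rw [Real.rpow_one]
      exact H n hn K hK)
  filter_upwards [h1] with h hh hV
  unfold VSD at hV
  obtain ⟨c, hc, h2⟩ := hh (by linarith)
  refine ⟨c, hc, h2.mono fun n hn => ?_⟩
  rwa [Real.rpow_one] at hn

end Pool.Agent.W_7d29a1_R34
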