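import Pool.Agent.W_7d29a1_R34.Geo34
import Pool.Agent.W_7d29a1_Q29.Qt98
import Pool.Agent.W_7d29a1_h46u.FreeV

/-!
R3: the expected mass outside a window (sum over shells).
-/

namespace Pool.Agent.W_7d29a1_R34

open MeasureTheory ProbabilityTheory Filter Topology Pool.Agent.W_MP_7d29a1_pr
  Pool.Agent.W_7d29a1_h46 Pool.Agent.W_7d29a1_h46u Pool.Agent.W_7d29a1_D2.B35
  Pool.Agent.W_7d29a1_Q29

variable {ρ : Measure ℝ} [IsProbabilityMeasure ρ]

open Classical in
/-- The piece `k, j, s` of the shells. -/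
noncomputable def Pc (t : ℕ) (v : Vec 2) (w : ℝ) (kt k : ℕ) (j : Fin 2) (s : ℝ) :
    Finset (Site 2) :=
  (boxF 2 t).filter fun y => 16 ^ k * w ≤ s * (emb y - v) j ∧
    (∀ i, |(emb y - v) i| ≤ s * (emb y - v) j) ∧
    (k < kt → s * (emb y - v) j < 16 ^ (k + 1) * w)

lemma Pc_sub (t : ℕ) (v : Vec 2) (w : ℝ) (kt k : ℕ) (j : Fin 2) (s : ℝ) :
    Pc t v w kt k j s ⊆ boxF 2 t := Finset.filter_subset _ _

lemma Pc_card {t : ℕ} (ht : 1 ≤ t) (v : Vec 2) {w : ℝ} (hw : 1 ≤ w) {kt k : ℕ} (hk : k ≤ kt)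
    (hkt : (t : ℝ) ≤ 16 ^ (kt + 1) * w) (j : Fin 2) (s : ℝ) :
    ((Pc t v w kt k j s).card : ℝ) ≤ 9 * (16 ^ (k + 1) * w) ^ 2 := by
  classical
  have h16 : (1 : ℝ) ≤ 16 ^ (k + 1) := one_le_pow₀ (by norm_num)
  have hl : 1 ≤ 16 ^ (k + 1) * w := by nlinarith
  rcases lt_or_eq_of_le hk with hlt | rfl
  · refine card_sq _ v hl fun y hy i => ?_
    unfold Pc at hy
    rw [Finset.mem_filter] at hy
    exact (hy.2.2.1 i).trans (hy.2.2.2 hlt).le
  · have h1 : (((Pc t v w k k j s).card : ℕ) : ℝ) ≤ ((boxF 2 t).card : ℝ) := by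
      exact_mod_cast Finset.card_le_card (Pc_sub _ _ _ _ _ _ _)
    rw [card_boxF] at h1
    push_cast at h1
    have ht1 : (1 : ℝ) ≤ t := by exact_mod_cast ht
    refine h1.trans ?_
    have h2 : (2 * (t : ℝ) + 1) ^ 2 ≤ (3 * t) ^ 2 := by
      apply pow_le_pow_left₀ (by positivity)
      linarith
    have h3 : (t : ℝ) ^ 2 ≤ (16 ^ (k + 1) * w) ^ 2 := pow_le_pow_left₀ (by positivity) hkt 2
    nlinarith

open Classical in
/-- The pieces cover the complement of the window. -/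
lemma Pc_cover (t : ℕ) (v : Vec 2) {w : ℝ} (kt : ℕ) {y : Site 2} (hy : y ∈ boxF 2 t)
    (hout : ¬ ∀ j, |(emb y - v) j| < w) :
    ∃ k ≤ kt, ∃ j : Fin 2, ∃ s ∈ ({1, -1} : Finset ℝ), y ∈ Pc t v w kt k j s := by
  set u := emb y - v with hu
  obtain ⟨j, hj⟩ : ∃ j : Fin 2, ∀ i, |u i| ≤ |u j| := by
    rcases le_total |u 0| |u 1| with h | h
    · exact ⟨1, fun i => by fin_cases i <;> simp [h]⟩
    · exact ⟨0, fun i => by fin_cases i <;> simp [h]⟩
  obtain ⟨s, hs, hsu⟩ : ∃ s ∈ ({1, -1} : Finset ℝ), s * u j = |u j| := by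
    rcases le_total 0 (u j) with h | h
    · exact ⟨1, by simp, by rw [one_mul, abs_of_nonneg h]⟩
    · exact ⟨-1, by simp, by rw [abs_of_nonpos h]; ring⟩
  have hw : w ≤ |u j| := by
    push Not at hout
    obtain ⟨i, hi⟩ := hout
    exact hi.trans (hj i)
  have h0 : 16 ^ 0 * w ≤ |u j| := by simpa using hw
  refine ⟨Nat.findGreatest (fun k => 16 ^ k * w ≤ |u j|) kt, Nat.findGreatest_le _, j, s, hs, ?_⟩
  unfold Pc
  rw [Finset.mem_filter]
  refine ⟨hy, ?_, ?_, ?_⟩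
  · rw [hsu]
    exact Nat.findGreatest_spec (P := fun k => 16 ^ k * w ≤ |u j|) (Nat.zero_le kt) h0
  · intro i
    rw [hsu]
    exact hj i
  · intro hlt
    rw [hsu]
    have := Nat.findGreatest_is_greatest (P := fun k => 16 ^ k * w ≤ |u j|) (Nat.lt_succ_self _)
      (Nat.succ_le_of_lt hlt)
    exact not_le.1 this

/-- One piece. -/
lemma piece (hρ : EM ρ) {β : ℝ} (hBox : BoxR 2 ρ β) (hTail : TailR 2 ρ β) {K δ : ℝ} {h v : Vec 2}
    {n t : ℕ} (hK : 1 ≤ K) (ht : t ≤ n) (hVn : Va ρ β h n ≤ K) (hVm : Va ρ β h (n - t) ≤ K)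
    (hv : ∀ g : Vec 2, A ρ β h t + inner ℝ v (g - h) ≤ A ρ β g t)
    (hden : ∀ r : ℝ, 0 < r → r ≤ δ → ∀ (j : Fin 2) (s : ℝ), (s = 1 ∨ s = -1) →
      ∃ g : Vec 2, ‖g - h - (s * r) • ej j‖ ≤ r / 9 ∧ Va ρ β g t ≤ K)
    {r R' N : ℝ} (hr : 0 < r) (hrδ : r ≤ δ) (hR' : 0 < R')
    (hsd : ∀ j : Fin 2, A ρ β (h + (2 * r) • ej j) t + A ρ β (h - (2 * r) • ej j) t -
      2 * A ρ β h t ≤ R' / 2)
    {w : ℝ} {kt k : ℕ} (hgain : 4 * R' ≤ r * (16 ^ k * w)) (j : Fin 2) {s : ℝ}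
    (hs : s = 1 ∨ s = -1) (hN : ((Pc t v w kt k j s).card : ℝ) ≤ N) :
    ∫ η, ∑ y ∈ Pc t v w kt k j s, Qt β h n t y η ∂(law 2 ρ) ≤
      52 * K / R' ^ 2 + 2 / R' * Real.sqrt (K * N * St ρ β h n t) := by
  classical
  obtain ⟨g, hg1, hg2⟩ := hden r hr hrδ j s hs
  set z := g - h with hz
  have hgz : h + z = g := by rw [hz]; abel
  have hcv := A_convex (by norm_num : 0 < 2) hρ β t (d := 2) (ρ := ρ)
  have h2nd : A ρ β (h + z) t + A ρ β (h - z) t - 2 * A ρ β h t ≤ R' / 2 :=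
    cross (f := fun g => A ρ β g t) hcv (by positivity : 0 < 2 * r) (by positivity) h z
      (tiltsz z hr.le hs j hg1) hsd
  have h1 := hTail K R' h z v t hR' (by rw [hgz]; exact hg2) hv h2nd
  have hsub : Pc t v w kt k j s ⊆
      (boxF 2 t).filter (fun y => 2 * R' ≤ inner ℝ z (emb y - v)) := by
    intro y hy
    unfold Pc at hy
    rw [Finset.mem_filter] at hy ⊢
    refine ⟨hy.1, ?_⟩
    have h2 := dirn z (emb y - v) hr.le j hg1 hy.2.2.1
    have h3 := mul_le_mul_of_nonneg_left hy.2.1 hr.le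
    linarith
  have h2 : (law 2 ρ).real {η | Real.exp (A ρ β h t - R') <
      ∑ y ∈ Pc t v w kt k j s, PP β h η t y} ≤ 4 * K / R' ^ 2 := by
    refine le_trans (measureReal_mono ?_) h1
    intro η hη
    exact lt_of_lt_of_le hη (Finset.sum_le_sum_of_subset_of_nonneg hsub
      fun y _ _ => PP_nonneg _ _ _ _ _)
  have h3 := hBox K R' _ h n t (Pc t v w kt k j s) (Pc_sub _ _ _ _ _ _ _) ht hR' hVn hVm h2
  have hSt : 0 ≤ St ρ β h n t := integral_nonneg fun η => Finset.sum_nonneg fun _ _ => sq_nonneg _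
  have h4 : Real.sqrt (K * (Pc t v w kt k j s).card * St ρ β h n t) ≤
      Real.sqrt (K * N * St ρ β h n t) := by
    refine Real.sqrt_le_sqrt ?_
    exact mul_le_mul_of_nonneg_right (mul_le_mul_of_nonneg_left hN (by linarith)) hSt
  have h5 : Real.exp (-(R' / 4)) ≤ 32 * K / R' ^ 2 := by
    have h6 : (R' / 4) ^ 2 / 2 ≤ Real.exp (R' / 4) := by
      have := Real.quadratic_le_exp_of_nonneg (show 0 ≤ R' / 4 by positivity)
      nlinarith
    rw [Real.exp_neg, inv_le_comm₀ (Real.exp_pos _) (by positivity)]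
    refine le_trans ?_ h6
    rw [inv_div, div_le_iff₀ (by positivity)]
    nlinarith [sq_nonneg R']
  have h6 := mul_le_mul_of_nonneg_left h4 (show (0 : ℝ) ≤ 2 / R' by positivity)
  have h7 : 4 * K / R' ^ 2 + 16 * K / R' ^ 2 + 32 * K / R' ^ 2 = 52 * K / R' ^ 2 := by ring
  linarith

lemma geo_le {q : ℝ} (h0 : 0 ≤ q) (h1 : q < 1) (n : ℕ) :
    ∑ k ∈ Finset.range n, q ^ k ≤ (1 - q)⁻¹ := by
  rw [← tsum_geometric_of_lt_one h0 h1]
  exact (summable_geometric_of_lt_one h0 h1).sum_le_tsum _ fun k _ => pow_nonneg h0 k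

open Classical in
/-- The mass outside the window is at most the sum over the pieces. -/
lemma out_le (β : ℝ) (h v : Vec 2) {n t : ℕ} (ht : t ≤ n) (w : ℝ) (kt : ℕ) (η : Env 2) :
    1 - ∑ y ∈ (boxF 2 t).filter (fun y => ∀ j, |(emb y - v) j| < w), Qt β h n t y η ≤
      ∑ i ∈ Finset.range (kt + 1) ×ˢ ((Finset.univ : Finset (Fin 2)) ×ˢ ({1, -1} : Finset ℝ)),
        ∑ y ∈ Pc t v w kt i.1 i.2.1 i.2.2, Qt β h n t y η := by
  set I := Finset.range (kt + 1) ×ˢ ((Finset.univ : Finset (Fin 2)) ×ˢ ({1, -1} : Finset ℝ)) with hI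
  have hd : 0 < 2 := by norm_num
  have hQ0 : ∀ y, 0 ≤ Qt β h n t y η := fun y => S98.Qt_nonneg hd β h n t y η
  have h1 := Finset.sum_filter_add_sum_filter_not (boxF 2 t) (fun y => ∀ j, |(emb y - v) j| < w)
    (fun y => Qt β h n t y η)
  rw [S98.Qt_sum hd β h ht η] at h1
  have h2 : ∑ y ∈ (boxF 2 t).filter (fun y => ¬ ∀ j, |(emb y - v) j| < w), Qt β h n t y η ≤
      ∑ y ∈ boxF 2 t, ∑ i ∈ I,
        (if y ∈ Pc t v w kt i.1 i.2.1 i.2.2 then Qt β h n t y η else 0) := by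
    have hpos : ∀ y, ∀ i ∈ I,
        0 ≤ (if y ∈ Pc t v w kt i.1 i.2.1 i.2.2 then Qt β h n t y η else 0) := by
      intro y i _
      split_ifs
      · exact hQ0 y
      · exact le_rfl
    refine (Finset.sum_le_sum (g := fun y => ∑ i ∈ I,
        (if y ∈ Pc t v w kt i.1 i.2.1 i.2.2 then Qt β h n t y η else 0)) fun y hy => ?_).trans
      (Finset.sum_le_sum_of_subset_of_nonneg (Finset.filter_subset _ _) fun y _ _ =>
        Finset.sum_nonneg (hpos y))
    rw [Finset.mem_filter] at hy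
    obtain ⟨k, hk, j, s, hs, hmem⟩ := Pc_cover t v kt hy.1 hy.2
    have hi : (k, (j, s)) ∈ I := by
      rw [hI, Finset.mem_product, Finset.mem_product]
      exact ⟨Finset.mem_range.2 (Nat.lt_succ_of_le hk), Finset.mem_univ _, hs⟩
    have h3 := Finset.single_le_sum (f := fun i : ℕ × (Fin 2 × ℝ) =>
      (if y ∈ Pc t v w kt i.1 i.2.1 i.2.2 then Qt β h n t y η else 0)) (hpos y) hi
    simp only at h3
    rw [if_pos hmem] at h3
    exact h3
  rw [Finset.sum_comm] at h2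
  have h3 : ∀ i ∈ I, ∑ y ∈ boxF 2 t,
      (if y ∈ Pc t v w kt i.1 i.2.1 i.2.2 then Qt β h n t y η else 0) =
      ∑ y ∈ Pc t v w kt i.1 i.2.1 i.2.2, Qt β h n t y η := by
    intro i _
    rw [Finset.sum_ite_mem, Finset.inter_eq_right.2 (Pc_sub _ _ _ _ _ _ _)]
  rw [Finset.sum_congr rfl h3] at h2
  linarith

/-- **R3 with a free window.** -/
theorem leak34 (hρ : EM ρ) {β : ℝ} (hBox : BoxR 2 ρ β) (hTail : TailR 2 ρ β) : LeakR ρ β := by
  classical
  intro M K δ W h v n t hM hK hδ hδ1 ht1 htn hW hWδ hVn hVm hv hden hsd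
  have hd : 0 < 2 := by norm_num
  have hQ0 : ∀ y η, 0 ≤ Qt β h n t y η := fun y η => S98.Qt_nonneg hd β h n t y η
  have hQI : ∀ y, Integrable (Qt β h n t y) (law 2 ρ) := fun y =>
    Integrable.mono' (integrable_const 1) (S98.measurable_Qt β h n t y).aestronglyMeasurable
      (Filter.Eventually.of_forall fun η => S98.Qt_abs hd β h htn y η)
  have hSt : 0 ≤ St ρ β h n t := integral_nonneg fun η => Finset.sum_nonneg fun _ _ => sq_nonneg _
  have ht0 : (0 : ℝ) < t := by exact_mod_cast ht1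
  have hst : 0 < Real.sqrt t := Real.sqrt_pos.2 ht0
  have hst2 : Real.sqrt t * Real.sqrt t = t := Real.mul_self_sqrt ht0.le
  have hM0 : 0 < M := by linarith
  have hB0 : 0 ≤ 15000 * M * Real.sqrt (K * t * St ρ β h n t) / W := by positivity
  have hLI : Integrable (fun η => 1 - ∑ y ∈ (boxF 2 t).filter
      (fun y => ∀ j, |(emb y - v) j| < W * Real.sqrt t), Qt β h n t y η) (law 2 ρ) :=
    (integrable_const 1).sub (integrable_finsetSum _ fun y _ => hQI y)
  by_cases hsm : W ^ 4 < 22 * 10 ^ 4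
  · have h1 : ∫ η, (1 - ∑ y ∈ (boxF 2 t).filter (fun y => ∀ j, |(emb y - v) j| < W * Real.sqrt t),
        Qt β h n t y η) ∂(law 2 ρ) ≤ 1 := by
      have := integral_mono hLI (integrable_const (1 : ℝ)) (fun η => by
        have := Finset.sum_nonneg (s := (boxF 2 t).filter
          (fun y => ∀ j, |(emb y - v) j| < W * Real.sqrt t)) (fun y _ => hQ0 y η)
        simp only
        linarith)
      simpa using this
    have h2 : 1 ≤ 22 * 10 ^ 4 * M ^ 2 * K / W ^ 4 := by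
      rw [le_div_iff₀ (by positivity), one_mul]
      have h3 : (1 : ℝ) ≤ M ^ 2 * K := by nlinarith
      nlinarith
    linarith
  push Not at hsm
  have hW1 : 1 ≤ W := by
    by_contra hc
    push Not at hc
    have := pow_le_one₀ (n := 4) hW.le hc.le
    norm_num at hsm
    linarith
  have hs1 : 1 ≤ Real.sqrt t := by
    rw [Real.one_le_sqrt]
    exact_mod_cast ht1
  set w : ℝ := W * Real.sqrt t with hw
  have hw1 : 1 ≤ w := by nlinarith
  have hδ4 : δ ^ 4 ≤ 1 := pow_le_one₀ hδ.le hδ1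
  have hWs : W ≤ Real.sqrt t := hWδ.trans (mul_le_of_le_one_left hst.le hδ4)
  have hwt : w ≤ t := by
    calc w ≤ Real.sqrt t * Real.sqrt t := mul_le_mul_of_nonneg_right hWs hst.le
      _ = t := hst2
  have hex : ∃ k : ℕ, (t : ℝ) ≤ 16 ^ (k + 1) * w := by
    refine ⟨t, ?_⟩
    have h1 : ((t : ℕ) : ℝ) ≤ ((16 ^ (t + 1) : ℕ) : ℝ) := by
      have h2 : t < 16 ^ t := Nat.lt_pow_self (by norm_num)
      have h3 : 16 ^ t ≤ 16 ^ (t + 1) := Nat.pow_le_pow_right (by norm_num) (Nat.le_succ t)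
      exact_mod_cast h2.le.trans h3
    push_cast at h1
    have h4 : (0 : ℝ) ≤ 16 ^ (t + 1) := by positivity
    nlinarith
  set kt := Nat.find hex with hktd
  have hkt : (t : ℝ) ≤ 16 ^ (kt + 1) * w := Nat.find_spec hex
  have hle : ∀ k ≤ kt, 16 ^ k * w ≤ t := by
    intro k hk
    rcases k with _ | m
    · simpa using hwt
    · exact (not_le.1 (Nat.find_min hex (Nat.lt_of_succ_le hk))).le
  have hrδ : ∀ k ≤ kt, rw' M W t k ≤ δ := by
    intro k hk
    have h1 : 16 ^ k * W ≤ Real.sqrt t := by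
      have h2 := hle k hk
      rw [hw] at h2
      have h3 : 16 ^ k * W * Real.sqrt t ≤ Real.sqrt t * Real.sqrt t := by
        rw [hst2]
        linarith
      exact le_of_mul_le_mul_right h3 hst
    have h2 : 8 ^ k * W ≤ δ * Real.sqrt t := by
      refine (pow_le_pow_iff_left₀ (by positivity) (by positivity) (by norm_num : 4 ≠ 0)).1 ?_
      have e1 : (8 ^ k * W) ^ 4 = (16 ^ k * W) ^ 3 * W := by
        have : ((8 : ℝ) ^ k) ^ 4 = (16 ^ k) ^ 3 := by
          rw [← pow_mul, ← pow_mul, mul_comm k 4, mul_comm k 3, pow_mul, pow_mul]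
          norm_num
        calc (8 ^ k * W) ^ 4 = ((8 : ℝ) ^ k) ^ 4 * W ^ 4 := by ring
          _ = (16 ^ k) ^ 3 * W ^ 4 := by rw [this]
          _ = (16 ^ k * W) ^ 3 * W := by ring
      rw [e1]
      calc (16 ^ k * W) ^ 3 * W ≤ Real.sqrt t ^ 3 * (δ ^ 4 * Real.sqrt t) :=
            mul_le_mul (pow_le_pow_left₀ (by positivity) h1 3) hWδ hW.le (by positivity)
        _ = (δ * Real.sqrt t) ^ 4 := by ring
    unfold rw'
    rw [div_le_iff₀ (by positivity)]
    have h3 : δ * Real.sqrt t * 1 ≤ δ * Real.sqrt t * (8 * M) :=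
      mul_le_mul_of_nonneg_left (by linarith) (by positivity)
    nlinarith
  have hr0 : ∀ k, 0 < rw' M W t k := fun k => by
    unfold rw'
    positivity
  set R' : ℕ → ℝ := fun k => 128 ^ k * W ^ 2 / (32 * M) with hR'
  have hR0 : ∀ k, 0 < R' k := fun k => by
    simp only [hR']
    positivity
  have e128 : ∀ k : ℕ, (128 : ℝ) ^ k = 8 ^ k * 16 ^ k := fun k => by
    rw [← mul_pow]
    norm_num
  have e128' : ∀ k : ℕ, (128 : ℝ) ^ k = 2 ^ k * (8 ^ k) ^ 2 := fun k => by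
    rw [← pow_mul, mul_comm k 2, pow_mul, ← mul_pow]
    norm_num
  set S := St ρ β h n t with hS
  set Y := Real.sqrt (K * t * S) with hY
  have hpiece : ∀ k ≤ kt, ∀ (j : Fin 2) (s : ℝ), (s = 1 ∨ s = -1) →
      ∫ η, ∑ y ∈ Pc t v w kt k j s, Qt β h n t y η ∂(law 2 ρ) ≤
        53248 * M ^ 2 * K / W ^ 4 * (1 / 16384) ^ k + 3072 * M * Y / W * (1 / 8) ^ k := by
    intro k hk j s hs
    have h1 := piece (ρ := ρ) hρ hBox hTail (δ := δ) hK htn hVn hVm hv hden (hr0 k) (hrδ k hk)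
      (hR0 k) (fun j => by
        refine (hsd k (hrδ k hk) j).trans (le_of_eq ?_)
        simp only [hR']
        unfold rw'
        rw [e128' k, div_pow, mul_pow (8 * M) (Real.sqrt t) 2, Real.sq_sqrt ht0.le]
        field_simp
        ring) (w := w) (kt := kt) (k := k) (by
        simp only [hR']
        unfold rw'
        rw [e128 k, hw]
        refine le_of_eq ?_
        field_simp
        ring) j hs (Pc_card ht1 v hw1 hk hkt j s)
    refine h1.trans (add_le_add (le_of_eq ?_) (le_of_eq ?_))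
    · simp only [hR']
      have e1 : ((1 : ℝ) / 16384) ^ k = 1 / (128 ^ k) ^ 2 := by
        rw [one_div_pow, ← pow_mul, mul_comm k 2, pow_mul]
        norm_num
      rw [e1]
      field_simp
      ring
    · have e2 : Real.sqrt (K * (9 * (16 ^ (k + 1) * w) ^ 2) * S) = 48 * 16 ^ k * W * Y := by
        have e3 : K * (9 * (16 ^ (k + 1) * w) ^ 2) * S = (48 * 16 ^ k * W) ^ 2 * (K * t * S) := by
          rw [hw, mul_pow (16 ^ (k + 1)) (W * Real.sqrt t) 2, mul_pow W (Real.sqrt t) 2,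
            Real.sq_sqrt ht0.le]
          ring
        rw [e3, Real.sqrt_mul (by positivity), Real.sqrt_sq (by positivity)]
      rw [e2]
      simp only [hR']
      have e4 : ((1 : ℝ) / 8) ^ k = 16 ^ k / 128 ^ k := by
        rw [e128, one_div_pow]
        field_simp
      rw [e4]
      field_simp
      ring
  set I := Finset.range (kt + 1) ×ˢ ((Finset.univ : Finset (Fin 2)) ×ˢ ({1, -1} : Finset ℝ)) with hI
  have hPI : ∀ i ∈ I, Integrable (fun η => ∑ y ∈ Pc t v w kt i.1 i.2.1 i.2.2, Qt β h n t y η)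
      (law 2 ρ) := fun i _ => integrable_finsetSum _ fun y _ => hQI y
  have h1 := integral_mono hLI (integrable_finsetSum I hPI)
    (fun η => out_le β h v htn w kt η)
  rw [integral_finsetSum I hPI] at h1
  have h2 : ∑ i ∈ I, ∫ η, ∑ y ∈ Pc t v w kt i.1 i.2.1 i.2.2, Qt β h n t y η ∂(law 2 ρ) ≤
      ∑ i ∈ I, (53248 * M ^ 2 * K / W ^ 4 * (1 / 16384) ^ i.1 + 3072 * M * Y / W * (1 / 8) ^ i.1) := by
    refine Finset.sum_le_sum fun i hi => ?_
    rw [hI, Finset.mem_product, Finset.mem_product, Finset.mem_range] at hi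
    refine hpiece i.1 (Nat.lt_succ_iff.1 hi.1) i.2.1 i.2.2 ?_
    have := hi.2.2
    simpa using this
  have h3 : ∑ i ∈ I, (53248 * M ^ 2 * K / W ^ 4 * (1 / 16384) ^ i.1 +
      3072 * M * Y / W * (1 / 8) ^ i.1) =
      4 * ∑ k ∈ Finset.range (kt + 1), (53248 * M ^ 2 * K / W ^ 4 * (1 / 16384) ^ k +
        3072 * M * Y / W * (1 / 8) ^ k) := by
    rw [hI, Finset.sum_product, Finset.mul_sum]
    refine Finset.sum_congr rfl fun k _ => ?_
    simp only [Finset.sum_const, Finset.card_product, Finset.card_univ, Fintype.card_fin,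
      nsmul_eq_mul]
    rw [Finset.card_pair (by norm_num)]
    push_cast
    ring
  rw [h3, Finset.sum_add_distrib, ← Finset.mul_sum, ← Finset.mul_sum] at h2
  have g1 := geo_le (q := 1 / 16384) (by norm_num) (by norm_num) (kt + 1)
  have g2 := geo_le (q := 1 / 8) (by norm_num) (by norm_num) (kt + 1)
  have ha : 0 ≤ 53248 * M ^ 2 * K / W ^ 4 := by positivity
  have hb : 0 ≤ 3072 * M * Y / W := by positivity
  have g3 := mul_le_mul_of_nonneg_left g1 ha
  have g4 := mul_le_mul_of_nonneg_left g2 hb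
  norm_num at g3 g4
  have e5 : 22 * 10 ^ 4 * M ^ 2 * K / W ^ 4 = 22 * 10 ^ 4 / 53248 * (53248 * M ^ 2 * K / W ^ 4) := by
    field_simp
  have e6 : 15000 * M * Y / W = 15000 / 3072 * (3072 * M * Y / W) := by
    field_simp
  rw [e5, e6]
  linarith

end Pool.Agent.W_7d29a1_R34
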