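import Pool.Agent.W_7d29a1_R34.UniG93
import Pool.Agent.W_7d29a1_R34.EgoG81
import Pool.Agent.W_7d29a1_R34.Leak34
import Pool.Agent.W_7d29a1_R34.Box34
import Pool.Agent.W_7d29a1_R34.Tail13
import Pool.Agent.W_7d29a1_Q29.Clos85

/-!
Very strong disorder in two transversal dimensions: for almost every tilt the variance of the
logarithm of the partition function is infinitely often at least a constant times `log n`.
-/

namespace Pool.Agent.W_7d29a1_R34

open MeasureTheory ProbabilityTheory Filter Topology Pool.Agent.W_MP_7d29a1_pr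
  Pool.Agent.W_7d29a1_h46 Pool.Agent.W_7d29a1_h46u Pool.Agent.W_7d29a1_D2.B35
  Pool.Agent.W_7d29a1_Q29

variable {ρ : Measure ℝ} [IsProbabilityMeasure ρ]

/-- The uniform lower bound, with no hypothesis left. -/
theorem uniG93' (hρ : EM ρ) (hnc : ∀ c : ℝ, ρ {c} ≠ 1) {β : ℝ} (hβ : 0 < β) : UniG ρ β :=
  uniG93 hρ (leak34 hρ (box34 (by norm_num) hρ β) (tail13 (by norm_num) hρ β))
    (npb98 (by norm_num) hρ hnc hβ) (npf98 (by norm_num) hρ hnc hβ)
    (Csy42.loc42 (by norm_num) hρ β) (lowP85 (by norm_num) hρ β)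

/-- **Theorem R+.** -/
theorem rplus93 (hρ : EM ρ) (hnc : ∀ c : ℝ, ρ {c} ≠ 1) {β : ℝ} (hβ : 0 < β) :
    ∀ᵐ h : Vec 2, VSD ρ β h → ∃ c : ℝ, 0 < c ∧ ∃ᶠ n : ℕ in atTop,
      c * Real.log n ≤ Va ρ β h n :=
  aeG81 (by norm_num) hρ β fun g hg B hB hBm hBv hq => by
    obtain ⟨c, hc, n₀, H⟩ := uniG93' hρ hnc hβ g hg B hB hBm hBv hq
    exact ⟨c, hc, n₀, fun n hn K hK => H n hn K hK⟩

end Pool.Agent.W_7d29a1_R34
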