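import Pool.Agent.W_7d29a1_R34.Piece13
import Pool.Agent.W_7d29a1_Q29.SumA98

/-!
R3: the sum over the sectors of the shells, with a free window (helper13).
-/

namespace Pool.Agent.W_7d29a1_R34

open MeasureTheory ProbabilityTheory Filter Topology Pool.Agent.W_MP_7d29a1_pr
  Pool.Agent.W_7d29a1_h46 Pool.Agent.W_7d29a1_h46u Pool.Agent.W_7d29a1_D2.B35
  Pool.Agent.W_7d29a1_Q29

/-- The number of sites of a square. -/
lemma card13 {v : Vec 2} {r : ℝ} (hr : 0 ≤ r) (R : Finset (Site 2))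
    (hR : ∀ y ∈ R, ∀ i : Fin 2, |(emb y - v) i| ≤ r) : (R.card : ℝ) ≤ (2 * r + 1) ^ 2 := by
  classical
  have hsub : R ⊆ Fintype.piFinset fun i : Fin 2 => Finset.Icc ⌈v i - r⌉ ⌊v i + r⌋ := by
    intro y hy
    rw [Fintype.mem_piFinset]
    intro i
    have h1 := abs_le.1 (hR y hy i)
    have h2 : (emb y - v) i = (y i : ℝ) - v i := by
      simp [emb]
    rw [h2] at h1
    rw [Finset.mem_Icc, Int.ceil_le, Int.le_floor]
    constructor <;> linarith [h1.1, h1.2]
  have h1 : R.card ≤ ∏ i : Fin 2, (Finset.Icc ⌈v i - r⌉ ⌊v i + r⌋).card := by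
    rw [← Fintype.card_piFinset]
    exact Finset.card_le_card hsub
  have h2 : ∀ i : Fin 2, (((Finset.Icc ⌈v i - r⌉ ⌊v i + r⌋).card : ℕ) : ℝ) ≤ 2 * r + 1 := by
    intro i
    rw [Int.card_Icc]
    rcases le_total 0 (⌊v i + r⌋ + 1 - ⌈v i - r⌉) with h3 | h3
    · have h4 : ((((⌊v i + r⌋ + 1 - ⌈v i - r⌉).toNat : ℕ) : ℤ) : ℝ)
          = ((⌊v i + r⌋ + 1 - ⌈v i - r⌉ : ℤ) : ℝ) := by rw [Int.toNat_of_nonneg h3]
      have h5 : (((⌊v i + r⌋ + 1 - ⌈v i - r⌉).toNat : ℕ) : ℝ)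
          = ((((⌊v i + r⌋ + 1 - ⌈v i - r⌉).toNat : ℕ) : ℤ) : ℝ) := by norm_cast
      rw [h5, h4]
      push_cast
      have h6 := Int.floor_le (v i + r)
      have h7 := Int.le_ceil (v i - r)
      linarith
    · rw [Int.toNat_of_nonpos h3]
      norm_num
      linarith
  calc (R.card : ℝ) ≤ ((∏ i : Fin 2, (Finset.Icc ⌈v i - r⌉ ⌊v i + r⌋).card : ℕ) : ℝ) := by
        exact_mod_cast h1
    _ = ∏ i : Fin 2, ((Finset.Icc ⌈v i - r⌉ ⌊v i + r⌋).card : ℝ) := by push_cast; rfl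
    _ ≤ ∏ _i : Fin 2, (2 * r + 1) :=
        Finset.prod_le_prod (fun i _ => by positivity) fun i _ => h2 i
    _ = (2 * r + 1) ^ 2 := by rw [Finset.prod_const, Finset.card_univ, Fintype.card_fin]

/-- The sector of a vector. -/
lemma sector13 (w : Vec 2) : ∃ j : Fin 2, ∃ s : ℝ, s ∈ ({1, -1} : Finset ℝ) ∧
    ∀ i : Fin 2, |w i| ≤ s * w j := by
  have key : ∃ j : Fin 2, ∀ i : Fin 2, |w i| ≤ |w j| := by
    rcases le_total |w 0| |w 1| with h | h
    · refine ⟨1, fun i => ?_⟩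
      fin_cases i
      · exact h
      · exact le_rfl
    · refine ⟨0, fun i => ?_⟩
      fin_cases i
      · exact le_rfl
      · exact h
  obtain ⟨j, hj⟩ := key
  rcases le_total 0 (w j) with h | h
  · refine ⟨j, 1, by simp, fun i => ?_⟩
    rw [one_mul]
    exact (hj i).trans (le_of_eq (abs_of_nonneg h))
  · refine ⟨j, -1, by simp, fun i => ?_⟩
    rw [neg_one_mul]
    exact (hj i).trans (le_of_eq (abs_of_nonpos h))

lemma geo8 (N : ℕ) : ∑ k ∈ Finset.range N, 1 / (8 : ℝ) ^ k ≤ 8 / 7 := by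
  have h1 : ∑ k ∈ Finset.range N, 1 / (8 : ℝ) ^ k = 8 / 7 - 8 / 7 / 8 ^ N := by
    induction N with
    | zero => norm_num
    | succ N ih =>
      rw [Finset.sum_range_succ, ih, pow_succ]
      field_simp
      ring
  rw [h1]
  have : (0 : ℝ) < 8 / 7 / 8 ^ N := by positivity
  linarith

lemma geo128 (N : ℕ) : ∑ k ∈ Finset.range N, 1 / ((128 : ℝ) ^ k) ^ 2 ≤ 16384 / 16383 := by
  have h1 : ∑ k ∈ Finset.range N, 1 / ((128 : ℝ) ^ k) ^ 2
      = 16384 / 16383 - 16384 / 16383 / (128 ^ N) ^ 2 := by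
    induction N with
    | zero => norm_num
    | succ N ih =>
      rw [Finset.sum_range_succ, ih, pow_succ (128 : ℝ) N]
      field_simp
      ring
  rw [h1]
  have : (0 : ℝ) < 16384 / 16383 / (128 ^ N) ^ 2 := by positivity
  linarith

variable {ρ : Measure ℝ} [IsProbabilityMeasure ρ]

lemma Qt_int13 (β : ℝ) (h : Vec 2) {n t : ℕ} (ht : t ≤ n) (y : Site 2) :
    Integrable (fun η => Qt β h n t y η) (law 2 ρ) :=
  Integrable.mono' (integrable_const (1 : ℝ)) (S98.measurable_Qt β h n t y).aestronglyMeasurable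
    (Eventually.of_forall fun η => by
      rw [Real.norm_eq_abs]
      exact S98.Qt_abs two_pos β h ht y η)

lemma out_eq13 (β : ℝ) (h : Vec 2) {n t : ℕ} (ht : t ≤ n) (p : Site 2 → Prop) [DecidablePred p]
    (η : Env 2) : 1 - ∑ y ∈ (boxF 2 t).filter p, Qt β h n t y η =
      ∑ y ∈ (boxF 2 t).filter (fun y => ¬ p y), Qt β h n t y η := by
  rw [← S98.Qt_sum two_pos β h ht η, ← Finset.sum_filter_add_sum_filter_not (boxF 2 t) p]
  ring

/-- **R3 with a free window.** -/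
theorem leak13 (hρ : EM ρ) {β : ℝ} (hB : BoxR 2 ρ β) (hT : TailR 2 ρ β) : LeakR ρ β := by
  classical
  intro M K δ W h v n t hM hK hδ0 hδ1 ht htn hW0 hWt hVn hVt hv hden hsd
  have hS := St_nonneg13 ρ β h n t
  have hσ : 0 < Real.sqrt t := Real.sqrt_pos.2 (by exact_mod_cast ht)
  have hσ1 : 1 ≤ Real.sqrt t := Real.one_le_sqrt.2 (by exact_mod_cast ht)
  have hσ2 : Real.sqrt t ^ 2 = t := Real.sq_sqrt (by positivity)
  have hM0 : 0 < M := by linarith
  have hK0 : 0 < K := by linarith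
  set p : Site 2 → Prop := fun y => ∀ j : Fin 2, |(emb y - v) j| < W * Real.sqrt t with hp
  have hle1 : ∫ η, (1 - ∑ y ∈ (boxF 2 t).filter p, Qt β h n t y η) ∂(law 2 ρ) ≤ 1 := by
    have h1 : ∫ η, (1 - ∑ y ∈ (boxF 2 t).filter p, Qt β h n t y η) ∂(law 2 ρ) ≤
        ∫ _η : Env 2, (1 : ℝ) ∂(law 2 ρ) := by
      refine integral_mono ((integrable_const _).sub
        (integrable_finsetSum _ fun y _ => Qt_int13 β h htn y)) (integrable_const _) fun η => ?_
      have : 0 ≤ ∑ y ∈ (boxF 2 t).filter p, Qt β h n t y η :=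
        Finset.sum_nonneg fun y _ => S98.Qt_nonneg two_pos β h n t y η
      show 1 - ∑ y ∈ (boxF 2 t).filter p, Qt β h n t y η ≤ 1
      linarith
    simpa using h1
  rcases lt_or_ge W 1 with hWlt | hW
  · refine hle1.trans ?_
    have h1 : 1 ≤ 22 * 10 ^ 4 * M ^ 2 * K / W ^ 4 := by
      rw [le_div_iff₀ (by positivity)]
      have h2 : W ^ 4 ≤ 1 := pow_le_one₀ hW0.le hWlt.le
      have h3 : 1 ≤ M ^ 2 := one_le_pow₀ hM
      have h4 : 1 ≤ M ^ 2 * K := one_le_mul_of_one_le_of_one_le h3 hK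
      linarith
    have h2 : 0 ≤ 15000 * M * Real.sqrt (K * t * St ρ β h n t) / W := by positivity
    linarith
  -- the last shell
  have hex : ∃ k : ℕ, (t : ℝ) ≤ 16 ^ (k + 1) * W * Real.sqrt t := by
    obtain ⟨k, hk⟩ := pow_unbounded_of_one_lt (t : ℝ) (show (1 : ℝ) < 16 by norm_num)
    refine ⟨k, ?_⟩
    have h1 : (16 : ℝ) ^ k ≤ 16 ^ (k + 1) := pow_le_pow_right₀ (by norm_num) (Nat.le_succ k)
    have h2 : (16 : ℝ) ^ (k + 1) ≤ 16 ^ (k + 1) * W := le_mul_of_one_le_right (by positivity) hW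
    have h3 : (16 : ℝ) ^ (k + 1) * W ≤ 16 ^ (k + 1) * W * Real.sqrt t :=
      le_mul_of_one_le_right (by positivity) hσ1
    linarith
  set kt : ℕ := Nat.find hex with hkt
  have hkt1 : (t : ℝ) ≤ 16 ^ (kt + 1) * W * Real.sqrt t := Nat.find_spec hex
  have hkt2 : ∀ k ≤ kt, 16 ^ k * W ≤ Real.sqrt t := by
    intro k hk
    rcases Nat.eq_zero_or_pos k with rfl | hk0
    · rw [pow_zero, one_mul]
      refine hWt.trans ?_
      have h1 : δ ^ 4 ≤ 1 := pow_le_one₀ hδ0.le hδ1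
      nlinarith
    · have h1 := Nat.find_min hex (show k - 1 < kt by omega)
      rw [Nat.sub_add_cancel hk0, not_le] at h1
      have h2 : 16 ^ k * W * Real.sqrt t < Real.sqrt t * Real.sqrt t := by
        rw [Real.mul_self_sqrt (by positivity)]
        exact h1
      exact (lt_of_mul_lt_mul_right h2 hσ.le).le
  have hrwδ : ∀ k ≤ kt, rw' M W t k ≤ δ := by
    intro k hk
    have h1 := hkt2 k hk
    have h2 : rw' M W t k ^ 4 ≤ δ ^ 4 := by
      have h3 : ((8 : ℝ) ^ k) ^ 4 = (16 ^ k) ^ 3 := by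
        rw [← pow_mul, ← pow_mul, mul_comm k 4, mul_comm k 3, pow_mul, pow_mul]
        norm_num
      have h4 : (16 ^ k * W) ^ 3 ≤ Real.sqrt t ^ 3 := pow_le_pow_left₀ (by positivity) h1 3
      unfold rw'
      rw [div_pow, div_le_iff₀ (by positivity), mul_pow, h3]
      have h5 : (16 ^ k : ℝ) ^ 3 * W ^ 4 = (16 ^ k * W) ^ 3 * W := by ring
      rw [h5]
      have h6 : (16 ^ k * W) ^ 3 * W ≤ Real.sqrt t ^ 3 * (δ ^ 4 * Real.sqrt t) :=
        mul_le_mul h4 hWt hW0.le (by positivity)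
      have h7 : Real.sqrt t ^ 3 * (δ ^ 4 * Real.sqrt t) = δ ^ 4 * Real.sqrt t ^ 4 * 1 := by ring
      have h8 : (1 : ℝ) ≤ (8 * M) ^ 4 := one_le_pow₀ (by linarith)
      calc (16 ^ k * W) ^ 3 * W ≤ δ ^ 4 * Real.sqrt t ^ 4 * 1 := by rw [← h7]; exact h6
        _ ≤ δ ^ 4 * Real.sqrt t ^ 4 * (8 * M) ^ 4 :=
            mul_le_mul_of_nonneg_left h8 (by positivity)
        _ = δ ^ 4 * (8 * M * Real.sqrt t) ^ 4 := by ring
    exact le_of_pow_le_pow_left₀ (by norm_num) hδ0.le h2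
  -- the pieces
  set Rf : ℕ × Fin 2 × ℝ → Finset (Site 2) := fun x => (boxF 2 t).filter fun y =>
    (∀ i : Fin 2, |(emb y - v) i| ≤ x.2.2 * (emb y - v) x.2.1) ∧
      16 ^ x.1 * W * Real.sqrt t ≤ x.2.2 * (emb y - v) x.2.1 ∧
      (x.1 < kt → x.2.2 * (emb y - v) x.2.1 < 16 ^ (x.1 + 1) * W * Real.sqrt t) with hRf
  set I : Finset (ℕ × Fin 2 × ℝ) :=
    Finset.range (kt + 1) ×ˢ (Finset.univ : Finset (Fin 2)) ×ˢ ({1, -1} : Finset ℝ) with hI
  have hcov : ∀ y ∈ (boxF 2 t).filter (fun y => ¬ p y), ∃ x ∈ I, y ∈ Rf x := by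
    intro y hy
    obtain ⟨hy1, hy2⟩ := Finset.mem_filter.1 hy
    obtain ⟨j, s, hs, hjs⟩ := sector13 (emb y - v)
    have hfar : W * Real.sqrt t ≤ s * (emb y - v) j := by
      simp only [hp] at hy2
      push Not at hy2
      obtain ⟨i, hi⟩ := hy2
      exact hi.trans (hjs i)
    set k : ℕ := Nat.findGreatest (fun k => 16 ^ k * W * Real.sqrt t ≤ s * (emb y - v) j) kt
      with hk
    have hP0 : (16 : ℝ) ^ 0 * W * Real.sqrt t ≤ s * (emb y - v) j := by
      rw [pow_zero, one_mul]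
      exact hfar
    have hk1 : (16 : ℝ) ^ k * W * Real.sqrt t ≤ s * (emb y - v) j :=
      Nat.findGreatest_spec (P := fun k => (16 : ℝ) ^ k * W * Real.sqrt t ≤ s * (emb y - v) j)
        (Nat.zero_le kt) hP0
    have hk2 : k ≤ kt := Nat.findGreatest_le kt
    have hk3 : k < kt → s * (emb y - v) j < 16 ^ (k + 1) * W * Real.sqrt t := by
      intro hlt
      have h1 := Nat.findGreatest_is_greatest
        (P := fun k => (16 : ℝ) ^ k * W * Real.sqrt t ≤ s * (emb y - v) j) (n := kt)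
        (k := k + 1) (Nat.lt_succ_self k) (by omega)
      exact not_le.1 h1
    refine ⟨(k, j, s), ?_, ?_⟩
    · rw [hI]
      simp only [Finset.mem_product, Finset.mem_range, Finset.mem_univ, true_and]
      exact ⟨by omega, hs⟩
    · rw [hRf]
      exact Finset.mem_filter.2 ⟨hy1, hjs, hk1, hk3⟩
  have hpt : ∀ η : Env 2, 1 - ∑ y ∈ (boxF 2 t).filter p, Qt β h n t y η ≤
      ∑ x ∈ I, ∑ y ∈ Rf x, Qt β h n t y η := by
    intro η
    rw [out_eq13 β h htn p η]
    have h1 : ∑ y ∈ (boxF 2 t).filter (fun y => ¬ p y), Qt β h n t y η ≤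
        ∑ y ∈ (boxF 2 t).filter (fun y => ¬ p y),
          ∑ x ∈ I, (if y ∈ Rf x then Qt β h n t y η else 0) := by
      refine Finset.sum_le_sum fun y hy => ?_
      obtain ⟨x, hx, hyx⟩ := hcov y hy
      refine le_trans (le_of_eq ?_) (Finset.single_le_sum (f := fun x =>
        if y ∈ Rf x then Qt β h n t y η else 0) (fun x _ => ?_) hx)
      · simp only [if_pos hyx]
      · show (0 : ℝ) ≤ if y ∈ Rf x then Qt β h n t y η else 0
        split_ifs
        · exact S98.Qt_nonneg two_pos β h n t y η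
        · exact le_rfl
    refine h1.trans ?_
    rw [Finset.sum_comm]
    refine Finset.sum_le_sum fun x _ => ?_
    rw [Finset.sum_ite_mem]
    exact Finset.sum_le_sum_of_subset_of_nonneg Finset.inter_subset_right fun y _ _ =>
      S98.Qt_nonneg two_pos β h n t y η
  have hint : ∫ η, (1 - ∑ y ∈ (boxF 2 t).filter p, Qt β h n t y η) ∂(law 2 ρ) ≤
      ∑ x ∈ I, ∫ η, ∑ y ∈ Rf x, Qt β h n t y η ∂(law 2 ρ) := by
    rw [← integral_finsetSum _ fun x _ => integrable_finsetSum _ fun y _ => Qt_int13 β h htn y]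
    exact integral_mono ((integrable_const _).sub
      (integrable_finsetSum _ fun y _ => Qt_int13 β h htn y))
      (integrable_finsetSum _ fun x _ => integrable_finsetSum _ fun y _ => Qt_int13 β h htn y) hpt
  have hone : ∀ x ∈ I, ∫ η, ∑ y ∈ Rf x, Qt β h n t y η ∂(law 2 ρ) ≤
      53248 * M ^ 2 * K / W ^ 4 * (1 / ((128 : ℝ) ^ x.1) ^ 2) +
        3072 * M / W * Real.sqrt (K * t * St ρ β h n t) * (1 / (8 : ℝ) ^ x.1) := by
    rintro ⟨k, j, s⟩ hx
    rw [hI] at hx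
    simp only [Finset.mem_product, Finset.mem_range, Finset.mem_univ, true_and,
      Finset.mem_insert, Finset.mem_singleton] at hx
    obtain ⟨hk, hs⟩ := hx
    have hk' : k ≤ kt := by omega
    have hrk := hrwδ k hk'
    have hr1 : 1 ≤ 16 ^ (k + 1) * W * Real.sqrt t := by
      have h1 : (1 : ℝ) ≤ 16 ^ (k + 1) := one_le_pow₀ (by norm_num)
      exact one_le_mul_of_one_le_of_one_le (one_le_mul_of_one_le_of_one_le h1 hW) hσ1
    have hcard : ((Rf (k, j, s)).card : ℝ) ≤ 9 * (16 ^ (k + 1) * W * Real.sqrt t) ^ 2 := by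
      rcases Nat.lt_or_ge k kt with hlt | hge
      · have h1 := card13 (v := v) (r := 16 ^ (k + 1) * W * Real.sqrt t) (by positivity)
          (Rf (k, j, s)) (fun y hy i => by
            obtain ⟨-, g1, -, g3⟩ := Finset.mem_filter.1 hy
            exact (g1 i).trans (g3 hlt).le)
        refine h1.trans ?_
        nlinarith
      · have hkk : k = kt := le_antisymm hk' hge
        have h1 := card13 (v := (0 : Vec 2)) (r := (t : ℝ)) (by positivity)
          (Rf (k, j, s)) (fun y hy i => by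
            obtain ⟨g0, -⟩ := Finset.mem_filter.1 hy
            have g1 := (mem_boxF.1 g0) i
            have g2 : (emb y - (0 : Vec 2)) i = (y i : ℝ) := by simp [emb]
            have g3 : ((|y i| : ℤ) : ℝ) ≤ ((t : ℤ) : ℝ) := Int.cast_le.2 g1
            rw [Int.cast_abs, Int.cast_natCast] at g3
            rw [g2]
            exact g3)
        refine h1.trans ?_
        rw [hkk]
        have ht1 : (1 : ℝ) ≤ t := by exact_mod_cast ht
        have h2 : (t : ℝ) ^ 2 ≤ (16 ^ (kt + 1) * W * Real.sqrt t) ^ 2 :=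
          pow_le_pow_left₀ (by positivity) hkt1 2
        nlinarith
    have h1 := piece13 hρ hB hT hM hK ht htn hW hVn hVt hv k j s
      (hden _ (rw13_pos hM hW ht k) hrk j s hs) hs (hsd k hrk) (Rf (k, j, s))
      (Finset.filter_subset _ _) (fun y hy => by
        obtain ⟨-, g1, g2, -⟩ := Finset.mem_filter.1 hy
        exact ⟨g1, g2⟩) hcard
    refine h1.trans (le_of_eq ?_)
    show _ = 53248 * M ^ 2 * K / W ^ 4 * (1 / ((128 : ℝ) ^ k) ^ 2) +
        3072 * M / W * Real.sqrt (K * t * St ρ β h n t) * (1 / (8 : ℝ) ^ k)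
    field_simp
  refine hint.trans ((Finset.sum_le_sum hone).trans ?_)
  have hcard2 : (({1, -1} : Finset ℝ).card) = 2 := Finset.card_pair (by norm_num)
  have hsum : ∀ f : ℕ → ℝ, ∑ x ∈ I, f x.1 = 4 * ∑ k ∈ Finset.range (kt + 1), f k := by
    intro f
    rw [hI, Finset.sum_product, Finset.mul_sum]
    refine Finset.sum_congr rfl fun k _ => ?_
    show ∑ _y ∈ (Finset.univ : Finset (Fin 2)) ×ˢ ({1, -1} : Finset ℝ), f k = 4 * f k
    rw [Finset.sum_const, Finset.card_product, hcard2, Finset.card_univ, Fintype.card_fin,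
      nsmul_eq_mul]
    norm_num
  rw [hsum (fun k => 53248 * M ^ 2 * K / W ^ 4 * (1 / ((128 : ℝ) ^ k) ^ 2) +
        3072 * M / W * Real.sqrt (K * t * St ρ β h n t) * (1 / (8 : ℝ) ^ k)),
    Finset.sum_add_distrib, ← Finset.mul_sum, ← Finset.mul_sum]
  have g1 := geo128 (kt + 1)
  have g2 := geo8 (kt + 1)
  have a1 : 0 ≤ 53248 * M ^ 2 * K / W ^ 4 := by positivity
  have a2 : 0 ≤ 3072 * M / W * Real.sqrt (K * t * St ρ β h n t) := by positivity
  have b1 := mul_le_mul_of_nonneg_left g1 a1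
  have b2 := mul_le_mul_of_nonneg_left g2 a2
  have c1 : 22 * 10 ^ 4 * M ^ 2 * K / W ^ 4 = 22 * 10 ^ 4 / 53248 * (53248 * M ^ 2 * K / W ^ 4) := by
    ring
  have c2 : 15000 * M * Real.sqrt (K * t * St ρ β h n t) / W =
      15000 / 3072 * (3072 * M / W * Real.sqrt (K * t * St ρ β h n t)) := by
    ring
  rw [c1, c2]
  nlinarith

end Pool.Agent.W_7d29a1_R34
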