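import Pool.Agent.W_7d29a1_R34.Leak13
import Pool.Agent.W_7d29a1_Q29.Qt98

/-!
R3, end: `LowR` from `LeakR` (helper13).
-/

namespace Pool.Agent.W_7d29a1_R34

open MeasureTheory ProbabilityTheory Filter Topology Pool.Agent.W_MP_7d29a1_pr
  Pool.Agent.W_7d29a1_h46 Pool.Agent.W_7d29a1_h46u Pool.Agent.W_7d29a1_D2.B35
  Pool.Agent.W_7d29a1_Q29

variable {ρ : Measure ℝ} [IsProbabilityMeasure ρ]

/-- A set of positions that carries mass bounds the sum of squares from below. -/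
theorem mass_sq13 (β : ℝ) (h : Vec 2) {n t : ℕ} (ht : t ≤ n) (B : Finset (Site 2))
    (hB : B ⊆ boxF 2 t) :
    (∫ η, ∑ y ∈ B, Qt β h n t y η ∂(law 2 ρ)) ^ 2 ≤ B.card * St ρ β h n t := by
  have hcm : ∀ y, Measurable (cE ρ (Pa 2 t)ᶜ (Qt β h n t y)) := fun y =>
    S98.measurable_cE (S98.measurable_Qt β h n t y) _
  have hc0 : ∀ y η, 0 ≤ cE ρ (Pa 2 t)ᶜ (Qt β h n t y) η := fun y η =>
    S98.cE_nonneg (fun η => S98.Qt_nonneg two_pos β h n t y η) _ η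
  have hc1 : ∀ y η, cE ρ (Pa 2 t)ᶜ (Qt β h n t y) η ≤ 1 := fun y η =>
    S98.cE_le_one (S98.measurable_Qt β h n t y) (fun η => S98.Qt_nonneg two_pos β h n t y η)
      (fun η => S98.Qt_le_one two_pos β h ht y η) _ η
  have hci : ∀ y, Integrable (fun η => cE ρ (Pa 2 t)ᶜ (Qt β h n t y) η) (law 2 ρ) := fun y =>
    Integrable.mono' (integrable_const (1 : ℝ)) (hcm y).aestronglyMeasurable
      (Eventually.of_forall fun η => by
        rw [Real.norm_eq_abs, abs_of_nonneg (hc0 y η)]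
        exact hc1 y η)
  have hci2 : ∀ y, Integrable (fun η => (cE ρ (Pa 2 t)ᶜ (Qt β h n t y) η) ^ 2) (law 2 ρ) :=
    fun y => Integrable.mono' (integrable_const (1 : ℝ)) ((hcm y).pow_const 2).aestronglyMeasurable
      (Eventually.of_forall fun η => by
        rw [Real.norm_eq_abs, abs_of_nonneg (sq_nonneg _)]
        exact pow_le_one₀ (hc0 y η) (hc1 y η))
  have hmean : ∀ y, ∫ η, Qt β h n t y η ∂(law 2 ρ) =
      ∫ η, cE ρ (Pa 2 t)ᶜ (Qt β h n t y) η ∂(law 2 ρ) := by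
    intro y
    have h1 := S98.int_mul_cE (ρ := ρ) (Pa 2 t)ᶜ (G := fun _ : Env 2 => (1 : ℝ))
      (F := Qt β h n t y) (by simpa only [one_mul] using Qt_int13 β h ht y)
      (fun _ _ _ => rfl)
    simpa only [one_mul] using h1
  have hjen : ∀ y, (∫ η, Qt β h n t y η ∂(law 2 ρ)) ^ 2 ≤
      ∫ η, (cE ρ (Pa 2 t)ᶜ (Qt β h n t y) η) ^ 2 ∂(law 2 ρ) := by
    intro y
    rw [hmean y]
    set m := ∫ η, cE ρ (Pa 2 t)ᶜ (Qt β h n t y) η ∂(law 2 ρ) with hm
    have h1 : 0 ≤ ∫ η, (cE ρ (Pa 2 t)ᶜ (Qt β h n t y) η - m) ^ 2 ∂(law 2 ρ) :=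
      integral_nonneg fun _ => sq_nonneg _
    have h2 : ∫ η, (cE ρ (Pa 2 t)ᶜ (Qt β h n t y) η - m) ^ 2 ∂(law 2 ρ) =
        ∫ η, (cE ρ (Pa 2 t)ᶜ (Qt β h n t y) η) ^ 2 ∂(law 2 ρ) - m ^ 2 := by
      have h3 : ∀ η : Env 2, (cE ρ (Pa 2 t)ᶜ (Qt β h n t y) η - m) ^ 2 =
          ((cE ρ (Pa 2 t)ᶜ (Qt β h n t y) η) ^ 2 -
            2 * m * cE ρ (Pa 2 t)ᶜ (Qt β h n t y) η) + m ^ 2 := fun η => by ring
      have a1 := integral_add (μ := law 2 ρ)
        (f := fun η => (cE ρ (Pa 2 t)ᶜ (Qt β h n t y) η) ^ 2 -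
          2 * m * cE ρ (Pa 2 t)ᶜ (Qt β h n t y) η) (g := fun _ => m ^ 2)
        ((hci2 y).sub ((hci y).const_mul _)) (integrable_const _)
      have a2 := integral_sub (hci2 y) ((hci y).const_mul (2 * m))
      have a3 : ∫ η, 2 * m * cE ρ (Pa 2 t)ᶜ (Qt β h n t y) η ∂(law 2 ρ) = 2 * m * m := by
        rw [integral_const_mul]
      have a4 : ∫ _η : Env 2, m ^ 2 ∂(law 2 ρ) = m ^ 2 := by simp
      rw [integral_congr_ae (Eventually.of_forall h3), a1, a2, a3, a4]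
      ring
    linarith
  have hsub : B ⊆ boxF 2 n := hB.trans (S98.boxF_mono ht)
  have hSt : ∑ y ∈ B, ∫ η, (cE ρ (Pa 2 t)ᶜ (Qt β h n t y) η) ^ 2 ∂(law 2 ρ) ≤ St ρ β h n t := by
    unfold St
    rw [integral_finsetSum _ fun y _ => hci2 y]
    exact Finset.sum_le_sum_of_subset_of_nonneg hsub fun y _ _ =>
      integral_nonneg fun _ => sq_nonneg _
  rw [integral_finsetSum _ fun y _ => Qt_int13 β h ht y]
  calc (∑ y ∈ B, ∫ η, Qt β h n t y η ∂(law 2 ρ)) ^ 2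
      ≤ B.card * ∑ y ∈ B, (∫ η, Qt β h n t y η ∂(law 2 ρ)) ^ 2 := sq_sum_le_card_mul_sum_sq
    _ ≤ B.card * ∑ y ∈ B, ∫ η, (cE ρ (Pa 2 t)ᶜ (Qt β h n t y) η) ^ 2 ∂(law 2 ρ) :=
        mul_le_mul_of_nonneg_left (Finset.sum_le_sum fun y _ => hjen y) (by positivity)
    _ ≤ B.card * St ρ β h n t := mul_le_mul_of_nonneg_left hSt (by positivity)

/-- **R3.** -/
theorem lowR13 (hρ : EM ρ) {β : ℝ} (hL : LeakR ρ β) : LowR ρ β := by
  classical
  intro M K δ h n t hM hK hδ0 hδ1 ht htn hsmall hVn hVt hden hsd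
  have hS := St_nonneg13 ρ β h n t
  have hσ : 0 < Real.sqrt t := Real.sqrt_pos.2 (by exact_mod_cast ht)
  have hσ1 : 1 ≤ Real.sqrt t := Real.one_le_sqrt.2 (by exact_mod_cast ht)
  have hσ2 : Real.sqrt t ^ 2 = t := Real.sq_sqrt (by positivity)
  have ht0 : (0 : ℝ) < t := by exact_mod_cast ht
  have hM0 : 0 < M := by linarith
  have hK0 : 0 < K := by linarith
  obtain ⟨q, hq⟩ : ∃ q : ℝ, q = Real.sqrt (Real.sqrt K) := ⟨_, rfl⟩
  have hsK : 1 ≤ Real.sqrt K := Real.one_le_sqrt.2 hK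
  have hq1 : 1 ≤ q := by rw [hq]; exact Real.one_le_sqrt.2 hsK
  have hq0 : 0 < q := by linarith
  have hq2 : q ^ 2 = Real.sqrt K := by rw [hq]; exact Real.sq_sqrt (by positivity)
  have hq4 : q ^ 4 = K := by
    rw [show q ^ 4 = (q ^ 2) ^ 2 by ring, hq2, Real.sq_sqrt hK0.le]
  set W : ℝ := 64 * M * q with hW
  have hW0 : 0 < W := by positivity
  have hW1 : 1 ≤ W := by
    rw [hW]
    exact one_le_mul_of_one_le_of_one_le (by linarith) hq1
  have hWt : W ≤ δ ^ 4 * Real.sqrt t := by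
    refine le_of_sq_le_sq ?_ (by positivity)
    have e1 : W ^ 2 = (64 * M) ^ 2 * Real.sqrt K := by rw [hW, mul_pow (64 * M) q 2, hq2]
    have e2 : (δ ^ 4 * Real.sqrt t) ^ 2 = δ ^ 8 * t := by
      rw [mul_pow (δ ^ 4) (Real.sqrt t) 2, hσ2]
      ring
    rw [e1, e2]
    exact hsmall
  have hrk : ∀ k, rw' M W t k = rk K t k := by
    intro k
    unfold rw' rk
    rw [hW, ← hq, pow_succ]
    field_simp
    norm_num
  obtain ⟨v, hv⟩ := Pool.Agent.W_7d29a1_V.DimP33.exists_sub (d := 2)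
    (A_convex (ρ := ρ) (d := 2) two_pos hρ β t) h
  have hv' : ∀ g : Vec 2, A ρ β h t + inner ℝ v (g - h) ≤ A ρ β g t := by
    intro g
    have h1 := hv g
    linarith
  have hleak := hL M K δ W h v n t hM hK hδ0 hδ1 ht htn hW0 hWt hVn hVt hv' hden
    (fun k hk j => by
      rw [hrk k] at hk ⊢
      exact hsd k hk j)
  by_contra hcon
  push Not at hcon
  set x : ℝ := Real.sqrt K * t * St ρ β h n t with hx
  have hx0 : 0 ≤ x := by positivity
  set B := (boxF 2 t).filter (fun y => ∀ j, |(emb y - v) j| < W * Real.sqrt t) with hB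
  have h1 : 22 * 10 ^ 4 * M ^ 2 * K / W ^ 4 ≤ 1 / 50 := by
    rw [div_le_div_iff₀ (by positivity) (by norm_num), hW]
    have e1 : (64 * M * q) ^ 4 = 16777216 * M ^ 4 * K := by
      rw [mul_pow, mul_pow, hq4]
      norm_num
    rw [e1]
    have e2 : M ^ 2 * K ≤ M ^ 4 * K := by
      refine mul_le_mul_of_nonneg_right (pow_le_pow_right₀ hM (by norm_num)) hK0.le
    nlinarith
  have hxM : x ≤ 1 / 10 ^ 6 := by
    refine hcon.le.trans ?_
    refine one_div_le_one_div_of_le (by norm_num) ?_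
    have : 1 ≤ M ^ 2 := one_le_pow₀ hM
    linarith
  have h2 : 15000 * M * Real.sqrt (K * t * St ρ β h n t) / W ≤ 1 / 4 := by
    have e1 : Real.sqrt (K * t * St ρ β h n t) = q * Real.sqrt x := by
      have e2 : K * t * St ρ β h n t = q ^ 2 * x := by
        rw [hx, hq2]
        nth_rewrite 1 [← Real.mul_self_sqrt hK0.le]
        ring
      rw [e2, Real.sqrt_mul (by positivity), Real.sqrt_sq hq0.le]
    have e3 : Real.sqrt x ≤ 1 / 1000 := by
      rw [show (1 / 1000 : ℝ) = Real.sqrt (1 / 10 ^ 6) by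
        rw [show (1 / 10 ^ 6 : ℝ) = (1 / 1000) ^ 2 by norm_num, Real.sqrt_sq (by norm_num)]]
      exact Real.sqrt_le_sqrt hxM
    rw [e1, hW, div_le_iff₀ (by positivity)]
    have e4 : 0 < M * q := by positivity
    nlinarith
  have h3 : ∫ η, (1 - ∑ y ∈ B, Qt β h n t y η) ∂(law 2 ρ) ≤ 1 / 2 := by
    refine hleak.trans ?_
    linarith
  have h4 : 1 / 2 ≤ ∫ η, ∑ y ∈ B, Qt β h n t y η ∂(law 2 ρ) := by
    rw [integral_sub (integrable_const _) (integrable_finsetSum _ fun y _ => Qt_int13 β h htn y)]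
      at h3
    have e1 : ∫ _η : Env 2, (1 : ℝ) ∂(law 2 ρ) = 1 := by simp
    rw [e1] at h3
    linarith
  have h5 := mass_sq13 (ρ := ρ) β h htn B (Finset.filter_subset _ _)
  have h6 : (B.card : ℝ) ≤ 9 * W ^ 2 * t := by
    have e1 := card13 (v := v) (r := W * Real.sqrt t) (by positivity) B (fun y hy i =>
      ((Finset.mem_filter.1 hy).2 i).le)
    refine e1.trans ?_
    have e2 : 1 ≤ W * Real.sqrt t := one_le_mul_of_one_le_of_one_le hW1 hσ1
    have e3 : 9 * W ^ 2 * t = 9 * (W * Real.sqrt t) ^ 2 := by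
      rw [mul_pow W (Real.sqrt t) 2, hσ2]
      ring
    rw [e3]
    nlinarith
  have h7 : (1 / 2 : ℝ) ^ 2 ≤ 9 * W ^ 2 * t * St ρ β h n t :=
    (pow_le_pow_left₀ (by norm_num) h4 2).trans (h5.trans (mul_le_mul_of_nonneg_right h6 hS))
  have h8 : 9 * W ^ 2 * t * St ρ β h n t = 36864 * M ^ 2 * x := by
    rw [hW, hx, mul_pow, mul_pow, hq2]
    ring
  rw [h8] at h7
  have h9 : M ^ 2 * x < 1 / 10 ^ 6 := by
    have e1 : x * (10 ^ 6 * M ^ 2) < 1 := (lt_div_iff₀ (by positivity)).1 hcon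
    rw [lt_div_iff₀ (by norm_num)]
    linarith
  linarith

end Pool.Agent.W_7d29a1_R34
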