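import Pool.Agent.W_7d29a1_R34.DefsR34
import Pool.Agent.W_7d29a1_Q29.R6a65
import Pool.Agent.W_7d29a1_Q29.AvgR56
import Pool.Agent.W_7d29a1_Q29.Den65

/-!
The uniform lower bound over sets of positive measure.
-/

namespace Pool.Agent.W_7d29a1_R34

open MeasureTheory ProbabilityTheory Filter Topology Pool.Agent.W_MP_7d29a1_pr
  Pool.Agent.W_7d29a1_h46 Pool.Agent.W_7d29a1_h46u Pool.Agent.W_7d29a1_Q29
open scoped ENNReal

/-- A piece of the harmonic series. -/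
lemma harm65 {a : ℕ} (ha : 1 ≤ a) (n : ℕ) (han : a ≤ n + 1) :
    Real.log ((n + 1 : ℝ) / a) ≤ ∑ t ∈ Finset.Icc a n, (1 : ℝ) / t := by
  induction n, (show a - 1 ≤ n by omega) using Nat.le_induction with
  | base =>
    have h1 : ((a - 1 : ℕ) : ℝ) + 1 = a := by
      rw [Nat.cast_sub ha]; push_cast; ring
    have h0 : (a : ℝ) ≠ 0 := by exact_mod_cast (by omega : a ≠ 0)
    rw [h1, div_self h0, Real.log_one]
    exact Finset.sum_nonneg fun t _ => by positivity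
  | succ m hm ih =>
    have hm' : a ≤ m + 1 := by omega
    have h1 := ih hm'
    rw [Finset.sum_Icc_succ_top hm']
    have ha0 : (0 : ℝ) < a := by exact_mod_cast (by omega : 0 < a)
    have hm0 : (0 : ℝ) < (m : ℝ) + 1 := by positivity
    have h2 : Real.log (((m + 1 : ℕ) : ℝ) + 1) - Real.log ((m : ℝ) + 1) ≤ 1 / ((m + 1 : ℕ) : ℝ) := by
      rw [← Real.log_div (by positivity) hm0.ne']
      refine (Real.log_le_sub_one_of_pos (by positivity)).trans (le_of_eq ?_)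
      push_cast
      field_simp
      ring
    rw [Real.log_div (by positivity) ha0.ne'] at h1 ⊢
    linarith

lemma St_nonneg65 {d : ℕ} (ρ : Measure ℝ) (β : ℝ) (h : Vec d) (n t : ℕ) : 0 ≤ St ρ β h n t :=
  integral_nonneg fun _ => Finset.sum_nonneg fun _ _ => sq_nonneg _

lemma rk_pos65 {K : ℝ} (hK : 0 < K) {t : ℕ} (ht : 1 ≤ t) (k : ℕ) : 0 < rk K t k := by
  unfold rk
  have h1 : (0 : ℝ) < t := by exact_mod_cast ht
  have h2 := Real.sqrt_pos.2 (Real.sqrt_pos.2 hK)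
  have h3 := Real.sqrt_pos.2 h1
  positivity

/-- `wts65` with the set of the good times. -/
lemma wtsF65 {α : Type*} [MeasurableSpace α] (μ : Measure α) (T : Set α) (bad : ℕ → Set α)
    (hbad : ∀ t, MeasurableSet (bad t)) (η : ℝ≥0∞) (hη : ∀ t, μ (bad t) ≤ η) (hT : 4 * η < μ T)
    (s : Finset ℕ) (w : ℕ → ℝ) (hw : ∀ t ∈ s, 0 ≤ w t) :
    ∃ x ∈ T, ∃ F ⊆ s, (∀ t ∈ F, x ∉ bad t) ∧ (3 / 4) * ∑ t ∈ s, w t ≤ ∑ t ∈ F, w t := by
  classical
  obtain ⟨x, hx, h⟩ := wts65 μ T bad hbad η hη hT s w hw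
  exact ⟨x, hx, _, Finset.filter_subset _ _, fun t ht => (Finset.mem_filter.1 ht).2, h⟩

variable {ρ : Measure ℝ} [IsProbabilityMeasure ρ] {β : ℝ}

/-- The bad sets of tilts. -/
lemma badF65 (hρ : EM ρ) (R : ℝ) : ∃ C₁ : ℝ, 0 < C₁ ∧ ∀ (K m : ℝ), 0 < K → 0 < m →
    ∃ bad : ℕ → Set (Vec 2), (∀ t, MeasurableSet (bad t)) ∧
      (∀ t, volume (bad t) ≤ ENNReal.ofReal (C₁ * 2 / m)) ∧
      ∀ t, 1 ≤ t → ∀ h ∈ Metric.closedBall (0 : Vec 2) R, h ∉ bad t → ∀ (k : ℕ) (j : Fin 2),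
        A ρ β (h + (2 * rk K t k) • ej j) t + A ρ β (h - (2 * rk K t k) • ej j) t -
          2 * A ρ β h t ≤ 4 * m * 2 ^ k * t * rk K t k ^ 2 := by
  classical
  obtain ⟨C₁, hC₁, hbad⟩ := badA56 (d := 2) (by norm_num) hρ β R
  refine ⟨C₁, hC₁, fun K m hK0 hm0 => ?_⟩
  have hgeo : Summable (fun j : ℕ => ((2 : ℝ) ^ j)⁻¹) := by
    simpa only [inv_pow] using summable_geometric_of_lt_one (r := (2 : ℝ)⁻¹) (by norm_num)
      (by norm_num)
  have hgeo2 : ∑' j : ℕ, ((2 : ℝ) ^ j)⁻¹ = 2 := by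
    have := tsum_geometric_of_lt_one (r := (2 : ℝ)⁻¹) (by norm_num) (by norm_num)
    simp only [inv_pow] at this
    rw [this]; norm_num
  have key : ∀ t : ℕ, ∃ b : Set (Vec 2), MeasurableSet b ∧
      volume b ≤ ENNReal.ofReal (C₁ * 2 / m) ∧
      (1 ≤ t → ∀ h ∈ Metric.closedBall (0 : Vec 2) R, h ∉ b → ∀ (k : ℕ) (j : Fin 2),
        A ρ β (h + (2 * rk K t k) • ej j) t + A ρ β (h - (2 * rk K t k) • ej j) t -
          2 * A ρ β h t ≤ 4 * m * 2 ^ k * t * rk K t k ^ 2) := by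
    intro t
    by_cases ht : 1 ≤ t
    · have h1 := hbad t ht (fun j => 2 * rk K t j) (fun j => 2 ^ j) m
        (fun j => mul_pos (by norm_num) (rk_pos65 hK0 ht j)) (fun j => by positivity) hm0 hgeo
      rw [hgeo2] at h1
      refine ⟨_, h1.1, h1.2, fun _ h hh hb k j => ?_⟩
      by_contra hcon
      push Not at hcon
      refine hb ⟨hh, k, j, ?_⟩
      refine lt_of_le_of_lt (le_of_eq ?_) hcon
      ring
    · exact ⟨∅, MeasurableSet.empty, by simp, fun h => absurd h ht⟩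
  choose bad hb1 hb2 hb3 using key
  exact ⟨bad, hb1, hb2, hb3⟩

/-- R6. -/
theorem uniR65 (hρ : EM ρ) (hNPB : NPB 2 ρ β) (hLow : LowR ρ β) : UniR ρ β := by
  classical
  intro B hBb hBm hBv
  obtain ⟨R, hR⟩ := hBb.subset_closedBall (0 : Vec 2)
  obtain ⟨r₀, hr₀, T, hTB, hTv, hTd⟩ := D65.density_leaf (volume : Measure (Vec 2)) B hBm hBv
    (ε := 1 / 9) (by norm_num)
  obtain ⟨C₁, hC₁, hbad⟩ := badF65 (β := β) hρ R
  obtain ⟨C₂, hC₂, hNP⟩ := hNPB
  set δ : ℝ := min r₀ 1 with hδ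
  have hδ0 : 0 < δ := lt_min hr₀ one_pos
  have hδ1 : δ ≤ 1 := min_le_right _ _
  have hTfin : volume T ≠ ⊤ :=
    ((measure_mono (hTB.trans hR)).trans_lt measure_closedBall_lt_top).ne
  set τ : ℝ := (volume T).toReal with hτ
  have hτ0 : 0 < τ := ENNReal.toReal_pos hTv hTfin
  set m : ℝ := max 1 (16 * C₁ / τ) with hm
  have hm1 : 1 ≤ m := le_max_left _ _
  have hm0 : 0 < m := by linarith
  have hm2 : 16 * C₁ ≤ m * τ := by
    have := le_max_right 1 (16 * C₁ / τ)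
    rw [← hm, div_le_iff₀ hτ0] at this
    exact this
  obtain ⟨M, hM⟩ : ∃ M : ℝ, M = 4 * m := ⟨_, rfl⟩
  have hM1 : 1 ≤ M := by rw [hM]; linarith
  have hM0 : 0 < M := by linarith
  set c₃ : ℝ := 1 / (10 ^ 6 * M ^ 2) with hc₃
  have hc₃0 : 0 < c₃ := by positivity
  set C₂' : ℝ := max C₂ 1 with hC₂'
  have hC₂'0 : 0 < C₂' := lt_of_lt_of_le one_pos (le_max_right _ _)
  set c₄ : ℝ := 3 * c₃ / 16 / C₂' with hc₄
  have hc₄0 : 0 < c₄ := by positivity
  set c : ℝ := min 1 (c₄ ^ (2 / 3 : ℝ)) with hc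
  have hc0 : 0 < c := lt_min one_pos (Real.rpow_pos_of_pos hc₄0 _)
  -- large `n`
  have hL : Tendsto (fun n : ℕ => Real.log n) atTop atTop :=
    Real.tendsto_log_atTop.comp tendsto_natCast_atTop_atTop
  have ev1 : ∀ᶠ n : ℕ in atTop, 1 < c * Real.log n ^ (2 / 3 : ℝ) := by
    have h1 : Tendsto (fun n : ℕ => c * Real.log n ^ (2 / 3 : ℝ)) atTop atTop :=
      ((tendsto_rpow_atTop (by norm_num : (0 : ℝ) < 2 / 3)).comp hL).const_mul_atTop hc0
    exact h1.eventually_gt_atTop 1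
  have ev2 : ∀ᶠ n : ℕ in atTop, (64 * M) ^ 2 * Real.log n ≤ δ ^ 8 * Real.sqrt n := by
    have h1 : (fun x : ℝ => Real.log x) =o[atTop] fun x : ℝ => x ^ (1 / 2 : ℝ) :=
      isLittleO_log_rpow_atTop (by norm_num)
    have h2 := h1.comp_tendsto (tendsto_natCast_atTop_atTop (R := ℝ))
    have h3 := h2.bound (show 0 < δ ^ 8 / (64 * M) ^ 2 by positivity)
    filter_upwards [h3] with n hn
    simp only [Function.comp, Real.norm_eq_abs] at hn
    rw [abs_of_nonneg (Real.log_natCast_nonneg n), abs_of_nonneg (by positivity),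
      ← Real.sqrt_eq_rpow] at hn
    have h4 : 0 < (64 * M) ^ 2 := by positivity
    calc (64 * M) ^ 2 * Real.log n ≤ (64 * M) ^ 2 * (δ ^ 8 / (64 * M) ^ 2 * Real.sqrt n) :=
          mul_le_mul_of_nonneg_left hn h4.le
      _ = δ ^ 8 * Real.sqrt n := by field_simp
  have ev3 : ∀ᶠ n : ℕ in atTop, 4 * Real.log 2 ≤ Real.log n ∧ 1 ≤ Real.log n :=
    (hL.eventually_ge_atTop _).and (hL.eventually_ge_atTop _)
  obtain ⟨n₀, hn₀⟩ := eventually_atTop.1 ((ev1.and (ev2.and ev3)).and (eventually_ge_atTop 4))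
  refine ⟨c, hc0, n₀, fun n hn K₀ hK₀ => ?_⟩
  obtain ⟨⟨e1, e2, e3, e3'⟩, e4⟩ := hn₀ n hn
  -- it suffices to bound `K = max K₀ 1`
  set K : ℝ := max K₀ 1 with hK
  have hK1 : 1 ≤ K := le_max_right _ _
  have hK0 : 0 < K := by linarith
  have hKB : ∀ h ∈ B, ∀ k ≤ n, Va ρ β h k ≤ K := fun h hh k hk =>
    (hK₀ h hh k hk).trans (le_max_left _ _)
  suffices hs : c * Real.log n ^ (2 / 3 : ℝ) ≤ K by
    rcases le_max_iff.1 (hs.trans (le_of_eq hK)) with h | h
    · exact h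
    · linarith
  have hlog0 : 0 < Real.log n := by linarith
  rcases lt_or_ge (Real.log n ^ (2 / 3 : ℝ)) K with hbig | hsmall
  · have : c ≤ 1 := min_le_left _ _
    have h1 : 0 ≤ Real.log n ^ (2 / 3 : ℝ) := Real.rpow_nonneg hlog0.le _
    nlinarith
  -- now `K ≤ (log n) ^ (2/3)`
  have hsqK : Real.sqrt K ≤ Real.log n := by
    have h1 : Real.sqrt K ≤ K := by
      rw [Real.sqrt_le_left (by linarith)]
      nlinarith
    have h2 : Real.log n ^ (2 / 3 : ℝ) ≤ Real.log n := by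
      calc Real.log n ^ (2 / 3 : ℝ) ≤ Real.log n ^ (1 : ℝ) :=
            Real.rpow_le_rpow_of_exponent_le e3' (by norm_num)
        _ = Real.log n := Real.rpow_one _
    linarith
  set a : ℕ := Nat.sqrt n + 1 with ha
  have ha1 : 1 ≤ a := by omega
  have hasq : Real.sqrt n ≤ a := by
    rw [ha, Real.sqrt_le_left (by positivity)]
    have := Nat.lt_succ_sqrt n
    have h2 : (n : ℝ) ≤ ((Nat.sqrt n + 1) * (Nat.sqrt n + 1) : ℕ) := by exact_mod_cast this.le
    push_cast at h2 ⊢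
    nlinarith
  have han : a ≤ n := by
    have h1 : Nat.sqrt n * Nat.sqrt n ≤ n := Nat.sqrt_le n
    have h2 : 2 ≤ Nat.sqrt n := by
      rw [Nat.le_sqrt]; omega
    rw [ha]
    nlinarith
  set s : Finset ℕ := Finset.Icc a n with hs
  have hws : Real.log n / 4 ≤ ∑ t ∈ s, (1 : ℝ) / t := by
    refine le_trans ?_ (harm65 ha1 n (by omega))
    have ha0 : (0 : ℝ) < a := by exact_mod_cast ha1
    have hn0 : (0 : ℝ) < n := by exact_mod_cast (by omega : 0 < n)
    have h1 : (a : ℝ) ≤ 2 * Real.sqrt n := by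
      have h2 : ((Nat.sqrt n : ℕ) : ℝ) ≤ Real.sqrt n := Real.nat_sqrt_le_real_sqrt
      have h3 : 1 ≤ Real.sqrt n := by
        rw [Real.one_le_sqrt]; exact_mod_cast (by omega : 1 ≤ n)
      rw [ha]; push_cast; linarith
    have h2 : Real.sqrt n / 2 ≤ (n + 1 : ℝ) / a := by
      rw [div_le_div_iff₀ (by norm_num) ha0]
      have h3 : Real.sqrt n * Real.sqrt n = n := Real.mul_self_sqrt hn0.le
      have h4 := Real.sqrt_nonneg (n : ℝ)
      nlinarith
    have h3 : 0 < Real.sqrt n := Real.sqrt_pos.2 hn0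
    calc Real.log n / 4 ≤ Real.log (Real.sqrt n / 2) := by
          rw [Real.log_div h3.ne' (by norm_num), Real.log_sqrt hn0.le]
          linarith
      _ ≤ Real.log ((n + 1 : ℝ) / a) := Real.log_le_log (by positivity) h2
  -- the bad sets
  obtain ⟨bad, hbt1, hbt2, hbt3⟩ := hbad K m hK0 hm0
  have hη : 4 * ENNReal.ofReal (C₁ * 2 / m) < volume T := by
    have h1 : (4 : ℝ≥0∞) = ENNReal.ofReal 4 := by norm_num
    rw [h1, ← ENNReal.ofReal_mul (by norm_num), ← ENNReal.ofReal_toReal hTfin,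
      ENNReal.ofReal_lt_ofReal_iff hτ0]
    rw [show (4 : ℝ) * (C₁ * 2 / m) = 8 * C₁ / m by ring, div_lt_iff₀ hm0]
    nlinarith
  obtain ⟨x, hxT, F, hFs, hFb, hx⟩ := wtsF65 volume T bad hbt1 _ hbt2 hη s
    (fun t => (1 : ℝ) / t) (fun t _ => by positivity)
  have hxB : x ∈ B := hTB hxT
  -- the lower bound at the good times
  have hgood : ∀ t ∈ F, c₃ / Real.sqrt K * (1 / t) ≤ St ρ β x n t := by
    intro t ht
    have hts := hFs ht
    rw [hs, Finset.mem_Icc] at hts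
    obtain ⟨hat, htn⟩ := hts
    have hxt := hFb t ht
    have ht1 : 1 ≤ t := ha1.trans hat
    have ht0 : (0 : ℝ) < t := by exact_mod_cast ht1
    have h1 := hLow M K δ x n t hM1 hK1 hδ0 hδ1 ht1 htn ?_ (hKB x hxB n le_rfl)
      (hKB x hxB (n - t) (Nat.sub_le _ _)) ?_ ?_
    · have hsK : 0 < Real.sqrt K := Real.sqrt_pos.2 hK0
      rw [← hc₃] at h1
      rw [div_mul_div_comm, mul_one, div_le_iff₀ (by positivity)]
      nlinarith
    · have h2 : Real.sqrt n ≤ t := hasq.trans (by exact_mod_cast hat)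
      have h3 : 0 < (64 * M) ^ 2 := by positivity
      have h4 : 0 < δ ^ 8 := by positivity
      nlinarith [mul_le_mul_of_nonneg_left hsqK h3.le, mul_le_mul_of_nonneg_left h2 h4.le]
    · intro r hr hrδ j σ hσ
      have hσr : |σ * r| = r := by
        rcases hσ with rfl | rfl
        · rw [one_mul, abs_of_pos hr]
        · rw [neg_one_mul, abs_neg, abs_of_pos hr]
      have hnv : ‖(σ * r) • (ej j : Vec 2)‖ = r := by
        rw [norm_smul, Real.norm_eq_abs, hσr]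
        have : ‖(ej j : Vec 2)‖ = 1 := by simp [ej]
        rw [this, mul_one]
      obtain ⟨g, hgB, hg⟩ := hTd x hxT ((σ * r) • ej j) (by
        intro h0
        rw [h0, norm_zero] at hnv
        linarith) (by rw [hnv]; exact hrδ.trans (min_le_left _ _))
      refine ⟨g, ?_, hKB g hgB t htn⟩
      rw [hnv] at hg
      linarith
    · intro k _ j
      rw [hM]
      exact hbt3 t ht1 x (hR hxB) hxt k j
  have hsub : F ⊆ Finset.Icc 1 n := by
    intro t ht
    have hts := hFs ht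
    rw [hs, Finset.mem_Icc] at hts
    rw [Finset.mem_Icc]
    exact ⟨ha1.trans hts.1, hts.2⟩
  have hsumSt : ∑ t ∈ Finset.Icc 1 n, St ρ β x n t ≤ C₂' * K := by
    refine (hNP x n).trans ?_
    have h1 := hKB x hxB n le_rfl
    have h2 : 0 ≤ Va ρ β x n := integral_nonneg fun _ => sq_nonneg _
    have h3 : C₂ ≤ C₂' := le_max_left _ _
    exact mul_le_mul h3 h1 h2 hC₂'0.le
  have hkey : c₃ / Real.sqrt K * (3 / 4 * (Real.log n / 4)) ≤ C₂' * K := by
    have hsK : 0 < Real.sqrt K := Real.sqrt_pos.2 hK0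
    calc c₃ / Real.sqrt K * (3 / 4 * (Real.log n / 4))
        ≤ c₃ / Real.sqrt K * ∑ t ∈ F, (1 : ℝ) / t := by
          refine mul_le_mul_of_nonneg_left ?_ (by positivity)
          exact (mul_le_mul_of_nonneg_left hws (by norm_num)).trans hx
      _ = ∑ t ∈ F, c₃ / Real.sqrt K * (1 / t) := Finset.mul_sum _ _ _
      _ ≤ ∑ t ∈ F, St ρ β x n t := Finset.sum_le_sum hgood
      _ ≤ ∑ t ∈ Finset.Icc 1 n, St ρ β x n t :=
          Finset.sum_le_sum_of_subset_of_nonneg hsub fun t _ _ => St_nonneg65 ρ β x n t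
      _ ≤ C₂' * K := hsumSt
  -- the end
  have hsK : 0 < Real.sqrt K := Real.sqrt_pos.2 hK0
  have hfin : c₄ * Real.log n ≤ K ^ (3 / 2 : ℝ) := by
    have h1 : K ^ (3 / 2 : ℝ) = K * Real.sqrt K := by
      rw [Real.sqrt_eq_rpow, show (3 / 2 : ℝ) = 1 + 1 / 2 by norm_num, Real.rpow_add hK0,
        Real.rpow_one]
    rw [h1, hc₄]
    rw [div_mul_eq_mul_div, div_le_iff₀ hC₂'0]
    have h2 : c₃ / Real.sqrt K * (3 / 4 * (Real.log n / 4)) * Real.sqrt K =
        3 * c₃ / 16 * Real.log n := by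
      field_simp
      ring
    have h3 := mul_le_mul_of_nonneg_right hkey hsK.le
    rw [h2] at h3
    linarith
  calc c * Real.log n ^ (2 / 3 : ℝ) ≤ c₄ ^ (2 / 3 : ℝ) * Real.log n ^ (2 / 3 : ℝ) :=
        mul_le_mul_of_nonneg_right (min_le_right _ _) (Real.rpow_nonneg hlog0.le _)
    _ = (c₄ * Real.log n) ^ (2 / 3 : ℝ) := (Real.mul_rpow hc₄0.le hlog0.le).symm
    _ ≤ (K ^ (3 / 2 : ℝ)) ^ (2 / 3 : ℝ) :=
        Real.rpow_le_rpow (by positivity) hfin (by norm_num)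
    _ = K := by
        rw [← Real.rpow_mul hK0.le]
        norm_num

end Pool.Agent.W_7d29a1_R34
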