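import Pool.Agent.W_7d29a1_R34.Ae65
import Pool.Agent.W_7d29a1_R34.Uni65
import Pool.Agent.W_7d29a1_R34.Low13
import Pool.Agent.W_7d29a1_R34.Leak13
import Pool.Agent.W_7d29a1_R34.Box34
import Pool.Agent.W_7d29a1_R34.Tail13
import Pool.Agent.W_7d29a1_Q29.Npf98

/-!
Divergence of the fluctuations at almost every tilt in two transversal dimensions.
-/

namespace Pool.Agent.W_7d29a1_R34

open MeasureTheory ProbabilityTheory Filter Topology Pool.Agent.W_MP_7d29a1_pr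
  Pool.Agent.W_7d29a1_h46 Pool.Agent.W_7d29a1_h46u Pool.Agent.W_7d29a1_Q29

variable {ρ : Measure ℝ} [IsProbabilityMeasure ρ] {β : ℝ}

/-- The uniform lower bound over sets of positive measure. -/
theorem uniR (hρ : EM ρ) (hnc : ∀ c : ℝ, ρ {c} ≠ 1) (hβ : 0 < β) : UniR ρ β :=
  uniR65 hρ (npb98 (by norm_num) hρ hnc hβ)
    (lowR13 hρ (leak13 hρ (box34 (by norm_num) hρ β) (tail13 (by norm_num) hρ β)))

/-- Theorem R. -/
theorem aeR (hρ : EM ρ) (hnc : ∀ c : ℝ, ρ {c} ≠ 1) (hβ : 0 < β) : AeR ρ β :=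
  aeR65 hρ (uniR hρ hnc hβ)

end Pool.Agent.W_7d29a1_R34
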