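import Pool.Agent.W_7d29a1_V.DimA33

/-!
R3, plane geometry: second differences along the axes and in a general direction, the inner
product of a nearly axial tilt with a point of a sector (helper13).
-/

namespace Pool.Agent.W_7d29a1_R34

open Set Pool.Agent.W_7d29a1_h46 Pool.Agent.W_7d29a1_h46u Pool.Agent.W_7d29a1_V.DimP33

lemma sd_abs13 {L : Vec 2 → ℝ} (hL : ConvexOn ℝ univ L) {τ : ℝ} (hτ : |τ| ≤ 1) (r h : Vec 2) :
    sd L (τ • r) h ≤ sd L r h := by
  have h0 := sd_nonneg hL r h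
  rcases le_total 0 τ with h1 | h1
  · rw [abs_of_nonneg h1] at hτ
    have h2 := sd_smul hL h1 hτ r h
    nlinarith
  · rw [abs_of_nonpos h1] at hτ
    have h2 := sd_smul hL (neg_nonneg.2 h1) hτ r h
    rw [neg_smul, sd_neg] at h2
    nlinarith

/-- The second difference in a general direction is at most the larger of the two along the
axes. -/
theorem sd_two13 {L : Vec 2 → ℝ} (hL : ConvexOn ℝ univ L) {h z : Vec 2} {ρ b : ℝ} (hρ : 0 < ρ)
    (hz : ‖z‖ ≤ 10 / 9 * ρ)
    (hb : ∀ j : Fin 2, L (h + (2 * ρ) • ej j) + L (h - (2 * ρ) • ej j) - 2 * L h ≤ b) :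
    L (h + z) + L (h - z) - 2 * L h ≤ b := by
  have hb' : ∀ j : Fin 2, sd L ((2 * ρ) • ej j) h ≤ b := hb
  have hn : ‖z‖ ^ 2 = z 0 ^ 2 + z 1 ^ 2 := by
    rw [EuclideanSpace.norm_sq_eq, Fin.sum_univ_two]
    simp only [Real.norm_eq_abs, sq_abs]
  have hn2 : z 0 ^ 2 + z 1 ^ 2 ≤ (10 / 9 * ρ) ^ 2 := by
    rw [← hn]
    exact pow_le_pow_left₀ (norm_nonneg _) hz 2
  have hsum : |z 0| + |z 1| < 2 * ρ := by
    have h1 : (|z 0| + |z 1|) ^ 2 < (2 * ρ) ^ 2 := by
      nlinarith [sq_abs (z 0), sq_abs (z 1), sq_nonneg (|z 0| - |z 1|), abs_nonneg (z 0),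
        abs_nonneg (z 1)]
    exact lt_of_pow_lt_pow_left₀ 2 (by positivity) h1
  set c : ℝ := (2 * ρ - |z 0| - |z 1|) / 2 with hc
  have hc0 : 0 < c := by rw [hc]; linarith
  set lam : ℝ := (|z 0| + c) / (2 * ρ) with hlam
  have hl0 : 0 < lam := by
    have := abs_nonneg (z 0)
    rw [hlam]
    positivity
  have hl1 : 1 - lam = (|z 1| + c) / (2 * ρ) := by
    rw [hlam, eq_div_iff (by positivity), sub_mul, div_mul_cancel₀ _ (by positivity), hc]
    ring
  have hl1' : 0 < 1 - lam := by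
    have := abs_nonneg (z 1)
    rw [hl1]
    positivity
  set p : Vec 2 := (z 0 / lam) • ej 0 with hp
  set q : Vec 2 := (z 1 / (1 - lam)) • ej 1 with hq
  have hz2 : z = lam • p + (1 - lam) • q := by
    rw [hp, hq, smul_smul, smul_smul, mul_div_cancel₀ _ hl0.ne', mul_div_cancel₀ _ hl1'.ne']
    have h1 := sum_ej z
    rw [Fin.sum_univ_two] at h1
    exact h1.symm
  have e1 : lam • (h + p) + (1 - lam) • (h + q) = h + z := by
    rw [hz2]
    module
  have e2 : lam • (h - p) + (1 - lam) • (h - q) = h - z := by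
    rw [hz2]
    module
  have a1 := hL.2 (mem_univ (h + p)) (mem_univ (h + q)) hl0.le hl1'.le (by ring)
  have a2 := hL.2 (mem_univ (h - p)) (mem_univ (h - q)) hl0.le hl1'.le (by ring)
  rw [e1] at a1
  rw [e2] at a2
  simp only [smul_eq_mul] at a1 a2
  have sp : sd L p h ≤ b := by
    have h1 : p = (z 0 / lam / (2 * ρ)) • ((2 * ρ) • ej 0) := by
      rw [hp, smul_smul, div_mul_cancel₀ _ (by positivity)]
    rw [h1]
    refine (sd_abs13 hL ?_ _ h).trans (hb' 0)
    rw [abs_div, abs_div, abs_of_pos hl0, abs_of_pos (show (0 : ℝ) < 2 * ρ by positivity),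
      div_div, hlam, div_mul_cancel₀ _ (by positivity), div_le_one (by
        have := abs_nonneg (z 0)
        positivity)]
    linarith
  have sq : sd L q h ≤ b := by
    have h1 : q = (z 1 / (1 - lam) / (2 * ρ)) • ((2 * ρ) • ej 1) := by
      rw [hq, smul_smul, div_mul_cancel₀ _ (by positivity)]
    rw [h1]
    refine (sd_abs13 hL ?_ _ h).trans (hb' 1)
    rw [abs_div, abs_div, abs_of_pos hl1', abs_of_pos (show (0 : ℝ) < 2 * ρ by positivity),
      div_div, hl1, div_mul_cancel₀ _ (by positivity), div_le_one (by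
        have := abs_nonneg (z 1)
        positivity)]
    linarith
  unfold sd at sp sq
  nlinarith

/-- The inner product of a nearly axial tilt with a vector of the sector of that axis. -/
theorem inn13 {w z : Vec 2} {ρ s : ℝ} (hρ : 0 < ρ) (j : Fin 2)
    (hw : ∀ i : Fin 2, |w i| ≤ s * w j) (hz : ‖z - (s * ρ) • ej j‖ ≤ ρ / 9) :
    ρ * (s * w j) / 2 ≤ inner ℝ z w := by
  have ha : 0 ≤ s * w j := (abs_nonneg _).trans (hw j)
  have hn : ‖w‖ ≤ 3 / 2 * (s * w j) := by
    have h1 : ‖w‖ ^ 2 = w 0 ^ 2 + w 1 ^ 2 := by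
      rw [EuclideanSpace.norm_sq_eq, Fin.sum_univ_two]
      simp only [Real.norm_eq_abs, sq_abs]
    have h2 : ‖w‖ ^ 2 ≤ (3 / 2 * (s * w j)) ^ 2 := by
      rw [h1]
      have h3 := pow_le_pow_left₀ (abs_nonneg _) (hw 0) 2
      have h4 := pow_le_pow_left₀ (abs_nonneg _) (hw 1) 2
      rw [sq_abs] at h3 h4
      nlinarith
    exact le_of_sq_le_sq h2 (by positivity)
  have h1 : inner ℝ z w = inner ℝ (z - (s * ρ) • ej j) w + s * ρ * w j := by
    have h2 : inner ℝ ((s * ρ) • ej j) w = s * ρ * w j := by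
      rw [real_inner_smul_left]
      congr 1
      unfold ej
      rw [EuclideanSpace.inner_single_left]
      simp
    rw [inner_sub_left, h2]
    ring
  have h2 : -(ρ / 9 * (3 / 2 * (s * w j))) ≤ inner ℝ (z - (s * ρ) • ej j) w := by
    have h3 := abs_real_inner_le_norm (z - (s * ρ) • ej j) w
    have h4 : ‖z - (s * ρ) • ej j‖ * ‖w‖ ≤ ρ / 9 * (3 / 2 * (s * w j)) :=
      mul_le_mul hz hn (norm_nonneg _) (by positivity)
    exact (neg_le_neg (h3.trans h4)).trans (neg_abs_le _)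
  rw [h1]
  have h5 : 0 ≤ ρ * (s * w j) := mul_nonneg hρ.le ha
  nlinarith

end Pool.Agent.W_7d29a1_R34
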