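import Pool.Agent.W_7d29a1_R34.DefsR34
import Pool.Agent.W_7d29a1_R34.Geo13
import Pool.Agent.W_7d29a1_h46u.FreeV

/-!
R3: one sector of one shell (helper13).
-/

namespace Pool.Agent.W_7d29a1_R34

open MeasureTheory ProbabilityTheory Filter Topology Pool.Agent.W_MP_7d29a1_pr
  Pool.Agent.W_7d29a1_h46 Pool.Agent.W_7d29a1_h46u Pool.Agent.W_7d29a1_D2.B35
  Pool.Agent.W_7d29a1_Q29

lemma rw13_pos {M W : ℝ} {t : ℕ} (hM : 1 ≤ M) (hW : 1 ≤ W) (ht : 1 ≤ t) (k : ℕ) :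
    0 < rw' M W t k := by
  have h1 : 0 < Real.sqrt t := Real.sqrt_pos.2 (by exact_mod_cast ht)
  unfold rw'
  positivity

lemma exp_le13 {x : ℝ} (hx : 0 < x) : Real.exp (-x) ≤ 2 / x ^ 2 := by
  have h1 := Real.quadratic_le_exp_of_nonneg hx.le
  rw [Real.exp_neg, inv_le_comm₀ (Real.exp_pos _) (by positivity), inv_div]
  nlinarith

lemma St_nonneg13 {d : ℕ} (ρ : Measure ℝ) (β : ℝ) (h : Vec d) (n t : ℕ) : 0 ≤ St ρ β h n t :=
  integral_nonneg fun _ => Finset.sum_nonneg fun _ _ => sq_nonneg _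

variable {ρ : Measure ℝ} [IsProbabilityMeasure ρ]

/-- One sector of one shell. -/
theorem piece13 (hρ : EM ρ) {β : ℝ} (hB : BoxR 2 ρ β) (hT : TailR 2 ρ β) {M K W : ℝ}
    {h v : Vec 2} {n t : ℕ} (hM : 1 ≤ M) (hK : 1 ≤ K) (ht : 1 ≤ t) (htn : t ≤ n) (hW : 1 ≤ W)
    (hVn : Va ρ β h n ≤ K) (hVt : Va ρ β h (n - t) ≤ K)
    (hv : ∀ g : Vec 2, A ρ β h t + inner ℝ v (g - h) ≤ A ρ β g t) (k : ℕ) (j : Fin 2) (s : ℝ)
    (hden : ∃ g : Vec 2, ‖g - h - (s * rw' M W t k) • ej j‖ ≤ rw' M W t k / 9 ∧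
      Va ρ β g t ≤ K)
    (hs : s = 1 ∨ s = -1)
    (hsd : ∀ i : Fin 2, A ρ β (h + (2 * rw' M W t k) • ej i) t +
      A ρ β (h - (2 * rw' M W t k) • ej i) t - 2 * A ρ β h t ≤ M * 2 ^ k * t * rw' M W t k ^ 2)
    (R : Finset (Site 2)) (hR : R ⊆ boxF 2 t)
    (hRs : ∀ y ∈ R, (∀ i : Fin 2, |(emb y - v) i| ≤ s * (emb y - v) j) ∧
      16 ^ k * W * Real.sqrt t ≤ s * (emb y - v) j)
    (hcard : (R.card : ℝ) ≤ 9 * (16 ^ (k + 1) * W * Real.sqrt t) ^ 2) :
    ∫ η, ∑ y ∈ R, Qt β h n t y η ∂(law 2 ρ) ≤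
      53248 * M ^ 2 * K / (W ^ 4 * (128 ^ k) ^ 2) +
        3072 * M / (W * 8 ^ k) * Real.sqrt (K * t * St ρ β h n t) := by
  classical
  obtain ⟨g, hg1, hg2⟩ := hden
  have hσ : 0 < Real.sqrt t := Real.sqrt_pos.2 (by exact_mod_cast ht)
  have hσ2 : Real.sqrt t ^ 2 = t := Real.sq_sqrt (by positivity)
  have hM0 : 0 < M := by linarith
  have hW0 : 0 < W := by linarith
  have hK0 : 0 < K := by linarith
  have hrw := rw13_pos hM hW ht k
  set r : ℝ := 128 ^ k * W ^ 2 / (32 * M) with hr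
  have hr0 : 0 < r := by positivity
  have h128 : (128 : ℝ) ^ k = 8 ^ k * 16 ^ k := by
    rw [← mul_pow]
    norm_num
  have h128' : (128 : ℝ) ^ k = 2 ^ k * (8 ^ k) ^ 2 := by
    rw [← pow_mul, mul_comm k 2, pow_mul, ← mul_pow]
    norm_num
  have hgain : rw' M W t k * (16 ^ k * W * Real.sqrt t) / 2 = 2 * r := by
    rw [hr, h128]
    unfold rw'
    field_simp
    norm_num
  have hconv := A_convex (ρ := ρ) (d := 2) two_pos hρ β t
  -- the tilt
  set z : Vec 2 := g - h with hz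
  have hzg : h + z = g := by rw [hz]; abel
  have hnej : ‖(ej j : Vec 2)‖ = 1 := by
    unfold ej
    simp
  have hzn : ‖z‖ ≤ 10 / 9 * rw' M W t k := by
    have h1 : ‖z‖ ≤ ‖z - (s * rw' M W t k) • ej j‖ + ‖(s * rw' M W t k) • (ej j : Vec 2)‖ := by
      have h2 := norm_add_le (z - (s * rw' M W t k) • ej j) ((s * rw' M W t k) • (ej j : Vec 2))
      rwa [sub_add_cancel] at h2
    have h3 : ‖(s * rw' M W t k) • (ej j : Vec 2)‖ = rw' M W t k := by
      rw [norm_smul, hnej, mul_one, Real.norm_eq_abs, abs_mul, abs_of_pos hrw]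
      rcases hs with rfl | rfl <;> simp
    rw [h3] at h1
    linarith
  have hsd2 := sd_two13 hconv hrw hzn hsd
  have hsd3 : A ρ β (h + z) t + A ρ β (h - z) t - 2 * A ρ β h t ≤ r / 2 := by
    refine hsd2.trans (le_of_eq ?_)
    rw [hr, h128']
    unfold rw'
    rw [div_pow, mul_pow, mul_pow, mul_pow, hσ2]
    have ht0 : (0 : ℝ) < t := by exact_mod_cast ht
    field_simp
    norm_num
  have htail := hT K r h z v t hr0 (by rw [hzg]; exact hg2) hv hsd3
  have hsub : R ⊆ (boxF 2 t).filter (fun y => 2 * r ≤ inner ℝ z (emb y - v)) := by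
    intro y hy
    obtain ⟨h1, h2⟩ := hRs y hy
    refine Finset.mem_filter.2 ⟨hR hy, ?_⟩
    refine le_trans ?_ (inn13 hrw j h1 hg1)
    rw [← hgain]
    have := mul_le_mul_of_nonneg_left h2 hrw.le
    linarith
  have hq : (law 2 ρ).real {η | Real.exp (A ρ β h t - r) < ∑ y ∈ R, PP β h η t y} ≤
      4 * K / r ^ 2 := by
    refine le_trans (measureReal_mono ?_ (measure_ne_top _ _)) htail
    intro η hη
    have h1 : Real.exp (A ρ β h t - r) < ∑ y ∈ R, PP β h η t y := hη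
    exact h1.trans_le (Finset.sum_le_sum_of_subset_of_nonneg hsub fun y _ _ =>
      PP_nonneg β h η t y)
  have hbox := hB K r (4 * K / r ^ 2) h n t R hR htn hr0 hVn hVt hq
  refine hbox.trans ?_
  have hSt := St_nonneg13 ρ β h n t
  have hexp : Real.exp (-(r / 4)) ≤ 32 * K / r ^ 2 := by
    refine (exp_le13 (show 0 < r / 4 by positivity)).trans ?_
    rw [show 2 / (r / 4) ^ 2 = 32 / r ^ 2 by field_simp; norm_num]
    exact div_le_div_of_nonneg_right (by linarith) (by positivity)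
  have hsq : Real.sqrt (K * R.card * St ρ β h n t) ≤
      3 * 16 ^ (k + 1) * W * Real.sqrt (K * t * St ρ β h n t) := by
    have h1 : 3 * 16 ^ (k + 1) * W * Real.sqrt (K * t * St ρ β h n t)
        = Real.sqrt ((3 * 16 ^ (k + 1) * W) ^ 2 * (K * t * St ρ β h n t)) := by
      rw [Real.sqrt_mul (sq_nonneg (3 * 16 ^ (k + 1) * W)) (K * t * St ρ β h n t),
        Real.sqrt_sq (by positivity)]
    rw [h1]
    refine Real.sqrt_le_sqrt ?_
    have h2 : K * St ρ β h n t * R.card ≤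
        K * St ρ β h n t * (9 * (16 ^ (k + 1) * W * Real.sqrt t) ^ 2) :=
      mul_le_mul_of_nonneg_left hcard (by positivity)
    calc K * R.card * St ρ β h n t = K * St ρ β h n t * R.card := by ring
      _ ≤ _ := h2
      _ = (3 * 16 ^ (k + 1) * W) ^ 2 * (K * (Real.sqrt t ^ 2) * St ρ β h n t) := by ring
      _ = _ := by rw [hσ2]
  have hlast : 2 / r * Real.sqrt (K * R.card * St ρ β h n t) ≤
      3072 * M / (W * 8 ^ k) * Real.sqrt (K * t * St ρ β h n t) := by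
    refine (mul_le_mul_of_nonneg_left hsq (by positivity)).trans (le_of_eq ?_)
    rw [hr, h128, pow_succ (16 : ℝ) k]
    field_simp
    ring
  have hfirst : 4 * K / r ^ 2 + 16 * K / r ^ 2 + 32 * K / r ^ 2 =
      53248 * M ^ 2 * K / (W ^ 4 * (128 ^ k) ^ 2) := by
    rw [hr]
    field_simp
    norm_num
  linarith

end Pool.Agent.W_7d29a1_R34
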