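import Pool.Agent.W_7d29a1_R34.Rp81

/-!
Weights over the times, second part: the logarithmic weight in `[√n, n]` of a set of times of
positive lower density; the weight of the times with a large summand is small.
-/

namespace Pool.Agent.W_7d29a1_R34

open MeasureTheory Filter Topology

open Classical in
/-- A set of times of positive lower density has positive lower logarithmic density. -/
theorem abel81 {c₀ : ℝ} (h0 : 0 < c₀) : ∃ c : ℝ, 0 < c ∧ ∃ n₀ : ℕ, ∀ n : ℕ, n₀ ≤ n →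
    ∀ P : ℕ → Prop, (∀ m : ℕ, c₀ * m ≤ (((Finset.range m).filter P).card : ℝ)) →
      c * Real.log n ≤ ∑ t ∈ (Finset.Icc (Nat.sqrt n) n).filter P, (1 / (t : ℝ)) := by
  obtain ⟨c, hc, n₀, H⟩ := logw81 h0
  refine ⟨c, hc, n₀, fun n hn P hP => (H P hP n hn).trans ?_⟩
  refine Finset.sum_le_sum_of_subset_of_nonneg (fun t ht => ?_) fun t _ _ => by positivity
  rw [Finset.mem_filter, Finset.mem_range] at ht
  rw [Finset.mem_filter, Finset.mem_Icc]
  refine ⟨⟨?_, ht.1.le⟩, ht.2.2⟩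
  have h1 : ((Nat.sqrt n : ℕ) : ℝ) ≤ √(n : ℝ) := Real.nat_sqrt_le_real_sqrt
  exact_mod_cast h1.trans ht.2.1

/-- The logarithm squared is smaller than the fourth root. -/
lemma lim81 (C : ℝ) : Tendsto (fun n : ℕ => 2 * C * ((Real.log n) ^ 2 * (n : ℝ) ^ (-(1 / 4 : ℝ))))
    atTop (𝓝 0) := by
  have h1 : Tendsto (fun x : ℝ => Real.log x ^ 2 / x ^ (1 / 4 : ℝ)) atTop (𝓝 0) := by
    have := (isLittleO_log_rpow_rpow_atTop 2 (show (0 : ℝ) < 1 / 4 by norm_num)).tendsto_div_nhds_zero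
    refine this.congr fun x => ?_
    norm_num
  have h2 := (h1.comp tendsto_natCast_atTop_atTop).const_mul (2 * C)
  rw [mul_zero] at h2
  refine h2.congr fun n => ?_
  simp only [Function.comp]
  rw [Real.rpow_neg (Nat.cast_nonneg n), div_eq_mul_inv]

open Classical in
/-- The times with a large summand carry a small weight. -/
theorem bad81 {C η : ℝ} (hC : 0 ≤ C) (hη : 0 < η) : ∃ n₀ : ℕ, ∀ n : ℕ, n₀ ≤ n →
    ∀ (s : ℕ → ℝ) (K : ℝ), (∀ t, 0 ≤ s t) → K ≤ (Real.log n) ^ 2 →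
      ∑ t ∈ Finset.range n, s t ≤ C * K →
        ∑ t ∈ (Finset.Icc (Nat.sqrt n) n).filter
          (fun t => (n : ℝ) ^ (-(1 / 4 : ℝ)) < s t ∧ t < n), (1 / (t : ℝ)) ≤ η := by
  obtain ⟨n₁, hn₁⟩ := eventually_atTop.1 ((lim81 C).eventually_lt_const hη)
  refine ⟨max n₁ 16, fun n hn s K hs hK hsum => ?_⟩
  have hlim := hn₁ n ((le_max_left _ _).trans hn)
  have hn16 : 16 ≤ n := (le_max_right _ _).trans hn
  have hnR : (0 : ℝ) < n := by
    have : (16 : ℝ) ≤ n := by exact_mod_cast hn16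
    linarith
  set q : ℝ := (n : ℝ) ^ (-(1 / 4 : ℝ)) with hq
  have hq0 : 0 < q := Real.rpow_pos_of_pos hnR _
  set F := (Finset.Icc (Nat.sqrt n) n).filter (fun t => q < s t ∧ t < n) with hF
  -- the number of bad times
  have hcard : (F.card : ℝ) * q ≤ C * (Real.log n) ^ 2 := by
    have h1 : (F.card : ℝ) * q = ∑ t ∈ F, q := by rw [Finset.sum_const, nsmul_eq_mul]
    rw [h1]
    calc ∑ t ∈ F, q ≤ ∑ t ∈ F, s t :=
          Finset.sum_le_sum fun t ht => (Finset.mem_filter.1 ht).2.1.le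
      _ ≤ ∑ t ∈ Finset.range n, s t :=
          Finset.sum_le_sum_of_subset_of_nonneg
            (fun t ht => Finset.mem_range.2 (Finset.mem_filter.1 ht).2.2) fun t _ _ => hs t
      _ ≤ C * K := hsum
      _ ≤ C * (Real.log n) ^ 2 := mul_le_mul_of_nonneg_left hK hC
  -- the size of the smallest time
  have hsq4 : 4 ≤ Nat.sqrt n := by
    rw [Nat.le_sqrt]
    omega
  have hsqR : (4 : ℝ) ≤ (Nat.sqrt n : ℕ) := by exact_mod_cast hsq4
  have hroot : √(n : ℝ) ≤ 2 * ((Nat.sqrt n : ℕ) : ℝ) := by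
    have h2 : √(n : ℝ) ≤ ((Nat.sqrt n : ℕ) : ℝ) + 1 := by
      have := Real.real_sqrt_lt_nat_sqrt_succ (a := n)
      exact this.le
    linarith
  have hqq : q * q * √(n : ℝ) = 1 := by
    rw [hq, Real.sqrt_eq_rpow, ← Real.rpow_add hnR, ← Real.rpow_add hnR]
    norm_num
  have hw : ∀ t ∈ F, 1 / (t : ℝ) ≤ 2 * (q * q) := by
    intro t ht
    have h3 := (Finset.mem_Icc.1 (Finset.mem_filter.1 ht).1).1
    have h4 : ((Nat.sqrt n : ℕ) : ℝ) ≤ t := by exact_mod_cast h3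
    have h5 : (0 : ℝ) < t := by linarith
    rw [div_le_iff₀ h5]
    have h6 : √(n : ℝ) ≤ 2 * t := by linarith
    have h7 : q * q * √(n : ℝ) ≤ q * q * (2 * t) := mul_le_mul_of_nonneg_left h6 (by positivity)
    linarith
  calc ∑ t ∈ F, (1 / (t : ℝ)) ≤ ∑ t ∈ F, 2 * (q * q) := Finset.sum_le_sum hw
    _ = 2 * ((F.card : ℝ) * q) * q := by
        rw [Finset.sum_const, nsmul_eq_mul]
        ring
    _ ≤ 2 * (C * (Real.log n) ^ 2) * q := by
        refine mul_le_mul_of_nonneg_right ?_ hq0.le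
        linarith
    _ = 2 * C * ((Real.log n) ^ 2 * q) := by ring
    _ ≤ η := hlim.le

end Pool.Agent.W_7d29a1_R34
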