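import Mathlib

/-!
Elementary numbers for the logarithmic lower bound (helper93).
-/

namespace Pool.Agent.W_7d29a1_R34

open Filter Topology

/-- The harmonic sum. -/
lemma harm93 {n : ℕ} (hn : 1 ≤ n) (hlog : 1 ≤ Real.log n) :
    ∑ t ∈ Finset.Icc (Nat.sqrt n) n, (1 / (t : ℝ)) ≤ 2 * Real.log n := by
  have h1 : ∑ t ∈ Finset.Icc (Nat.sqrt n) n, (1 / (t : ℝ)) ≤ ∑ t ∈ Finset.Icc 1 n, (1 / (t : ℝ)) := by
    refine Finset.sum_le_sum_of_subset_of_nonneg (fun t ht => ?_) fun t _ _ => by positivity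
    rw [Finset.mem_Icc] at ht ⊢
    have : 1 ≤ Nat.sqrt n := Nat.le_sqrt.2 (by omega)
    omega
  have h2 : ∑ t ∈ Finset.Icc 1 n, (1 / (t : ℝ)) = ((harmonic n : ℚ) : ℝ) := by
    rw [harmonic_eq_sum_Icc]
    push_cast
    refine Finset.sum_congr rfl fun t _ => ?_
    rw [one_div]
  have h3 := harmonic_le_one_add_log n
  rw [h2] at h1
  linarith

/-- Splitting of the weights. -/
lemma split93 {n : ℕ} (P b q : ℕ → Prop) [DecidablePred P] [DecidablePred b] [DecidablePred q]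
    (I : Finset ℕ) : ∑ t ∈ I.filter P, (1 / (t : ℝ)) ≤
      ∑ t ∈ I.filter (fun t => P t ∧ ¬ b t ∧ ¬ q t ∧ t < n), (1 / (t : ℝ)) +
      ∑ t ∈ I.filter b, (1 / (t : ℝ)) + ∑ t ∈ I.filter q, (1 / (t : ℝ)) +
      ∑ t ∈ I.filter (fun t => ¬ t < n), (1 / (t : ℝ)) := by
  rw [Finset.sum_filter, Finset.sum_filter, Finset.sum_filter, Finset.sum_filter,
    Finset.sum_filter, ← Finset.sum_add_distrib, ← Finset.sum_add_distrib,
    ← Finset.sum_add_distrib]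
  refine Finset.sum_le_sum fun t _ => ?_
  have h0 : (0 : ℝ) ≤ 1 / (t : ℝ) := by positivity
  by_cases h1 : P t <;> by_cases h2 : b t <;> by_cases h3 : q t <;> by_cases h4 : t < n <;>
    simp [h1, h2, h3, h4] <;> linarith [h0, (inv_nonneg.2 (Nat.cast_nonneg (α := ℝ) t))]

/-- The eventual numbers. -/
lemma ev93 {κ c₀ ca δ M : ℝ} (hκ : 0 < κ) (hc₀ : 0 < c₀) (hca : 0 < ca) (hδ : 0 < δ) (hM : 0 < M) :
    ∀ᶠ n : ℕ in atTop, 4 ≤ n ∧ 1 ≤ Real.log n ∧ 3 ≤ κ / 64 * Real.log n ∧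
      κ / 64 * Real.log n ≤ δ ^ 8 * (Nat.sqrt n : ℝ) ∧
      1 / 8 * Real.log n ≤ Real.log (c₀ ^ 3 / (n : ℝ) ^ (-(1 / 4 : ℝ))) ∧
      2 ≤ ca / 4 * Real.log n ∧
      Real.log n ≤ (κ / 64 * Real.log n) ^ 2 / (2 * 10 ^ 6 * M ^ 2) := by
  have hl : Tendsto (fun n : ℕ => Real.log n) atTop atTop :=
    Real.tendsto_log_atTop.comp tendsto_natCast_atTop_atTop
  have h1 : ∀ᶠ n : ℕ in atTop, 4 ≤ n := eventually_ge_atTop 4
  have h2 := hl.eventually_ge_atTop 1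
  have h3 := hl.eventually_ge_atTop (3 * 64 / κ)
  have h4 := hl.eventually_ge_atTop (-24 * Real.log c₀)
  have h5 := hl.eventually_ge_atTop (8 / ca)
  have h6 := hl.eventually_ge_atTop (64 ^ 2 * (2 * 10 ^ 6 * M ^ 2) / κ ^ 2)
  have ho : (fun x : ℝ => Real.log x) =o[atTop] fun x : ℝ => x ^ (1 / 2 : ℝ) :=
    isLittleO_log_rpow_atTop (by norm_num)
  have hc : 0 < δ ^ 8 * 32 / κ := by positivity
  have h7 := (ho.bound hc)
  have h8 := tendsto_natCast_atTop_atTop.eventually h7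
  filter_upwards [h1, h2, h3, h4, h5, h6, h8] with n e1 e2 e3 e4 e5 e6 e7
  have hn : (4 : ℝ) ≤ n := by exact_mod_cast e1
  have hn0 : (0 : ℝ) < n := by linarith
  refine ⟨e1, e2, ?_, ?_, ?_, ?_, ?_⟩
  · rw [div_le_iff₀ hκ] at e3
    linarith
  · rw [Real.norm_eq_abs, Real.norm_eq_abs, abs_of_nonneg (by linarith),
      abs_of_nonneg (by positivity), ← Real.sqrt_eq_rpow] at e7
    have e8 : √(n : ℝ) ≤ 2 * (Nat.sqrt n : ℝ) := by
      have h9 := Real.real_sqrt_le_nat_sqrt_succ (a := n)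
      have h10 : 2 ≤ Nat.sqrt n := Nat.le_sqrt.2 (by omega)
      have h11 : (2 : ℝ) ≤ (Nat.sqrt n : ℝ) := by exact_mod_cast h10
      linarith
    have e9 : κ / 64 * Real.log n ≤ κ / 64 * (δ ^ 8 * 32 / κ * √(n : ℝ)) :=
      mul_le_mul_of_nonneg_left e7 (by positivity)
    have e10 : κ / 64 * (δ ^ 8 * 32 / κ * √(n : ℝ)) = δ ^ 8 / 2 * √(n : ℝ) := by
      field_simp
      ring
    rw [e10] at e9
    refine e9.trans ?_
    have e11 : 0 ≤ δ ^ 8 / 2 := by positivity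
    calc δ ^ 8 / 2 * √(n : ℝ) ≤ δ ^ 8 / 2 * (2 * (Nat.sqrt n : ℝ)) :=
          mul_le_mul_of_nonneg_left e8 e11
      _ = δ ^ 8 * (Nat.sqrt n : ℝ) := by ring
  · rw [Real.log_div (by positivity) (by positivity), Real.log_pow, Real.log_rpow hn0]
    push_cast
    linarith
  · rw [div_le_iff₀ hca] at e5
    linarith
  · rw [div_le_iff₀ (by positivity)] at e6
    rw [le_div_iff₀ (by positivity)]
    have e8 : Real.log n * (2 * 10 ^ 6 * M ^ 2) * 64 ^ 2 ≤ (κ * Real.log n) ^ 2 := by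
      nlinarith
    nlinarith

end Pool.Agent.W_7d29a1_R34
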