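import Pool.Agent.W_7d29a1_R34.DefsR34
import Pool.Agent.W_7d29a1_Q29.R6a65

/-!
Almost every tilt from the uniform lower bound over sets of positive measure.
-/

namespace Pool.Agent.W_7d29a1_R34

open MeasureTheory ProbabilityTheory Filter Topology Pool.Agent.W_MP_7d29a1_pr
  Pool.Agent.W_7d29a1_h46 Pool.Agent.W_7d29a1_h46u Pool.Agent.W_7d29a1_Q29

variable {ρ : Measure ℝ} [IsProbabilityMeasure ρ] {β : ℝ}

/-- R7. -/
theorem aeR65 (hρ : EM ρ) (hU : UniR ρ β) : AeR ρ β := by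
  have h := ego65 (d := 2) (a := 2 / 3) (by norm_num) (fun n h => Va ρ β h n)
    (cont65 (by norm_num) hρ β) (fun n h => integral_nonneg fun _ => sq_nonneg _)
    (fun B hb hm hv => by
      obtain ⟨c, hc, n₀, H⟩ := hU B hb hm hv
      exact ⟨c, hc, n₀, fun n hn K hK => H n hn K hK⟩)
  exact h.mono fun x ⟨c, hc, hx⟩ => ⟨c, hc, hx⟩

end Pool.Agent.W_7d29a1_R34
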