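import Pool.Agent.W_7d29a1_Q29.Poly85
import Pool.Agent.W_7d29a1_R34.DefsR34

/-!
R1 (helper85): the expected mass of a set of positions at the time `t`.
-/

namespace Pool.Agent.W_7d29a1_Q29

open MeasureTheory ProbabilityTheory Filter Topology

variable {Ω₁ Ω₂ ι : Type*} [MeasurableSpace Ω₁] [MeasurableSpace Ω₂]

namespace Hab

variable {P₁ : Measure Ω₁} {P₂ : Measure Ω₂} [IsProbabilityMeasure P₁] [IsProbabilityMeasure P₂]
  {Bx : Finset ι} {a : ι → Ω₁ → ℝ} {b : ι → Ω₂ → ℝ} {m F0 A0 : ℝ}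

omit [IsProbabilityMeasure P₁] [IsProbabilityMeasure P₂] in
lemma box_pt (H : Hab P₁ P₂ Bx a b m F0 A0) {r : ℝ} (hr : 0 < r) {W : Finset ι} (hW : W ⊆ Bx)
    (hE0 : 0 ≤ F0 - A0 - m) (w : Ω₁ × Ω₂) (h1 : ∑ i ∈ W, a i w.1 ≤ Real.exp (A0 - r))
    (h2 : F0 - r / 4 ≤ Real.log (Zab Bx a b w)) :
    ∑ i ∈ W, Qab Bx a b i w ≤ Real.exp (-(r / 4)) +
      2 / r * ∑ i ∈ W, Qab Bx a b i w * |Real.log (b i w.2) - m| := by
  have hZ := H.Zpos w
  have key : ∀ i ∈ W, Qab Bx a b i w ≤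
      2 / r * (Qab Bx a b i w * |Real.log (b i w.2) - m|) +
        a i w.1 * (Real.exp (m + r / 2) / Zab Bx a b w) := by
    intro i hi
    have hQ := H.Q_nonneg (hW hi) w
    have ha := H.ha0 i (hW hi) w.1
    have hb := H.hb0 i (hW hi) w.2
    rcases le_or_gt (Real.log (b i w.2) - m) (r / 2) with hc | hc
    · have h3 : b i w.2 ≤ Real.exp (m + r / 2) := by
        rw [← Real.exp_log hb]
        exact Real.exp_le_exp.2 (by linarith)
      have h4 : Qab Bx a b i w ≤ a i w.1 * (Real.exp (m + r / 2) / Zab Bx a b w) := by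
        unfold Qab
        rw [mul_div_assoc]
        exact mul_le_mul_of_nonneg_left (div_le_div_of_nonneg_right h3 hZ.le) ha
      have h5 : 0 ≤ 2 / r * (Qab Bx a b i w * |Real.log (b i w.2) - m|) :=
        mul_nonneg (div_nonneg zero_le_two hr.le) (mul_nonneg hQ (abs_nonneg _))
      linarith
    · have h3 : 1 ≤ 2 / r * |Real.log (b i w.2) - m| := by
        have h3' : r / 2 ≤ |Real.log (b i w.2) - m| := hc.le.trans (le_abs_self _)
        rw [div_mul_eq_mul_div, le_div_iff₀ hr]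
        linarith
      have h4 := mul_le_mul_of_nonneg_left h3 hQ
      have h5 : 0 ≤ a i w.1 * (Real.exp (m + r / 2) / Zab Bx a b w) :=
        mul_nonneg ha (div_nonneg (Real.exp_pos _).le hZ.le)
      have h6 : Qab Bx a b i w * (2 / r * |Real.log (b i w.2) - m|) =
          2 / r * (Qab Bx a b i w * |Real.log (b i w.2) - m|) := by ring
      linarith
  have h3 := Finset.sum_le_sum key
  rw [Finset.sum_add_distrib, ← Finset.mul_sum, ← Finset.sum_mul] at h3
  have h4 : (∑ i ∈ W, a i w.1) * (Real.exp (m + r / 2) / Zab Bx a b w) ≤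
      Real.exp (-(r / 4)) := by
    calc (∑ i ∈ W, a i w.1) * (Real.exp (m + r / 2) / Zab Bx a b w)
        ≤ Real.exp (A0 - r) * (Real.exp (m + r / 2) / Zab Bx a b w) :=
          mul_le_mul_of_nonneg_right h1 (div_nonneg (Real.exp_pos _).le hZ.le)
      _ = Real.exp (A0 - r + (m + r / 2) - Real.log (Zab Bx a b w)) := by
          rw [Real.exp_sub (A0 - r + (m + r / 2)), Real.exp_add (A0 - r), Real.exp_log hZ,
            mul_div_assoc]
      _ ≤ Real.exp (-(r / 4)) := Real.exp_le_exp.2 (by linarith)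
  linarith

/-- The expected mass of a set of positions. -/
theorem box85 (H : Hab P₁ P₂ Bx a b m F0 A0) {K S N r q : ℝ} (hr : 0 < r) {W : Finset ι}
    (hW : W ⊆ Bx) (hN : (W.card : ℝ) ≤ N)
    (hK : ∀ i ∈ Bx, ∫ w, (Real.log (b i w) - m) ^ 2 ∂P₂ ≤ K)
    (hKZ : ∫ w, (Real.log (Zab Bx a b w) - F0) ^ 2 ∂(P₁.prod P₂) ≤ K)
    (hS : ∫ w₂, ∑ i ∈ Bx, (∫ w₁, Qab Bx a b i (w₁, w₂) ∂P₁) ^ 2 ∂P₂ ≤ S)
    (hq : P₁.real {w | Real.exp (A0 - r) < ∑ i ∈ W, a i w} ≤ q)
    (hE0 : 0 ≤ F0 - A0 - m) :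
    ∫ w, ∑ i ∈ W, Qab Bx a b i w ∂(P₁.prod P₂) ≤
      q + 16 * K / r ^ 2 + Real.exp (-(r / 4)) + 2 / r * √(K * N * S) := by
  have hK0 : 0 ≤ K := le_trans (integral_nonneg fun w => sq_nonneg _) hKZ
  obtain ⟨hqi, hqv⟩ := H.QV hW hN hK hK0 hS
  obtain ⟨E, hE⟩ : ∃ E : Set Ω₁, E = {w | Real.exp (A0 - r) < ∑ i ∈ W, a i w} := ⟨_, rfl⟩
  have hEm : MeasurableSet E := by
    rw [hE]
    exact measurableSet_lt measurable_const
      (Finset.measurable_sum W fun i hi => H.ha i (hW hi))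
  have hind : Integrable (E.indicator fun _ => (1 : ℝ)) P₁ :=
    (integrable_const (1 : ℝ)).indicator hEm
  have hind2 : Integrable (fun w : Ω₁ × Ω₂ => E.indicator (fun _ => (1 : ℝ)) w.1) (P₁.prod P₂) :=
    hind.comp_fst P₂
  have hI1 : ∫ w : Ω₁ × Ω₂, E.indicator (fun _ => (1 : ℝ)) w.1 ∂(P₁.prod P₂) ≤ q := by
    rw [integral_fun_fst (E.indicator fun _ => (1 : ℝ)), integral_indicator_const _ hEm, hE]
    simpa using hq
  have hQi : Integrable (fun w => ∑ i ∈ W, Qab Bx a b i w) (P₁.prod P₂) := by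
    refine integrable_finsetSum W fun i hi => ?_
    refine Integrable.mono' (integrable_const (1 : ℝ)) (H.meas_Q (hW hi)).aestronglyMeasurable
      (Eventually.of_forall fun w => ?_)
    rw [Real.norm_eq_abs, abs_of_nonneg (H.Q_nonneg (hW hi) _)]
    exact H.Q_le_one (hW hi) _
  have hr2 : 0 < r ^ 2 := pow_pos hr 2
  have hpt : ∀ w : Ω₁ × Ω₂, ∑ i ∈ W, Qab Bx a b i w ≤
      E.indicator (fun _ => (1 : ℝ)) w.1 +
        16 / r ^ 2 * (Real.log (Zab Bx a b w) - F0) ^ 2 + Real.exp (-(r / 4)) +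
        2 / r * ∑ i ∈ W, Qab Bx a b i w * |Real.log (b i w.2) - m| := by
    intro w
    have hQ1 : ∑ i ∈ W, Qab Bx a b i w ≤ 1 := by
      rw [← H.Q_sum w]
      exact Finset.sum_le_sum_of_subset_of_nonneg hW fun i hi _ => H.Q_nonneg hi w
    have n1 : 0 ≤ E.indicator (fun _ => (1 : ℝ)) w.1 :=
      Set.indicator_nonneg (fun _ _ => zero_le_one) _
    have n2 : 0 ≤ 16 / r ^ 2 * (Real.log (Zab Bx a b w) - F0) ^ 2 :=
      mul_nonneg (div_nonneg (by norm_num) hr2.le) (sq_nonneg _)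
    have n3 := Real.exp_pos (-(r / 4))
    have n4 : 0 ≤ 2 / r * ∑ i ∈ W, Qab Bx a b i w * |Real.log (b i w.2) - m| :=
      mul_nonneg (div_nonneg zero_le_two hr.le)
        (Finset.sum_nonneg fun i hi => mul_nonneg (H.Q_nonneg (hW hi) w) (abs_nonneg _))
    by_cases hw : w.1 ∈ E
    · rw [Set.indicator_of_mem hw]
      linarith
    · have h1 : ∑ i ∈ W, a i w.1 ≤ Real.exp (A0 - r) := by
        rw [hE] at hw
        exact not_lt.1 hw
      rcases le_or_gt (F0 - r / 4) (Real.log (Zab Bx a b w)) with h2 | h2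
      · have h3 := H.box_pt hr hW hE0 w h1 h2
        linarith
      · have h3 : 1 ≤ 16 / r ^ 2 * (Real.log (Zab Bx a b w) - F0) ^ 2 := by
          rw [div_mul_eq_mul_div, le_div_iff₀ hr2]
          have h4 : r / 4 ≤ F0 - Real.log (Zab Bx a b w) := by linarith
          nlinarith
        linarith
  have i1 : Integrable (fun w : Ω₁ × Ω₂ => E.indicator (fun _ => (1 : ℝ)) w.1 +
      16 / r ^ 2 * (Real.log (Zab Bx a b w) - F0) ^ 2) (P₁.prod P₂) :=
    hind2.add (H.hZ2.const_mul _)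
  have i2 : Integrable (fun w : Ω₁ × Ω₂ => E.indicator (fun _ => (1 : ℝ)) w.1 +
      16 / r ^ 2 * (Real.log (Zab Bx a b w) - F0) ^ 2 + Real.exp (-(r / 4))) (P₁.prod P₂) :=
    i1.add (integrable_const _)
  have h5 := integral_mono hQi (i2.add (hqi.const_mul (2 / r))) hpt
  have e1 := integral_add' i2 (hqi.const_mul (2 / r))
  rw [integral_add i1 (integrable_const _), integral_add hind2 (H.hZ2.const_mul _),
    integral_const_mul, integral_const_mul] at e1
  simp only [integral_const, smul_eq_mul, probReal_univ, one_mul] at e1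
  rw [e1] at h5
  have h6 : 16 / r ^ 2 * ∫ w, (Real.log (Zab Bx a b w) - F0) ^ 2 ∂(P₁.prod P₂) ≤
      16 * K / r ^ 2 := by
    rw [mul_comm 16 K, mul_div_assoc, mul_comm K]
    exact mul_le_mul_of_nonneg_left hKZ (div_nonneg (by norm_num) hr2.le)
  have h7 := mul_le_mul_of_nonneg_left hqv (div_nonneg zero_le_two hr.le : (0 : ℝ) ≤ 2 / r)
  linarith

end Hab

end Pool.Agent.W_7d29a1_Q29

namespace Pool.Agent.W_7d29a1_R34

open MeasureTheory ProbabilityTheory Filter Topology Pool.Agent.W_MP_7d29a1_pr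
  Pool.Agent.W_7d29a1_h46 Pool.Agent.W_7d29a1_h46u Pool.Agent.W_7d29a1_D2.B35
  Pool.Agent.W_7d29a1_Q29

variable {d : ℕ} {ρ : Measure ℝ}

/-- R1. -/
theorem boxR85 [IsProbabilityMeasure ρ] (hd : 0 < d) (hρ : EM ρ) (β : ℝ) : BoxR d ρ β := by
  intro K r q h n t R hR ht hr hK hKb hq
  have H := N85.hab hd hρ β h ht
  have hE0 : 0 ≤ A ρ β h n - A ρ β h t - A ρ β h (n - t) := by
    have h1 := A_add_le hd hρ β h t (n - t)
    rw [Nat.add_sub_cancel' ht] at h1
    linarith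
  have hKb' : ∀ y ∈ boxF d t, ∫ ξ, (Real.log (Z β h (sh t y ξ) (n - t)) - A ρ β h (n - t)) ^ 2
      ∂(law d ρ) ≤ K := by
    intro y _
    have h1 : ∫ ξ, (X β h (sh t y ξ) (n - t) - A ρ β h (n - t)) ^ 2 ∂(law d ρ) =
        ∫ ξ, (X β h ξ (n - t) - A ρ β h (n - t)) ^ 2 ∂(law d ρ) :=
      integral_sh t y (F := fun ξ => (X β h ξ (n - t) - A ρ β h (n - t)) ^ 2)
        (((measurable_X β h (n - t)).sub_const _).pow_const 2)
    exact (le_of_eq h1).trans hKb
  have hKZ : ∫ w, (Real.log (Zab (boxF d t) (fun y η => PP β h η t y)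
      (fun y ξ => Z β h (sh t y ξ) (n - t)) w) - A ρ β h n) ^ 2
      ∂((law d ρ).prod (law d ρ)) ≤ K := by
    simp only [N85.Zab_eq β h ht]
    have h1 := LawU_integral (F := fun g => (X β h g n - A ρ β h n) ^ 2)
      (mp_spl (ρ := ρ) (Pa d t))
      (((measurable_X β h n).sub_const _).pow_const 2).aestronglyMeasurable
    exact (le_of_eq h1).trans hK
  have hS' : ∫ ξ, ∑ y ∈ boxF d t, (∫ η, Qab (boxF d t) (fun y η => PP β h η t y)
      (fun y ξ => Z β h (sh t y ξ) (n - t)) y (η, ξ) ∂(law d ρ)) ^ 2 ∂(law d ρ) ≤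
      St ρ β h n t := by
    simp only [N85.Qab_eq β h ht]
    have h1 : ∀ (ξ : Env d) (y : Site d), ∫ η, Qt β h n t y (spl (Pa d t) η ξ) ∂(law d ρ) =
        cE ρ (Pa d t)ᶜ (Qt β h n t y) ξ := by
      intro ξ y
      unfold cE
      simp only [spl_compl]
    simp only [h1]
    exact N85.cE_sq_le hd β h ht (Pa d t)ᶜ
  have key := H.box85 hr hR le_rfl hKb' hKZ hS' hq hE0
  simp only [N85.Qab_eq β h ht] at key
  have h2 := LawU_integral (F := fun g => ∑ y ∈ R, Qt β h n t y g) (mp_spl (ρ := ρ) (Pa d t))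
    (Finset.measurable_sum R fun y _ => S98.measurable_Qt β h n t y).aestronglyMeasurable
  exact (le_of_eq h2.symm).trans key

end Pool.Agent.W_7d29a1_R34
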