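import Pool.Agent.W_7d29a1_Q29.Poly85
import Pool.Agent.W_7d29a1_Q29.BoxG93
import Pool.Agent.W_7d29a1_R34.DefsR34

/-!
The polymer sits where the future is lucky: the polymer instance (helper93).
-/

namespace Pool.Agent.W_7d29a1_R34

open MeasureTheory ProbabilityTheory Filter Topology Pool.Agent.W_MP_7d29a1_pr
  Pool.Agent.W_7d29a1_h46 Pool.Agent.W_7d29a1_h46u Pool.Agent.W_7d29a1_D2.B35
  Pool.Agent.W_7d29a1_Q29

variable {d : ℕ} {ρ : Measure ℝ}

/-- When the gap is at least `4 G`, the expected mass of a set of `N` positions at the time `t` is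
at most `e^(-G) + K / G² + √(K N S_t) / G`. -/
theorem boxP93 [IsProbabilityMeasure ρ] (hd : 0 < d) (hρ : EM ρ) (β : ℝ) {K G : ℝ} (h : Vec d)
    {L t : ℕ} (ht : t ≤ L) {R : Finset (Site d)} (hR : R ⊆ boxF d t) (hG : 0 < G)
    (hg : 4 * G ≤ A ρ β h L - A ρ β h t - A ρ β h (L - t))
    (hK : Va ρ β h L ≤ K) (hKA : Va ρ β h t ≤ K) (hKb : Va ρ β h (L - t) ≤ K) :
    ∫ η, ∑ y ∈ R, Qt β h L t y η ∂(law d ρ) ≤
      Real.exp (-G) + K / G ^ 2 + 1 / G * √(K * R.card * St ρ β h L t) := by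
  classical
  have H := N85.hab hd hρ β h ht
  have hKb' : ∀ y ∈ boxF d t, ∫ ξ, (Real.log (Z β h (sh t y ξ) (L - t)) - A ρ β h (L - t)) ^ 2
      ∂(law d ρ) ≤ K := by
    intro y _
    have h1 : ∫ ξ, (X β h (sh t y ξ) (L - t) - A ρ β h (L - t)) ^ 2 ∂(law d ρ) =
        ∫ ξ, (X β h ξ (L - t) - A ρ β h (L - t)) ^ 2 ∂(law d ρ) :=
      integral_sh t y (F := fun ξ => (X β h ξ (L - t) - A ρ β h (L - t)) ^ 2)
        (((measurable_X β h (L - t)).sub_const _).pow_const 2)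
    exact (le_of_eq h1).trans hKb
  have hKZ : ∫ w, (Real.log (Zab (boxF d t) (fun y η => PP β h η t y)
      (fun y ξ => Z β h (sh t y ξ) (L - t)) w) - A ρ β h L) ^ 2
      ∂((law d ρ).prod (law d ρ)) ≤ K := by
    simp only [N85.Zab_eq β h ht]
    have h1 := LawU_integral (F := fun g => (X β h g L - A ρ β h L) ^ 2)
      (mp_spl (ρ := ρ) (Pa d t))
      (((measurable_X β h L).sub_const _).pow_const 2).aestronglyMeasurable
    exact (le_of_eq h1).trans hK
  have hKA' : ∫ η, (Real.log (∑ y ∈ boxF d t, PP β h η t y) - A ρ β h t) ^ 2 ∂(law d ρ) ≤ K := by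
    simp only [← Z_eq_sum]
    exact hKA
  have hS' : ∫ ξ, ∑ y ∈ boxF d t, (∫ η, Qab (boxF d t) (fun y η => PP β h η t y)
      (fun y ξ => Z β h (sh t y ξ) (L - t)) y (η, ξ) ∂(law d ρ)) ^ 2 ∂(law d ρ) ≤
      St ρ β h L t := by
    simp only [N85.Qab_eq β h ht]
    have h1 : ∀ (ξ : Env d) (y : Site d), ∫ η, Qt β h L t y (spl (Pa d t) η ξ) ∂(law d ρ) =
        cE ρ (Pa d t)ᶜ (Qt β h L t y) ξ := by
      intro ξ y
      unfold cE
      simp only [spl_compl]
    simp only [h1]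
    exact N85.cE_sq_le hd β h ht (Pa d t)ᶜ
  have key := H.boxG93 hR le_rfl hG hg hKb' hKZ hKA' hS'
  simp only [N85.Qab_eq β h ht] at key
  have h2 := LawU_integral (F := fun g => ∑ y ∈ R, Qt β h L t y g)
    (mp_spl (ρ := ρ) (Pa d t))
    (Finset.measurable_sum R fun y _ => S98.measurable_Qt β h L t y).aestronglyMeasurable
  exact (le_of_eq h2.symm).trans key

end Pool.Agent.W_7d29a1_R34
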