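import Pool.Agent.W_7d29a1_R34.DefsR34
import Pool.Agent.W_7d29a1_Q29.Box98

/-!
R1: the expected mass of a set of positions.
-/

namespace Pool.Agent.W_7d29a1_R34

open MeasureTheory ProbabilityTheory Filter Topology Pool.Agent.W_MP_7d29a1_pr
  Pool.Agent.W_7d29a1_h46 Pool.Agent.W_7d29a1_h46u Pool.Agent.W_7d29a1_D2.B35
  Pool.Agent.W_7d29a1_Q29

variable {d : ℕ} {ρ : Measure ℝ} [IsProbabilityMeasure ρ]

theorem boxR98 (hd : 0 < d) (hρ : EM ρ) (β : ℝ) : BoxR d ρ β := by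
  intro K r q h n t R _ ht hr hKn hKt hq
  exact S98.box98e hd hρ ht R hr le_rfl hKn hKt le_rfl hq

end Pool.Agent.W_7d29a1_R34
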