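import Mathlib.MeasureTheory.Covering.DensityTheorem
import Mathlib.MeasureTheory.Measure.Lebesgue.EqHaar

/-!
# MP_7d29a1_pr, THEOREM R, leaf R5: density points seen from shifted balls (helper13)
-/

open MeasureTheory Set Metric Filter Topology

namespace R34

/-- The points of a compact set `K` from which `K` is seen in every direction at all scales
at most `1 / (m + 1)`. -/
def DenSet13 {d : ℕ} (K : Set (Fin d → ℝ)) (m : ℕ) : Set (Fin d → ℝ) :=
  {h | h ∈ K ∧ ∀ r : ℝ, 0 < r → r ≤ 1 / ((m : ℝ) + 1) → ∀ z : Fin d → ℝ, ‖z‖ ≤ 1 →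
    ∃ h' ∈ K, ‖h' - (h + r • z)‖ ≤ r / 10}

theorem isCompact_denSet13 {d : ℕ} {K : Set (Fin d → ℝ)} (hK : IsCompact K) (m : ℕ) :
    IsCompact (DenSet13 K m) := by
  have hcl : ∀ (r : ℝ) (z : Fin d → ℝ), 0 < r →
      IsClosed {h : Fin d → ℝ | ∃ h' ∈ K, ‖h' - (h + r • z)‖ ≤ r / 10} := by
    intro r z hr
    have he : {h : Fin d → ℝ | ∃ h' ∈ K, ‖h' - (h + r • z)‖ ≤ r / 10}
        = (fun h : Fin d → ℝ => h + r • z) ⁻¹' (cthickening (r / 10) K) := by
      rw [hK.cthickening_eq_biUnion_closedBall (by positivity)]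
      ext h
      simp only [mem_setOf_eq, mem_preimage, mem_iUnion, mem_closedBall, exists_prop]
      constructor
      · rintro ⟨h', h1, h2⟩
        exact ⟨h', h1, by rw [dist_comm, dist_eq_norm]; exact h2⟩
      · rintro ⟨h', h1, h2⟩
        exact ⟨h', h1, by rw [dist_comm, dist_eq_norm] at h2; exact h2⟩
    rw [he]
    exact isClosed_cthickening.preimage (by fun_prop)
  have hs : DenSet13 K m = K ∩ ⋂ (r : ℝ) (_ : 0 < r) (_ : r ≤ 1 / ((m : ℝ) + 1))
      (z : Fin d → ℝ) (_ : ‖z‖ ≤ 1), {h : Fin d → ℝ | ∃ h' ∈ K, ‖h' - (h + r • z)‖ ≤ r / 10} := by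
    ext h
    simp only [DenSet13, mem_setOf_eq, mem_inter_iff, mem_iInter]
  rw [hs]
  refine hK.inter_right ?_
  refine isClosed_iInter fun r => isClosed_iInter fun hr => isClosed_iInter fun _ =>
    isClosed_iInter fun z => isClosed_iInter fun _ => hcl r z hr

/-- **Leaf R5.** A measurable set of positive volume contains a compact set of positive volume
from whose points it is seen in every direction at every small scale. -/
theorem dens13 {d : ℕ} (B : Set (Fin d → ℝ)) (hB : MeasurableSet B) (hpos : 0 < volume B) :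
    ∃ B' ⊆ B, IsCompact B' ∧ 0 < volume B' ∧ ∃ δ : ℝ, 0 < δ ∧ ∀ h ∈ B', ∀ r : ℝ, 0 < r → r ≤ δ →
      ∀ z : Fin d → ℝ, ‖z‖ ≤ 1 → ∃ h' ∈ B, ‖h' - (h + r • z)‖ ≤ r / 10 := by
  obtain ⟨K, hKB, hK, hKpos⟩ := hB.exists_lt_isCompact hpos
  have hae := IsUnifLocDoublingMeasure.ae_tendsto_measure_inter_div
    (volume : Measure (Fin d → ℝ)) K 10
  have hU : ∀ᵐ h ∂(volume.restrict K), h ∈ ⋃ m : ℕ, DenSet13 K m := by
    filter_upwards [hae, ae_restrict_mem hK.measurableSet] with h hh hhK
    by_contra hne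
    simp only [mem_iUnion, not_exists] at hne
    have hsel : ∀ m : ℕ, ∃ r : ℝ, ∃ z : Fin d → ℝ, 0 < r ∧ r ≤ 1 / ((m : ℝ) + 1) ∧ ‖z‖ ≤ 1 ∧
        ∀ h' ∈ K, r / 10 < ‖h' - (h + r • z)‖ := by
      intro m
      have h1 := hne m
      simp only [DenSet13, mem_setOf_eq, hhK, true_and] at h1
      push Not at h1
      obtain ⟨r, hr0, hr1, z, hz, hno⟩ := h1
      exact ⟨r, z, hr0, hr1, hz, hno⟩
    choose r z hr0 hr1 hz hno using hsel
    have hlim : Tendsto (fun m => r m / 10) atTop (𝓝[>] (0 : ℝ)) := by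
      rw [tendsto_nhdsWithin_iff]
      refine ⟨?_, Eventually.of_forall fun m => by
        have := hr0 m
        exact mem_Ioi.2 (by positivity)⟩
      have h2 : Tendsto (fun m : ℕ => 1 / ((m : ℝ) + 1)) atTop (𝓝 0) :=
        tendsto_one_div_add_atTop_nhds_zero_nat
      refine squeeze_zero (fun m => by have := hr0 m; positivity) (fun m => ?_) h2
      have := hr0 m
      have := hr1 m
      linarith
    have h3 := hh (fun m => h + r m • z m) (fun m => r m / 10) hlim
      (Eventually.of_forall fun m => by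
        rw [mem_closedBall, dist_eq_norm]
        have h4 : h - (h + r m • z m) = -(r m • z m) := by abel
        rw [h4, norm_neg, norm_smul, Real.norm_eq_abs, abs_of_pos (hr0 m)]
        have := mul_le_mul_of_nonneg_left (hz m) (hr0 m).le
        linarith)
    have h5 : (fun m => volume (K ∩ closedBall (h + r m • z m) (r m / 10))
        / volume (closedBall (h + r m • z m) (r m / 10))) = fun _ => (0 : ENNReal) := by
      funext m
      have h6 : K ∩ closedBall (h + r m • z m) (r m / 10) = ∅ := by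
        rw [← disjoint_iff_inter_eq_empty, Set.disjoint_left]
        intro h' h'K h'b
        rw [mem_closedBall, dist_eq_norm] at h'b
        exact absurd h'b (not_le.2 (hno m h' h'K))
      rw [h6, measure_empty, ENNReal.zero_div]
    rw [h5] at h3
    exact zero_ne_one (tendsto_nhds_unique tendsto_const_nhds h3)
  have hex : ∃ m : ℕ, 0 < volume (DenSet13 K m) := by
    by_contra hcon
    push Not at hcon
    have h0 : ∀ m, volume (DenSet13 K m) = 0 := fun m => le_antisymm (hcon m) bot_le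
    have h1 : volume (⋃ m : ℕ, DenSet13 K m) = 0 := measure_iUnion_null h0
    have h2 : volume K = 0 := by
      rw [ae_restrict_iff' hK.measurableSet] at hU
      have h3 : ∀ᵐ h : Fin d → ℝ, h ∉ K := by
        have h4 : ∀ᵐ h : Fin d → ℝ, h ∉ ⋃ m : ℕ, DenSet13 K m := measure_eq_zero_iff_ae_notMem.1 h1
        filter_upwards [hU, h4] with h h5 h6 h7
        exact h6 (h5 h7)
      exact measure_eq_zero_iff_ae_notMem.2 h3
    exact absurd h2 hKpos.ne'
  obtain ⟨m, hm⟩ := hex
  refine ⟨DenSet13 K m, fun h hh => hKB hh.1, isCompact_denSet13 hK m, hm,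
    1 / ((m : ℝ) + 1), by positivity, fun h hh r hr0 hr1 z hz => ?_⟩
  obtain ⟨h', h1, h2⟩ := hh.2 r hr0 hr1 z hz
  exact ⟨h', hKB h1, h2⟩

end R34
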