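import Mathlib

/-!
Telescopes and averages over the length (helper93).
-/

namespace Pool.Agent.W_7d29a1_R34

open Filter Topology

/-- A telescope with windows. -/
lemma tele93 (D : ℕ → ℝ) (L : ℕ) : ∀ K : ℕ, ∑ s ∈ Finset.range L, (D s - D (s + K)) =
    ∑ k ∈ Finset.range K, (D k - D (L + k)) := by
  intro K
  induction K with
  | zero => simp
  | succ K ih =>
    have e1 : ∑ s ∈ Finset.range L, (D s - D (s + (K + 1))) =
        ∑ s ∈ Finset.range L, (D s - D (s + K)) +
          ∑ s ∈ Finset.range L, (D (s + K) - D (s + 1 + K)) := by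
      rw [← Finset.sum_add_distrib]
      refine Finset.sum_congr rfl fun s _ => ?_
      have : s + (K + 1) = s + 1 + K := by ring
      rw [this]
      ring
    have e2 : ∑ s ∈ Finset.range L, (D (s + K) - D (s + 1 + K)) = D K - D (L + K) := by
      have h := Finset.sum_range_sub' (fun s => D (s + K)) L
      rw [zero_add] at h
      exact h
    rw [e1, ih, e2, Finset.sum_range_succ]

open Classical in
/-- There are few large decrements of a nonnegative subadditive sequence. -/
theorem incr93 (D : ℕ → ℝ) {K : ℕ} (h0 : ∀ m, 0 ≤ D m) (hsub : ∀ s, D (s + K) ≤ D s + D K)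
    {C η : ℝ} (hC : ∀ m < K, D m ≤ C) (L : ℕ) :
    η * (((Finset.range L).filter fun s => η < D s - D (s + K)).card : ℝ) ≤ K * C + L * D K := by
  have h1 : ∑ s ∈ Finset.range L, (D s - D (s + K) + D K) ≤ K * C + L * D K := by
    rw [Finset.sum_add_distrib, tele93, Finset.sum_const, Finset.card_range, nsmul_eq_mul]
    have h2 : ∑ k ∈ Finset.range K, (D k - D (L + k)) ≤ ∑ _k ∈ Finset.range K, C :=
      Finset.sum_le_sum fun k hk => by
        have := hC k (Finset.mem_range.1 hk)
        have := h0 (L + k)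
        linarith
    rw [Finset.sum_const, Finset.card_range, nsmul_eq_mul] at h2
    linarith
  refine le_trans ?_ h1
  have h3 : ∑ s ∈ (Finset.range L).filter (fun s => η < D s - D (s + K)),
      (D s - D (s + K) + D K) ≤ ∑ s ∈ Finset.range L, (D s - D (s + K) + D K) :=
    Finset.sum_le_sum_of_subset_of_nonneg (Finset.filter_subset _ _) fun s _ _ => by
      have := hsub s
      linarith
  refine le_trans ?_ h3
  have h4 : ∑ _s ∈ (Finset.range L).filter (fun s => η < D s - D (s + K)), η ≤
      ∑ s ∈ (Finset.range L).filter (fun s => η < D s - D (s + K)),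
        (D s - D (s + K) + D K) :=
    Finset.sum_le_sum fun s hs => by
      have h5 := (Finset.mem_filter.1 hs).2
      have := h0 K
      linarith
  rw [Finset.sum_const, nsmul_eq_mul] at h4
  linarith

open Classical in
/-- The choice of the length: an average over `[N, 2 N)`. -/
theorem avg93 (I : Finset ℕ) (w : ℕ → ℝ) (hw : ∀ t ∈ I, 0 ≤ w t) (bad : ℕ → Prop) {N K : ℕ}
    (hN : 1 ≤ N) {ν : ℝ}
    (hν : (((Finset.range (2 * N)).filter bad).card : ℝ) ≤ ν * N) :
    ∃ n, N ≤ n ∧ n < 2 * N ∧
      ∑ t ∈ I.filter (fun t => t + K ≤ n ∧ bad (n - (t + K))), w t ≤ ν * ∑ t ∈ I, w t := by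
  have hne : (Finset.Ico N (2 * N)).Nonempty := ⟨N, Finset.mem_Ico.2 ⟨le_rfl, by omega⟩⟩
  have key : ∑ n ∈ Finset.Ico N (2 * N),
      ∑ t ∈ I.filter (fun t => t + K ≤ n ∧ bad (n - (t + K))), w t ≤
      ∑ _n ∈ Finset.Ico N (2 * N), ν * ∑ t ∈ I, w t := by
    have e1 : ∑ n ∈ Finset.Ico N (2 * N),
        ∑ t ∈ I.filter (fun t => t + K ≤ n ∧ bad (n - (t + K))), w t =
        ∑ t ∈ I, w t * (((Finset.Ico N (2 * N)).filter
          fun n => t + K ≤ n ∧ bad (n - (t + K))).card : ℝ) := by
      simp only [Finset.sum_filter]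
      rw [Finset.sum_comm]
      refine Finset.sum_congr rfl fun t _ => ?_
      rw [Finset.card_filter, Nat.cast_sum, Finset.mul_sum]
      refine Finset.sum_congr rfl fun n _ => ?_
      by_cases h : t + K ≤ n ∧ bad (n - (t + K)) <;> simp [h]
    rw [e1, Finset.sum_const, Nat.card_Ico, nsmul_eq_mul]
    have e2 : (((2 * N - N : ℕ) : ℝ)) = N := by
      have : 2 * N - N = N := by omega
      rw [this]
    rw [e2]
    have e3 : ∀ t ∈ I, w t * (((Finset.Ico N (2 * N)).filter
          fun n => t + K ≤ n ∧ bad (n - (t + K))).card : ℝ) ≤ w t * (ν * N) := by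
      intro t ht
      refine mul_le_mul_of_nonneg_left (le_trans ?_ hν) (hw t ht)
      have h1 : ((Finset.Ico N (2 * N)).filter
          fun n => t + K ≤ n ∧ bad (n - (t + K))).card ≤
          ((Finset.range (2 * N)).filter bad).card := by
        refine Finset.card_le_card_of_injOn (fun n => n - (t + K)) ?_ ?_
        · intro n hn
          have hn1 := Finset.mem_filter.1 (Finset.mem_coe.1 hn)
          have hn2 := Finset.mem_Ico.1 hn1.1
          refine Finset.mem_coe.2 (Finset.mem_filter.2 ⟨Finset.mem_range.2 ?_, hn1.2.2⟩)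
          show n - (t + K) < 2 * N
          omega
        · intro a ha b hb hab
          have ha1 := (Finset.mem_filter.1 (Finset.mem_coe.1 ha)).2.1
          have hb1 := (Finset.mem_filter.1 (Finset.mem_coe.1 hb)).2.1
          have hab' : a - (t + K) = b - (t + K) := hab
          omega
      exact_mod_cast h1
    refine (Finset.sum_le_sum e3).trans (le_of_eq ?_)
    rw [← Finset.sum_mul]
    ring
  obtain ⟨n, hn, h⟩ := Finset.exists_le_of_sum_le hne key
  have hn' := Finset.mem_Ico.1 hn
  exact ⟨n, hn'.1, hn'.2, h⟩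

end Pool.Agent.W_7d29a1_R34
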