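import Pool.Agent.W_7d29a1_R34.OneS93
import Pool.Agent.W_7d29a1_R34.Tele93
import Pool.Agent.W_7d29a1_R34.Sets93

/-!
The gap is large at most localised times, in the logarithmic scale (helper93).
-/

namespace Pool.Agent.W_7d29a1_R34

open MeasureTheory ProbabilityTheory Filter Topology Pool.Agent.W_MP_7d29a1_pr
  Pool.Agent.W_7d29a1_h46 Pool.Agent.W_7d29a1_h46u Pool.Agent.W_7d29a1_D2.B35
  Pool.Agent.W_7d29a1_Q29 Pool.Agent.W_7d29a1_P89

/-- Sums over a set covered by two sets. -/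
lemma su93 {A B C : Finset ℕ} {w : ℕ → ℝ} (hw : ∀ t, 0 ≤ w t) (h : A ⊆ B ∪ C) :
    ∑ t ∈ A, w t ≤ ∑ t ∈ B, w t + ∑ t ∈ C, w t := by
  classical
  have h1 := Finset.sum_le_sum_of_subset_of_nonneg (f := w) h fun t _ _ => hw t
  have h2 := Finset.sum_union_inter (s₁ := B) (s₂ := C) (f := w)
  have h3 : 0 ≤ ∑ t ∈ B ∩ C, w t := Finset.sum_nonneg fun t _ => hw t
  linarith

/-- The weight of a set of times after the square root. -/
lemma wt93 {E : Finset ℕ} {N : ℕ} (hE : E ⊆ Finset.Icc (Nat.sqrt N) N) (hN : 1 ≤ Nat.sqrt N)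
    {c : ℝ} (hc : (E.card : ℝ) ≤ c * Nat.sqrt N) : ∑ t ∈ E, (1 / (t : ℝ)) ≤ c := by
  have hN0 : (0 : ℝ) < Nat.sqrt N := by exact_mod_cast hN
  have h1 : ∑ t ∈ E, (1 / (t : ℝ)) ≤ ∑ _t ∈ E, (1 / (Nat.sqrt N : ℝ)) := by
    refine Finset.sum_le_sum fun t ht => ?_
    have h2 := (Finset.mem_Icc.1 (hE ht)).1
    exact one_div_le_one_div_of_le hN0 (by exact_mod_cast h2)
  rw [Finset.sum_const, nsmul_eq_mul, mul_one_div] at h1
  refine h1.trans ?_
  rw [div_le_iff₀ hN0]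
  exact hc

variable {ρ : Measure ℝ} [IsProbabilityMeasure ρ]

open Classical in
/-- The gap at the localised times. -/
theorem gapS93 (hρ : EM ρ) {β : ℝ} {h : Vec 2} {c0 θ η Γ Kv u i : ℝ} {k r N : ℕ} {y : Site 2}
    (hc : 0 < c0) (hk : 1 ≤ k) (hu : 1 ≤ u) (hr : 1 ≤ r) (hN : 1 ≤ N) (hΓ : 0 < Γ)
    (hη : 0 < η)
    (hLk : Real.exp (-(θ * u)) ≤ (law 2 ρ).real {ω : Env 2 | Lk ⟨lam ρ β h, β, h, 1⟩ k y u ω})
    (hD : ∀ m : ℕ, m * lam ρ β h - A ρ β h m ≤ i + η * u / k * m) (hi : i ≤ η * (r * u))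
    (hKN : ((r * k : ℕ) : ℝ) ≤ N) (hV : ∀ m : ℕ, m ≤ 2 * N → Va ρ β h m ≤ Kv)
    (hU : 1 + 2 * Γ / c0 ≤ Real.log c0 + 3 / 4 * (r * u)) :
    ∃ n, N ≤ n ∧ n < 2 * N ∧ ∃ E1 E2 E3 : Finset ℕ,
      E2 ⊆ Finset.Icc (Nat.sqrt N) N ∧ E3 ⊆ Finset.Icc (Nat.sqrt N) N ∧
      ∑ t ∈ E1, (1 / (t : ℝ)) ≤ 24 * η * ∑ t ∈ Finset.Icc (Nat.sqrt N) N, (1 / (t : ℝ)) ∧
      (E2.card : ℝ) ≤ ((r * k : ℕ) : ℝ) ∧
      (E3.card : ℝ) * (Real.exp (-(θ * (r * u))) * (c0 / 2)) ≤ ((r * k : ℕ) : ℝ) * Kv ∧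
      ∀ t ∈ Finset.Icc (Nat.sqrt N) N, t ∉ E1 → t ∉ E2 → t ∉ E3 →
        c0 ≤ (law 2 ρ).real {ω | ∃ y ∈ boxF 2 t, c0 * Z β h ω t ≤ PP β h ω t y} →
        Γ ≤ A ρ β h n - A ρ β h t - A ρ β h (n - t) := by
  obtain ⟨P, hP⟩ : ∃ P : Prm 2, P = ⟨lam ρ β h, β, h, 1⟩ := ⟨_, rfl⟩
  have hPL : P.Lam = lam ρ β h := by rw [hP]
  have hPb : P.be = β := by rw [hP]
  have hPh : P.h = h := by rw [hP]
  obtain ⟨K, hK⟩ : ∃ K : ℕ, K = r * k := ⟨_, rfl⟩
  obtain ⟨U, hUdef⟩ : ∃ U : ℝ, U = r * u := ⟨_, rfl⟩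
  obtain ⟨D, hDdef⟩ : ∃ D : ℕ → ℝ, D = fun m : ℕ => (m : ℝ) * lam ρ β h - A ρ β h m := ⟨_, rfl⟩
  obtain ⟨I, hI⟩ : ∃ I, I = Finset.Icc (Nat.sqrt N) N := ⟨_, rfl⟩
  rw [← hP] at hLk
  rw [← hK] at hKN ⊢
  rw [← hUdef] at hi hU ⊢
  rw [← hI]
  have hk0 : (0 : ℝ) < k := by exact_mod_cast hk
  have hr0 : (1 : ℝ) ≤ r := by exact_mod_cast hr
  have hU1 : 1 ≤ U := by
    rw [hUdef]
    nlinarith
  have hKU : η * u / k * (K : ℝ) = η * U := by
    rw [hK, hUdef]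
    push_cast
    field_simp
  have hN0 : (0 : ℝ) < N := by exact_mod_cast hN
  have hK0 : (0 : ℝ) ≤ K := Nat.cast_nonneg K
  have hD0 : ∀ m, 0 ≤ D m := by
    intro m
    rw [hDdef]
    have := A_le_lam (d := 2) (by norm_num) hρ β h m
    simp only
    linarith
  have hDK : ∀ m : ℕ, m ≤ K → D m ≤ 2 * (η * U) := by
    intro m hm
    have h1 := hD m
    have h2 : (m : ℝ) ≤ K := by exact_mod_cast hm
    have h3 : η * u / k * (m : ℝ) ≤ η * u / k * K := mul_le_mul_of_nonneg_left h2 (by positivity)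
    rw [hDdef]
    simp only
    linarith
  have hsub : ∀ s, D (s + K) ≤ D s + D K := by
    intro s
    have h1 := A_add_le (d := 2) (by norm_num) hρ β h s K
    rw [hDdef]
    simp only
    push_cast
    linarith
  -- the number of large decrements
  have hbad : (((Finset.range (2 * N)).filter fun s => U / 4 < D s - D (s + K)).card : ℝ) ≤
      24 * η * N := by
    have h1 := incr93 D (K := K) hD0 hsub (C := 2 * (η * U)) (η := U / 4)
      (fun m hm => hDK m hm.le) (2 * N)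
    have h2 := hDK K le_rfl
    have h3 : (K : ℝ) * (2 * (η * U)) + ((2 * N : ℕ) : ℝ) * D K ≤ 6 * η * N * U := by
      push_cast
      have h4 : (K : ℝ) * (2 * (η * U)) ≤ N * (2 * (η * U)) :=
        mul_le_mul_of_nonneg_right hKN (by positivity)
      have h5 : 2 * (N : ℝ) * D K ≤ 2 * N * (2 * (η * U)) :=
        mul_le_mul_of_nonneg_left h2 (by positivity)
      linarith
    have h6 := h1.trans h3
    have h7 : U / 4 * (((Finset.range (2 * N)).filter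
        fun s => U / 4 < D s - D (s + K)).card : ℝ) ≤ U / 4 * (24 * η * N) := by
      refine h6.trans (le_of_eq ?_)
      ring
    exact le_of_mul_le_mul_left h7 (by positivity)
  obtain ⟨n, hn1, hn2, hE1⟩ := avg93 I (fun t => 1 / (t : ℝ)) (fun t _ => by positivity)
    (fun s => U / 4 < D s - D (s + K)) (K := K) hN hbad
  refine ⟨n, hn1, hn2, I.filter (fun t => t + K ≤ n ∧ U / 4 < D (n - (t + K)) -
    D (n - (t + K) + K)), I.filter (fun t => ¬ t + K ≤ n),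
    I.filter (fun t => t + K ≤ n ∧ ¬ U / 4 < D (n - (t + K)) - D (n - (t + K) + K) ∧
      A ρ β h n - A ρ β h t - A ρ β h (n - t) ≤ Γ ∧
      c0 ≤ (law 2 ρ).real {ω | ∃ y ∈ boxF 2 t, c0 * Z β h ω t ≤ PP β h ω t y}),
    Finset.filter_subset _ _, Finset.filter_subset _ _, hE1, ?_, ?_, ?_⟩
  · -- the last times
    have h1 : I.filter (fun t => ¬ t + K ≤ n) ⊆ Finset.Ioc (n - K) n := by
      intro t ht
      rw [Finset.mem_filter, hI, Finset.mem_Icc] at ht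
      have hs : 1 ≤ Nat.sqrt N := Nat.le_sqrt.2 (by omega)
      rw [Finset.mem_Ioc]
      omega
    have h2 := Finset.card_le_card h1
    rw [Nat.card_Ioc] at h2
    have h3 : n - (n - K) ≤ K := by omega
    exact_mod_cast h2.trans h3
  · -- the times with a small gap
    obtain ⟨E3, hE3⟩ : ∃ E3, E3 = I.filter (fun t => t + K ≤ n ∧
      ¬ U / 4 < D (n - (t + K)) - D (n - (t + K) + K) ∧
      A ρ β h n - A ρ β h t - A ρ β h (n - t) ≤ Γ ∧
      c0 ≤ (law 2 ρ).real {ω | ∃ y ∈ boxF 2 t, c0 * Z β h ω t ≤ PP β h ω t y}) := ⟨_, rfl⟩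
    rw [← hE3]
    have h1 := cntS93 (d := 2) (by norm_num) hρ P (n := n) (K := K) (by omega) (c0 := c0) (Γ := Γ)
      (U := U) hc hΓ (r • y) E3 (by
        intro t ht
        rw [hE3, Finset.mem_filter] at ht
        obtain ⟨-, ht1, ht2, ht3, ht4⟩ := ht
        rw [hPb, hPh, hPL]
        refine ⟨ht1, ht3, ?_, ht4⟩
        have e1 : n - (t + K) + K = n - t := by omega
        rw [e1, hDdef] at ht2
        simp only [not_lt] at ht2
        have e2 : ((n - t : ℕ) : ℝ) = ((n - (t + K) : ℕ) : ℝ) + K := by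
          have : n - t = n - (t + K) + K := by omega
          rw [this]
          push_cast
          ring
        rw [e2] at ht2
        linarith)
    have h2 : Real.exp (-(θ * U)) ≤ (law 2 ρ).real {ω : Env 2 | Lk P K (r • y) U ω} := by
      have h3 := Pool.Agent.W_7d29a1_P78.concat78 (ρ := ρ) P k y u r
      rw [← hK, ← hUdef] at h3
      refine le_trans ?_ h3
      refine le_trans ?_ (pow_le_pow_left₀ (Real.exp_pos _).le hLk r)
      rw [← Real.exp_nat_mul, Real.exp_le_exp, hUdef]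
      linarith
    have h3 : Real.exp (-(θ * U)) * (c0 / 2) ≤
        (law 2 ρ).real {ω : Env 2 | Lk P K (r • y) U ω} * (c0 / 2) :=
      mul_le_mul_of_nonneg_right h2 (by positivity)
    have h4 : (E3.card : ℝ) * (Real.exp (-(θ * U)) * (c0 / 2)) ≤
        E3.card * ((law 2 ρ).real {ω : Env 2 | Lk P K (r • y) U ω} * (c0 / 2)) :=
      mul_le_mul_of_nonneg_left h3 (Nat.cast_nonneg _)
    have h5 : (K : ℝ) * Va ρ P.be P.h n ≤ K * Kv := by
      rw [hPb, hPh]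
      exact mul_le_mul_of_nonneg_left (hV n hn2.le) hK0
    exact h4.trans (h1.trans h5)
  · intro t ht h1 h2 h3 hloc
    by_contra hcon
    push Not at hcon
    have h4 : t + K ≤ n := by
      by_contra h5
      exact h2 (Finset.mem_filter.2 ⟨ht, h5⟩)
    by_cases h6 : U / 4 < D (n - (t + K)) - D (n - (t + K) + K)
    · exact h1 (Finset.mem_filter.2 ⟨ht, h4, h6⟩)
    · exact h3 (Finset.mem_filter.2 ⟨ht, h4, h6, hcon.le, hloc⟩)

end Pool.Agent.W_7d29a1_R34
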