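import Pool.Agent.W_7d29a1_R34.DefsR34

/-!
Elementary geometry in the plane for the shells.
-/

namespace Pool.Agent.W_7d29a1_R34

open MeasureTheory ProbabilityTheory Filter Topology Pool.Agent.W_MP_7d29a1_pr
  Pool.Agent.W_7d29a1_h46 Pool.Agent.W_7d29a1_h46u

/-- Convexity at three points. -/
lemma cvx3 {f : Vec 2 → ℝ} (hf : ConvexOn ℝ Set.univ f) {a b c : ℝ} (ha : 0 ≤ a) (hb : 0 ≤ b)
    (hc : 0 ≤ c) (habc : a + b + c = 1) (x y z : Vec 2) :
    f (a • x + b • y + c • z) ≤ a * f x + b * f y + c * f z := by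
  have h := hf.map_sum_le (t := (Finset.univ : Finset (Fin 3))) (w := ![a, b, c])
    (p := ![x, y, z]) (by intro i _; fin_cases i <;> simpa) (by
      simpa [Fin.sum_univ_three] using habc) (fun _ _ => Set.mem_univ _)
  simpa [Fin.sum_univ_three] using h

lemma vec2_eq (z : Vec 2) : z = (z 0) • ej 0 + (z 1) • ej 1 := by
  ext i
  fin_cases i <;> simp [ej]

/-- The second difference in a general direction. -/
lemma cross {f : Vec 2 → ℝ} (hf : ConvexOn ℝ Set.univ f) {r B : ℝ} (hr : 0 < r) (hB : 0 ≤ B)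
    (h z : Vec 2) (hz : |z 0| + |z 1| ≤ r)
    (hj : ∀ j : Fin 2, f (h + r • ej j) + f (h - r • ej j) - 2 * f h ≤ B) :
    f (h + z) + f (h - z) - 2 * f h ≤ B := by
  have key : ∀ x : ℝ, ∃ p : ℝ, (p = r ∨ p = -r) ∧ |x| / r * p = x := by
    intro x
    rcases le_total 0 x with hx | hx
    · refine ⟨r, Or.inl rfl, ?_⟩
      rw [abs_of_nonneg hx]
      field_simp
    · refine ⟨-r, Or.inr rfl, ?_⟩
      rw [abs_of_nonpos hx]
      field_simp
  obtain ⟨p, hp, hp2⟩ := key (z 0)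
  obtain ⟨q, hq, hq2⟩ := key (z 1)
  have hsd : ∀ (j : Fin 2) (p : ℝ), (p = r ∨ p = -r) →
      f (h + p • ej j) + f (h - p • ej j) - 2 * f h ≤ B := by
    intro j p hp
    rcases hp with rfl | rfl
    · exact hj j
    · have := hj j
      rw [neg_smul, ← sub_eq_add_neg, sub_neg_eq_add]
      linarith
  set a : ℝ := |z 0| / r with ha
  set b : ℝ := |z 1| / r with hb
  have ha0 : 0 ≤ a := by positivity
  have hb0 : 0 ≤ b := by positivity
  have hab : a + b ≤ 1 := by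
    rw [ha, hb, ← add_div, div_le_one hr]
    exact hz
  have e1 : h + z = a • (h + p • ej 0) + b • (h + q • ej 1) + (1 - a - b) • h := by
    conv_lhs => rw [vec2_eq z]
    rw [smul_add, smul_add, smul_smul, smul_smul, hp2, hq2]
    module
  have e2 : h - z = a • (h - p • ej 0) + b • (h - q • ej 1) + (1 - a - b) • h := by
    conv_lhs => rw [vec2_eq z]
    rw [smul_sub, smul_sub, smul_smul, smul_smul, hp2, hq2]
    module
  have h1 := cvx3 hf ha0 hb0 (by linarith : 0 ≤ 1 - a - b) (by ring) (h + p • ej 0)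
    (h + q • ej 1) h
  have h2 := cvx3 hf ha0 hb0 (by linarith : 0 ≤ 1 - a - b) (by ring) (h - p • ej 0)
    (h - q • ej 1) h
  rw [← e1] at h1
  rw [← e2] at h2
  have h3 := mul_le_mul_of_nonneg_left (hsd 0 p hp) ha0
  have h4 := mul_le_mul_of_nonneg_left (hsd 1 q hq) hb0
  have h5 : (a + b) * B ≤ 1 * B := mul_le_mul_of_nonneg_right hab hB
  nlinarith

/-- The lattice points of a square. -/
lemma card_sq (S : Finset (Site 2)) (v : Vec 2) {l : ℝ} (hl : 1 ≤ l)
    (hS : ∀ y ∈ S, ∀ j, |(emb y - v) j| ≤ l) : (S.card : ℝ) ≤ 9 * l ^ 2 := by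
  have hsub : S ⊆ Fintype.piFinset fun j : Fin 2 => Finset.Icc ⌈v j - l⌉ ⌊v j + l⌋ := by
    intro y hy
    rw [Fintype.mem_piFinset]
    intro j
    have h1 := hS y hy j
    rw [abs_le] at h1
    have h2 : (emb y - v) j = (y j : ℝ) - v j := by simp [emb]
    rw [h2] at h1
    rw [Finset.mem_Icc, Int.ceil_le, Int.le_floor]
    constructor <;> linarith [h1.1, h1.2]
  have h1 := Finset.card_le_card hsub
  rw [Fintype.card_piFinset] at h1
  simp only [Int.card_Icc] at h1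
  rw [Fin.prod_univ_two] at h1
  have h2 : ∀ j : Fin 2, (((⌊v j + l⌋ + 1 - ⌈v j - l⌉).toNat : ℕ) : ℝ) ≤ 3 * l := by
    intro j
    have h3 : (((⌊v j + l⌋ + 1 - ⌈v j - l⌉).toNat : ℤ) : ℝ) =
        max ((⌊v j + l⌋ + 1 - ⌈v j - l⌉ : ℤ) : ℝ) 0 := by
      rw [Int.toNat_eq_max]
      push_cast
      rfl
    have h4 := Int.floor_le (v j + l)
    have h5 := Int.le_ceil (v j - l)
    have h6 : (((⌊v j + l⌋ + 1 - ⌈v j - l⌉).toNat : ℕ) : ℝ) =
        (((⌊v j + l⌋ + 1 - ⌈v j - l⌉).toNat : ℤ) : ℝ) := by norm_cast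
    rw [h6, h3]
    refine max_le ?_ (by linarith)
    push_cast
    linarith
  have h3 : (S.card : ℝ) ≤ ((⌊v 0 + l⌋ + 1 - ⌈v 0 - l⌉).toNat : ℝ) *
      ((⌊v 1 + l⌋ + 1 - ⌈v 1 - l⌉).toNat : ℝ) := by exact_mod_cast h1
  refine h3.trans ((mul_le_mul (h2 0) (h2 1) (by positivity) (by positivity)).trans ?_)
  nlinarith

/-- The scalar product with a tilt near an axis. -/
lemma dirn (z u : Vec 2) {r s : ℝ} (hr : 0 ≤ r) (j : Fin 2)
    (hz : ‖z - (s * r) • ej j‖ ≤ r / 9) (hu : ∀ i, |u i| ≤ s * u j) :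
    r * (s * u j) / 2 ≤ inner ℝ z u := by
  have hD : 0 ≤ s * u j := (abs_nonneg _).trans (hu j)
  have hn : ‖u‖ ≤ 3 / 2 * (s * u j) := by
    rw [EuclideanSpace.norm_eq, Fin.sum_univ_two]
    refine Real.sqrt_le_iff.2 ⟨by positivity, ?_⟩
    simp only [Real.norm_eq_abs]
    have h0 := pow_le_pow_left₀ (abs_nonneg _) (hu 0) 2
    have h1 := pow_le_pow_left₀ (abs_nonneg _) (hu 1) 2
    nlinarith
  have h1 : inner ℝ z u = inner ℝ (z - (s * r) • ej j) u + s * r * u j := by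
    rw [inner_sub_left, real_inner_smul_left]
    have : inner ℝ (ej j) u = u j := by
      unfold ej
      rw [EuclideanSpace.inner_single_left]
      simp
    rw [this]
    ring
  have h2 := abs_real_inner_le_norm (z - (s * r) • ej j) u
  have h3 : ‖z - (s * r) • ej j‖ * ‖u‖ ≤ r / 9 * (3 / 2 * (s * u j)) :=
    mul_le_mul hz hn (norm_nonneg _) (by positivity)
  have h4 := (abs_le.1 (h2.trans h3)).1
  rw [h1]
  have h5 : 0 ≤ r * (s * u j) := mul_nonneg hr hD
  nlinarith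

/-- The size of a tilt near an axis. -/
lemma tiltsz (z : Vec 2) {r s : ℝ} (hr : 0 ≤ r) (hs : s = 1 ∨ s = -1) (j : Fin 2)
    (hz : ‖z - (s * r) • ej j‖ ≤ r / 9) : |z 0| + |z 1| ≤ 2 * r := by
  have hs' : |s| = 1 := by rcases hs with rfl | rfl <;> simp
  have h1 : ∀ i, |(z - (s * r) • ej j) i| ≤ r / 9 := by
    intro i
    refine le_trans ?_ hz
    rw [← Real.norm_eq_abs]
    exact PiLp.norm_apply_le _ i
  have h0 := h1 0
  have h2 := h1 1
  have e : ∀ i, (z - (s * r) • ej j) i = z i - s * r * (ej j : Vec 2) i := by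
    intro i
    simp
  rw [e] at h0 h2
  have hsr : |s * r| = r := by rw [abs_mul, hs', one_mul, abs_of_nonneg hr]
  fin_cases j
  · have a0 : (ej (0 : Fin 2) : Vec 2) 0 = 1 := by simp [ej]
    have a1 : (ej (0 : Fin 2) : Vec 2) 1 = 0 := by simp [ej]
    simp only [Fin.zero_eta, Fin.isValue] at h0 h2
    rw [a0, mul_one] at h0
    rw [a1, mul_zero, sub_zero] at h2
    have := abs_sub_abs_le_abs_sub (z 0) (s * r)
    rw [hsr] at this
    linarith
  · have a0 : (ej (1 : Fin 2) : Vec 2) 0 = 0 := by simp [ej]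
    have a1 : (ej (1 : Fin 2) : Vec 2) 1 = 1 := by simp [ej]
    simp only [Fin.mk_one, Fin.isValue] at h0 h2
    rw [a0, mul_zero, sub_zero] at h0
    rw [a1, mul_one] at h2
    have := abs_sub_abs_le_abs_sub (z 1) (s * r)
    rw [hsr] at this
    linarith

end Pool.Agent.W_7d29a1_R34
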