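import Pool.Agent.W_7d29a1_R34.Sec13
import Mathlib.MeasureTheory.Integral.Bochner.Basic
import Mathlib.Analysis.SpecialFunctions.Pow.Real
import Mathlib.Analysis.SpecificLimits.Basic

/-!
# MP_7d29a1_pr, THEOREM R, leaf R4: the good tilts of a convex function (helper13)
-/

open MeasureTheory Set Metric Filter Topology

namespace R34

/-- The tilts at which the second differences in the coordinate directions at the scales `s k`
are at most `w k * t * (s k) ^ 2`. -/
def GoodSet13 {d : ℕ} (A : (Fin d → ℝ) → ℝ) (t : ℝ) (s w : ℕ → ℝ) : Set (Fin d → ℝ) :=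
  {h | ∀ k : ℕ, s k ≤ 1 → ∀ j : Fin d,
    Sd13 A h (s k • Pi.single j (1 : ℝ)) ≤ w k * t * (s k) ^ 2}

theorem isClosed_goodSet13 {d : ℕ} {A : (Fin d → ℝ) → ℝ} (hA : Continuous A) (t : ℝ)
    (s w : ℕ → ℝ) : IsClosed (GoodSet13 A t s w) := by
  have he : GoodSet13 A t s w = ⋂ (k : ℕ) (_ : s k ≤ 1) (j : Fin d),
      {h : Fin d → ℝ | Sd13 A h (s k • Pi.single j (1 : ℝ)) ≤ w k * t * (s k) ^ 2} := by
    ext h
    simp only [GoodSet13, mem_ofPred_eq, mem_iInter]
  rw [he]
  exact isClosed_iInter fun k => isClosed_iInter fun _ => isClosed_iInter fun j =>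
    isClosed_le (continuous_sd13 hA _) continuous_const

/-- **Leaf R4.** The good tilts fill all of a ball up to `d * C / M`. -/
theorem good13 {d : ℕ} {A : (Fin d → ℝ) → ℝ} (hc : ConvexOn ℝ univ A) {t : ℝ} (ht : 0 < t)
    (hA : ∀ h h', |A h - A h'| ≤ t * ‖h - h'‖) {R : ℝ} {s w : ℕ → ℝ} (hs : ∀ k, 0 < s k)
    (hw : ∀ k, 0 < w k) (hws : Summable fun k => 1 / w k) :
    volume.real (closedBall (0 : Fin d → ℝ) R \ GoodSet13 A t s w)
      ≤ d * volume.real (closedBall (0 : Fin d → ℝ) (R + 2)) * ∑' k, 1 / w k := by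
  have hAc := continuous_of_lip13 hA
  set V : ℝ := volume.real (closedBall (0 : Fin d → ℝ) (R + 2)) with hV
  have hV0 : 0 ≤ V := measureReal_nonneg
  set Bad : ℕ → Fin d → Set (Fin d → ℝ) := fun k j =>
    {h | h ∈ closedBall (0 : Fin d → ℝ) R ∧ s k ≤ 1 ∧
      w k * t * (s k) ^ 2 ≤ Sd13 A h (s k • Pi.single j (1 : ℝ))} with hBad
  have hsub : closedBall (0 : Fin d → ℝ) R \ GoodSet13 A t s w ⊆ ⋃ k, ⋃ j, Bad k j := by
    rintro h ⟨h1, h2⟩
    simp only [GoodSet13, mem_ofPred_eq] at h2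
    push Not at h2
    obtain ⟨k, hk, j, hj⟩ := h2
    exact mem_iUnion.2 ⟨k, mem_iUnion.2 ⟨j, h1, hk, hj.le⟩⟩
  have hone : ∀ k j, volume (Bad k j) ≤ ENNReal.ofReal (V * (1 / w k)) := by
    intro k j
    by_cases hk : s k ≤ 1
    · have hsm : ‖s k • (Pi.single j (1 : ℝ) : Fin d → ℝ)‖ = s k := by
        rw [norm_smul, Real.norm_eq_abs, abs_of_pos (hs k), Pi.norm_single, norm_one, mul_one]
      have h1 := sec13 hc hA (R := R) (s k • (Pi.single j (1 : ℝ) : Fin d → ℝ)) (by rw [hsm]; exact hk)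
      rw [hsm] at h1
      have hcont := continuous_sd13 hAc (s k • (Pi.single j (1 : ℝ) : Fin d → ℝ))
      have hpos : 0 < w k * t * (s k) ^ 2 := by
        have := hs k
        have := hw k
        positivity
      have h2 := mul_meas_ge_le_integral_of_nonneg
        (μ := volume.restrict (closedBall (0 : Fin d → ℝ) R))
        (f := fun h => Sd13 A h (s k • (Pi.single j (1 : ℝ) : Fin d → ℝ)))
        (Eventually.of_forall fun h => sd_nonneg13 hc h _)
        (hcont.continuousOn.integrableOn_compact (isCompact_closedBall _ _))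
        (w k * t * (s k) ^ 2)
      have hms : MeasurableSet {h : Fin d → ℝ | w k * t * (s k) ^ 2
          ≤ Sd13 A h (s k • (Pi.single j (1 : ℝ) : Fin d → ℝ))} :=
        (isClosed_le continuous_const hcont).measurableSet
      have h3 : (volume.restrict (closedBall (0 : Fin d → ℝ) R)).real
          {h : Fin d → ℝ | w k * t * (s k) ^ 2
            ≤ Sd13 A h (s k • (Pi.single j (1 : ℝ) : Fin d → ℝ))} = volume.real (Bad k j) := by
        rw [measureReal_restrict_apply hms]
        congr 1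
        ext h
        simp only [hBad, mem_inter_iff, mem_ofPred_eq]
        tauto
      rw [h3] at h2
      have h4 : w k * t * (s k) ^ 2 * volume.real (Bad k j) ≤ t * (s k) ^ 2 * V := h2.trans h1
      have h5 : volume.real (Bad k j) ≤ V * (1 / w k) := by
        have h6 : 0 < t * (s k) ^ 2 := by
          have := hs k
          positivity
        have h7 : t * (s k) ^ 2 * (w k * volume.real (Bad k j)) ≤ t * (s k) ^ 2 * V := by
          calc _ = w k * t * (s k) ^ 2 * volume.real (Bad k j) := by ring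
            _ ≤ _ := h4
        have h8 := le_of_mul_le_mul_left h7 h6
        rw [mul_one_div, le_div_iff₀ (hw k)]
        linarith
      have hfin : volume (Bad k j) ≠ ⊤ := by
        refine ne_top_of_le_ne_top
          (isCompact_closedBall (0 : Fin d → ℝ) R).measure_lt_top.ne (measure_mono ?_)
        intro h hh
        exact hh.1
      rw [← ENNReal.ofReal_toReal hfin]
      exact ENNReal.ofReal_le_ofReal h5
    · have h1 : Bad k j = ∅ := by
        ext h
        simp only [hBad, mem_ofPred_eq, mem_empty_iff_false, iff_false]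
        tauto
      rw [h1, measure_empty]
      exact bot_le
  have htot : volume (closedBall (0 : Fin d → ℝ) R \ GoodSet13 A t s w)
      ≤ ENNReal.ofReal (d * V * ∑' k, 1 / w k) := by
    calc volume (closedBall (0 : Fin d → ℝ) R \ GoodSet13 A t s w)
        ≤ volume (⋃ k, ⋃ j, Bad k j) := measure_mono hsub
      _ ≤ ∑' k, volume (⋃ j, Bad k j) := measure_iUnion_le _
      _ ≤ ∑' k, ENNReal.ofReal (d * V * (1 / w k)) := by
          refine ENNReal.tsum_le_tsum fun k => ?_
          calc volume (⋃ j, Bad k j) ≤ ∑' j, volume (Bad k j) := measure_iUnion_le _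
            _ = ∑ j, volume (Bad k j) := tsum_fintype _
            _ ≤ ∑ _j : Fin d, ENNReal.ofReal (V * (1 / w k)) :=
                Finset.sum_le_sum fun j _ => hone k j
            _ = ENNReal.ofReal (d * V * (1 / w k)) := by
                rw [Finset.sum_const, Finset.card_univ, Fintype.card_fin, nsmul_eq_mul,
                  ← ENNReal.ofReal_natCast, ← ENNReal.ofReal_mul (Nat.cast_nonneg d)]
                congr 1
                ring
      _ = ENNReal.ofReal (∑' k, d * V * (1 / w k)) := by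
          rw [ENNReal.ofReal_tsum_of_nonneg]
          · intro k
            have := hw k
            positivity
          · exact hws.mul_left _
      _ = ENNReal.ofReal (d * V * ∑' k, 1 / w k) := by rw [tsum_mul_left]
  have hnn : 0 ≤ d * V * ∑' k, 1 / w k :=
    mul_nonneg (by positivity) (tsum_nonneg fun k => by have := hw k; positivity)
  calc volume.real (closedBall (0 : Fin d → ℝ) R \ GoodSet13 A t s w)
      ≤ (ENNReal.ofReal (d * V * ∑' k, 1 / w k)).toReal :=
        ENNReal.toReal_mono ENNReal.ofReal_ne_top htot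
    _ = _ := ENNReal.toReal_ofReal hnn

/-- At a good tilt all second differences of size `s k / d` are small. -/
theorem good_sd13 {d : ℕ} (hd : 0 < d) {A : (Fin d → ℝ) → ℝ} (hc : ConvexOn ℝ univ A) {t : ℝ}
    {s w : ℕ → ℝ} {h : Fin d → ℝ} (hh : h ∈ GoodSet13 A t s w) {k : ℕ} (hs : 0 < s k)
    (hk : s k ≤ 1) {z : Fin d → ℝ} (hz : (d : ℝ) * ‖z‖ ≤ s k) :
    Sd13 A h z ≤ w k * t * (s k) ^ 2 :=
  sd_coord13 hd hc h z hs hz fun j => hh k hk j

/-- The weights `M * 2 ^ (k / 4)`. -/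
theorem summable_w13 {M : ℝ} :
    Summable fun k : ℕ => 1 / (M * (2 : ℝ) ^ ((k : ℝ) / 4)) := by
  have h1 : (fun k : ℕ => 1 / (M * (2 : ℝ) ^ ((k : ℝ) / 4)))
      = fun k : ℕ => (1 / M) * ((2 : ℝ) ^ (-(1 / 4 : ℝ))) ^ k := by
    funext k
    rw [← Real.rpow_natCast, ← Real.rpow_mul (by norm_num : (0 : ℝ) ≤ 2), one_div, mul_inv,
      ← Real.rpow_neg (by norm_num : (0 : ℝ) ≤ 2), one_div]
    congr 2
    ring
  rw [h1]
  refine (summable_geometric_of_lt_one (by positivity) ?_).mul_left _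
  exact Real.rpow_lt_one_of_one_lt_of_neg (by norm_num) (by norm_num)

theorem tsum_w13_le {M : ℝ} (hM : 0 < M) :
    ∑' k : ℕ, 1 / (M * (2 : ℝ) ^ ((k : ℝ) / 4)) ≤ 7 / M := by
  have h1 : (fun k : ℕ => 1 / (M * (2 : ℝ) ^ ((k : ℝ) / 4)))
      = fun k : ℕ => (1 / M) * ((2 : ℝ) ^ (-(1 / 4 : ℝ))) ^ k := by
    funext k
    rw [← Real.rpow_natCast, ← Real.rpow_mul (by norm_num : (0 : ℝ) ≤ 2), one_div, mul_inv,
      ← Real.rpow_neg (by norm_num : (0 : ℝ) ≤ 2), one_div]
    congr 2
    ring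
  have hq1 : (2 : ℝ) ^ (-(1 / 4 : ℝ)) < 1 :=
    Real.rpow_lt_one_of_one_lt_of_neg (by norm_num) (by norm_num)
  have hq0 : (0 : ℝ) ≤ (2 : ℝ) ^ (-(1 / 4 : ℝ)) := by positivity
  have hq2 : (2 : ℝ) ^ (-(1 / 4 : ℝ)) ≤ 6 / 7 := by
    by_contra hcon
    push Not at hcon
    have h3 : ((2 : ℝ) ^ (-(1 / 4 : ℝ))) ^ 4 = 1 / 2 := by
      rw [← Real.rpow_natCast, ← Real.rpow_mul (by norm_num : (0 : ℝ) ≤ 2)]
      have h5 : (-(1 / 4 : ℝ)) * ((4 : ℕ) : ℝ) = -1 := by norm_num
      rw [h5, Real.rpow_neg_one]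
      norm_num
    have h4 : (6 / 7 : ℝ) ^ 4 < ((2 : ℝ) ^ (-(1 / 4 : ℝ))) ^ 4 :=
      pow_lt_pow_left₀ hcon (by norm_num) (by norm_num)
    rw [h3] at h4
    norm_num at h4
  rw [h1, tsum_mul_left, tsum_geometric_of_lt_one hq0 hq1, div_eq_mul_inv 7 M, one_div,
    mul_comm]
  refine mul_le_mul_of_nonneg_right ?_ (by positivity)
  rw [inv_le_comm₀ (by linarith) (by norm_num)]
  linarith

/-- **Leaf R4, numbers.** Weights `M * 2 ^ (k / 4)`: the bad set has volume at most `7 d C / M`. -/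
theorem goodM13 {d : ℕ} {A : (Fin d → ℝ) → ℝ} (hc : ConvexOn ℝ univ A) {t : ℝ} (ht : 0 < t)
    (hA : ∀ h h', |A h - A h'| ≤ t * ‖h - h'‖) {R M : ℝ} (hM : 0 < M) {s : ℕ → ℝ}
    (hs : ∀ k, 0 < s k) :
    volume.real (closedBall (0 : Fin d → ℝ) R
        \ GoodSet13 A t s (fun k => M * (2 : ℝ) ^ ((k : ℝ) / 4)))
      ≤ d * volume.real (closedBall (0 : Fin d → ℝ) (R + 2)) * (7 / M) :=
  (good13 hc ht hA hs (fun k => by positivity) summable_w13).trans
    (mul_le_mul_of_nonneg_left (tsum_w13_le hM) (by positivity))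

end R34
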