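import Mathlib

/-!
Numbers for the superlogarithmic lower bound (helper93).
-/

namespace Pool.Agent.W_7d29a1_R34

open Filter Topology

/-- The square root beats the powers of the logarithm times the eighth root. -/
lemma evn93 (C : ℝ) : ∀ᶠ n : ℕ in atTop,
    C * (Real.log n ^ 2 * (n : ℝ) ^ (1 / 8 : ℝ)) ≤ (Nat.sqrt n : ℝ) := by
  obtain ⟨C1, hC1⟩ : ∃ C1 : ℝ, C1 = max C 1 := ⟨_, rfl⟩
  have hC1p : 0 < C1 := by
    rw [hC1]
    exact lt_max_of_lt_right one_pos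
  have hCC : C ≤ C1 := by
    rw [hC1]
    exact le_max_left _ _
  have h1 : Tendsto (fun x : ℝ => Real.log x ^ 2 / x ^ (1 / 4 : ℝ)) atTop (𝓝 0) := by
    have := (isLittleO_log_rpow_rpow_atTop 2 (show (0 : ℝ) < 1 / 4 by norm_num)).tendsto_div_nhds_zero
    refine this.congr fun x => ?_
    norm_num
  have h2 := (h1.comp tendsto_natCast_atTop_atTop).eventually_lt_const
    (show (0 : ℝ) < 1 / (2 * C1) by positivity)
  filter_upwards [h2, eventually_ge_atTop 4] with n h3 h4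
  have hn : (4 : ℝ) ≤ n := by exact_mod_cast h4
  have hn0 : (0 : ℝ) < n := by linarith
  have hp : 0 < (n : ℝ) ^ (1 / 4 : ℝ) := Real.rpow_pos_of_pos hn0 _
  have hp8 : 0 < (n : ℝ) ^ (1 / 8 : ℝ) := Real.rpow_pos_of_pos hn0 _
  simp only [Function.comp] at h3
  rw [div_lt_iff₀ hp, div_mul_eq_mul_div, one_mul, lt_div_iff₀ (by positivity)] at h3
  have h5 : C1 * Real.log n ^ 2 ≤ 1 / 2 * (n : ℝ) ^ (1 / 4 : ℝ) := by linarith
  have h6 : C1 * (Real.log n ^ 2 * (n : ℝ) ^ (1 / 8 : ℝ)) ≤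
      1 / 2 * (n : ℝ) ^ (1 / 4 : ℝ) * (n : ℝ) ^ (1 / 8 : ℝ) := by
    rw [← mul_assoc]
    exact mul_le_mul_of_nonneg_right h5 hp8.le
  have h7 : (n : ℝ) ^ (1 / 4 : ℝ) * (n : ℝ) ^ (1 / 8 : ℝ) ≤ √(n : ℝ) := by
    rw [← Real.rpow_add hn0, Real.sqrt_eq_rpow]
    exact Real.rpow_le_rpow_of_exponent_le (by linarith) (by norm_num)
  have h8 : √(n : ℝ) ≤ 2 * (Nat.sqrt n : ℝ) := by
    have h9 := Real.real_sqrt_le_nat_sqrt_succ (a := n)
    have h10 : 2 ≤ Nat.sqrt n := Nat.le_sqrt.2 (by omega)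
    have h11 : (2 : ℝ) ≤ (Nat.sqrt n : ℝ) := by exact_mod_cast h10
    linarith
  have h9 : C * (Real.log n ^ 2 * (n : ℝ) ^ (1 / 8 : ℝ)) ≤
      C1 * (Real.log n ^ 2 * (n : ℝ) ^ (1 / 8 : ℝ)) :=
    mul_le_mul_of_nonneg_right hCC (by positivity)
  linarith

/-- The eventual numbers. -/
lemma evS93 {c0 ca δ M La b i η L1 : ℝ} (hc0 : 0 < c0) (hca : 0 < ca) (hδ : 0 < δ) (hM : 0 < M)
    (hLa : 0 < La) (hb : 0 < b) (hi : 0 ≤ i) (hη : 0 < η) :
    ∀ᶠ n : ℕ in atTop, 4 ≤ n ∧ 1 ≤ Real.log n ∧ 1 - Real.log c0 ≤ Real.log n ∧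
      i ≤ η * (b * Real.log n) ∧ i ≤ b * Real.log n ∧ 3 ≤ La * Real.log n ∧
      La * Real.log n ≤ δ ^ 8 * (Nat.sqrt n : ℝ) ∧
      2 * b * Real.log n * i ≤ n ∧
      2 * b * Real.log n * i ≤ ca / 16 * Real.log n * (Nat.sqrt n : ℝ) ∧
      2 * b * Real.log n * i * (La * Real.log n) ^ 2 ≤
        ca / 16 * Real.log n * (Nat.sqrt n : ℝ) * ((n : ℝ) ^ (-(1 / 8 : ℝ)) * (c0 / 2)) ∧
      2 * L1 * Real.log n ≤ (La * Real.log n) ^ 2 / (2 * 10 ^ 6 * M ^ 2) := by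
  have hl : Tendsto (fun n : ℕ => Real.log n) atTop atTop :=
    Real.tendsto_log_atTop.comp tendsto_natCast_atTop_atTop
  have h1 : ∀ᶠ n : ℕ in atTop, 4 ≤ n := eventually_ge_atTop 4
  have h2 := hl.eventually_ge_atTop 1
  have h3 := hl.eventually_ge_atTop (1 - Real.log c0)
  have h4 := hl.eventually_ge_atTop (i / (η * b))
  have h5 := hl.eventually_ge_atTop (i / b)
  have h6 := hl.eventually_ge_atTop (3 / La)
  have h7 := hl.eventually_ge_atTop (2 * L1 * (2 * 10 ^ 6 * M ^ 2) / La ^ 2)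
  have h8 := evn93 (La / δ ^ 8)
  have h9 := evn93 (2 * b * i)
  have h10 := evn93 (2 * b * i * 16 / ca)
  have h11 := evn93 (2 * b * i * La ^ 2 * (2 / c0) * 16 / ca)
  filter_upwards [h1, h2, h3, h4, h5, h6, h7, h8, h9, h10, h11] with n e1 e2 e3 e4 e5 e6 e7 e8 e9
    e10 e11
  have hn : (4 : ℝ) ≤ n := by exact_mod_cast e1
  have hn0 : (0 : ℝ) < n := by linarith
  obtain ⟨l, hl⟩ : ∃ l : ℝ, l = Real.log n := ⟨_, rfl⟩
  obtain ⟨p, hp⟩ : ∃ p : ℝ, p = (n : ℝ) ^ (1 / 8 : ℝ) := ⟨_, rfl⟩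
  obtain ⟨s, hs⟩ : ∃ s : ℝ, s = (Nat.sqrt n : ℝ) := ⟨_, rfl⟩
  rw [← hl] at e2 e3 e4 e5 e6 e7 e8 e9 e10 e11 ⊢
  rw [← hp, ← hs] at e8 e9 e10 e11
  rw [← hs]
  have hp1 : 1 ≤ p := by
    rw [hp]
    exact Real.one_le_rpow (by linarith) (by norm_num)
  have hp0 : 0 < p := by linarith
  have hl0 : 0 < l := by linarith
  have hs0 : 0 ≤ s := by
    rw [hs]
    positivity
  have hlp : l ≤ l ^ 2 * p := by nlinarith
  have hlp1 : 1 ≤ l ^ 2 * p := e2.trans hlp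
  have hsn : s ≤ n := by
    rw [hs]
    exact_mod_cast Nat.sqrt_le_self n
  have hpn : (n : ℝ) ^ (-(1 / 8 : ℝ)) = p⁻¹ := by
    rw [hp, Real.rpow_neg hn0.le]
  refine ⟨e1, e2, e3, ?_, ?_, ?_, ?_, ?_, ?_, ?_, ?_⟩
  · rw [div_le_iff₀ (by positivity)] at e4
    linarith
  · rw [div_le_iff₀ hb] at e5
    linarith
  · rw [div_le_iff₀ hLa] at e6
    linarith
  · have h12 : La / δ ^ 8 * l ≤ s := (mul_le_mul_of_nonneg_left hlp (by positivity)).trans e8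
    rw [div_mul_eq_mul_div, div_le_iff₀ (by positivity)] at h12
    linarith
  · have h12 : 2 * b * i * l ≤ s := (mul_le_mul_of_nonneg_left hlp (by positivity)).trans e9
    linarith
  · have h12 : 2 * b * i * 16 / ca * 1 ≤ s :=
      (mul_le_mul_of_nonneg_left hlp1 (by positivity)).trans e10
    rw [mul_one, div_le_iff₀ hca] at h12
    have h13 : 2 * b * i ≤ ca / 16 * s := by linarith
    have h14 := mul_le_mul_of_nonneg_left h13 hl0.le
    linarith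
  · rw [hpn]
    have h12 : 2 * b * i * La ^ 2 * (2 / c0) * 16 / ca * (l ^ 2 * p) ≤ s := e11
    have h13 : 2 * b * i * La ^ 2 * l ^ 2 ≤ ca / 16 * s * (p⁻¹ * (c0 / 2)) := by
      have h14 := mul_le_mul_of_nonneg_left h12 (show 0 ≤ ca / 16 * (p⁻¹ * (c0 / 2)) by positivity)
      have h15 : ca / 16 * (p⁻¹ * (c0 / 2)) *
          (2 * b * i * La ^ 2 * (2 / c0) * 16 / ca * (l ^ 2 * p)) =
          2 * b * i * La ^ 2 * l ^ 2 := by
        field_simp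
      rw [h15] at h14
      linarith
    have h14 := mul_le_mul_of_nonneg_left h13 hl0.le
    have h15 : 2 * b * l * i * (La * l) ^ 2 = l * (2 * b * i * La ^ 2 * l ^ 2) := by ring
    have h16 : ca / 16 * l * s * (p⁻¹ * (c0 / 2)) = l * (ca / 16 * s * (p⁻¹ * (c0 / 2))) := by ring
    rw [h15, h16]
    exact h14
  · rw [div_le_iff₀ (by positivity)] at e7
    rw [le_div_iff₀ (by positivity)]
    have h12 := mul_le_mul_of_nonneg_left e7 hl0.le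
    have h13 : 2 * L1 * l * (2 * 10 ^ 6 * M ^ 2) = l * (2 * L1 * (2 * 10 ^ 6 * M ^ 2)) := by ring
    have h14 : (La * l) ^ 2 = l * (l * La ^ 2) := by ring
    rw [h13, h14]
    exact h12

end Pool.Agent.W_7d29a1_R34
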