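import Mathlib

/-!
Weights over the times: the logarithmic density of a set of times of positive lower density, the
choice of a tilt with a free fraction, Markov's inequality with weights.
-/

namespace Pool.Agent.W_7d29a1_R34

open MeasureTheory Filter Topology
open scoped ENNReal

/-- A block `[m, r m)` carries a weight at least `1 / r`. -/
lemma block81 {c : ℝ} {r : ℕ} (hr : 2 ≤ c * r) (hr0 : 0 < r) (P : ℕ → Prop) [DecidablePred P]
    (hP : ∀ m : ℕ, c * m ≤ (((Finset.range m).filter P).card : ℝ)) {m : ℕ} (hm : 0 < m) :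
    1 / (r : ℝ) ≤ ∑ t ∈ (Finset.Ico m (r * m)).filter P, (1 / (t : ℝ)) := by
  have hmR : (0 : ℝ) < m := by exact_mod_cast hm
  have hrR : (0 : ℝ) < r := by exact_mod_cast hr0
  have h1 := hP (r * m)
  have hsub : (Finset.range (r * m)).filter P ⊆
      Finset.range m ∪ (Finset.Ico m (r * m)).filter P := by
    intro t ht
    rw [Finset.mem_filter, Finset.mem_range] at ht
    rw [Finset.mem_union, Finset.mem_range, Finset.mem_filter, Finset.mem_Ico]
    by_cases h : t < m
    · exact Or.inl h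
    · exact Or.inr ⟨⟨not_lt.1 h, ht.1⟩, ht.2⟩
  have h2 := (Finset.card_le_card hsub).trans (Finset.card_union_le _ _)
  rw [Finset.card_range] at h2
  have h3 : (((Finset.range (r * m)).filter P).card : ℝ) ≤
      m + (((Finset.Ico m (r * m)).filter P).card : ℝ) := by exact_mod_cast h2
  have h4 : (m : ℝ) ≤ (((Finset.Ico m (r * m)).filter P).card : ℝ) := by
    push_cast at h1
    have h5 : 2 * (m : ℝ) ≤ c * (r * m) := by
      rw [← mul_assoc]
      exact mul_le_mul_of_nonneg_right hr hmR.le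
    linarith
  calc 1 / (r : ℝ) = (m : ℝ) * (1 / (r * m)) := by field_simp
    _ ≤ (((Finset.Ico m (r * m)).filter P).card : ℝ) * (1 / (r * m)) :=
        mul_le_mul_of_nonneg_right h4 (by positivity)
    _ = ∑ t ∈ (Finset.Ico m (r * m)).filter P, (1 / ((r : ℝ) * m)) := by
        rw [Finset.sum_const, nsmul_eq_mul]
    _ ≤ ∑ t ∈ (Finset.Ico m (r * m)).filter P, (1 / (t : ℝ)) := by
        refine Finset.sum_le_sum fun t ht => ?_
        have h6 := Finset.mem_Ico.1 (Finset.mem_filter.1 ht).1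
        have h7 : (0 : ℝ) < t := by exact_mod_cast hm.trans_le h6.1
        have h8 : (t : ℝ) ≤ r * m := by exact_mod_cast h6.2.le
        exact one_div_le_one_div_of_le h7 h8

/-- The blocks between `r ^ i` and `r ^ (i + k)`. -/
lemma blocks81 {c : ℝ} {r : ℕ} (hr : 2 ≤ c * r) (hr0 : 1 < r) (P : ℕ → Prop) [DecidablePred P]
    (hP : ∀ m : ℕ, c * m ≤ (((Finset.range m).filter P).card : ℝ)) (i k : ℕ) :
    k * (1 / (r : ℝ)) ≤ ∑ t ∈ (Finset.Ico (r ^ i) (r ^ (i + k))).filter P, (1 / (t : ℝ)) := by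
  induction k with
  | zero => simp
  | succ k ih =>
    have h0 : 0 < r := by omega
    have h1 := block81 hr h0 P hP (m := r ^ (i + k)) (pow_pos h0 _)
    have h2 : r * r ^ (i + k) = r ^ (i + (k + 1)) := by
      rw [← add_assoc, pow_succ]
      ring
    rw [h2] at h1
    have h3 : (Finset.Ico (r ^ i) (r ^ (i + (k + 1)))).filter P =
        ((Finset.Ico (r ^ i) (r ^ (i + k))).filter P) ∪
          ((Finset.Ico (r ^ (i + k)) (r ^ (i + (k + 1)))).filter P) := by
      rw [← Finset.filter_union, Finset.Ico_union_Ico_eq_Ico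
        (Nat.pow_le_pow_right h0 (by omega)) (Nat.pow_le_pow_right h0 (by omega))]
    have h4 : Disjoint ((Finset.Ico (r ^ i) (r ^ (i + k))).filter P)
        ((Finset.Ico (r ^ (i + k)) (r ^ (i + (k + 1)))).filter P) := by
      refine Finset.disjoint_filter_filter ?_
      exact Finset.Ico_disjoint_Ico_consecutive _ _ _
    rw [h3, Finset.sum_union h4]
    push_cast
    linarith

/-- **(a)** A set of times of positive lower density has positive lower logarithmic density in
`[√n, n)`. -/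
theorem logw81 {c : ℝ} (hc : 0 < c) : ∃ κ : ℝ, 0 < κ ∧ ∃ n₀ : ℕ, ∀ (P : ℕ → Prop)
    [DecidablePred P], (∀ m : ℕ, c * m ≤ (((Finset.range m).filter P).card : ℝ)) →
      ∀ n : ℕ, n₀ ≤ n → κ * Real.log n ≤
        ∑ t ∈ (Finset.range n).filter (fun t : ℕ => √(n : ℝ) ≤ (t : ℝ) ∧ P t), (1 / (t : ℝ)) := by
  obtain ⟨r, hr⟩ := exists_nat_ge (2 / c + 2)
  have hr2 : (2 : ℝ) ≤ r := by
    have : 0 < 2 / c := by positivity
    linarith
  have hr1 : 1 < r := by exact_mod_cast (by linarith : (1 : ℝ) < r)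
  have hcr : 2 ≤ c * r := by
    have h1 : c * (2 / c + 2) ≤ c * r := mul_le_mul_of_nonneg_left hr hc.le
    have h2 : c * (2 / c + 2) = 2 + 2 * c := by field_simp
    linarith
  have hrR : (0 : ℝ) < r := by linarith
  have hlr : 0 < Real.log r := Real.log_pos (by linarith)
  refine ⟨1 / (8 * r * Real.log r), one_div_pos.2 (mul_pos (by linarith) hlr), ?_⟩
  -- the size of `n`
  have hlim : ∀ᶠ n : ℕ in atTop, 16 * Real.log r ≤ Real.log n :=
    (Real.tendsto_log_atTop.comp tendsto_natCast_atTop_atTop).eventually_ge_atTop _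
  obtain ⟨n₀, hn₀⟩ := eventually_atTop.1 hlim
  refine ⟨max n₀ 2, fun P _ hP n hn => ?_⟩
  have hn1 := hn₀ n ((le_max_left _ _).trans hn)
  have hn2 : 2 ≤ n := (le_max_right _ _).trans hn
  have hnR : (2 : ℝ) ≤ n := by exact_mod_cast hn2
  have hnpos : (0 : ℝ) < n := by linarith
  set x : ℝ := Real.log n / Real.log r with hx
  have hx16 : 16 ≤ x := by rw [hx, le_div_iff₀ hlr]; exact hn1
  -- the blocks `i ≤ j < i + k`
  obtain ⟨i, hi⟩ : ∃ i : ℕ, i = ⌈x / 2⌉₊ := ⟨_, rfl⟩
  obtain ⟨l, hl⟩ : ∃ l : ℕ, l = ⌊x⌋₊ := ⟨_, rfl⟩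
  have hi1 : x / 2 ≤ i := by rw [hi]; exact Nat.le_ceil _
  have hi2 : (i : ℝ) < x / 2 + 1 := by rw [hi]; exact Nat.ceil_lt_add_one (by positivity)
  have hl1 : (l : ℝ) ≤ x := by rw [hl]; exact Nat.floor_le (by linarith)
  have hl2 : x < l + 1 := by rw [hl]; exact Nat.lt_floor_add_one x
  have hil : i ≤ l := by
    have : (i : ℝ) < l + 1 := by linarith
    have h : i < l + 1 := by exact_mod_cast this
    omega
  have hb := blocks81 hcr hr1 P hP i (l - i)
  rw [Nat.add_sub_cancel' hil] at hb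
  have hk : x / 4 ≤ ((l - i : ℕ) : ℝ) := by
    rw [Nat.cast_sub hil]
    linarith
  have hexp : ∀ y : ℝ, Real.exp (y * Real.log r) = (r : ℝ) ^ y := by
    intro y
    rw [Real.rpow_def_of_pos hrR, mul_comm]
  have hxl : x * Real.log r = Real.log n := by rw [hx]; field_simp
  have hlo : √(n : ℝ) ≤ ((r ^ i : ℕ) : ℝ) := by
    push_cast
    rw [← Real.rpow_natCast (r : ℝ) i, ← hexp]
    have h1 : √(n : ℝ) = Real.exp (x / 2 * Real.log r) := by
      rw [show x / 2 * Real.log r = Real.log n * (1 / 2) by rw [← hxl]; ring,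
        ← Real.rpow_def_of_pos hnpos, Real.sqrt_eq_rpow]
    rw [h1]
    exact Real.exp_le_exp.2 (mul_le_mul_of_nonneg_right hi1 hlr.le)
  have hhi : ((r ^ l : ℕ) : ℝ) ≤ n := by
    push_cast
    rw [← Real.rpow_natCast (r : ℝ) l, ← hexp]
    calc Real.exp (l * Real.log r) ≤ Real.exp (x * Real.log r) :=
          Real.exp_le_exp.2 (mul_le_mul_of_nonneg_right hl1 hlr.le)
      _ = n := by rw [hxl, Real.exp_log hnpos]
  have hhi' : r ^ l ≤ n := by exact_mod_cast hhi
  have hsub : (Finset.Ico (r ^ i) (r ^ l)).filter P ⊆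
      (Finset.range n).filter (fun t : ℕ => √(n : ℝ) ≤ (t : ℝ) ∧ P t) := by
    intro t ht
    rw [Finset.mem_filter, Finset.mem_Ico] at ht
    rw [Finset.mem_filter, Finset.mem_range]
    refine ⟨ht.1.2.trans_le hhi', ?_, ht.2⟩
    exact hlo.trans (by exact_mod_cast ht.1.1)
  refine le_trans ?_ (Finset.sum_le_sum_of_subset_of_nonneg hsub fun t _ _ => by positivity)
  refine le_trans ?_ hb
  have h5 : 1 / (8 * (r : ℝ) * Real.log r) * Real.log n = x / 8 * (1 / r) := by
    rw [← hxl]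
    field_simp
  rw [h5]
  refine mul_le_mul_of_nonneg_right ?_ (by positivity)
  linarith

open Classical in
/-- **(b)** If every bad set has measure less than `θ μ(T)`, some point of `T` is bad only at times
which carry at most the fraction `θ` of the weight. -/
theorem wtsG81 {α : Type*} [MeasurableSpace α] (μ : Measure α) (T : Set α) (bad : ℕ → Set α)
    (hbad : ∀ t, MeasurableSet (bad t)) (η : ℝ≥0∞) (hη : ∀ t, μ (bad t) ≤ η) {θ : ℝ} (hθ : 0 < θ)
    (hT : η < ENNReal.ofReal θ * μ T) (s : Finset ℕ) (w : ℕ → ℝ) (hw : ∀ t ∈ s, 0 ≤ w t) :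
    ∃ x ∈ T, ∑ t ∈ s with x ∈ bad t, w t ≤ θ * ∑ t ∈ s, w t := by
  have hT0 : μ T ≠ 0 := by
    intro h0
    rw [h0, mul_zero] at hT
    exact absurd hT not_lt_zero
  set W := ∑ t ∈ s, w t with hW
  have hW0 : 0 ≤ W := Finset.sum_nonneg hw
  rcases hW0.eq_or_lt with h0 | hpos
  · obtain ⟨x, hx⟩ := nonempty_of_measure_ne_zero hT0
    refine ⟨x, hx, ?_⟩
    rw [← h0, mul_zero]
    calc ∑ t ∈ s with x ∈ bad t, w t ≤ ∑ t ∈ s, w t :=
          Finset.sum_le_sum_of_subset_of_nonneg (Finset.filter_subset _ _) fun t ht _ => hw t ht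
      _ = 0 := by rw [← hW, ← h0]
  · let f : α → ℝ≥0∞ := fun x => ∑ t ∈ s, (bad t).indicator (fun _ => ENNReal.ofReal (w t)) x
    have hf : Measurable f :=
      Finset.measurable_sum _ fun t _ => measurable_const.indicator (hbad t)
    have hint : ∫⁻ x, f x ∂μ ≤ ENNReal.ofReal W * η := by
      have h1 : ∫⁻ x, f x ∂μ = ∑ t ∈ s, ENNReal.ofReal (w t) * μ (bad t) := by
        rw [lintegral_finsetSum _ fun t _ => measurable_const.indicator (hbad t)]
        refine Finset.sum_congr rfl fun t _ => ?_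
        rw [lintegral_indicator_const (hbad t)]
      rw [h1, hW, ENNReal.ofReal_sum_of_nonneg hw, Finset.sum_mul]
      exact Finset.sum_le_sum fun t _ => by gcongr; exact hη t
    by_contra hcon
    push Not at hcon
    have hall : ∀ x ∈ T, ENNReal.ofReal (θ * W) ≤ f x := by
      intro x hx
      have h4 := hcon x hx
      have h7 : f x = ENNReal.ofReal (∑ t ∈ s with x ∈ bad t, w t) := by
        rw [ENNReal.ofReal_sum_of_nonneg fun t ht => hw t (Finset.mem_filter.1 ht).1,
          Finset.sum_filter]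
        refine Finset.sum_congr rfl fun t _ => ?_
        by_cases hxt : x ∈ bad t
        · simp [hxt]
        · simp [hxt]
      rw [h7]
      exact ENNReal.ofReal_le_ofReal h4.le
    have h2 := mul_meas_ge_le_lintegral (μ := μ) hf (ENNReal.ofReal (θ * W))
    have h3 : ENNReal.ofReal (θ * W) * μ T ≤ ENNReal.ofReal W * η := by
      refine le_trans ?_ (h2.trans hint)
      gcongr
      exact hall
    rw [ENNReal.ofReal_mul hθ.le, mul_comm (ENNReal.ofReal θ), mul_assoc] at h3
    have hWne : ENNReal.ofReal W ≠ 0 := (ENNReal.ofReal_pos.2 hpos).ne'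
    have h5 := (ENNReal.mul_le_mul_iff_right hWne ENNReal.ofReal_ne_top).1 h3
    exact absurd (hT.trans_le h5) (lt_irrefl _)

/-- **(c)** Markov's inequality with weights. -/
theorem mark81 {s : Finset ℕ} {w f : ℕ → ℝ} (hw : ∀ t ∈ s, 0 ≤ w t) (hf : ∀ t ∈ s, 0 ≤ f t)
    {lev B : ℝ} (hlev : 0 < lev) (hB : ∑ t ∈ s, w t * f t ≤ B) :
    ∑ t ∈ s with ¬ (f t ≤ lev), w t ≤ B / lev := by
  rw [le_div_iff₀ hlev, Finset.sum_mul]
  refine le_trans ?_ hB
  calc ∑ t ∈ s with ¬ (f t ≤ lev), w t * lev ≤ ∑ t ∈ s with ¬ (f t ≤ lev), w t * f t := by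
        refine Finset.sum_le_sum fun t ht => ?_
        rw [Finset.mem_filter] at ht
        exact mul_le_mul_of_nonneg_left (not_le.1 ht.2).le (hw t ht.1)
    _ ≤ ∑ t ∈ s, w t * f t :=
        Finset.sum_le_sum_of_subset_of_nonneg (Finset.filter_subset _ _)
          fun t ht _ => mul_nonneg (hw t ht) (hf t ht)

end Pool.Agent.W_7d29a1_R34
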