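import Pool.Agent.W_7d29a1_R34.RppS93
import Pool.Agent.W_7d29a1_R34.EgoG81
import Pool.Agent.W_7d29a1_R34.Leak34
import Pool.Agent.W_7d29a1_R34.Box34
import Pool.Agent.W_7d29a1_R34.Tail13
import Pool.Agent.W_7d29a1_Q29.Npf98
import Pool.Agent.W_7d29a1_Q29.Loc42

/-!
Very strong disorder in two transversal dimensions: for almost every tilt the variance of the
logarithm of the partition function is infinitely often larger than any given multiple of `log n`.
-/

namespace Pool.Agent.W_7d29a1_R34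

open MeasureTheory ProbabilityTheory Filter Topology Pool.Agent.W_MP_7d29a1_pr
  Pool.Agent.W_7d29a1_h46 Pool.Agent.W_7d29a1_h46u Pool.Agent.W_7d29a1_D2.B35
  Pool.Agent.W_7d29a1_Q29

/-- From the sets of positive measure to almost every point. -/
theorem aeM93 {d : ℕ} (f : ℕ → Vec d → ℝ) (hf : ∀ n, Continuous (f n)) (q : Vec d → ℝ)
    (hq : Continuous q)
    (H : ∀ g : ℝ, 0 < g → ∀ B : Set (Vec d), Bornology.IsBounded B → MeasurableSet B →
      volume B ≠ 0 → (∀ h ∈ B, g ≤ q h) → ∀ L : ℝ, ∃ n₀ : ℕ, ∀ n : ℕ, n₀ ≤ n → ∀ K : ℝ,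
        (∀ h ∈ B, ∀ m : ℕ, m ≤ n → f m h ≤ K) → L * Real.log n ≤ K) :
    ∀ᵐ h : Vec d, 0 < q h → ∀ M : ℝ, ∃ᶠ n : ℕ in atTop, M * Real.log n ≤ f n h := by
  have hl : Tendsto (fun n : ℕ => Real.log n) atTop atTop :=
    Real.tendsto_log_atTop.comp tendsto_natCast_atTop_atTop
  have key : ∀ M : ℕ, ∀ j : ℕ, volume {h : Vec d | ‖h‖ ≤ j ∧ 1 / ((j : ℝ) + 1) ≤ q h ∧
      ∀ n : ℕ, j ≤ n → f n h ≤ M * Real.log n} = 0 := by
    intro M j
    by_contra hcon
    obtain ⟨B, hB⟩ : ∃ B : Set (Vec d), B = {h : Vec d | ‖h‖ ≤ j ∧ 1 / ((j : ℝ) + 1) ≤ q h ∧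
      ∀ n : ℕ, j ≤ n → f n h ≤ M * Real.log n} := ⟨_, rfl⟩
    rw [← hB] at hcon
    have hBc : IsClosed B := by
      have e1 : B = {h : Vec d | ‖h‖ ≤ j} ∩ ({h : Vec d | 1 / ((j : ℝ) + 1) ≤ q h} ∩
          ⋂ n : ℕ, ⋂ _ : j ≤ n, {h : Vec d | f n h ≤ M * Real.log n}) := by
        rw [hB]
        ext h
        simp
      rw [e1]
      exact (isClosed_le continuous_norm continuous_const).inter
        ((isClosed_le continuous_const hq).inter
          (isClosed_iInter fun n => isClosed_iInter fun _ =>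
            isClosed_le (hf n) continuous_const))
    have hBb : Bornology.IsBounded B := by
      refine (Metric.isBounded_closedBall (x := (0 : Vec d)) (r := (j : ℝ))).subset fun h hh => ?_
      rw [hB] at hh
      rw [Metric.mem_closedBall, dist_zero_right]
      exact hh.1
    have hBk : IsCompact B := Metric.isCompact_of_isClosed_isBounded hBc hBb
    have hbd : ∀ m : ℕ, ∃ C : ℝ, ∀ h ∈ B, f m h ≤ C := by
      intro m
      obtain ⟨C, hC⟩ := hBk.exists_bound_of_continuousOn (hf m).continuousOn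
      exact ⟨C, fun h hh => (le_abs_self _).trans (hC h hh)⟩
    choose C hC using hbd
    obtain ⟨n₀, hn₀⟩ := H (1 / ((j : ℝ) + 1)) (by positivity) B hBb hBc.measurableSet hcon
      (fun h hh => by
        rw [hB] at hh
        exact hh.2.1) (M + 1)
    obtain ⟨n₁, hn₁⟩ := eventually_atTop.1
      (hl.eventually_ge_atTop (1 + ∑ m ∈ Finset.range j, |C m|))
    obtain ⟨n, hn⟩ : ∃ n, n = max (max n₀ n₁) 1 := ⟨_, rfl⟩
    have hn0 : n₀ ≤ n := by
      rw [hn]
      exact (le_max_left _ _).trans (le_max_left _ _)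
    have hn1 : n₁ ≤ n := by
      rw [hn]
      exact (le_max_right _ _).trans (le_max_left _ _)
    have hn2 : 1 ≤ n := by
      rw [hn]
      exact le_max_right _ _
    have h1 := hn₁ n hn1
    have h0 : 0 ≤ ∑ m ∈ Finset.range j, |C m| := Finset.sum_nonneg fun _ _ => abs_nonneg _
    have hM : (0 : ℝ) ≤ M := Nat.cast_nonneg M
    have h2 := hn₀ n hn0 (M * Real.log n + ∑ m ∈ Finset.range j, |C m|) (by
      intro h hh m hm
      rcases Nat.lt_or_ge m j with h3 | h3
      · have h4 := hC m h hh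
        have h5 := Finset.single_le_sum (f := fun m : ℕ => |C m|)
          (fun _ _ => abs_nonneg _) (Finset.mem_range.2 h3)
        have h6 := (le_abs_self (C m)).trans h5
        have h7 : 0 ≤ (M : ℝ) * Real.log n := mul_nonneg hM (by linarith)
        linarith
      · rw [hB] at hh
        have h4 := hh.2.2 m h3
        have h5 : (M : ℝ) * Real.log m ≤ M * Real.log n := by
          refine mul_le_mul_of_nonneg_left ?_ hM
          rcases Nat.eq_zero_or_pos m with h6 | h6
          · rw [h6]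
            simp only [Nat.cast_zero, Real.log_zero]
            linarith
          · exact Real.log_le_log (by exact_mod_cast h6) (by exact_mod_cast hm)
        linarith)
    linarith
  have key2 : ∀ᵐ h : Vec d, ∀ M : ℕ, ∀ j : ℕ, ¬ (‖h‖ ≤ j ∧ 1 / ((j : ℝ) + 1) ≤ q h ∧
      ∀ n : ℕ, j ≤ n → f n h ≤ M * Real.log n) := by
    rw [ae_all_iff]
    intro M
    rw [ae_all_iff]
    intro j
    rw [ae_iff]
    simp only [not_not]
    exact key M j
  filter_upwards [key2] with h hh hqh M
  by_contra hcon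
  rw [Filter.not_frequently] at hcon
  obtain ⟨n₀, hn₀⟩ := eventually_atTop.1 hcon
  obtain ⟨j1, hj1⟩ := exists_nat_one_div_lt hqh
  obtain ⟨j2, hj2⟩ := exists_nat_ge ‖h‖
  obtain ⟨M1, hM1⟩ := exists_nat_ge M
  obtain ⟨j, hj⟩ : ∃ j, j = max (max (max j1 j2) n₀) 1 := ⟨_, rfl⟩
  have e1 : j1 ≤ j := by
    rw [hj]
    exact (le_max_left _ _).trans ((le_max_left _ _).trans (le_max_left _ _))
  have e2 : j2 ≤ j := by
    rw [hj]
    exact (le_max_right _ _).trans ((le_max_left _ _).trans (le_max_left _ _))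
  have e3 : n₀ ≤ j := by
    rw [hj]
    exact (le_max_right _ _).trans (le_max_left _ _)
  have e4 : 1 ≤ j := by
    rw [hj]
    exact le_max_right _ _
  refine hh M1 j ⟨hj2.trans (by exact_mod_cast e2), ?_, fun n hn => ?_⟩
  · refine le_trans ?_ hj1.le
    have : (j1 : ℝ) ≤ j := by exact_mod_cast e1
    exact one_div_le_one_div_of_le (by positivity) (by linarith)
  · have h1 := hn₀ n (e3.trans hn)
    rw [not_le] at h1
    have h2 : 0 ≤ Real.log n := Real.log_natCast_nonneg n
    have h3 := mul_le_mul_of_nonneg_right hM1 h2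
    linarith

variable {ρ : Measure ℝ} [IsProbabilityMeasure ρ]

/-- The uniform superlogarithmic lower bound, with no hypothesis left. -/
theorem uniS93' (hρ : EM ρ) (hnc : ∀ c : ℝ, ρ {c} ≠ 1) {β : ℝ} (hβ : 0 < β) : UniS ρ β :=
  uniS93 hρ (leak34 hρ (box34 (by norm_num) hρ β) (tail13 (by norm_num) hρ β))
    (npb98 (by norm_num) hρ hnc hβ) (Csy42.loc42 (by norm_num) hρ β)

/-- **Theorem R++.** In dimension two, for almost every tilt of very strong disorder the variance
of the logarithm of the partition function is infinitely often larger than any given multiple of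
`log n`. -/
theorem rpp93 (hρ : EM ρ) (hnc : ∀ c : ℝ, ρ {c} ≠ 1) {β : ℝ} (hβ : 0 < β) :
    ∀ᵐ h : Vec 2, VSD ρ β h → ∀ M : ℝ, ∃ᶠ n : ℕ in atTop,
      M * Real.log n ≤ Va ρ β h n := by
  have h1 := aeM93 (d := 2) (fun n h => Va ρ β h n) (cont65 (by norm_num) hρ β) _
    (contVSD81 (d := 2) (by norm_num) hρ β)
    (fun g hg B hB hBm hBv hq => uniS93' hρ hnc hβ g hg B hB hBm hBv fun h hh => by
      have := hq h hh
      linarith)
  filter_upwards [h1] with h hh hV
  unfold VSD at hV
  exact hh (by linarith)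

end Pool.Agent.W_7d29a1_R34
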