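import Pool.Agent.W_7d29a1_R34.UniS93

/-!
The uniform superlogarithmic lower bound (helper93).
-/

namespace Pool.Agent.W_7d29a1_R34

open MeasureTheory ProbabilityTheory Filter Topology Pool.Agent.W_MP_7d29a1_pr
  Pool.Agent.W_7d29a1_h46 Pool.Agent.W_7d29a1_h46u Pool.Agent.W_7d29a1_D2.B35
  Pool.Agent.W_7d29a1_Q29 Pool.Agent.W_7d29a1_P89
open scoped ENNReal

variable {ρ : Measure ℝ} [IsProbabilityMeasure ρ]

/-- The constants exist. -/
theorem cst93 (hρ : EM ρ) {β : ℝ} (hB : NPB 2 ρ β) (hLoc : LocE 2 ρ β) {g : ℝ} (hg : 0 < g)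
    {B : Set (Vec 2)} (hBb : Bornology.IsBounded B) (hB0 : volume B ≠ 0)
    (hgap : ∀ h ∈ B, lam ρ β h + g ≤ Real.log (Phi h) + Real.log (∫ t, Real.exp (β * t) ∂ρ)) :
    ∃ (R c₀ ca M CB : ℝ) (q : ℝ≥0∞) (na : ℕ), Cst93 ρ β B R c₀ ca M CB q ∧
      ∀ n : ℕ, na ≤ n → ∀ P : ℕ → Prop, ∀ (_ : DecidablePred P),
        (∀ m : ℕ, c₀ * m ≤ (((Finset.range m).filter P).card : ℝ)) →
        ca * Real.log n ≤ ∑ t ∈ (Finset.Icc (Nat.sqrt n) n).filter P, (1 / (t : ℝ)) := by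
  classical
  obtain ⟨c₀, hc₀, hloc⟩ := hLoc g hg
  obtain ⟨ca, hca, na, habel⟩ := abel81 hc₀
  obtain ⟨R, hR⟩ := hBb.subset_closedBall (0 : Vec 2)
  obtain ⟨Cb, hCb, hbadA⟩ := badA56 (d := 2) (by norm_num) hρ β R
  obtain ⟨CB, hCB, hNPB⟩ := hB
  have hpos : 0 < ENNReal.ofReal (ca / 8) * (volume B / 2) :=
    ENNReal.mul_pos (ENNReal.ofReal_pos.2 (by positivity)).ne'
      (ENNReal.div_pos hB0 (by norm_num)).ne'
  obtain ⟨q, hq0, hq1⟩ := ENNReal.lt_iff_exists_nnreal_btwn.1 hpos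
  have hq0' : (0 : ℝ) < q := by exact_mod_cast hq0
  obtain ⟨M, hM⟩ : ∃ M : ℝ, M = max 1 (Cb * 8 / q) := ⟨_, rfl⟩
  have hM1 : 1 ≤ M := by
    rw [hM]
    exact le_max_left _ _
  have hM0 : 0 < M := by linarith
  have hMq : Cb * 8 / M ≤ q := by
    rw [div_le_iff₀ hM0]
    have h1 : Cb * 8 / q ≤ M := by
      rw [hM]
      exact le_max_right _ _
    rw [div_le_iff₀ hq0'] at h1
    linarith
  have hsum4 : HasSum (fun j : ℕ => ((2 : ℝ) ^ j / 4)⁻¹) 8 := by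
    have h1 := hasSum_geometric_two.mul_left 4
    have h2 : (fun j : ℕ => ((2 : ℝ) ^ j / 4)⁻¹) = fun j : ℕ => 4 * (1 / 2 : ℝ) ^ j := by
      funext j
      rw [one_div, inv_pow, inv_div, div_eq_mul_inv]
    rw [h2]
    have h3 : (4 : ℝ) * 2 = 8 := by norm_num
    rwa [h3] at h1
  refine ⟨R, c₀, ca, M, CB, (q : ℝ≥0∞), na, ⟨hR, hc₀, hca, hM1, hCB, hq1, ?_, ?_, ?_⟩, ?_⟩
  · intro h hh n
    exact (hloc h (hgap h hh) n).trans (le_of_eq (by congr!))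
  · intro t ht s hs
    have h1 := hbadA t ht s (fun j => 2 ^ j / 4) M hs (fun j => by positivity) hM0 hsum4.summable
    rw [hsum4.tsum_eq] at h1
    refine ⟨h1.1, h1.2.trans ?_⟩
    rw [← ENNReal.ofReal_coe_nnreal]
    exact ENNReal.ofReal_le_ofReal hMq
  · intro h n
    exact hNPB h n
  · intro n hn P inst hP
    refine (habel n hn P fun m => (hP m).trans (le_of_eq (by congr!))).trans (le_of_eq ?_)
    congr!

/-- The uniform superlogarithmic lower bound. -/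
theorem uniS93 (hρ : EM ρ) {β : ℝ} (hL : LeakR ρ β) (hB : NPB 2 ρ β) (hLoc : LocE 2 ρ β) :
    UniS ρ β := by
  classical
  intro g hg B hBb hBm hB0 hgap L
  obtain ⟨R, c₀, ca, M, CB, q, na, H, habel⟩ := cst93 hρ hB hLoc hg hBb hB0 hgap
  have hc₀ := H.hc₀
  have hca := H.hca
  have hM1 := H.hM
  have hCB := H.hCB
  have hM0 : 0 < M := by linarith
  have hvs : ∀ h ∈ B, VSD ρ β h := by
    intro h hh
    have h1 := hgap h hh
    unfold VSD
    linarith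
  obtain ⟨L1, hL1⟩ : ∃ L1 : ℝ, L1 = max L 1 := ⟨_, rfl⟩
  have hL11 : 1 ≤ L1 := by
    rw [hL1]
    exact le_max_right _ _
  have hLL : L ≤ L1 := by
    rw [hL1]
    exact le_max_left _ _
  obtain ⟨La, hLa⟩ : ∃ La : ℝ, La = (2 * L1) ^ 2 * (2 * 10 ^ 9 * M ^ 2 * (CB + 1)) / ca := ⟨_, rfl⟩
  have hCB1 : 0 < CB + 1 := by linarith
  have hLa0 : 0 < La := by
    rw [hLa]
    positivity
  have hfin : (2 * L1) ^ 2 * (2 * 10 ^ 9 * M ^ 2 * (CB + 1)) ≤ La * ca := by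
    rw [hLa, div_mul_cancel₀ _ hca.ne']
  obtain ⟨b, hb⟩ : ∃ b : ℝ, b = 4 / 3 * (1 + 8 * La / c₀) := ⟨_, rfl⟩
  have hb0 : 0 < b := by
    rw [hb]
    positivity
  have hbb : 1 + 8 * La / c₀ ≤ 3 / 4 * b := by
    rw [hb]
    linarith
  obtain ⟨θ, hθ⟩ : ∃ θ : ℝ, θ = min 1 (1 / (16 * b)) := ⟨_, rfl⟩
  have hθ0 : 0 < θ := by
    rw [hθ]
    exact lt_min one_pos (by positivity)
  have hθ1 : θ ≤ 1 := by
    rw [hθ]
    exact min_le_left _ _
  have hθb : 16 * b * θ ≤ 1 := by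
    have h1 : θ ≤ 1 / (16 * b) := by
      rw [hθ]
      exact min_le_right _ _
    rw [le_div_iff₀ (by positivity)] at h1
    linarith
  obtain ⟨η, hη⟩ : ∃ η : ℝ, η = ca / 384 := ⟨_, rfl⟩
  have hη0 : 0 < η := by
    rw [hη]
    positivity
  have hη2 : 48 * η ≤ ca / 8 := by
    rw [hη]
    linarith
  obtain ⟨i, hT⟩ := Gs_big93 hρ β hθ0 hθ1 hη0 hBb hBm hB0 hvs
  obtain ⟨δ, hδ⟩ : ∃ δ : ℝ, δ = min (1 / ((i : ℝ) + 1)) 1 := ⟨_, rfl⟩
  have hδ0 : 0 < δ := by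
    rw [hδ]
    exact lt_min (by positivity) one_pos
  have hδ1 : δ ≤ 1 := by
    rw [hδ]
    exact min_le_right _ _
  have hδi : δ ≤ 1 / ((i : ℝ) + 1) := by
    rw [hδ]
    exact min_le_left _ _
  obtain ⟨n2, hn2⟩ := eventually_atTop.1 (evS93 (c0 := c₀) (ca := ca) (δ := δ) (M := M) (La := La)
    (b := b) (i := (i : ℝ)) (η := η) (L1 := L1) hc₀ hca hδ0 hM0 hLa0 hb0 (Nat.cast_nonneg i) hη0)
  have hl : Tendsto (fun n : ℕ => Real.log n) atTop atTop :=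
    Real.tendsto_log_atTop.comp tendsto_natCast_atTop_atTop
  obtain ⟨n3, hn3⟩ := eventually_atTop.1 (hl.eventually_gt_atTop 1)
  refine ⟨max (2 * (max na n2)) n3, fun n hn K hK => ?_⟩
  obtain ⟨N, hN⟩ : ∃ N, N = n / 2 := ⟨_, rfl⟩
  have hNa : na ≤ N := by
    have h1 : 2 * (max na n2) ≤ n := (le_max_left _ _).trans hn
    have h2 : na ≤ max na n2 := le_max_left _ _
    omega
  have hN2 : n2 ≤ N := by
    have h1 : 2 * (max na n2) ≤ n := (le_max_left _ _).trans hn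
    have h2 : n2 ≤ max na n2 := le_max_right _ _
    omega
  obtain ⟨e1, e2, e3, e4, e5, e6, e7, e8, e9, e10, e11⟩ := hn2 N hN2
  have h1 := scaleS93 hρ hL H (La := La) (b := b) (θ := θ) (η := η) (L1 := L1) (δ := δ) (i := i)
    (N := N) hb0 hθ0 hθb hη0 hη2 hbb hfin hδ0 hδ1 hδi hT
    (fun P hP => by
      refine (habel N hNa P (fun a => Classical.propDecidable (P a)) fun m =>
        (hP m).trans (le_of_eq (by congr!))).trans (le_of_eq ?_)
      congr!)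
    e1 e2 e3 e4 e5 e6 e7 e8 e9 e10 e11 (K := max K 1) (le_max_right _ _)
    (fun h hh m hm => (hK h hh m (by omega)).trans (le_max_left _ _))
  have hlog := hn3 n ((le_max_right _ _).trans hn)
  have hN0 : (0 : ℝ) < N := by
    have : (4 : ℝ) ≤ N := by exact_mod_cast e1
    linarith
  have h2 : Real.log n ≤ 2 * Real.log N := by
    have h3 : (n : ℝ) ≤ (N : ℝ) ^ 2 := by
      have h4 : n ≤ N ^ 2 := by
        have h5 : n ≤ 2 * N + 1 := by omega
        nlinarith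
      exact_mod_cast h4
    have h6 : (0 : ℝ) < n := by
      have : 0 < n := by omega
      exact_mod_cast this
    have h7 := Real.log_le_log h6 h3
    rwa [Real.log_pow, Nat.cast_ofNat] at h7
  have h3 : L1 * Real.log n ≤ L1 * (2 * Real.log N) := mul_le_mul_of_nonneg_left h2 (by linarith)
  have h4 : L * Real.log n ≤ L1 * Real.log n := mul_le_mul_of_nonneg_right hLL (by linarith)
  have h5 : 1 * Real.log n ≤ L1 * Real.log n := mul_le_mul_of_nonneg_right hL11 (by linarith)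
  rcases le_max_iff.1 h1 with h6 | h6
  · linarith
  · linarith

end Pool.Agent.W_7d29a1_R34
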