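import Mathlib.MeasureTheory.Measure.Lebesgue.EqHaar
import Mathlib.MeasureTheory.Integral.Bochner.Set
import Mathlib.Analysis.Convex.Jensen
import Mathlib.MeasureTheory.Group.Integral

/-!
# MP_7d29a1_pr, THEOREM R, leaf R4: averages of second differences of a convex function (helper13)
-/

open MeasureTheory Set Metric Filter Topology

namespace R34

/-- The second difference of `A` at `h` in the direction `z`. -/
def Sd13 {d : ℕ} (A : (Fin d → ℝ) → ℝ) (h z : Fin d → ℝ) : ℝ := A (h + z) + A (h - z) - 2 * A h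

theorem sd_nonneg13 {d : ℕ} {A : (Fin d → ℝ) → ℝ} (hc : ConvexOn ℝ univ A) (h z : Fin d → ℝ) :
    0 ≤ Sd13 A h z := by
  have h1 := hc.2 (mem_univ (h + z)) (mem_univ (h - z)) (by norm_num : (0 : ℝ) ≤ 1 / 2)
    (by norm_num : (0 : ℝ) ≤ 1 / 2) (by norm_num)
  have h2 : (1 / 2 : ℝ) • (h + z) + (1 / 2 : ℝ) • (h - z) = h := by module
  rw [h2] at h1
  simp only [smul_eq_mul] at h1
  simp only [Sd13]
  linarith

theorem sd_neg13 {d : ℕ} (A : (Fin d → ℝ) → ℝ) (h z : Fin d → ℝ) : Sd13 A h (-z) = Sd13 A h z := by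
  simp only [Sd13, ← sub_eq_add_neg, sub_neg_eq_add]
  ring

theorem sd_smul_le13 {d : ℕ} {A : (Fin d → ℝ) → ℝ} (hc : ConvexOn ℝ univ A) (h z : Fin d → ℝ)
    {a : ℝ} (ha : |a| ≤ 1) : Sd13 A h (a • z) ≤ Sd13 A h z := by
  have key : ∀ b : ℝ, 0 ≤ b → b ≤ 1 → Sd13 A h (b • z) ≤ Sd13 A h z := by
    intro b hb0 hb1
    have h1 := hc.2 (mem_univ (h + z)) (mem_univ h) hb0 (sub_nonneg.2 hb1) (by ring)
    have h2 := hc.2 (mem_univ (h - z)) (mem_univ h) hb0 (sub_nonneg.2 hb1) (by ring)
    have h3 : b • (h + z) + (1 - b) • h = h + b • z := by module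
    have h4 : b • (h - z) + (1 - b) • h = h - b • z := by module
    rw [h3] at h1
    rw [h4] at h2
    simp only [smul_eq_mul] at h1 h2
    have h5 := sd_nonneg13 hc h z
    simp only [Sd13] at h5 ⊢
    nlinarith
  rcases le_total 0 a with h0 | h0
  · exact key a h0 (by rwa [abs_of_nonneg h0] at ha)
  · have h1 := key (-a) (by linarith) (by rwa [abs_of_nonpos h0] at ha)
    rwa [neg_smul, sd_neg13] at h1

/-- The second difference in a general direction is at most the mean of those in the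
coordinate directions, at `d` times the scale. -/
theorem sd_coord13 {d : ℕ} (hd : 0 < d) {A : (Fin d → ℝ) → ℝ} (hc : ConvexOn ℝ univ A)
    (h z : Fin d → ℝ) {r : ℝ} (hr : 0 < r) (hz : (d : ℝ) * ‖z‖ ≤ r) {b : ℝ}
    (hb : ∀ j : Fin d, Sd13 A h (r • Pi.single j (1 : ℝ)) ≤ b) : Sd13 A h z ≤ b := by
  have hd' : (0 : ℝ) < d := by exact_mod_cast hd
  have hw : ∑ _i : Fin d, (1 / (d : ℝ)) = 1 := by
    simp [hd'.ne']
  have hsum : ∑ i : Fin d, (1 / (d : ℝ)) • (((d : ℝ) * z i) • (Pi.single i (1 : ℝ) : Fin d → ℝ))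
      = z := by
    funext k
    simp only [Finset.sum_apply, Pi.smul_apply, smul_eq_mul, Pi.single_apply]
    rw [Finset.sum_eq_single k]
    · simp only [if_true]
      field_simp
    · intro i _ hik
      rw [if_neg (Ne.symm hik)]
      ring
    · intro hk
      exact absurd (Finset.mem_univ k) hk
  have h1 := hc.map_sum_le (t := Finset.univ) (w := fun _ : Fin d => 1 / (d : ℝ))
    (p := fun i => h + ((d : ℝ) * z i) • (Pi.single i (1 : ℝ) : Fin d → ℝ))
    (fun _ _ => by positivity) hw (fun _ _ => mem_univ _)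
  have h2 := hc.map_sum_le (t := Finset.univ) (w := fun _ : Fin d => 1 / (d : ℝ))
    (p := fun i => h - ((d : ℝ) * z i) • (Pi.single i (1 : ℝ) : Fin d → ℝ))
    (fun _ _ => by positivity) hw (fun _ _ => mem_univ _)
  have h3 : ∑ i : Fin d, (1 / (d : ℝ)) • (h + ((d : ℝ) * z i) • (Pi.single i (1 : ℝ) : Fin d → ℝ))
      = h + z := by
    simp only [smul_add, Finset.sum_add_distrib]
    rw [hsum, ← Finset.sum_smul, hw, one_smul]
  have h4 : ∑ i : Fin d, (1 / (d : ℝ)) • (h - ((d : ℝ) * z i) • (Pi.single i (1 : ℝ) : Fin d → ℝ))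
      = h - z := by
    simp only [smul_sub, Finset.sum_sub_distrib]
    rw [hsum, ← Finset.sum_smul, hw, one_smul]
  rw [h3] at h1
  rw [h4] at h2
  have h5 : ∀ i : Fin d,
      Sd13 A h (((d : ℝ) * z i) • (Pi.single i (1 : ℝ) : Fin d → ℝ)) ≤ b := by
    intro i
    have h6 : ((d : ℝ) * z i) • (Pi.single i (1 : ℝ) : Fin d → ℝ)
        = (((d : ℝ) * z i) / r) • (r • (Pi.single i (1 : ℝ) : Fin d → ℝ)) := by
      rw [smul_smul, div_mul_cancel₀ _ hr.ne']
    rw [h6]
    refine (sd_smul_le13 hc h _ ?_).trans (hb i)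
    rw [abs_div, abs_of_pos hr, div_le_one hr, abs_mul, abs_of_pos hd']
    exact (mul_le_mul_of_nonneg_left (by simpa using norm_le_pi_norm z i) hd'.le).trans hz
  have h7 : Sd13 A h z ≤ ∑ i : Fin d, (1 / (d : ℝ)) *
      Sd13 A h (((d : ℝ) * z i) • (Pi.single i (1 : ℝ) : Fin d → ℝ)) := by
    have h8 : ∑ i : Fin d, (1 / (d : ℝ)) *
        Sd13 A h (((d : ℝ) * z i) • (Pi.single i (1 : ℝ) : Fin d → ℝ))
        = ∑ i : Fin d, (1 / (d : ℝ)) *
            A (h + ((d : ℝ) * z i) • (Pi.single i (1 : ℝ) : Fin d → ℝ))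
          + ∑ i : Fin d, (1 / (d : ℝ)) *
            A (h - ((d : ℝ) * z i) • (Pi.single i (1 : ℝ) : Fin d → ℝ)) - 2 * A h := by
      simp only [Sd13, mul_sub, mul_add, Finset.sum_sub_distrib, Finset.sum_add_distrib]
      rw [← Finset.sum_mul, hw, one_mul]
    rw [h8]
    simp only [smul_eq_mul] at h1 h2
    simp only [Sd13]
    linarith
  refine h7.trans ?_
  calc ∑ i : Fin d, (1 / (d : ℝ)) *
      Sd13 A h (((d : ℝ) * z i) • (Pi.single i (1 : ℝ) : Fin d → ℝ))
      ≤ ∑ _i : Fin d, (1 / (d : ℝ)) * b :=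
        Finset.sum_le_sum fun i _ => mul_le_mul_of_nonneg_left (h5 i) (by positivity)
    _ = b := by rw [← Finset.sum_mul, hw, one_mul]

theorem continuous_of_lip13 {d : ℕ} {A : (Fin d → ℝ) → ℝ} {t : ℝ}
    (hA : ∀ h h', |A h - A h'| ≤ t * ‖h - h'‖) : Continuous A := by
  have h1 : LipschitzWith (Real.toNNReal t) A := LipschitzWith.of_dist_le_mul fun h h' => by
    rw [Real.dist_eq, dist_eq_norm]
    refine (hA h h').trans ?_
    exact mul_le_mul_of_nonneg_right (Real.le_coe_toNNReal t) (norm_nonneg _)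
  exact h1.continuous

theorem continuous_sd13 {d : ℕ} {A : (Fin d → ℝ) → ℝ} (hA : Continuous A) (z : Fin d → ℝ) :
    Continuous fun h => Sd13 A h z := by
  unfold Sd13
  fun_prop

/-- **Leaf R4, telescoping.** -/
theorem sec13 {d : ℕ} {A : (Fin d → ℝ) → ℝ} (hc : ConvexOn ℝ univ A) {t : ℝ}
    (hA : ∀ h h', |A h - A h'| ≤ t * ‖h - h'‖) {R : ℝ} (z : Fin d → ℝ) (hz : ‖z‖ ≤ 1) :
    ∫ h in closedBall (0 : Fin d → ℝ) R, Sd13 A h z
      ≤ t * ‖z‖ ^ 2 * volume.real (closedBall (0 : Fin d → ℝ) (R + 2)) := by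
  have hAc := continuous_of_lip13 hA
  set φ : (Fin d → ℝ) → ℝ := fun h => max 0 (R + 1 - ‖h‖) with hφ
  have hφc : Continuous φ := by
    rw [hφ]
    fun_prop
  have hφ0 : ∀ h, 0 ≤ φ h := fun h => le_max_left _ _
  have hφ1 : ∀ h, ‖h‖ ≤ R → 1 ≤ φ h := fun h hh => le_max_of_le_right (by linarith)
  have hφz : ∀ h, R + 1 ≤ ‖h‖ → φ h = 0 := fun h hh => max_eq_left (by linarith)
  have hφl : ∀ h h', |φ h - φ h'| ≤ ‖h - h'‖ := by
    intro h h'
    have h1 : |φ h - φ h'| ≤ |(R + 1 - ‖h‖) - (R + 1 - ‖h'‖)| := by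
      have h2 := abs_max_sub_max_le_abs (R + 1 - ‖h‖) (R + 1 - ‖h'‖) 0
      simp only [hφ, max_comm (0 : ℝ)]
      exact h2
    refine h1.trans ?_
    have h3 : (R + 1 - ‖h‖) - (R + 1 - ‖h'‖) = -(‖h‖ - ‖h'‖) := by ring
    rw [h3, abs_neg]
    exact abs_norm_sub_norm_le h h'
  have hφs : HasCompactSupport φ := by
    refine HasCompactSupport.intro (isCompact_closedBall (0 : Fin d → ℝ) (R + 1)) fun h hh => ?_
    rw [mem_closedBall, dist_zero_right, not_le] at hh
    exact hφz h hh.le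
  have hsdc := continuous_sd13 hAc z
  have hint : Integrable fun h => φ h * Sd13 A h z :=
    (hφc.mul hsdc).integrable_of_hasCompactSupport hφs.mul_right
  -- first step
  have h1 : ∫ h in closedBall (0 : Fin d → ℝ) R, Sd13 A h z ≤ ∫ h, φ h * Sd13 A h z := by
    calc ∫ h in closedBall (0 : Fin d → ℝ) R, Sd13 A h z
        ≤ ∫ h in closedBall (0 : Fin d → ℝ) R, φ h * Sd13 A h z := by
          refine setIntegral_mono_on
            (hsdc.continuousOn.integrableOn_compact (isCompact_closedBall _ _))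
            hint.integrableOn measurableSet_closedBall fun h hh => ?_
          rw [mem_closedBall, dist_zero_right] at hh
          have h2 := hφ1 h hh
          have h3 := sd_nonneg13 hc h z
          nlinarith
      _ ≤ ∫ h, φ h * Sd13 A h z :=
          setIntegral_le_integral hint
            (Eventually.of_forall fun h => mul_nonneg (hφ0 h) (sd_nonneg13 hc h z))
  -- translation
  set g : (Fin d → ℝ) → ℝ := fun h => A (h + z) - A h with hg
  have hgc : Continuous g := by
    rw [hg]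
    fun_prop
  have hi1 : Integrable fun h => φ h * g h :=
    (hφc.mul hgc).integrable_of_hasCompactSupport hφs.mul_right
  have hi2 : Integrable fun h => φ h * g (h - z) :=
    (hφc.mul (hgc.comp (by fun_prop : Continuous fun h : Fin d → ℝ => h - z))
      ).integrable_of_hasCompactSupport hφs.mul_right
  have hi3 : Integrable fun h => φ (h + z) * g h := by
    have h4 := hi2.comp_add_right z
    simpa only [add_sub_cancel_right] using h4
  have h2 : ∫ h, φ h * Sd13 A h z = ∫ h, (φ h - φ (h + z)) * g h := by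
    have h3 : (fun h => φ h * Sd13 A h z) = fun h => φ h * g h - φ h * g (h - z) := by
      funext h
      simp only [Sd13, hg, sub_add_cancel]
      ring
    rw [h3, integral_sub hi1 hi2]
    have h4 : ∫ h, φ h * g (h - z) = ∫ h, φ (h + z) * g h := by
      rw [← integral_add_right_eq_self (fun h => φ h * g (h - z)) z]
      simp only [add_sub_cancel_right]
    rw [h4, ← integral_sub hi1 hi3]
    congr 1
    funext h
    ring
  have h3 : ∫ h, (φ h - φ (h + z)) * g h
      = ∫ h in closedBall (0 : Fin d → ℝ) (R + 2), (φ h - φ (h + z)) * g h := by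
    rw [setIntegral_eq_integral_of_forall_compl_eq_zero]
    intro h hh
    rw [mem_closedBall, dist_zero_right, not_le] at hh
    have h4 : R + 1 ≤ ‖h + z‖ := by
      have h5 : ‖h‖ ≤ ‖h + z‖ + ‖z‖ := by
        have h6 := norm_sub_le (h + z) z
        rwa [add_sub_cancel_right] at h6
      linarith
    rw [hφz h (by linarith), hφz (h + z) h4]
    ring
  have h4 : ‖∫ h in closedBall (0 : Fin d → ℝ) (R + 2), (φ h - φ (h + z)) * g h‖
      ≤ (t * ‖z‖ ^ 2) * volume.real (closedBall (0 : Fin d → ℝ) (R + 2)) := by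
    refine norm_setIntegral_le_of_norm_le_const
      ((isCompact_closedBall (0 : Fin d → ℝ) (R + 2)).measure_lt_top) fun h _ => ?_
    rw [norm_mul, Real.norm_eq_abs, Real.norm_eq_abs]
    have h5 := hφl h (h + z)
    have h6 : h - (h + z) = -z := by abel
    rw [h6, norm_neg] at h5
    have h7 := hA (h + z) h
    rw [add_sub_cancel_left] at h7
    calc |φ h - φ (h + z)| * |g h| ≤ ‖z‖ * (t * ‖z‖) :=
          mul_le_mul h5 h7 (abs_nonneg _) (norm_nonneg _)
      _ = t * ‖z‖ ^ 2 := by ring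
  rw [h2, h3] at h1
  exact h1.trans ((Real.le_norm_self _).trans h4)

end R34
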