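import Pool.Agent.W_7d29a1_R34.DefsR34
import Pool.Agent.W_7d29a1_Q29.Pt94

/-!
R3, one shell: the expected mass of a set of positions at distance at least `r` from the
subgradient `v`, from `BoxR` and `TailR`.
-/

namespace Pool.Agent.W_7d29a1_R34

open MeasureTheory ProbabilityTheory Filter Topology Pool.Agent.W_MP_7d29a1_pr
  Pool.Agent.W_7d29a1_h46 Pool.Agent.W_7d29a1_h46u Pool.Agent.W_7d29a1_D2.B35
  Pool.Agent.W_7d29a1_Q29

/-- A convex function on the `l¹` ball of radius `τ` is at most its largest value at `0` and at the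
points `± τ e_i`. -/
lemma cvxG94 {d : ℕ} {G : Vec d → ℝ} (hG : ConvexOn ℝ Set.univ G) {u : Vec d} {τ B : ℝ}
    (hτ : 0 < τ) (h0 : G 0 ≤ B) (hp : ∀ i, G (τ • (ej i : Vec d)) ≤ B)
    (hm : ∀ i, G (-(τ • (ej i : Vec d))) ≤ B) (hu : ∑ k, |u k| ≤ τ) : G u ≤ B := by
  classical
  set S : Set (Vec d) := {q | G q ≤ B} with hS
  have hconv : Convex ℝ S := by
    have := hG.convex_le B
    simpa [hS] using this
  have key : ∑ o : Option (Fin d), (Option.elim o (1 - ∑ k, |u k| / τ) (fun k => |u k| / τ)) •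
      (Option.elim o (0 : Vec d) (fun k => if 0 ≤ u k then τ • ej k else -(τ • ej k))) ∈ S := by
    refine hconv.sum_mem ?_ ?_ ?_
    · rintro (_ | k) -
      · simp only [Option.elim_none]
        rw [← Finset.sum_div, sub_nonneg, div_le_one hτ]
        exact hu
      · simp only [Option.elim_some]
        positivity
    · rw [Fintype.sum_option]
      simp
    · rintro (_ | k) -
      · simpa using (show (0 : Vec d) ∈ S from h0)
      · simp only [Option.elim_some]
        split_ifs
        · exact hp k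
        · exact hm k
  have e : ∑ o : Option (Fin d), (Option.elim o (1 - ∑ k, |u k| / τ) (fun k => |u k| / τ)) •
      (Option.elim o (0 : Vec d) (fun k => if 0 ≤ u k then τ • ej k else -(τ • ej k))) = u := by
    rw [Fintype.sum_option]
    simp only [Option.elim_none, Option.elim_some, smul_zero, zero_add]
    have h1 : ∀ k : Fin d, (|u k| / τ) • (if 0 ≤ u k then τ • (ej k : Vec d) else -(τ • ej k)) =
        u k • ej k := by
      intro k
      split_ifs with hk
      · rw [smul_smul, abs_of_nonneg hk, div_mul_cancel₀ _ hτ.ne']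
      · rw [smul_neg, smul_smul, abs_of_neg (not_le.1 hk), div_mul_cancel₀ _ hτ.ne', neg_smul,
          neg_neg]
    rw [Finset.sum_congr rfl fun k _ => h1 k]
    ext j
    simp only [WithLp.ofLp_sum, WithLp.ofLp_smul, Finset.sum_apply, Pi.smul_apply, ej,
      EuclideanSpace.single_apply, smul_eq_mul]
    simp
  rw [e] at key
  exact key

lemma exists_FrL94 {d : ℕ} {s : ℝ} {D : Vec d} (hD : ∃ k, s ≤ |D k|) :
    ∃ i : Fin d, Fr s D i 1 ∨ Fr s D i (-1) := by
  classical
  obtain ⟨k0, hk0⟩ := hD
  haveI : Nonempty (Fin d) := ⟨k0⟩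
  obtain ⟨i, -, hi⟩ := Finset.exists_max_image Finset.univ (fun k : Fin d => |D k|)
    Finset.univ_nonempty
  have h1 : s ≤ |D i| := hk0.trans (hi k0 (Finset.mem_univ k0))
  refine ⟨i, ?_⟩
  rcases le_total 0 (D i) with h | h
  · left
    refine ⟨fun l => ?_, ?_⟩
    · rw [one_mul, ← abs_of_nonneg h]
      exact hi l (Finset.mem_univ l)
    · rw [one_mul, ← abs_of_nonneg h]
      exact h1
  · right
    refine ⟨fun l => ?_, ?_⟩
    · rw [neg_one_mul, ← abs_of_nonpos h]
      exact hi l (Finset.mem_univ l)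
    · rw [neg_one_mul, ← abs_of_nonpos h]
      exact h1

lemma exp_le94 {x : ℝ} (hx : 0 < x) : Real.exp (-(x / 4)) ≤ 32 / x ^ 2 := by
  have h1 := Real.quadratic_le_exp_of_nonneg (show 0 ≤ x / 4 by linarith)
  rw [Real.exp_neg]
  have h3 : x ^ 2 / 32 ≤ Real.exp (x / 4) := by nlinarith
  have h4 : (Real.exp (x / 4))⁻¹ ≤ (x ^ 2 / 32)⁻¹ := inv_anti₀ (by positivity) h3
  have h5 : (x ^ 2 / 32)⁻¹ = 32 / x ^ 2 := by field_simp
  rwa [h5] at h4

variable {ρ : Measure ℝ} [IsProbabilityMeasure ρ] {β : ℝ}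

theorem shell94 (hρ : EM ρ) (hBox : BoxR 2 ρ β) (hTail : TailR 2 ρ β) {K r1 r : ℝ} {h v : Vec 2}
    {n t : ℕ} (ht : t ≤ n) (hK : 1 ≤ K) (hr1 : 0 < r1) (hr : 0 < r) (hVn : Va ρ β h n ≤ K)
    (hVt : Va ρ β h (n - t) ≤ K)
    (hden : ∀ (j : Fin 2) (s : ℝ), (s = 1 ∨ s = -1) →
      ∃ g : Vec 2, ‖g - h - (s * r1) • ej j‖ ≤ r1 / 9 ∧ Va ρ β g t ≤ K)
    (hsd : ∀ j : Fin 2, A ρ β (h + (2 * r1) • ej j) t + A ρ β (h - (2 * r1) • ej j) t -
      2 * A ρ β h t ≤ r1 * r / 8)
    (hv : ∀ g : Vec 2, A ρ β h t + inner ℝ v (g - h) ≤ A ρ β g t) (R : Finset (Site 2))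
    (hR : R ⊆ boxF 2 t) (hfar : ∀ y ∈ R, ∃ i, r ≤ |emb y i - v i|) :
    ∫ η, ∑ y ∈ R, Qt β h n t y η ∂(law 2 ρ) ≤ 4 * (52 * K / (r1 * r / 4) ^ 2 +
      2 / (r1 * r / 4) * Real.sqrt (K * R.card * St ρ β h n t)) := by
  classical
  have hd : 0 < 2 := by norm_num
  obtain ⟨g', hg'⟩ : ∃ x, x = r1 * r / 4 := ⟨_, rfl⟩
  have hg0 : 0 < g' := by rw [hg']; positivity
  rw [← hg']
  have hSt : 0 ≤ St ρ β h n t := by
    unfold St
    exact integral_nonneg fun η => Finset.sum_nonneg fun y _ => sq_nonneg _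
  -- the second difference at `z`
  have hconv : ConvexOn ℝ Set.univ fun q : Vec 2 =>
      A ρ β (h + q) t + A ρ β (h - q) t - 2 * A ρ β h t := by
    have hc := A_convex (ρ := ρ) hd hρ β t
    refine ⟨convex_univ, fun x _ y _ a b ha hb hab => ?_⟩
    have h1 := hc.2 (Set.mem_univ (h + x)) (Set.mem_univ (h + y)) ha hb hab
    have h2 := hc.2 (Set.mem_univ (h - x)) (Set.mem_univ (h - y)) ha hb hab
    have e1 : a • (h + x) + b • (h + y) = h + (a • x + b • y) := by
      calc a • (h + x) + b • (h + y) = (a + b) • h + (a • x + b • y) := by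
            rw [smul_add, smul_add, add_smul]
            abel
        _ = h + (a • x + b • y) := by rw [hab, one_smul]
    have e2 : a • (h - x) + b • (h - y) = h - (a • x + b • y) := by
      calc a • (h - x) + b • (h - y) = (a + b) • h - (a • x + b • y) := by
            rw [smul_sub, smul_sub, add_smul]
            abel
        _ = h - (a • x + b • y) := by rw [hab, one_smul]
    rw [e1] at h1
    rw [e2] at h2
    simp only [smul_eq_mul] at h1 h2 ⊢
    have hb' : b = 1 - a := by linarith
    subst hb'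
    nlinarith
  have hpiece : ∀ (j : Fin 2) (s : ℝ), (s = 1 ∨ s = -1) →
      ∫ η, ∑ y ∈ R.filter (fun y => Fr r (emb y - v) j s), Qt β h n t y η ∂(law 2 ρ) ≤
        52 * K / g' ^ 2 + 2 / g' * Real.sqrt (K * R.card * St ρ β h n t) := by
    intro j s hs
    obtain ⟨g, hg1, hg2⟩ := hden j s hs
    set z : Vec 2 := g - h with hz
    have hgz : h + z = g := by rw [hz]; abel
    set P := R.filter (fun y => Fr r (emb y - v) j s) with hP
    have hs1 : |s| = 1 := by
      rcases hs with h | h <;> rw [h] <;> simp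
    have hsum : ∑ k, |z k| ≤ 2 * r1 := by
      have h1 : ∀ k : Fin 2, |z k| ≤ (if k = j then r1 else 0) + r1 / 9 := by
        intro k
        have h2 := (abs_coord94 (z - (s * r1) • ej j) k).trans hg1
        have h3 : (z - (s * r1) • ej j) k = z k - (if k = j then s * r1 else 0) := by
          simp [ej]
        rw [h3] at h2
        have h4 : |z k| ≤ |z k - (if k = j then s * r1 else 0)| +
            |(if k = j then s * r1 else 0 : ℝ)| := by
          have := abs_add_le (z k - (if k = j then s * r1 else 0))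
            (if k = j then s * r1 else 0 : ℝ)
          simpa using this
        have h5 : |(if k = j then s * r1 else 0 : ℝ)| = if k = j then r1 else 0 := by
          split_ifs
          · rw [abs_mul, hs1, one_mul, abs_of_pos hr1]
          · exact abs_zero
        rw [h5] at h4
        linarith
      have h6 := Finset.sum_le_sum fun k (_ : k ∈ Finset.univ) => h1 k
      rw [Finset.sum_add_distrib, Finset.sum_ite_eq' Finset.univ j, if_pos (Finset.mem_univ j),
        Finset.sum_const, Finset.card_univ, Fintype.card_fin, nsmul_eq_mul] at h6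
      refine h6.trans ?_
      push_cast
      linarith
    have hB0 : (0 : ℝ) ≤ g' / 2 := by positivity
    have hgr : g' / 2 = r1 * r / 8 := by rw [hg']; ring
    have hsdz : A ρ β (h + z) t + A ρ β (h - z) t - 2 * A ρ β h t ≤ g' / 2 := by
      refine cvxG94 hconv (τ := 2 * r1) (by linarith) ?_ (fun i => ?_) (fun i => ?_) hsum
      · simp only [add_zero, sub_zero]
        linarith
      · rw [hgr]
        exact hsd i
      · rw [hgr]
        have := hsd i
        have e3 : h + -((2 * r1) • ej i) = h - (2 * r1) • ej i := by abel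
        have e4 : h - -((2 * r1) • ej i) = h + (2 * r1) • ej i := by abel
        rw [e3, e4]
        linarith
    have htail := hTail K g' h z v t hg0 (by rw [hgz]; exact hg2) hv hsdz
    have hsub : P ⊆ (boxF 2 t).filter (fun y => 2 * g' ≤ inner ℝ z (emb y - v)) := by
      intro y hy
      obtain ⟨hyR, hyF⟩ := Finset.mem_filter.1 hy
      refine Finset.mem_filter.2 ⟨hR hyR, ?_⟩
      have h1 := dir94 (κ := 1 / 9) (r := r1) (s := r) (by norm_num) (by norm_num) hr1 j
        (by rw [one_div, inv_mul_eq_div]; exact hg1) hyF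
      rw [hg']
      linarith
    have hq : (law 2 ρ).real {η | Real.exp (A ρ β h t - g') < ∑ y ∈ P, PP β h η t y} ≤
        4 * K / g' ^ 2 := by
      refine le_trans (measureReal_mono ?_ (measure_ne_top _ _)) htail
      intro η hη
      exact lt_of_lt_of_le hη (Finset.sum_le_sum_of_subset_of_nonneg hsub fun y _ _ =>
        PP_nonneg β h η t y)
    have hbox := hBox K g' (4 * K / g' ^ 2) h n t P ((Finset.filter_subset _ _).trans hR) ht hg0
      hVn hVt hq
    refine hbox.trans ?_
    have h1 : Real.exp (-(g' / 4)) ≤ 32 * K / g' ^ 2 := by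
      refine (exp_le94 hg0).trans ?_
      refine div_le_div_of_nonneg_right (by linarith) (by positivity)
    have h2 : Real.sqrt (K * P.card * St ρ β h n t) ≤
        Real.sqrt (K * R.card * St ρ β h n t) := by
      apply Real.sqrt_le_sqrt
      have h3 : (P.card : ℝ) ≤ R.card := by
        exact_mod_cast Finset.card_le_card (Finset.filter_subset _ _)
      have h4 : K * P.card ≤ K * R.card := mul_le_mul_of_nonneg_left h3 (by linarith)
      exact mul_le_mul_of_nonneg_right h4 hSt
    have h5 := mul_le_mul_of_nonneg_left h2 (show 0 ≤ 2 / g' by positivity)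
    have h6 : 4 * K / g' ^ 2 + 16 * K / g' ^ 2 + 32 * K / g' ^ 2 = 52 * K / g' ^ 2 := by ring
    linarith
  have iQ : ∀ y, Integrable (fun η => Qt β h n t y η) (law 2 ρ) := fun y =>
    Integrable.mono' (integrable_const (1 : ℝ)) (measurable_Qt94 β h n t y).aestronglyMeasurable
      (Eventually.of_forall fun η => by
        rw [Real.norm_eq_abs, abs_of_nonneg (Qt_nonneg94 β h n t y η)]
        exact Qt_le_one94 hd β h ht y η)
  have hpt : ∀ η : Env 2, ∑ y ∈ R, Qt β h n t y η ≤ ∑ j : Fin 2,
      (∑ y ∈ R.filter (fun y => Fr r (emb y - v) j 1), Qt β h n t y η +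
        ∑ y ∈ R.filter (fun y => Fr r (emb y - v) j (-1)), Qt β h n t y η) := by
    intro η
    simp only [Finset.sum_filter]
    simp only [← Finset.sum_add_distrib]
    rw [Finset.sum_comm]
    refine Finset.sum_le_sum fun y hy => ?_
    obtain ⟨i, hi⟩ := exists_FrL94 (s := r) (D := emb y - v) (hfar y hy)
    have hQ := Qt_nonneg94 β h n t y η
    have h0 : ∀ (j : Fin 2) (s : ℝ), 0 ≤ (if Fr r (emb y - v) j s then Qt β h n t y η else 0) := by
      intro j s
      split_ifs
      · exact hQ
      · exact le_rfl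
    refine le_trans ?_ (Finset.single_le_sum (f := fun j : Fin 2 =>
      (if Fr r (emb y - v) j 1 then Qt β h n t y η else 0) +
        (if Fr r (emb y - v) j (-1) then Qt β h n t y η else 0))
      (fun j _ => add_nonneg (h0 j 1) (h0 j (-1))) (Finset.mem_univ i))
    rcases hi with hi | hi
    · simp only [if_pos hi]
      have := h0 i (-1)
      linarith
    · simp only [if_pos hi]
      have := h0 i 1
      linarith
  have hint : ∫ η, ∑ y ∈ R, Qt β h n t y η ∂(law 2 ρ) ≤ ∫ η, ∑ j : Fin 2,
      (∑ y ∈ R.filter (fun y => Fr r (emb y - v) j 1), Qt β h n t y η +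
        ∑ y ∈ R.filter (fun y => Fr r (emb y - v) j (-1)), Qt β h n t y η) ∂(law 2 ρ) :=
    integral_mono (integrable_finsetSum R fun y _ => iQ y)
      (integrable_finsetSum Finset.univ fun j _ =>
        (integrable_finsetSum _ fun y _ => iQ y).add (integrable_finsetSum _ fun y _ => iQ y)) hpt
  refine hint.trans ?_
  have hI : ∀ (j : Fin 2) (s : ℝ), Integrable (fun η =>
      ∑ y ∈ R.filter (fun y => Fr r (emb y - v) j s), Qt β h n t y η) (law 2 ρ) := fun j s =>
    integrable_finsetSum _ fun y _ => iQ y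
  have hIj : ∀ j : Fin 2, Integrable (fun η =>
      ∑ y ∈ R.filter (fun y => Fr r (emb y - v) j 1), Qt β h n t y η +
        ∑ y ∈ R.filter (fun y => Fr r (emb y - v) j (-1)), Qt β h n t y η) (law 2 ρ) :=
    fun j => (hI j 1).add (hI j (-1))
  rw [integral_finsetSum Finset.univ fun j _ => hIj j]
  have hj : ∀ j : Fin 2, ∫ η, (∑ y ∈ R.filter (fun y => Fr r (emb y - v) j 1), Qt β h n t y η +
        ∑ y ∈ R.filter (fun y => Fr r (emb y - v) j (-1)), Qt β h n t y η) ∂(law 2 ρ) ≤
      2 * (52 * K / g' ^ 2 + 2 / g' * Real.sqrt (K * R.card * St ρ β h n t)) := by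
    intro j
    rw [integral_add (hI j 1) (hI j (-1))]
    have h1 := hpiece j 1 (Or.inl rfl)
    have h2 := hpiece j (-1) (Or.inr rfl)
    linarith
  refine (Finset.sum_le_sum fun j _ => hj j).trans (le_of_eq ?_)
  rw [Finset.sum_const, Finset.card_univ, Fintype.card_fin, nsmul_eq_mul]
  push_cast
  ring

end Pool.Agent.W_7d29a1_R34
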