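import Pool.Agent.W_7d29a1_R34.LowG93
import Pool.Agent.W_7d29a1_R34.UniH93
import Pool.Agent.W_7d29a1_R34.Abel81
import Pool.Agent.W_7d29a1_Q29.AvgR56
import Pool.Agent.W_7d29a1_Q29.Den65

/-!
Very strong disorder in two transversal dimensions (helper93): over every set of tilts of positive
measure the supremum of the variances up to `n` is at least `c log n`.
-/

namespace Pool.Agent.W_7d29a1_R34

open MeasureTheory ProbabilityTheory Filter Topology Pool.Agent.W_MP_7d29a1_pr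
  Pool.Agent.W_7d29a1_h46 Pool.Agent.W_7d29a1_h46u Pool.Agent.W_7d29a1_D2.B35
  Pool.Agent.W_7d29a1_Q29
open scoped ENNReal

/-- The uniform lower bound over a set of positive measure of tilts of very strong disorder. -/
def UniG (ρ : Measure ℝ) (β : ℝ) : Prop := ∀ g : ℝ, 0 < g → ∀ B : Set (Vec 2),
  Bornology.IsBounded B → MeasurableSet B → volume B ≠ 0 →
  (∀ h ∈ B, lam ρ β h + g ≤ Real.log (Phi h) + Real.log (∫ t, Real.exp (β * t) ∂ρ)) →
  ∃ c : ℝ, 0 < c ∧ ∃ n₀ : ℕ, ∀ n : ℕ, n₀ ≤ n → ∀ K : ℝ,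
    (∀ h ∈ B, ∀ m : ℕ, m ≤ n → Va ρ β h m ≤ K) → c * Real.log n ≤ K

theorem uniG93 {ρ : Measure ℝ} [IsProbabilityMeasure ρ] (hρ : EM ρ) {β : ℝ} (hL : LeakR ρ β)
    (hB : NPB 2 ρ β) (hF : NPF 2 ρ β) (hLoc : LocE 2 ρ β) (hLow : LowP 2 ρ β) : UniG ρ β := by
  classical
  intro g hg B hBb hBm hB0 hgap
  obtain ⟨c₀, hc₀, hloc⟩ := hLoc g hg
  obtain ⟨ca, hca, na, habel⟩ := abel81 hc₀
  obtain ⟨R, hR⟩ := hBb.subset_closedBall (0 : Vec 2)
  obtain ⟨r₀, hr₀, T, hTB, hT0, hdens⟩ := D65.density_leaf (volume : Measure (Vec 2)) B hBm hB0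
    (ε := 1 / 9) (by norm_num)
  obtain ⟨Cb, hCb, hbadA⟩ := badA56 (d := 2) (by norm_num) hρ β R
  obtain ⟨CB, hCB, hNPB⟩ := hB
  obtain ⟨CF, hCF, hNPF⟩ := hF
  obtain ⟨n1, hbad81⟩ := bad81 (C := CF) (η := 1) hCF one_pos
  obtain ⟨δ, hδ⟩ : ∃ δ, δ = min r₀ 1 := ⟨_, rfl⟩
  have hδ0 : 0 < δ := by
    rw [hδ]
    exact lt_min hr₀ one_pos
  have hδ1 : δ ≤ 1 := by
    rw [hδ]
    exact min_le_right _ _
  have hδr : δ ≤ r₀ := by
    rw [hδ]
    exact min_le_left _ _
  -- the curvature constant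
  have hpos : 0 < ENNReal.ofReal (ca / 8) * volume T :=
    ENNReal.mul_pos (ENNReal.ofReal_pos.2 (by positivity)).ne' hT0
  obtain ⟨q, hq0, hq1⟩ := ENNReal.lt_iff_exists_nnreal_btwn.1 hpos
  have hq0' : (0 : ℝ) < q := by exact_mod_cast hq0
  obtain ⟨M, hM⟩ : ∃ M : ℝ, M = max 1 (Cb * 8 / q) := ⟨_, rfl⟩
  have hM1 : 1 ≤ M := by
    rw [hM]
    exact le_max_left _ _
  have hM0 : 0 < M := by linarith
  have hMq : Cb * 8 / M ≤ q := by
    rw [div_le_iff₀ hM0]
    have h1 : Cb * 8 / q ≤ M := by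
      rw [hM]
      exact le_max_right _ _
    rw [div_le_iff₀ hq0'] at h1
    linarith
  have hηT : ENNReal.ofReal (Cb * 8 / M) < ENNReal.ofReal (ca / 8) * volume T := by
    refine lt_of_le_of_lt ?_ hq1
    rw [← ENNReal.ofReal_coe_nnreal]
    exact ENNReal.ofReal_le_ofReal hMq
  obtain ⟨κ, hκ⟩ : ∃ κ, κ = min c₀ 1 := ⟨_, rfl⟩
  have hκ0 : 0 < κ := by
    rw [hκ]
    exact lt_min hc₀ one_pos
  have hκ1 : κ ≤ 1 := by
    rw [hκ]
    exact min_le_right _ _
  have hκc : κ ≤ c₀ := by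
    rw [hκ]
    exact min_le_left _ _
  -- the final constant
  obtain ⟨D, hD⟩ : ∃ D : ℝ, D = κ * ca / (128 * (CB + 1) * 10 ^ 9 * M ^ 2) := ⟨_, rfl⟩
  have hD0 : 0 < D := by
    rw [hD]
    positivity
  obtain ⟨c, hc⟩ : ∃ c, c = min 1 (Real.sqrt D) := ⟨_, rfl⟩
  have hc0 : 0 < c := by
    rw [hc]
    exact lt_min one_pos (Real.sqrt_pos.2 hD0)
  have hc1 : c ≤ 1 := by
    rw [hc]
    exact min_le_left _ _
  have hcD : c ^ 2 ≤ D := by
    have h1 : c ≤ Real.sqrt D := by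
      rw [hc]
      exact min_le_right _ _
    calc c ^ 2 ≤ Real.sqrt D ^ 2 := pow_le_pow_left₀ hc0.le h1 2
      _ = D := Real.sq_sqrt hD0.le
  obtain ⟨n2, hn2⟩ := eventually_atTop.1 (ev93 hκ0 hc₀ hca hδ0 hM0)
  -- the case `K ≥ 1`
  have main : ∀ n : ℕ, max (max na n1) n2 ≤ n → ∀ K : ℝ, 1 ≤ K →
      (∀ h ∈ B, ∀ m : ℕ, m ≤ n → Va ρ β h m ≤ K) → c * Real.log n ≤ K := by
    intro n hn K hK1 hK
    obtain ⟨e1, e2, e3, e4, e5, e6, e7⟩ := hn2 n ((le_max_right _ _).trans hn)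
    have hna : na ≤ n := (le_max_left _ _).trans ((le_max_left _ _).trans hn)
    have hnb : n1 ≤ n := (le_max_right _ _).trans ((le_max_left _ _).trans hn)
    obtain ⟨G, hG⟩ : ∃ G, G = κ / 64 * Real.log n := ⟨_, rfl⟩
    rw [← hG] at e3 e4 e7
    have hG0 : 0 < G := by linarith
    rcases lt_or_ge (G ^ 2 / (2 * 10 ^ 6 * M ^ 2)) K with hKG | hKG
    · have : c * Real.log n ≤ 1 * Real.log n := mul_le_mul_of_nonneg_right hc1 (by linarith)
      linarith
    have hsq1 : 1 ≤ Nat.sqrt n := Nat.le_sqrt.2 (by omega)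
    have hW0 : 0 < Real.sqrt G := Real.sqrt_pos.2 hG0
    -- the bad sets
    obtain ⟨sc, hsc⟩ : ∃ sc : ℕ → ℕ → ℝ, sc = fun t j => 2 * rw' M (Real.sqrt G) t j := ⟨_, rfl⟩
    obtain ⟨bad, hbad⟩ : ∃ bad : ℕ → Set (Vec 2), bad = fun t => if 1 ≤ t then
      BadS R (fun h : Vec 2 => A ρ β h t) (sc t) (fun j => M * (2 ^ j / 4) * (t * sc t j ^ 2))
      else ∅ := ⟨_, rfl⟩
    have hsum4 : HasSum (fun j : ℕ => ((2 : ℝ) ^ j / 4)⁻¹) 8 := by
      have h1 := hasSum_geometric_two.mul_left 4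
      have h2 : (fun j : ℕ => ((2 : ℝ) ^ j / 4)⁻¹) = fun j : ℕ => 4 * (1 / 2 : ℝ) ^ j := by
        funext j
        rw [one_div, inv_pow, inv_div, div_eq_mul_inv]
      rw [h2]
      have h3 : (4 : ℝ) * 2 = 8 := by norm_num
      rwa [h3] at h1
    have hbadP : ∀ t, MeasurableSet (bad t) ∧ volume (bad t) ≤ ENNReal.ofReal (Cb * 8 / M) := by
      intro t
      rw [hbad]
      by_cases ht : 1 ≤ t
      · simp only [ht, if_true]
        have htR : (0 : ℝ) < t := by exact_mod_cast ht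
        have h1 := hbadA t ht (sc t) (fun j => 2 ^ j / 4) M (fun j => by
          rw [hsc]
          unfold rw'
          have := Real.sqrt_pos.2 htR
          positivity) (fun j => by positivity) hM0 hsum4.summable
        rw [hsum4.tsum_eq] at h1
        exact h1
      · simp [ht]
    obtain ⟨I, hI⟩ : ∃ I, I = Finset.Icc (Nat.sqrt n) n := ⟨_, rfl⟩
    obtain ⟨h, hhT, hwt⟩ := wtsG81 (volume : Measure (Vec 2)) T bad (fun t => (hbadP t).1)
      (ENNReal.ofReal (Cb * 8 / M)) (fun t => (hbadP t).2) (by positivity : (0 : ℝ) < ca / 8) hηT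
      I (fun t => 1 / (t : ℝ)) (fun t _ => by positivity)
    have hhB : h ∈ B := hTB hhT
    have hharm : ∑ t ∈ I, (1 / (t : ℝ)) ≤ 2 * Real.log n := by
      rw [hI]
      exact harm93 (by omega) e2
    have hw1 : ∑ t ∈ I.filter (fun t => h ∈ bad t), (1 / (t : ℝ)) ≤ ca / 4 * Real.log n := by
      refine hwt.trans ?_
      have := mul_le_mul_of_nonneg_left hharm (by positivity : (0 : ℝ) ≤ ca / 8)
      linarith
    -- localised times
    obtain ⟨P, hP⟩ : ∃ P : ℕ → Prop, P = fun t => c₀ ≤ (law 2 ρ).real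
      {η | ∃ y ∈ boxF 2 t, c₀ * Z β h η t ≤ PP β h η t y} := ⟨_, rfl⟩
    have hw2 : ca * Real.log n ≤ ∑ t ∈ I.filter P, (1 / (t : ℝ)) := by
      rw [hI]
      refine habel n hna P fun m => ?_
      rw [hP]
      exact hloc h (hgap h hhB) m
    -- times with a small forward sum
    obtain ⟨s1, hs1⟩ : ∃ s1 : ℕ → ℝ, s1 = fun t => ∫ η, ∑ y ∈ boxF 2 n,
      (cE ρ (Pa 2 t) (Qt β h n t y) η) ^ 2 ∂(law 2 ρ) := ⟨_, rfl⟩
    have hs10 : ∀ t, 0 ≤ s1 t := fun t => by
      rw [hs1]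
      exact integral_nonneg fun η => Finset.sum_nonneg fun y _ => sq_nonneg _
    have hKlog : K ≤ Real.log n ^ 2 := by
      refine hKG.trans ?_
      rw [div_le_iff₀ (by positivity), hG]
      have h1 : (κ / 64 * Real.log n) ^ 2 ≤ Real.log n ^ 2 := by
        refine pow_le_pow_left₀ (by positivity) ?_ 2
        have h3 : κ / 64 * Real.log n ≤ 1 * Real.log n :=
          mul_le_mul_of_nonneg_right (by linarith) (by linarith)
        linarith
      have h2 : Real.log n ^ 2 * 1 ≤ Real.log n ^ 2 * (2 * 10 ^ 6 * M ^ 2) := by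
        refine mul_le_mul_of_nonneg_left ?_ (sq_nonneg _)
        have h3 : 1 ≤ M ^ 2 := one_le_pow₀ hM1
        linarith
      linarith
    have hw3 : ∑ t ∈ I.filter (fun t => (n : ℝ) ^ (-(1 / 4 : ℝ)) < s1 t ∧ t < n),
        (1 / (t : ℝ)) ≤ 1 := by
      rw [hI]
      refine hbad81 n hnb s1 K hs10 hKlog ?_
      rw [hs1]
      exact (hNPF h n).trans (mul_le_mul_of_nonneg_left (hK h hhB n le_rfl) hCF)
    have hw4 : ∑ t ∈ I.filter (fun t => ¬ t < n), (1 / (t : ℝ)) ≤ 1 := by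
      have h1 : I.filter (fun t => ¬ t < n) ⊆ {n} := by
        intro t ht
        rw [Finset.mem_filter, hI, Finset.mem_Icc] at ht
        rw [Finset.mem_singleton]
        omega
      refine (Finset.sum_le_sum_of_subset_of_nonneg h1 fun t _ _ => by positivity).trans ?_
      rw [Finset.sum_singleton, div_le_one (by positivity)]
      exact_mod_cast (by omega : 1 ≤ n)
    obtain ⟨J, hJ⟩ : ∃ J, J = I.filter (fun t => P t ∧ ¬ (h ∈ bad t) ∧
      ¬ ((n : ℝ) ^ (-(1 / 4 : ℝ)) < s1 t ∧ t < n) ∧ t < n) := ⟨_, rfl⟩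
    have hwJ : ca / 2 * Real.log n ≤ ∑ t ∈ J, (1 / (t : ℝ)) := by
      have h1 := split93 (n := n) P (fun t => h ∈ bad t)
        (fun t => (n : ℝ) ^ (-(1 / 4 : ℝ)) < s1 t ∧ t < n) I
      rw [← hJ] at h1
      linarith
    -- one time
    have hone : ∀ t ∈ J, G / (10 ^ 9 * M ^ 2 * K) * (1 / (t : ℝ)) ≤ St ρ β h n t := by
      intro t ht
      rw [hJ, Finset.mem_filter, hI, Finset.mem_Icc] at ht
      obtain ⟨⟨ht1, ht2⟩, hPt, hbt, hst, htn⟩ := ht
      have ht0 : 1 ≤ t := hsq1.trans ht1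
      have htR : (0 : ℝ) < t := by exact_mod_cast ht0
      have hW : Real.sqrt G ≤ δ ^ 4 * Real.sqrt t := by
        have h1 : G ≤ δ ^ 8 * t := e4.trans (mul_le_mul_of_nonneg_left
          (by exact_mod_cast ht1) (by positivity))
        have h2 : δ ^ 8 * (t : ℝ) = (δ ^ 4 * Real.sqrt t) ^ 2 := by
          rw [mul_pow, Real.sq_sqrt htR.le]
          ring
        rw [h2] at h1
        exact (Real.sqrt_le_sqrt h1).trans (le_of_eq (Real.sqrt_sq (by positivity)))
      have hdens' : ∀ r : ℝ, 0 < r → r ≤ δ → ∀ (j : Fin 2) (s : ℝ), (s = 1 ∨ s = -1) →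
          ∃ g : Vec 2, ‖g - h - (s * r) • ej j‖ ≤ r / 9 ∧ Va ρ β g t ≤ K := by
        intro r hr hrδ j s hs
        have hnorm : ‖(s * r) • (ej j : Vec 2)‖ = r := by
          rw [norm_smul, norm_ej94, mul_one, Real.norm_eq_abs]
          rcases hs with rfl | rfl
          · rw [one_mul, abs_of_pos hr]
          · rw [neg_one_mul, abs_neg, abs_of_pos hr]
        have hne : (s * r) • (ej j : Vec 2) ≠ 0 := by
          rw [← norm_pos_iff, hnorm]
          exact hr
        obtain ⟨y, hy, hy2⟩ := hdens h hhT _ hne (by rw [hnorm]; exact hrδ.trans hδr)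
        rw [hnorm] at hy2
        exact ⟨y, by linarith, hK y hy t ht2⟩
      have hsd : ∀ k : ℕ, rw' M (Real.sqrt G) t k ≤ δ → ∀ j : Fin 2,
          A ρ β (h + (2 * rw' M (Real.sqrt G) t k) • ej j) t +
            A ρ β (h - (2 * rw' M (Real.sqrt G) t k) • ej j) t - 2 * A ρ β h t ≤
            M * 2 ^ k * t * rw' M (Real.sqrt G) t k ^ 2 := by
        intro k _ j
        by_contra hcon
        push Not at hcon
        apply hbt
        rw [hbad]
        simp only [ht0, if_true]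
        refine ⟨hR hhB, k, j, ?_⟩
        rw [hsc]
        simp only
        refine lt_of_le_of_lt (le_of_eq ?_) hcon
        ring
      have hgp : 4 * G ≤ A ρ β h n - A ρ β h t - A ρ β h (n - t) := by
        have hs1t : s1 t ≤ (n : ℝ) ^ (-(1 / 4 : ℝ)) := by
          by_contra hcon
          push Not at hcon
          exact hst ⟨hcon, htn⟩
        have hPt' : c₀ ≤ (law 2 ρ).real
            {η | ∃ y ∈ boxF 2 t, c₀ * Z β h η t ≤ PP β h η t y} := by
          rw [hP] at hPt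
          exact hPt
        rw [hs1] at hs1t
        have hnR : (0 : ℝ) < n := by exact_mod_cast (by omega : 0 < n)
        have h1 := hLow c₀ ((n : ℝ) ^ (-(1 / 4 : ℝ))) hc₀ (Real.rpow_pos_of_pos hnR _) h n t ht2
          hPt' hs1t
        have h2 : c₀ / 2 * (1 / 8 * Real.log n) ≤
            c₀ / 2 * Real.log (c₀ ^ 3 / (n : ℝ) ^ (-(1 / 4 : ℝ))) :=
          mul_le_mul_of_nonneg_left e5 (by positivity)
        have h3 : κ * Real.log n ≤ c₀ * Real.log n :=
          mul_le_mul_of_nonneg_right hκc (by linarith)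
        rw [hG]
        linarith
      have h1 := lowG93 hρ hL hM1 hK1 hδ0 hδ1 ht0 ht2 e3 hW hKG (hK h hhB n le_rfl)
        (hK h hhB (n - t) (by omega)) (hK h hhB t ht2) hdens' hsd hgp
      have hK0 : 0 < K := by linarith
      rw [div_mul_div_comm, mul_one, div_le_iff₀ (by positivity)]
      rw [div_le_iff₀ (by positivity)] at h1
      calc G ≤ K * t * St ρ β h n t * (10 ^ 9 * M ^ 2) := h1
        _ = St ρ β h n t * (10 ^ 9 * M ^ 2 * K * t) := by ring
    -- Newman-Piza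
    have hNP : ∑ t ∈ Finset.Icc 1 n, St ρ β h n t ≤ CB * K :=
      (hNPB h n).trans (mul_le_mul_of_nonneg_left (hK h hhB n le_rfl) hCB)
    have hJsub : J ⊆ Finset.Icc 1 n := by
      intro t ht
      rw [hJ, Finset.mem_filter, hI, Finset.mem_Icc] at ht
      rw [Finset.mem_Icc]
      omega
    have hsumJ : G / (10 ^ 9 * M ^ 2 * K) * ∑ t ∈ J, (1 / (t : ℝ)) ≤ CB * K := by
      rw [Finset.mul_sum]
      refine (Finset.sum_le_sum hone).trans ?_
      refine (Finset.sum_le_sum_of_subset_of_nonneg hJsub fun t _ _ => ?_).trans hNP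
      unfold St
      exact integral_nonneg fun η => Finset.sum_nonneg fun y _ => sq_nonneg _
    have hK0 : 0 < K := by linarith
    have h1 : G / (10 ^ 9 * M ^ 2 * K) * (ca / 2 * Real.log n) ≤ CB * K :=
      (mul_le_mul_of_nonneg_left hwJ (by positivity)).trans hsumJ
    have h2 : D * Real.log n ^ 2 ≤ K ^ 2 := by
      rw [div_mul_eq_mul_div, div_le_iff₀ (by positivity), hG] at h1
      rw [hD, div_mul_eq_mul_div, div_le_iff₀ (by positivity)]
      have h3 : 0 ≤ 128 * (10 ^ 9 * M ^ 2 * K ^ 2) := by positivity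
      have h4 : κ * ca * Real.log n ^ 2 =
          128 * (κ / 64 * Real.log n * (ca / 2 * Real.log n)) := by ring
      have h5 : K ^ 2 * (128 * (CB + 1) * 10 ^ 9 * M ^ 2) =
          128 * (CB * K * (10 ^ 9 * M ^ 2 * K)) + 128 * (10 ^ 9 * M ^ 2 * K ^ 2) := by ring
      rw [h4, h5]
      linarith
    have h3 : (c * Real.log n) ^ 2 ≤ K ^ 2 := by
      rw [mul_pow]
      exact (mul_le_mul_of_nonneg_right hcD (sq_nonneg _)).trans h2
    exact le_of_sq_le_sq h3 hK0.le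
  -- all `K`
  have hl : Tendsto (fun n : ℕ => Real.log n) atTop atTop :=
    Real.tendsto_log_atTop.comp tendsto_natCast_atTop_atTop
  obtain ⟨n3, hn3⟩ := eventually_atTop.1 (hl.eventually_gt_atTop (1 / c))
  refine ⟨c, hc0, max (max (max na n1) n2) n3, fun n hn K hK => ?_⟩
  have h1 := main n ((le_max_left _ _).trans hn) (max K 1) (le_max_right _ _)
    fun h hh m hm => (hK h hh m hm).trans (le_max_left _ _)
  have h2 := hn3 n ((le_max_right _ _).trans hn)
  rw [div_lt_iff₀ hc0] at h2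
  rcases le_max_iff.1 h1 with h3 | h3
  · exact h3
  · linarith

end Pool.Agent.W_7d29a1_R34
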