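import Pool.Agent.W_7d29a1_R34.LowG93
import Pool.Agent.W_7d29a1_R34.UniH93
import Pool.Agent.W_7d29a1_R34.GapS93
import Pool.Agent.W_7d29a1_R34.NumS93
import Pool.Agent.W_7d29a1_R34.Abel81
import Pool.Agent.W_7d29a1_Q29.AvgR56

/-!
Very strong disorder in two transversal dimensions (helper93): over every set of tilts of positive
measure the supremum of the variances up to `n` is larger than every multiple of `log n`.
-/

namespace Pool.Agent.W_7d29a1_R34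

open MeasureTheory ProbabilityTheory Filter Topology Pool.Agent.W_MP_7d29a1_pr
  Pool.Agent.W_7d29a1_h46 Pool.Agent.W_7d29a1_h46u Pool.Agent.W_7d29a1_D2.B35
  Pool.Agent.W_7d29a1_Q29 Pool.Agent.W_7d29a1_P89
open scoped ENNReal

/-- The uniform superlogarithmic lower bound over a set of positive measure of tilts of very strong
disorder. -/
def UniS (ρ : Measure ℝ) (β : ℝ) : Prop := ∀ g : ℝ, 0 < g → ∀ B : Set (Vec 2),
  Bornology.IsBounded B → MeasurableSet B → volume B ≠ 0 →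
  (∀ h ∈ B, lam ρ β h + g ≤ Real.log (Phi h) + Real.log (∫ t, Real.exp (β * t) ∂ρ)) →
  ∀ L : ℝ, ∃ n₀ : ℕ, ∀ n : ℕ, n₀ ≤ n → ∀ K : ℝ,
    (∀ h ∈ B, ∀ m : ℕ, m ≤ n → Va ρ β h m ≤ K) → L * Real.log n ≤ K

/-- The constants of a set of tilts. -/
structure Cst93 (ρ : Measure ℝ) (β : ℝ) (B : Set (Vec 2)) (R c₀ ca M CB : ℝ) (q : ℝ≥0∞) :
    Prop where
  hR : B ⊆ Metric.closedBall 0 R
  hc₀ : 0 < c₀
  hca : 0 < ca
  hM : 1 ≤ M
  hCB : 0 ≤ CB
  hq : q < ENNReal.ofReal (ca / 8) * (volume B / 2)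
  hloc : ∀ h ∈ B, ∀ n : ℕ, c₀ * n ≤ (((Finset.range n).filter fun t =>
    c₀ ≤ (law 2 ρ).real {η | ∃ y ∈ boxF 2 t, c₀ * Z β h η t ≤ PP β h η t y}).card : ℝ)
  hbad : ∀ t, 1 ≤ t → ∀ s : ℕ → ℝ, (∀ j, 0 < s j) →
    MeasurableSet (BadS R (fun h : Vec 2 => A ρ β h t) s fun j => M * (2 ^ j / 4) * (t * s j ^ 2)) ∧
    volume (BadS R (fun h : Vec 2 => A ρ β h t) s fun j => M * (2 ^ j / 4) * (t * s j ^ 2)) ≤ q
  hNP : ∀ (h : Vec 2) (n : ℕ), ∑ t ∈ Finset.Icc 1 n, St ρ β h n t ≤ CB * Va ρ β h n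

variable {ρ : Measure ℝ} [IsProbabilityMeasure ρ]

open Classical in
/-- One scale. -/
theorem scaleS93 (hρ : EM ρ) {β : ℝ} (hL : LeakR ρ β) {B : Set (Vec 2)}
    {R c₀ ca M CB : ℝ} {q : ℝ≥0∞} (H : Cst93 ρ β B R c₀ ca M CB q)
    {La b θ η L1 δ : ℝ} {i N : ℕ} (hb : 0 < b) (hθ : 0 < θ) (hθb : 16 * b * θ ≤ 1)
    (hη : 0 < η) (hη2 : 48 * η ≤ ca / 8)
    (hbb : 1 + 8 * La / c₀ ≤ 3 / 4 * b)
    (hfin : (2 * L1) ^ 2 * (2 * 10 ^ 9 * M ^ 2 * (CB + 1)) ≤ La * ca)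
    (hδ : 0 < δ) (hδ1 : δ ≤ 1) (hδi : δ ≤ 1 / ((i : ℝ) + 1))
    (hT : volume B / 2 < volume (Gs ρ β θ η B i))
    (hab : ∀ P : ℕ → Prop, (∀ m : ℕ, c₀ * m ≤ (((Finset.range m).filter P).card : ℝ)) →
      ca * Real.log N ≤ ∑ t ∈ (Finset.Icc (Nat.sqrt N) N).filter P, (1 / (t : ℝ)))
    (e1 : 4 ≤ N) (e2 : 1 ≤ Real.log N) (e3 : 1 - Real.log c₀ ≤ Real.log N)
    (e4 : (i : ℝ) ≤ η * (b * Real.log N)) (e5 : (i : ℝ) ≤ b * Real.log N)
    (e6 : 3 ≤ La * Real.log N) (e7 : La * Real.log N ≤ δ ^ 8 * (Nat.sqrt N : ℝ))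
    (e8 : 2 * b * Real.log N * i ≤ N)
    (e9 : 2 * b * Real.log N * i ≤ ca / 16 * Real.log N * (Nat.sqrt N : ℝ))
    (e10 : 2 * b * Real.log N * i * (La * Real.log N) ^ 2 ≤
      ca / 16 * Real.log N * (Nat.sqrt N : ℝ) * ((N : ℝ) ^ (-(1 / 8 : ℝ)) * (c₀ / 2)))
    (e11 : 2 * L1 * Real.log N ≤ (La * Real.log N) ^ 2 / (2 * 10 ^ 6 * M ^ 2))
    {K : ℝ} (hK1 : 1 ≤ K) (hK : ∀ h ∈ B, ∀ m : ℕ, m ≤ 2 * N → Va ρ β h m ≤ K) :
    2 * L1 * Real.log N ≤ K := by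
  obtain ⟨hR, hc₀, hca, hM1, hCB, hq, hloc, hbadA, hNPB⟩ := H
  have hM0 : 0 < M := by linarith
  have hK0 : 0 < K := by linarith
  have hCB1 : 0 < CB + 1 := by linarith
  obtain ⟨l, hl⟩ : ∃ l : ℝ, l = Real.log N := ⟨_, rfl⟩
  rw [← hl] at e2 e3 e4 e5 e6 e7 e8 e9 e10 e11 ⊢
  have hl0 : 0 < l := by linarith
  obtain ⟨G, hG⟩ : ∃ G, G = La * l := ⟨_, rfl⟩
  rw [← hG] at e6 e7 e10 e11
  have hG0 : 0 < G := by linarith
  have hN0 : (0 : ℝ) < N := by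
    have : (4 : ℝ) ≤ N := by exact_mod_cast e1
    linarith
  have hsq1 : 1 ≤ Nat.sqrt N := Nat.le_sqrt.2 (by omega)
  rcases lt_or_ge (G ^ 2 / (2 * 10 ^ 6 * M ^ 2)) K with hKG | hKG
  · exact (e11.trans hKG.le)
  have hW0 : 0 < Real.sqrt G := Real.sqrt_pos.2 hG0
  -- the bad sets
  obtain ⟨sc, hsc⟩ : ∃ sc : ℕ → ℕ → ℝ, sc = fun t j => 2 * rw' M (Real.sqrt G) t j := ⟨_, rfl⟩
  obtain ⟨bad, hbad⟩ : ∃ bad : ℕ → Set (Vec 2), bad = fun t => if 1 ≤ t then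
    BadS R (fun h : Vec 2 => A ρ β h t) (sc t) (fun j => M * (2 ^ j / 4) * (t * sc t j ^ 2))
    else ∅ := ⟨_, rfl⟩
  have hbadP : ∀ t, MeasurableSet (bad t) ∧ volume (bad t) ≤ q := by
    intro t
    rw [hbad]
    by_cases ht : 1 ≤ t
    · simp only [ht, if_true]
      have htR : (0 : ℝ) < t := by exact_mod_cast ht
      exact hbadA t ht (sc t) (fun j => by
        rw [hsc]
        unfold rw'
        have := Real.sqrt_pos.2 htR
        positivity)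
    · simp [ht]
  obtain ⟨I, hI⟩ : ∃ I, I = Finset.Icc (Nat.sqrt N) N := ⟨_, rfl⟩
  have hqT : q < ENNReal.ofReal (ca / 8) * volume (Gs ρ β θ η B i) :=
    lt_of_lt_of_le hq (mul_le_mul_right hT.le _)
  obtain ⟨h, hhT, hwt⟩ := wtsG81 (volume : Measure (Vec 2)) (Gs ρ β θ η B i) bad
    (fun t => (hbadP t).1) q (fun t => (hbadP t).2) (by positivity : (0 : ℝ) < ca / 8) hqT
    I (fun t => 1 / (t : ℝ)) (fun t _ => by positivity)
  obtain ⟨hhB, hdens, k, y, u, hk1, hki, hu1, hui, hLk, hD⟩ := hhT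
  have hharm : ∑ t ∈ I, (1 / (t : ℝ)) ≤ 2 * l := by
    rw [hI, hl]
    exact harm93 (by omega) (by rw [← hl]; exact e2)
  have hw1 : ∑ t ∈ I.filter (fun t => h ∈ bad t), (1 / (t : ℝ)) ≤ ca / 4 * l := by
    refine hwt.trans ?_
    have := mul_le_mul_of_nonneg_left hharm (by positivity : (0 : ℝ) ≤ ca / 8)
    linarith
  -- the number of lucky segments
  have hu0 : 0 < u := by linarith
  have hbl : 0 < b * l := mul_pos hb hl0
  obtain ⟨r, hr⟩ : ∃ r : ℕ, r = ⌈b * l / u⌉₊ := ⟨_, rfl⟩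
  have hr1 : b * l ≤ r * u := by
    have h1 := Nat.le_ceil (b * l / u)
    rwa [← hr, div_le_iff₀ hu0] at h1
  have hr2 : r * u ≤ 2 * (b * l) := by
    have h1 := (Nat.ceil_lt_add_one (show (0 : ℝ) ≤ b * l / u by positivity)).le
    rw [← hr] at h1
    have h2 : (r : ℝ) * u ≤ (b * l / u + 1) * u := mul_le_mul_of_nonneg_right h1 hu0.le
    have h3 : (b * l / u + 1) * u = b * l + u := by field_simp
    rw [h3] at h2
    linarith
  have hr0 : 1 ≤ r := by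
    rw [hr, Nat.one_le_ceil_iff]
    positivity
  have hrk : ((r * k : ℕ) : ℝ) ≤ 2 * b * l * i := by
    push_cast
    have h1 : (r : ℝ) ≤ r * u := le_mul_of_one_le_right (Nat.cast_nonneg r) hu1
    have h2 : (r : ℝ) ≤ 2 * (b * l) := h1.trans hr2
    calc (r : ℝ) * k ≤ 2 * (b * l) * i := mul_le_mul h2 hki (Nat.cast_nonneg k) (by positivity)
      _ = 2 * b * l * i := by ring
  obtain ⟨n, hn1, hn2, E1, E2, E3, hE2, hE3, w1, w2, w3, hgap⟩ := gapS93 (N := N) (Kv := K)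
    (Γ := 4 * G) hρ hc₀ hk1 hu1 hr0 (by omega) (by positivity) hη hLk hD
    (e4.trans (mul_le_mul_of_nonneg_left hr1 hη.le)) (hrk.trans e8) (hK h hhB) (by
      have h1 : (1 + 8 * La / c₀) * l ≤ 3 / 4 * b * l := mul_le_mul_of_nonneg_right hbb hl0.le
      have h2 : (1 + 8 * La / c₀) * l = l + 2 * (4 * (La * l)) / c₀ := by
        field_simp
        ring
      rw [h2, ← hG] at h1
      linarith)
  rw [← hI] at hE2 hE3 w1 hgap
  have hn0 : 1 ≤ n := by omega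
  have hw2 : ∑ t ∈ E1, (1 / (t : ℝ)) ≤ ca / 8 * l := by
    have h1 := mul_le_mul_of_nonneg_left hharm (by positivity : (0 : ℝ) ≤ 24 * η)
    have h2 := mul_le_mul_of_nonneg_right hη2 hl0.le
    linarith
  have hw3 : ∑ t ∈ E2, (1 / (t : ℝ)) ≤ ca / 16 * l := by
    rw [hI] at hE2
    exact wt93 hE2 hsq1 (w2.trans (hrk.trans e9))
  have hw4 : ∑ t ∈ E3, (1 / (t : ℝ)) ≤ ca / 16 * l := by
    rw [hI] at hE3
    refine wt93 hE3 hsq1 ?_
    have hq0 : 0 < (N : ℝ) ^ (-(1 / 8 : ℝ)) * (c₀ / 2) := by positivity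
    have h1 : (N : ℝ) ^ (-(1 / 8 : ℝ)) ≤ Real.exp (-(θ * (r * u))) := by
      rw [Real.rpow_def_of_pos hN0, Real.exp_le_exp, ← hl]
      have h2 : θ * (r * u) ≤ θ * (2 * (b * l)) := mul_le_mul_of_nonneg_left hr2 hθ.le
      have h3 : 16 * b * θ * l ≤ 1 * l := mul_le_mul_of_nonneg_right hθb hl0.le
      linarith
    have h2 : (E3.card : ℝ) * ((N : ℝ) ^ (-(1 / 8 : ℝ)) * (c₀ / 2)) ≤ ((r * k : ℕ) : ℝ) * K :=
      (mul_le_mul_of_nonneg_left (mul_le_mul_of_nonneg_right h1 (by positivity))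
        (Nat.cast_nonneg _)).trans w3
    have h3 : K ≤ G ^ 2 := by
      refine hKG.trans ?_
      rw [div_le_iff₀ (by positivity)]
      have h4 : 1 ≤ M ^ 2 := one_le_pow₀ hM1
      have h5 : G ^ 2 * 1 ≤ G ^ 2 * (2 * 10 ^ 6 * M ^ 2) :=
        mul_le_mul_of_nonneg_left (by linarith) (sq_nonneg _)
      linarith
    have h4 : ((r * k : ℕ) : ℝ) * K ≤ 2 * b * l * i * G ^ 2 :=
      mul_le_mul hrk h3 hK0.le (by positivity)
    have h5 := h2.trans (h4.trans e10)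
    exact le_of_mul_le_mul_right h5 hq0
  -- localised times
  obtain ⟨P, hP⟩ : ∃ P : ℕ → Prop, P = fun t => c₀ ≤ (law 2 ρ).real
    {η | ∃ y ∈ boxF 2 t, c₀ * Z β h η t ≤ PP β h η t y} := ⟨_, rfl⟩
  have hw5 : ca * l ≤ ∑ t ∈ I.filter P, (1 / (t : ℝ)) := by
    rw [hI, hl]
    refine hab P fun m => ?_
    rw [hP]
    exact hloc h hhB m
  obtain ⟨J, hJ⟩ : ∃ J, J = I.filter (fun t => P t ∧ ¬ (h ∈ bad t) ∧ t ∉ E1 ∧ t ∉ E2 ∧
    t ∉ E3) := ⟨_, rfl⟩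
  have hwJ : ca / 2 * l ≤ ∑ t ∈ J, (1 / (t : ℝ)) := by
    have hw : ∀ t : ℕ, (0 : ℝ) ≤ 1 / (t : ℝ) := fun t => by positivity
    have h1 := su93 (w := fun t => 1 / (t : ℝ)) (A := I.filter P)
      (B := J ∪ I.filter (fun t => h ∈ bad t)) (C := E1 ∪ (E2 ∪ E3)) hw (by
        intro t ht
        rw [Finset.mem_filter] at ht
        rw [Finset.mem_union, Finset.mem_union, Finset.mem_union, Finset.mem_union, hJ,
          Finset.mem_filter, Finset.mem_filter]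
        tauto)
    have h2 := su93 (w := fun t => 1 / (t : ℝ)) (A := J ∪ I.filter (fun t => h ∈ bad t))
      (B := J) (C := I.filter (fun t => h ∈ bad t)) hw le_rfl
    have h3 := su93 (w := fun t => 1 / (t : ℝ)) (A := E1 ∪ (E2 ∪ E3))
      (B := E1) (C := E2 ∪ E3) hw le_rfl
    have h4 := su93 (w := fun t => 1 / (t : ℝ)) (A := E2 ∪ E3) (B := E2) (C := E3) hw le_rfl
    linarith
  -- one time
  have hone : ∀ t ∈ J, G / (10 ^ 9 * M ^ 2 * K) * (1 / (t : ℝ)) ≤ St ρ β h n t := by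
    intro t ht
    rw [hJ, Finset.mem_filter] at ht
    obtain ⟨htI, hPt, hbt, ht1, ht2, ht3⟩ := ht
    have htI' := htI
    rw [hI, Finset.mem_Icc] at htI'
    have ht0 : 1 ≤ t := hsq1.trans htI'.1
    have htR : (0 : ℝ) < t := by exact_mod_cast ht0
    have hW : Real.sqrt G ≤ δ ^ 4 * Real.sqrt t := by
      have h1 : G ≤ δ ^ 8 * t := e7.trans (mul_le_mul_of_nonneg_left
        (by exact_mod_cast htI'.1) (by positivity))
      have h2 : δ ^ 8 * (t : ℝ) = (δ ^ 4 * Real.sqrt t) ^ 2 := by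
        rw [mul_pow, Real.sq_sqrt htR.le]
        ring
      rw [h2] at h1
      exact (Real.sqrt_le_sqrt h1).trans (le_of_eq (Real.sqrt_sq (by positivity)))
    have hdens' : ∀ r : ℝ, 0 < r → r ≤ δ → ∀ (j : Fin 2) (s : ℝ), (s = 1 ∨ s = -1) →
        ∃ g : Vec 2, ‖g - h - (s * r) • ej j‖ ≤ r / 9 ∧ Va ρ β g t ≤ K := by
      intro r hr hrδ j s hs
      have hnorm : ‖(s * r) • (ej j : Vec 2)‖ = r := by
        rw [norm_smul, norm_ej94, mul_one, Real.norm_eq_abs]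
        rcases hs with rfl | rfl
        · rw [one_mul, abs_of_pos hr]
        · rw [neg_one_mul, abs_neg, abs_of_pos hr]
      have hne : (s * r) • (ej j : Vec 2) ≠ 0 := by
        rw [← norm_pos_iff, hnorm]
        exact hr
      obtain ⟨y, hy, hy2⟩ := hdens _ hne (by rw [hnorm]; exact hrδ.trans hδi)
      rw [hnorm] at hy2
      exact ⟨y, by linarith, hK y hy t (by omega)⟩
    have hsd : ∀ k : ℕ, rw' M (Real.sqrt G) t k ≤ δ → ∀ j : Fin 2,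
        A ρ β (h + (2 * rw' M (Real.sqrt G) t k) • ej j) t +
          A ρ β (h - (2 * rw' M (Real.sqrt G) t k) • ej j) t - 2 * A ρ β h t ≤
          M * 2 ^ k * t * rw' M (Real.sqrt G) t k ^ 2 := by
      intro k _ j
      by_contra hcon
      push Not at hcon
      apply hbt
      rw [hbad]
      simp only [ht0, if_true]
      refine ⟨hR hhB, k, j, ?_⟩
      rw [hsc]
      simp only
      refine lt_of_le_of_lt (le_of_eq ?_) hcon
      ring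
    have hgp : 4 * G ≤ A ρ β h n - A ρ β h t - A ρ β h (n - t) := by
      rw [hP] at hPt
      exact hgap t htI ht1 ht2 ht3 hPt
    have h1 := lowG93 hρ hL hM1 hK1 hδ hδ1 ht0 (by omega) e6 hW hKG (hK h hhB n hn2.le)
      (hK h hhB (n - t) (by omega)) (hK h hhB t (by omega)) hdens' hsd hgp
    rw [div_mul_div_comm, mul_one, div_le_iff₀ (by positivity)]
    rw [div_le_iff₀ (by positivity)] at h1
    calc G ≤ K * t * St ρ β h n t * (10 ^ 9 * M ^ 2) := h1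
      _ = St ρ β h n t * (10 ^ 9 * M ^ 2 * K * t) := by ring
  -- Newman-Piza
  have hNP : ∑ t ∈ Finset.Icc 1 n, St ρ β h n t ≤ CB * K :=
    (hNPB h n).trans (mul_le_mul_of_nonneg_left (hK h hhB n hn2.le) hCB)
  have hJsub : J ⊆ Finset.Icc 1 n := by
    intro t ht
    rw [hJ, Finset.mem_filter, hI, Finset.mem_Icc] at ht
    rw [Finset.mem_Icc]
    omega
  have hsumJ : G / (10 ^ 9 * M ^ 2 * K) * ∑ t ∈ J, (1 / (t : ℝ)) ≤ CB * K := by
    rw [Finset.mul_sum]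
    refine (Finset.sum_le_sum hone).trans ?_
    refine (Finset.sum_le_sum_of_subset_of_nonneg hJsub fun t _ _ => ?_).trans hNP
    unfold St
    exact integral_nonneg fun η => Finset.sum_nonneg fun y _ => sq_nonneg _
  have h1 : G / (10 ^ 9 * M ^ 2 * K) * (ca / 2 * l) ≤ CB * K :=
    (mul_le_mul_of_nonneg_left hwJ (by positivity)).trans hsumJ
  have h2 : (2 * L1 * l) ^ 2 ≤ K ^ 2 := by
    rw [div_mul_eq_mul_div, div_le_iff₀ (by positivity), hG] at h1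
    have h3 := mul_le_mul_of_nonneg_right hfin (sq_nonneg l)
    have h4 : (2 * L1 * l) ^ 2 * (2 * 10 ^ 9 * M ^ 2 * (CB + 1)) ≤
        K ^ 2 * (2 * 10 ^ 9 * M ^ 2 * (CB + 1)) := by
      have h5 : (2 * L1 * l) ^ 2 * (2 * 10 ^ 9 * M ^ 2 * (CB + 1)) =
        (2 * L1) ^ 2 * (2 * 10 ^ 9 * M ^ 2 * (CB + 1)) * l ^ 2 := by ring
      have h6 : La * ca * l ^ 2 = 2 * (La * l * (ca / 2 * l)) := by ring
      have h7 : K ^ 2 * (2 * 10 ^ 9 * M ^ 2 * (CB + 1)) =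
        2 * (CB * K * (10 ^ 9 * M ^ 2 * K)) + 2 * (10 ^ 9 * M ^ 2 * K ^ 2) := by ring
      have h8 : 0 ≤ 2 * (10 ^ 9 * M ^ 2 * K ^ 2) := by positivity
      rw [h5, h7]
      rw [h6] at h3
      linarith
    exact le_of_mul_le_mul_right h4 (by positivity)
  exact le_of_sq_le_sq h2 hK0.le

end Pool.Agent.W_7d29a1_R34
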